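import Mathlib
import Pool.Agent.Work.MP_c4bd3e_lc.Cover

set_option autoImplicit false

/-!
# Module CtblRank (size S-M): a maximal subfield avoiding `y` has countable codegree

`MPc4bd3e.exists_countable_ext hF` gives `x : ℕ → ℝ` such that every real lies in some `Subfield.closure (insert (x n) F)`, which is
`(F⟮x n⟯).toSubfield` (`MPc4bd3e.closure_insert_eq`); `ℝ` is algebraic over `F` (`MPc4bd3e.isAlgebraic_of_maximal`), so `F⟮x n⟯` is
finite dimensional over `F` (`IntermediateField.adjoin.finiteDimensional`), spanned by a finite set `B n`. The countable set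
`⋃ n, B n` spans `ℝ` over `F`, so the rank is countable (`rank_span_le`, `rank_top`, `Cardinal.mk_le_aleph0`).
-/

namespace C4N

open IntermediateField

theorem rank_le_of_maximal {F : Subfield ℝ} {y : ℝ}
    (hF : Maximal (fun K : Subfield ℝ => y ∉ K) F) : Module.rank F ℝ ≤ Cardinal.aleph0 := by
  obtain ⟨x, hx⟩ := MPc4bd3e.exists_countable_ext hF
  have halg := MPc4bd3e.isAlgebraic_of_maximal hF
  have hfg : ∀ n, ∃ B : Finset ℝ, Submodule.span F (B : Set ℝ) =
      Subalgebra.toSubmodule (F⟮x n⟯).toSubalgebra := by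
    intro n
    have h1 : FiniteDimensional F F⟮x n⟯ :=
      IntermediateField.adjoin.finiteDimensional (halg.isAlgebraic (x n)).isIntegral
    exact (Module.Finite.iff_fg (N := Subalgebra.toSubmodule (F⟮x n⟯).toSubalgebra)).1 h1
  choose B hB using hfg
  have hS : (⋃ n, (B n : Set ℝ)).Countable := Set.countable_iUnion fun n => (B n).countable_toSet
  have htop : Submodule.span F (⋃ n, (B n : Set ℝ)) = ⊤ := by
    rw [eq_top_iff]
    intro z _
    obtain ⟨n, hn⟩ := hx z
    rw [MPc4bd3e.closure_insert_eq] at hn
    have h2 : z ∈ Submodule.span F (B n : Set ℝ) := by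
      rw [hB n]
      exact hn
    exact Submodule.span_mono (Set.subset_iUnion (fun n => (B n : Set ℝ)) n) h2
  have h3 := rank_span_le (R := F) (⋃ n, (B n : Set ℝ))
  rw [htop, rank_top] at h3
  exact h3.trans hS.le_aleph0

end C4N
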