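import Mathlib

set_option autoImplicit false

/-!
# MP_c4bd3e_lc, negative half: definitions (fixed, do not change)

FINITE PART. `R` is a large integer (the scale is `1 / R`), finite sets of integers in `[R / 2, R]`
stand for finite sets of reals in `[1/2, 1]` (`x ↔ x / R`).

* `SS R` : the integers `i` with `R / 2 ≤ i ≤ R`.
* `dil t A` : the dilated set `{⌊t a⌋ : a ∈ A}`.
* `Wt R p` : `p` is a probability distribution on `SS R`.
* `Col R p m` : the probability that two independent samples have distance at most `m`.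
* `qq R t f g w` : `∑ f x * g y` over `x, y ∈ SS R` with `x + ⌊t y⌋ = w`; `WW R t f g = ∑ w, (qq w) ^ 2`.
* `en t A` : the number of `(x, x', y, y') ∈ A ^ 4` with `x + ⌊t y⌋ = x' + ⌊t y'⌋`.
* `AA R K X p` : the integers whose weight is `1 / X` up to the factor `K ^ 5`.
* `Pre` : the output of the Balog-Szemeredi-Gowers step.
* `Nb m T` : the number of blocks `[j m, (j + 1) m)` that meet `T`.
* `AGrp` : an approximate group with a nonconcentration property.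
* `Good H L τ` : `dil τ H` is covered by `L` translates of `H`.
* `VV l u v T` : the set of the integers `⌊(u x + v y) / l⌋`, `x, y ∈ T`.
* `Adm`, `Rg` : the output of the first half, `T / l` generates an approximate ring of dimension `≤ D`.
-/

namespace C4N

open Finset
open scoped Pointwise

/-- the integers between `R / 2` and `R` -/
noncomputable def SS (R : ℕ) : Finset ℤ := (Finset.Icc 0 (R : ℤ)).filter fun i => (R : ℤ) ≤ 2 * i

/-- dilation of a finite set of integers by a real number, with rounding -/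
noncomputable def dil (t : ℝ) (A : Finset ℤ) : Finset ℤ := A.image fun j : ℤ => ⌊t * (j : ℝ)⌋

/-- a probability distribution on `SS R` -/
structure Wt (R : ℕ) (p : ℤ → ℝ) : Prop where
  nonneg : ∀ i, 0 ≤ p i
  supp : ∀ i, p i ≠ 0 → i ∈ SS R
  sum : ∑ i ∈ SS R, p i = 1

/-- the probability that two independent samples have distance at most `m` -/
noncomputable def Col (R : ℕ) (p : ℤ → ℝ) (m : ℕ) : ℝ :=
  ∑ x ∈ (SS R ×ˢ SS R).filter (fun x => |x.1 - x.2| ≤ (m : ℤ)), p x.1 * p x.2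

/-- the distribution of `x + ⌊t y⌋` -/
noncomputable def qq (R : ℕ) (t : ℝ) (f g : ℤ → ℝ) (w : ℤ) : ℝ :=
  ∑ x ∈ (SS R ×ˢ SS R).filter (fun x => x.1 + ⌊t * (x.2 : ℝ)⌋ = w), f x.1 * g x.2

/-- the square of its `L²` norm -/
noncomputable def WW (R : ℕ) (t : ℝ) (f g : ℤ → ℝ) : ℝ :=
  ∑ w ∈ Finset.Icc 0 (2 * (R : ℤ)), qq R t f g w ^ 2

/-- the energy of `A` and its dilate -/
noncomputable def en (t : ℝ) (A : Finset ℤ) : ℕ :=
  (((A ×ˢ A) ×ˢ (A ×ˢ A)).filter (fun x : (ℤ × ℤ) × (ℤ × ℤ) =>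
    x.1.1 + ⌊t * (x.2.1 : ℝ)⌋ = x.1.2 + ⌊t * (x.2.2 : ℝ)⌋)).card

/-- the integers with a weight of size about `1 / X` -/
noncomputable def AA (R : ℕ) (K X : ℝ) (p : ℤ → ℝ) : Finset ℤ :=
  (SS R).filter fun i => 1 / (K ^ 5 * X) ≤ p i ∧ p i ≤ K ^ 5 / X

/-- the number of blocks of length `m` that meet `T` -/
def Nb (m : ℕ) (T : Finset ℤ) : ℕ := (T.image fun x => x / (m : ℤ)).card

/-- The output of the Balog-Szemeredi-Gowers step: `A` has at most `N` elements, of weight at least `1 / N`; for all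
multipliers `j ∈ T` (a set of weight at least `1 / L`) there are large subsets `A' j`, `B' j` of `A` for which
`A' j + (j / R) * B' j` is small, and these subsets have large intersections with `A' l`, `B' l` (`l ∈ T`). -/
structure Pre (R : ℕ) (N L : ℝ) (p : ℤ → ℝ) (A : Finset ℤ) (l : ℤ) (T : Finset ℤ)
    (A' B' : ℤ → Finset ℤ) : Prop where
  A_sub : A ⊆ SS R
  A_card : (A.card : ℝ) ≤ N
  A_ge : ∀ i ∈ A, 1 / N ≤ p i
  T_sub : T ⊆ SS R
  l_mem : l ∈ T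
  mass : 1 / L ≤ ∑ i ∈ T, p i
  subA : ∀ j ∈ T, A' j ⊆ A
  subB : ∀ j ∈ T, B' j ⊆ A
  doub : ∀ j ∈ T, ((A' j + dil ((j : ℝ) / R) (B' j)).card : ℝ) ≤ L * N
  interA : ∀ j ∈ T, N / L ≤ ((A' j ∩ A' l).card : ℝ)
  interB : ∀ j ∈ T, N / L ≤ ((B' j ∩ B' l).card : ℝ)

/-- an approximate group of size about `N`, with constants bounded by `L` -/
structure AGrp (R : ℕ) (N L D : ℝ) (H : Finset ℤ) : Prop where
  zero : (0 : ℤ) ∈ H
  neg : ∀ x ∈ H, -x ∈ H
  le : (H.card : ℝ) ≤ L * N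
  ge : N ≤ L * (H.card : ℝ)
  dbl : ∃ Y : Finset ℤ, (Y.card : ℝ) ≤ L ∧ H + H ⊆ Y + H
  ncon : ∀ (a : ℤ) (m : ℕ), 1 ≤ m →
    ((H.filter (fun x => a ≤ x ∧ x < a + m)).card : ℝ) ≤ L * N * ((m : ℝ) / R) ^ D

/-- `τ` is a good multiplier of `H` -/
def Good (H : Finset ℤ) (L τ : ℝ) : Prop :=
  ∃ X : Finset ℤ, (X.card : ℝ) ≤ L ∧ dil τ H ⊆ X + H

/-- the integers `⌊(u x + v y) / l⌋` -/
noncomputable def VV (l u v : ℤ) (T : Finset ℤ) : Finset ℤ :=
  (T ×ˢ T).image fun x => ⌊((u : ℝ) * x.1 + (v : ℝ) * x.2) / (l : ℝ)⌋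

/-- the pairs of coefficients that occur in the proof -/
def Adm (T : Finset ℤ) (u v : ℤ) : Prop :=
  ∃ l1 ∈ T, ∃ l2 ∈ T, ∃ l3 ∈ T, ∃ l4 ∈ T,
    (u = l3 - l4 ∧ v = l1 - l2) ∨ (u = 2 * (l3 - l4) ∧ v = l1 - l2) ∨
      (u = 2 * (l3 - l4) ∧ v = (l1 - l2) + (l3 - l4))

/-- `T / l` generates an approximate ring of dimension at most `D`, and `T` has dimension at least `D` at all
scales -/
structure Rg (R : ℕ) (D κ M : ℝ) (l : ℤ) (T : Finset ℤ) : Prop where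
  Rpos : 1 ≤ R
  l_mem : l ∈ SS R
  sub : T ⊆ SS R
  kpos : 0 < κ
  kle : κ ≤ 1
  lb : ∀ m : ℕ, 1 ≤ m → κ * ((R : ℝ) / m) ^ D ≤ (Nb m T : ℝ)
  ub0 : ((T + T).card : ℝ) ≤ M
  ub : ∀ u v : ℤ, Adm T u v → ((T + VV l u v T).card : ℝ) ≤ M

theorem mem_SS {R : ℕ} {i : ℤ} : i ∈ SS R ↔ (0 ≤ i ∧ i ≤ R) ∧ (R : ℤ) ≤ 2 * i := by
  rw [SS, Finset.mem_filter, Finset.mem_Icc]

theorem mem_dil {t : ℝ} {A : Finset ℤ} {w : ℤ} : w ∈ dil t A ↔ ∃ a ∈ A, ⌊t * (a : ℝ)⌋ = w := by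
  rw [dil, Finset.mem_image]

theorem mem_VV {l u v : ℤ} {T : Finset ℤ} {w : ℤ} :
    w ∈ VV l u v T ↔ ∃ x ∈ T, ∃ y ∈ T, ⌊((u : ℝ) * x + (v : ℝ) * y) / (l : ℝ)⌋ = w := by
  rw [VV, Finset.mem_image]
  constructor
  · rintro ⟨x, hx, h⟩
    rw [Finset.mem_product] at hx
    exact ⟨x.1, hx.1, x.2, hx.2, h⟩
  · rintro ⟨x, hx, y, hy, h⟩
    exact ⟨(x, y), Finset.mem_product.2 ⟨hx, hy⟩, h⟩

end C4N
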