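import Mathlib

set_option autoImplicit false

/-!
# MP_c4bd3e_lc, negative half: definitions, measure part (fixed, do not change)

* `Extends A` : some countably additive extension of Lebesgue measure measures all sets `A n`.
* `Full A μ` : every measurable set that contains `A` has full measure.
* `Dm d μ` : `P (|X - X'| ≤ δ) ≤ C δ ^ d` for all `δ ∈ (0, 1]`, for independent samples `X, X'` of `μ`.
* `FLaw F μ` : `μ` is a probability measure with bounded support for which `F` is `Full`.
-/

namespace C4N

open MeasureTheory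

/-- some countably additive extension of Lebesgue measure measures all sets `A n` -/
def Extends (A : ℕ → Set ℝ) : Prop :=
  ∃ (m : MeasurableSpace ℝ) (μ : @Measure ℝ m), borel ℝ ≤ m ∧
    (∀ n, MeasurableSet[m] (A n)) ∧ ∀ B, MeasurableSet[borel ℝ] B → μ B = volume B

/-- every measurable set that contains `A` has full measure -/
def Full {Ω : Type*} [MeasurableSpace Ω] (A : Set Ω) (μ : Measure Ω) : Prop :=
  ∀ N : Set Ω, MeasurableSet N → A ⊆ N → μ Nᶜ = 0

/-- `L²` dimension at least `d` at all scales -/
def Dm (d : ℝ) (μ : Measure ℝ) : Prop :=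
  ∃ C : ℝ, ∀ δ : ℝ, 0 < δ → δ ≤ 1 →
    ((μ.prod μ) {x : ℝ × ℝ | |x.1 - x.2| ≤ δ}).toReal ≤ C * δ ^ d

/-- bounded probability measures on `ℝ` for which the field `F` is full -/
structure FLaw (F : Subfield ℝ) (μ : Measure ℝ) : Prop where
  prob : IsProbabilityMeasure μ
  bdd : ∃ M : ℝ, ∀ᵐ x ∂μ, |x| ≤ M
  full : Full (F : Set ℝ) μ

end C4N
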