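import Mathlib
import Pool.Agent.Work.MP_c4bd3e_lc.N.MDefs
import Pool.Agent.Work.MP_c4bd3e_lc.N.Defs

set_option autoImplicit false

/-!
# MP_c4bd3e_lc, continuous half: definitions (fixed, do not change)

* `PD μ δ` : the probability that two independent samples of `μ` have distance at most `δ`
  (`Dm d μ` says `PD μ δ ≤ C δ ^ d` for `0 < δ ≤ 1`, by definition: `dm_iff`).
* `comb μ` : the law of `X₁ + X₂ X₃`; `prodLaw μ` : the law of `X₁ X₂`; `four μ` : the law of the sum of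
  four independent copies of `X₁ X₂`.
* `wt μ` : the measure with density `exp (x ^ 2 / 2)` with respect to `μ`.
* `pw μ n i` : the weight of the grid interval `[i / 2 ^ n, (i + 1) / 2 ^ n)`.
* `S3 R`, `w3 R a`, `P3 p a` : for the triples `a = (i, l, k)` of elements of `SS R`: the integer `i + ⌊(l / R) k⌋` and the
  weight `p i * (p l * p k)`.
* `hh x` : the sum of the scalar products `x i ⬝ᵥ x j`, `i < j`.
* `mix ω x y` : the point with coordinates `x i` (if `ω i`) or `y i`.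
* `Piece` : the set of the points whose coordinates outside `s` vanish and are bounded by `M` on `s`.
-/

namespace C4N

open MeasureTheory ProbabilityTheory

/-- the probability that two independent samples have distance at most `δ` -/
noncomputable def PD (μ : Measure ℝ) (δ : ℝ) : ℝ :=
  ((μ.prod μ) {x : ℝ × ℝ | |x.1 - x.2| ≤ δ}).toReal

theorem dm_iff {d : ℝ} {μ : Measure ℝ} :
    Dm d μ ↔ ∃ C : ℝ, ∀ δ : ℝ, 0 < δ → δ ≤ 1 → PD μ δ ≤ C * δ ^ d := Iff.rfl

/-- the law of `X₁ + X₂ X₃` -/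
noncomputable def comb (μ : Measure ℝ) : Measure ℝ :=
  (μ.prod (μ.prod μ)).map fun x : ℝ × ℝ × ℝ => x.1 + x.2.1 * x.2.2

/-- the law of `X₁ X₂` -/
noncomputable def prodLaw (μ : Measure ℝ) : Measure ℝ :=
  (μ.prod μ).map fun x : ℝ × ℝ => x.1 * x.2

/-- the law of the sum of four independent copies of `X₁ X₂` -/
noncomputable def four (μ : Measure ℝ) : Measure ℝ :=
  ((prodLaw μ).conv (prodLaw μ)).conv ((prodLaw μ).conv (prodLaw μ))

/-- the measure with density `exp (x ^ 2 / 2)` with respect to `μ` -/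
noncomputable def wt (μ : Measure ℝ) : Measure ℝ :=
  μ.withDensity fun x => ENNReal.ofReal (Real.exp (x ^ 2 / 2))

/-- the weight of a grid interval -/
noncomputable def pw (μ : Measure ℝ) (n : ℕ) (i : ℤ) : ℝ :=
  (μ (Set.Ico ((i : ℝ) / 2 ^ n) (((i : ℝ) + 1) / 2 ^ n))).toReal

/-- the triples of elements of `SS R` -/
noncomputable def S3 (R : ℕ) : Finset (ℤ × ℤ × ℤ) := SS R ×ˢ (SS R ×ˢ SS R)

/-- the integer `i + ⌊(l / R) k⌋` for `a = (i, l, k)` -/
noncomputable def w3 (R : ℕ) (a : ℤ × ℤ × ℤ) : ℤ := a.1 + ⌊((a.2.1 : ℝ) / R) * (a.2.2 : ℝ)⌋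

/-- the weight of a triple -/
noncomputable def P3 (p : ℤ → ℝ) (a : ℤ × ℤ × ℤ) : ℝ := p a.1 * (p a.2.1 * p a.2.2)

/-- the sum of the scalar products `x i ⬝ᵥ x j`, `i < j` -/
noncomputable def hh {m : ℕ} {s : Type} [Fintype s] (x : Fin m → s → ℝ) : ℝ :=
  ∑ i : Fin m, ∑ j : Fin m, if i < j then x i ⬝ᵥ x j else 0

/-- the point with coordinates `x i` (if `ω i`) or `y i` -/
def mix {m : ℕ} {Ω : Type} (ω : Fin m → Bool) (x y : Fin m → Ω) : Fin m → Ω :=
  fun i => if ω i then x i else y i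

/-- the points `ω` with `φ ω ∈ [0, 1]`, all coordinates outside `s` zero and all coordinates bounded by `M` -/
def Piece {Ω ι : Type} (φ : Ω → ℝ) (c : ι → Ω → ℝ) (s : Finset ι) (M : ℕ) : Set Ω :=
  {ω | φ ω ∈ Set.Icc (0 : ℝ) 1 ∧ (∀ j, j ∉ s → c j ω = 0) ∧ ∀ j, |c j ω| ≤ M}

end C4N
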