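import Mathlib
import Pool.Agent.Work.MP_c4bd3e_lc.N.MDefs
import Pool.Agent.Work.MP_c4bd3e_lc.N.CDefs

set_option autoImplicit false

/-!
# Module ExtP (size S-M): a piece of positive measure

`Piece φ c s M` is measurable (`ι` is countable). The countably many sets `Piece φ c s M` (`Finset ι × ℕ` is countable) cover
`φ ⁻¹' Icc 0 1`: for `ω` there take `s = (hfin ω).toFinset` and `M ≥ ∑ j ∈ s, |c j ω|`. If all of them were null, so would be
`φ ⁻¹' Icc 0 1` (`measure_iUnion_null`).
-/

namespace C4N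

open MeasureTheory ProbabilityTheory

theorem exists_piece {Ω ι : Type} [MeasurableSpace Ω] [Countable ι] {μ : Measure Ω} {φ : Ω → ℝ}
    {c : ι → Ω → ℝ} (hφ : Measurable φ) (hc : ∀ j, Measurable (c j))
    (hμ : μ (φ ⁻¹' Set.Icc 0 1) ≠ 0) (hfin : ∀ ω, {j | c j ω ≠ 0}.Finite) :
    ∃ (s : Finset ι) (M : ℕ), MeasurableSet (Piece φ c s M) ∧ μ (Piece φ c s M) ≠ 0 := by
  have hm : ∀ (s : Finset ι) (M : ℕ), MeasurableSet (Piece φ c s M) := by
    intro s M
    have e : Piece φ c s M = φ ⁻¹' Set.Icc 0 1 ∩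
        ((⋂ j, {ω | j ∉ s → c j ω = 0}) ∩ ⋂ j, {ω | |c j ω| ≤ M}) := by
      ext ω
      simp only [Piece, Set.mem_setOf_eq, Set.mem_inter_iff, Set.mem_preimage, Set.mem_iInter]
    rw [e]
    refine (hφ measurableSet_Icc).inter ((MeasurableSet.iInter fun j => ?_).inter
      (MeasurableSet.iInter fun j => ?_))
    · by_cases hj : j ∈ s
      · have e2 : {ω | j ∉ s → c j ω = 0} = Set.univ := by
          ext ω
          simp [hj]
        rw [e2]
        exact MeasurableSet.univ
      · have e2 : {ω | j ∉ s → c j ω = 0} = c j ⁻¹' {0} := by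
          ext ω
          simp [hj]
        rw [e2]
        exact hc j (measurableSet_singleton 0)
    · exact measurableSet_le (hc j).abs measurable_const
  by_contra hno
  have hno' : ∀ (s : Finset ι) (M : ℕ), μ (Piece φ c s M) = 0 := by
    intro s M
    by_contra h
    exact hno ⟨s, M, hm s M, h⟩
  apply hμ
  have hcov : φ ⁻¹' Set.Icc 0 1 ⊆ ⋃ p : Finset ι × ℕ, Piece φ c p.1 p.2 := by
    intro ω hω
    obtain ⟨M, hM⟩ := exists_nat_ge (∑ j ∈ (hfin ω).toFinset, |c j ω|)
    refine Set.mem_iUnion.2 ⟨((hfin ω).toFinset, M), hω, fun j hj => ?_, fun j => ?_⟩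
    · by_contra h
      exact hj ((hfin ω).mem_toFinset.2 h)
    · by_cases h : c j ω = 0
      · rw [h, abs_zero]
        exact Nat.cast_nonneg M
      · exact (Finset.single_le_sum (f := fun j => |c j ω|) (fun _ _ => abs_nonneg _)
          ((hfin ω).mem_toFinset.2 h)).trans hM
  exact measure_mono_null hcov (measure_iUnion_null fun p => hno' p.1 p.2)

end C4N
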