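import Mathlib
import Pool.Agent.Work.MP_c4bd3e_lc.N.MDefs

set_option autoImplicit false

/-!
# Module FullA (size S-M): the notion `Full`

* `Full.map`: for measurable `N ⊇ B`, `(μ.map f) Nᶜ = μ (f ⁻¹' N)ᶜ` and `f ⁻¹' N ⊇ A`.
* `Full.prod`: let `N ⊇ A ×ˢ B` be measurable, `M = {x | ν ({y | (x, y) ∈ N}ᶜ) = 0}`. `M` is measurable
  (`measurable_measure_prodMk_left`) and contains `A` (for `x ∈ A` the section `{y | (x, y) ∈ N}` is measurable and
  contains `B`), so `μ Mᶜ = 0`, i.e. `ν ((Nᶜ) section) = 0` for almost all `x`, and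
  `(μ.prod ν) Nᶜ = ∫⁻ x, ν (section of Nᶜ) ∂μ = 0` (`Measure.prod_apply`, `Measure.measure_prod_null`).
-/

namespace C4N

open MeasureTheory ProbabilityTheory

variable {Ω Ω' : Type*} [MeasurableSpace Ω] [MeasurableSpace Ω'] {μ ν : Measure Ω} {A B : Set Ω}

theorem Full.mono (h : Full A μ) (hAB : A ⊆ B) : Full B μ :=
  fun N hN hBN => h N hN (hAB.trans hBN)

theorem Full.ac (h : Full A μ) (hν : ν ≪ μ) : Full A ν :=
  fun N hN hAN => hν (h N hN hAN)

theorem Full.map {f : Ω → Ω'} {B' : Set Ω'} (h : Full A μ) (hf : Measurable f)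
    (hfA : ∀ x ∈ A, f x ∈ B') : Full B' (μ.map f) := by
  intro N hN hBN
  rw [Measure.map_apply hf hN.compl, Set.preimage_compl]
  exact h _ (hf hN) fun x hx => hBN (hfA x hx)

theorem Full.prod {ν' : Measure Ω'} [SFinite μ] [SFinite ν'] {B' : Set Ω'} (hA : Full A μ)
    (hB : Full B' ν') : Full (A ×ˢ B') (μ.prod ν') := by
  intro N hN hAN
  have hm : Measurable fun x => ν' (Prod.mk x ⁻¹' Nᶜ) := measurable_measure_prodMk_left hN.compl
  have hM : MeasurableSet ((fun x => ν' (Prod.mk x ⁻¹' Nᶜ)) ⁻¹' {0}) :=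
    hm (measurableSet_singleton 0)
  have h1 : μ ((fun x => ν' (Prod.mk x ⁻¹' Nᶜ)) ⁻¹' {0})ᶜ = 0 := by
    refine hA _ hM fun x hx => ?_
    show ν' (Prod.mk x ⁻¹' Nᶜ) = 0
    rw [Set.preimage_compl]
    exact hB _ (measurable_prodMk_left hN) fun y hy => hAN ⟨hx, hy⟩
  rw [Measure.measure_prod_null hN.compl]
  exact h1

end C4N
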