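import Mathlib
import Pool.Agent.Work.MP_c4bd3e_lc.N.MDefs
import Pool.Agent.Work.MP_c4bd3e_lc.N.CDefs
import Pool.Agent.Work.MP_c4bd3e_lc.N.FullA

set_option autoImplicit false

/-!
# Module ExtR (size M): the law of the coordinates

`E = Piece φ c s M`, `0 < μ E ≤ μ (φ ⁻¹' Icc 0 1) = 1`; `ρ = (μ E)⁻¹ • (μ.restrict E).map c'`, `c' ω = fun j : s => c j ω` (measurable).
* ball bound: for `ω ∈ E` with `c' ω ∈ closedBall x r`: `φ ω = ∑ j ∈ s, c j ω * b j` is at distance at most `r B` from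
  `y = ∑ j : s, x j * b j`, `B = ∑ j ∈ s, |b j|`, so `ρ (closedBall x r) ≤ (μ E)⁻¹ μ (φ ⁻¹' Icc (y - r B) (y + r B)) = (μ E)⁻¹ (2 B r)`:
  `C = 2 B / (μ E).toReal`.
* `∀ᵐ`: on `E` all `|c j ω| ≤ M`.
* `Full`: for measurable `N` that contains the points with all coordinates in `F` the preimage of `Nᶜ` under `c'` is empty.
-/

namespace C4N

open MeasureTheory ProbabilityTheory

theorem exists_law {Ω ι : Type} [MeasurableSpace Ω] {μ : Measure Ω} {φ : Ω → ℝ} {c : ι → Ω → ℝ}
    {b : ι → ℝ} {F : Subfield ℝ} (hφ : Measurable φ) (hc : ∀ j, Measurable (c j))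
    (hμ : ∀ B : Set ℝ, MeasurableSet B → μ (φ ⁻¹' B) = volume B) (hF : ∀ j ω, c j ω ∈ F)
    {s : Finset ι} (hsum : ∀ ω, (∀ j, j ∉ s → c j ω = 0) → φ ω = ∑ j ∈ s, c j ω * b j) {M : ℕ}
    (hm : MeasurableSet (Piece φ c s M)) (h0 : μ (Piece φ c s M) ≠ 0) :
    ∃ ρ : Measure (s → ℝ), IsProbabilityMeasure ρ ∧
      (∃ C : ℝ, 0 ≤ C ∧ ∀ (x : s → ℝ) (r : ℝ), 0 < r →
        ρ (Metric.closedBall x r) ≤ ENNReal.ofReal (C * r)) ∧
      (∀ᵐ x ∂ρ, ∀ j, |x j| ≤ (M : ℝ)) ∧ Full {x : s → ℝ | ∀ j, x j ∈ F} ρ := by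
  classical
  set E := Piece φ c s M with hE
  let c' : Ω → (s → ℝ) := fun ω j => c j ω
  have hc' : Measurable c' := measurable_pi_lambda _ fun j => hc j
  have hsub : E ⊆ φ ⁻¹' Set.Icc (0 : ℝ) 1 := fun ω hω => hω.1
  have h1 : μ E ≤ 1 := by
    calc μ E ≤ μ (φ ⁻¹' Set.Icc (0 : ℝ) 1) := measure_mono hsub
      _ = volume (Set.Icc (0 : ℝ) 1) := hμ _ measurableSet_Icc
      _ = 1 := by rw [Real.volume_Icc]; norm_num
  have hfin : μ E ≠ ⊤ := ne_top_of_le_ne_top ENNReal.one_ne_top h1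
  have hprob : IsProbabilityMeasure (ProbabilityTheory.cond μ E) :=
    ProbabilityTheory.cond_isProbabilityMeasure_of_finite h0 hfin
  have hpos : 0 < (μ E).toReal := ENNReal.toReal_pos h0 hfin
  refine ⟨(ProbabilityTheory.cond μ E).map c', Measure.isProbabilityMeasure_map hc'.aemeasurable,
    ⟨2 * (∑ j : s, |b j|) / (μ E).toReal, ?_, ?_⟩, ?_, ?_⟩
  · exact div_nonneg (mul_nonneg (by norm_num) (Finset.sum_nonneg fun j _ => abs_nonneg _)) hpos.le
  · intro x r hr
    rw [Measure.map_apply hc' Metric.isClosed_closedBall.measurableSet,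
      ProbabilityTheory.cond_apply hm]
    set B := ∑ j : s, |b j| with hB
    set y := ∑ j : s, x j * b j with hy
    have h2 : E ∩ c' ⁻¹' Metric.closedBall x r ⊆ φ ⁻¹' Set.Icc (y - r * B) (y + r * B) := by
      rintro ω ⟨hω1, hω2⟩
      have h3 : ∀ j : s, |c j ω - x j| ≤ r := by
        intro j
        have h4 : dist (c' ω) x ≤ r := hω2
        rw [dist_pi_le_iff hr.le] at h4
        exact h4 j
      have h5 : φ ω - y = ∑ j : s, (c j ω - x j) * b j := by
        rw [hsum ω hω1.2.1, hy, ← Finset.sum_coe_sort s (fun j => c j ω * b j),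
          ← Finset.sum_sub_distrib]
        exact Finset.sum_congr rfl fun j _ => by ring
      have h6 : |φ ω - y| ≤ r * B := by
        rw [h5, hB, Finset.mul_sum]
        refine (Finset.abs_sum_le_sum_abs _ _).trans (Finset.sum_le_sum fun j _ => ?_)
        rw [abs_mul]
        exact mul_le_mul_of_nonneg_right (h3 j) (abs_nonneg _)
      rw [abs_le] at h6
      exact ⟨by linarith [h6.1], by linarith [h6.2]⟩
    have h7 : μ (E ∩ c' ⁻¹' Metric.closedBall x r) ≤ ENNReal.ofReal (2 * r * B) := by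
      refine (measure_mono h2).trans ?_
      rw [hμ _ measurableSet_Icc, Real.volume_Icc]
      exact ENNReal.ofReal_le_ofReal (by linarith)
    have h8 : (μ E)⁻¹ = ENNReal.ofReal ((μ E).toReal⁻¹) := by
      rw [ENNReal.ofReal_inv_of_pos hpos, ENNReal.ofReal_toReal hfin]
    calc (μ E)⁻¹ * μ (E ∩ c' ⁻¹' Metric.closedBall x r)
        ≤ ENNReal.ofReal ((μ E).toReal⁻¹) * ENNReal.ofReal (2 * r * B) := by
          rw [h8]
          exact mul_le_mul_right h7 _
      _ = ENNReal.ofReal (2 * B / (μ E).toReal * r) := by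
          rw [← ENNReal.ofReal_mul (inv_nonneg.2 hpos.le)]
          congr 1
          field_simp
  · rw [ae_map_iff hc'.aemeasurable]
    · exact ProbabilityTheory.ae_cond_of_forall_mem hm fun ω hω j => hω.2.2 j
    · have : {x : s → ℝ | ∀ j, |x j| ≤ (M : ℝ)} = ⋂ j : s, {x : s → ℝ | |x j| ≤ (M : ℝ)} := by
        ext x
        simp
      rw [this]
      refine MeasurableSet.iInter fun j => ?_
      exact measurableSet_le (continuous_abs.measurable.comp (measurable_pi_apply j))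
        measurable_const
  · intro N hN hFN
    rw [Measure.map_apply hc' hN.compl]
    have : c' ⁻¹' Nᶜ = ∅ := by
      ext ω
      simp only [Set.mem_preimage, Set.mem_compl_iff, Set.mem_empty_iff_false, iff_false, not_not]
      exact hFN fun j => hF j ω
    rw [this, measure_empty]

end C4N
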