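import Mathlib
import Pool.Agent.Work.MP_c4bd3e_lc.N.MDefs
import Pool.Agent.Work.MP_c4bd3e_lc.N.CDefs

set_option autoImplicit false

/-!
# Module DmA (size M): the dimension `Dm`

* `pd_mono`, `pd_le_one`: monotonicity of the measure.
* `Dm.mono`: `δ ^ d ≤ δ ^ d'` for `0 < δ ≤ 1` (`Real.rpow_le_rpow_of_exponent_ge`); the constant is `≥ 0` because
  `0 ≤ PD μ 1 ≤ C`.
* `Dm.all`: constant `max C 1`; for `δ > 1` the bound `1 ≤ δ ^ d`.
* `Dm.affine`: `(μ.map f).prod (μ.map f)` is the image of `μ.prod μ` (`Measure.map_prod_map`), so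
  `PD (μ.map f) δ = PD μ (δ / |b|)`; use `Dm.all`: constant `C / |b| ^ d`.
* `Dm.frost`: `E = {x | |x - a| ≤ r}`, `E ×ˢ E ⊆ {|x.1 - x.2| ≤ 2 r}`, so `(μ E).toReal ^ 2 ≤ PD μ (2 r) ≤ C (2 r) ^ d`
  for all `r > 0`; take square roots (constant `√(C * 2 ^ d)`, `(r ^ d) ^ (1/2) = r ^ (d / 2)`).
-/

namespace C4N

open MeasureTheory ProbabilityTheory

variable {μ : Measure ℝ} {d : ℝ}

theorem pd_nonneg (μ : Measure ℝ) (δ : ℝ) : 0 ≤ PD μ δ := ENNReal.toReal_nonneg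

theorem pd_mono [IsFiniteMeasure μ] {δ δ' : ℝ} (h : δ ≤ δ') : PD μ δ ≤ PD μ δ' := by
  refine ENNReal.toReal_mono (measure_ne_top _ _) (measure_mono fun x hx => ?_)
  exact le_trans hx h

theorem pd_le_one [IsProbabilityMeasure μ] (δ : ℝ) : PD μ δ ≤ 1 := by
  have h := ENNReal.toReal_mono ENNReal.one_ne_top
    (prob_le_one (μ := μ.prod μ) (s := {x : ℝ × ℝ | |x.1 - x.2| ≤ δ}))
  simpa [PD] using h

theorem Dm.mono {d' : ℝ} (h : Dm d μ) (hd : d' ≤ d) : Dm d' μ := by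
  obtain ⟨C, hC⟩ := h
  have hC0 : 0 ≤ C := by
    have h1 := hC 1 one_pos le_rfl
    rw [Real.one_rpow, mul_one] at h1
    exact le_trans ENNReal.toReal_nonneg h1
  exact ⟨C, fun δ h0 h1 => (hC δ h0 h1).trans
    (mul_le_mul_of_nonneg_left (Real.rpow_le_rpow_of_exponent_ge h0 h1 hd) hC0)⟩

theorem Dm.all [IsProbabilityMeasure μ] (h : Dm d μ) (hd : 0 ≤ d) :
    ∃ C : ℝ, 1 ≤ C ∧ ∀ δ : ℝ, 0 < δ → PD μ δ ≤ C * δ ^ d := by
  obtain ⟨C, hC⟩ := h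
  refine ⟨max C 1, le_max_right _ _, fun δ h0 => ?_⟩
  rcases le_or_gt δ 1 with h1 | h1
  · exact (hC δ h0 h1).trans (mul_le_mul_of_nonneg_right (le_max_left _ _)
      (Real.rpow_nonneg h0.le _))
  · calc PD μ δ ≤ 1 := pd_le_one δ
      _ = 1 * 1 := (one_mul 1).symm
      _ ≤ max C 1 * δ ^ d := mul_le_mul (le_max_right _ _) (Real.one_le_rpow h1.le hd)
          zero_le_one (le_trans zero_le_one (le_max_right _ _))

theorem Dm.affine [IsProbabilityMeasure μ] (h : Dm d μ) (hd : 0 ≤ d) (a : ℝ) {b : ℝ} (hb : b ≠ 0) :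
    Dm d (μ.map fun x => a + b * x) := by
  obtain ⟨C, hC1, hC⟩ := h.all hd
  have hb' : 0 < |b| := abs_pos.mpr hb
  have hf : Measurable fun x : ℝ => a + b * x := by fun_prop
  refine ⟨C / |b| ^ d, fun δ h0 h1 => ?_⟩
  have hset : MeasurableSet {x : ℝ × ℝ | |x.1 - x.2| ≤ δ} :=
    measurableSet_le (by fun_prop) measurable_const
  have key : ((μ.map fun x => a + b * x).prod (μ.map fun x => a + b * x))
      {x : ℝ × ℝ | |x.1 - x.2| ≤ δ} = (μ.prod μ) {x : ℝ × ℝ | |x.1 - x.2| ≤ δ / |b|} := by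
    rw [Measure.map_prod_map μ μ hf hf, Measure.map_apply (hf.prodMap hf) hset]
    congr 1
    ext x
    show |a + b * x.1 - (a + b * x.2)| ≤ δ ↔ |x.1 - x.2| ≤ δ / |b|
    have e : a + b * x.1 - (a + b * x.2) = b * (x.1 - x.2) := by ring
    rw [le_div_iff₀ hb', mul_comm _ |b|, ← abs_mul, e]
  rw [key]
  calc ((μ.prod μ) {x : ℝ × ℝ | |x.1 - x.2| ≤ δ / |b|}).toReal = PD μ (δ / |b|) := rfl
    _ ≤ C * (δ / |b|) ^ d := hC _ (div_pos h0 hb')
    _ = C / |b| ^ d * δ ^ d := by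
      rw [Real.div_rpow h0.le hb'.le]
      ring

theorem Dm.frost [IsProbabilityMeasure μ] (h : Dm d μ) (hd : 0 ≤ d) :
    ∃ C : ℝ, 0 ≤ C ∧ ∀ a r : ℝ, 0 < r → μ {x | |x - a| ≤ r} ≤ ENNReal.ofReal (C * r ^ (d / 2)) := by
  obtain ⟨C, hC1, hC⟩ := h.all hd
  have hC0 : 0 ≤ C := le_trans zero_le_one hC1
  refine ⟨Real.sqrt (C * 2 ^ d), Real.sqrt_nonneg _, fun a r hr => ?_⟩
  have h2 : (μ {x | |x - a| ≤ r}).toReal ^ 2 ≤ PD μ (2 * r) := by
    have h3 : (μ {x | |x - a| ≤ r}).toReal ^ 2 =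
        ((μ.prod μ) ({x | |x - a| ≤ r} ×ˢ {x | |x - a| ≤ r})).toReal := by
      rw [Measure.prod_prod, ENNReal.toReal_mul, sq]
    rw [h3]
    refine ENNReal.toReal_mono (measure_ne_top _ _) (measure_mono ?_)
    rintro ⟨x, y⟩ ⟨hx, hy⟩
    change |x - a| ≤ r at hx
    change |y - a| ≤ r at hy
    show |x - y| ≤ 2 * r
    calc |x - y| = |(x - a) - (y - a)| := by ring_nf
      _ ≤ |x - a| + |y - a| := abs_sub _ _
      _ ≤ 2 * r := by linarith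
  have h4 : (μ {x | |x - a| ≤ r}).toReal ≤ Real.sqrt (C * 2 ^ d) * r ^ (d / 2) := by
    have h5 : (μ {x | |x - a| ≤ r}).toReal ^ 2 ≤ C * (2 * r) ^ d :=
      h2.trans (hC _ (by positivity))
    have h6 : Real.sqrt (C * 2 ^ d) * r ^ (d / 2) = Real.sqrt (C * (2 * r) ^ d) := by
      rw [Real.mul_rpow (by norm_num) hr.le, ← mul_assoc,
        Real.sqrt_mul (mul_nonneg hC0 (Real.rpow_nonneg (by norm_num) _)), Real.sqrt_eq_rpow (r ^ d),
        ← Real.rpow_mul hr.le]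
      congr 2
      ring
    rw [h6]
    exact Real.le_sqrt_of_sq_le h5
  rw [← ENNReal.ofReal_toReal (measure_ne_top μ {x | |x - a| ≤ r})]
  exact ENNReal.ofReal_le_ofReal h4

end C4N
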