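import Mathlib
import Pool.Agent.Work.MP_c4bd3e_lc.N.MDefs
import Pool.Agent.Work.MP_c4bd3e_lc.N.Defs
import Pool.Agent.Work.MP_c4bd3e_lc.N.CDefs

set_option autoImplicit false

/-!
# Module Disc1 (size M): discretisation, collision probabilities

`R = 2 ^ n`, `I i = [i / R, (i + 1) / R)`, `pw μ n i = μ (I i)`; the `I i` are pairwise disjoint and cover `ℝ`
(`x ∈ I i ↔ ⌊R x⌋ = i`).
* `wt_pw`: `supp`: if `i ∉ SS R` then `I i` does not meet `[1/2, 1]` (here `R` is even, so `R / 2` is an integer), except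
  that `I R` meets it in the point 1, but `R ∈ SS R`. `sum`: the sets `I i`, `i ∈ SS R`, are disjoint and cover `[1/2, 1]`
  (`measure_biUnion_finset`).
* `col_pw_le`: `Col = (μ.prod μ) (⋃ I i ×ˢ I j)` over the pairs `i, j ∈ SS R` with `|i - j| ≤ m` (disjoint union,
  `Measure.prod_prod`), and there `|x - x'| ≤ (m + 1) / R`.
-/

namespace C4N

open MeasureTheory ProbabilityTheory

private theorem mem_I {n : ℕ} {i : ℤ} {x : ℝ} :
    x ∈ Set.Ico ((i : ℝ) / 2 ^ n) (((i : ℝ) + 1) / 2 ^ n) ↔ ⌊x * 2 ^ n⌋ = i := by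
  have h : (0 : ℝ) < 2 ^ n := by positivity
  rw [Set.mem_Ico, Int.floor_eq_iff, div_le_iff₀ h, lt_div_iff₀ h]

private theorem two_pow_half {n : ℕ} (hn : 1 ≤ n) : ∃ h : ℤ, (2 : ℤ) ^ n = 2 * h := by
  obtain ⟨k, rfl⟩ := Nat.exists_eq_add_of_le hn
  exact ⟨2 ^ k, by ring⟩

theorem wt_pw {μ : Measure ℝ} [IsProbabilityMeasure μ] (hμ : μ (Set.Icc (1 / 2) 1)ᶜ = 0) {n : ℕ}
    (hn : 1 ≤ n) : Wt (2 ^ n) (pw μ n) := by
  obtain ⟨h, hh⟩ := two_pow_half hn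
  have hR : (0 : ℝ) < 2 ^ n := by positivity
  have hhR : (2 : ℝ) ^ n = 2 * (h : ℝ) := by exact_mod_cast hh
  have hSS : ∀ i : ℤ, i ∈ SS (2 ^ n) ↔ (0 ≤ i ∧ i ≤ 2 * h) ∧ 2 * h ≤ 2 * i := by
    intro i
    rw [mem_SS]
    push_cast
    rw [hh]
  refine ⟨fun i => ENNReal.toReal_nonneg, fun i hi => ?_, ?_⟩
  · by_contra hni
    apply hi
    have h0 : μ (Set.Ico ((i : ℝ) / 2 ^ n) (((i : ℝ) + 1) / 2 ^ n)) = 0 := by
      refine measure_mono_null ?_ hμ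
      intro x hx hx2
      apply hni
      rw [mem_I] at hx
      obtain ⟨h1, h2⟩ := Int.floor_eq_iff.1 hx
      obtain ⟨h3, h4⟩ := hx2
      rw [hSS]
      have h5 : (h : ℝ) ≤ x * 2 ^ n := by
        rw [hhR]
        rw [hhR] at hR
        nlinarith
      have h6 : x * 2 ^ n ≤ 2 * (h : ℝ) := by
        rw [← hhR]
        nlinarith
      have h7 : (i : ℝ) ≤ 2 * (h : ℝ) := h1.trans h6
      have h8 : (h : ℝ) < (i : ℝ) + 1 := lt_of_le_of_lt h5 h2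
      have h9 : i ≤ 2 * h := by exact_mod_cast h7
      have h10 : h < i + 1 := by exact_mod_cast h8
      have h11 : (0 : ℝ) < 2 * (h : ℝ) := by rw [← hhR]; exact hR
      have h12 : (0 : ℝ) < (h : ℝ) := by linarith
      have h13 : 0 < h := by exact_mod_cast h12
      refine ⟨⟨by omega, h9⟩, by omega⟩
    rw [pw, h0]
    rfl
  · have hd : (SS (2 ^ n) : Set ℤ).PairwiseDisjoint
        fun i : ℤ => Set.Ico ((i : ℝ) / 2 ^ n) (((i : ℝ) + 1) / 2 ^ n) := by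
      intro i _ j _ hij
      rw [Function.onFun, Set.disjoint_left]
      intro x hx hx'
      rw [mem_I] at hx hx'
      exact hij (hx.symm.trans hx')
    have h1 := measure_biUnion_finset (μ := μ) hd fun i _ => measurableSet_Ico
    have h2 : μ (⋃ i ∈ SS (2 ^ n), Set.Ico ((i : ℝ) / 2 ^ n) (((i : ℝ) + 1) / 2 ^ n)) = 1 := by
      have hm : MeasurableSet (⋃ i ∈ SS (2 ^ n), Set.Ico ((i : ℝ) / 2 ^ n) (((i : ℝ) + 1) / 2 ^ n)) :=
        Finset.measurableSet_biUnion _ fun i _ => measurableSet_Ico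
      rw [← prob_compl_eq_zero_iff hm]
      refine measure_mono_null ?_ hμ
      rw [Set.compl_subset_compl]
      intro x hx
      obtain ⟨h3, h4⟩ := hx
      rw [Set.mem_iUnion₂]
      refine ⟨⌊x * 2 ^ n⌋, ?_, mem_I.2 rfl⟩
      rw [hSS]
      have h5 : (h : ℝ) ≤ x * 2 ^ n := by
        rw [hhR]
        rw [hhR] at hR
        nlinarith
      have h6 : x * 2 ^ n < 2 * (h : ℝ) + 1 := by
        have : x * 2 ^ n ≤ 2 * (h : ℝ) := by
          rw [← hhR]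
          nlinarith
        linarith
      have h7 : h ≤ ⌊x * 2 ^ n⌋ := Int.le_floor.2 h5
      have h8 : ⌊x * 2 ^ n⌋ < 2 * h + 1 := Int.floor_lt.2 (by push_cast; exact h6)
      have h11 : (0 : ℝ) < 2 * (h : ℝ) := by rw [← hhR]; exact hR
      have h12 : (0 : ℝ) < (h : ℝ) := by linarith
      have h13 : 0 < h := by exact_mod_cast h12
      refine ⟨⟨by omega, by omega⟩, by omega⟩
    rw [h2] at h1
    have h3 : ∑ i ∈ SS (2 ^ n), pw μ n i =
        (∑ i ∈ SS (2 ^ n), μ (Set.Ico ((i : ℝ) / 2 ^ n) (((i : ℝ) + 1) / 2 ^ n))).toReal := by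
      rw [ENNReal.toReal_sum fun i _ => measure_ne_top _ _]
      rfl
    rw [h3, ← h1]
    rfl

theorem col_pw_le {μ : Measure ℝ} [IsProbabilityMeasure μ] (n m : ℕ) :
    Col (2 ^ n) (pw μ n) m ≤ PD μ (((m : ℝ) + 1) / 2 ^ n) := by
  have hR : (0 : ℝ) < 2 ^ n := by positivity
  set T := (SS (2 ^ n) ×ˢ SS (2 ^ n)).filter (fun x : ℤ × ℤ => |x.1 - x.2| ≤ (m : ℤ)) with hT
  let J : ℤ × ℤ → Set (ℝ × ℝ) := fun x =>
    Set.Ico ((x.1 : ℝ) / 2 ^ n) (((x.1 : ℝ) + 1) / 2 ^ n) ×ˢ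
      Set.Ico ((x.2 : ℝ) / 2 ^ n) (((x.2 : ℝ) + 1) / 2 ^ n)
  have hd : (T : Set (ℤ × ℤ)).PairwiseDisjoint J := by
    intro i _ j _ hij
    rw [Function.onFun, Set.disjoint_left]
    rintro ⟨x, y⟩ ⟨hx, hy⟩ ⟨hx', hy'⟩
    rw [mem_I] at hx hy hx' hy'
    exact hij (Prod.ext (hx.symm.trans hx') (hy.symm.trans hy'))
  have h1 := measure_biUnion_finset (μ := μ.prod μ) hd
    fun i _ => measurableSet_Ico.prod measurableSet_Ico
  have h2 : Col (2 ^ n) (pw μ n) m = ((μ.prod μ) (⋃ x ∈ T, J x)).toReal := by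
    rw [h1, ENNReal.toReal_sum fun i _ => measure_ne_top _ _]
    refine Finset.sum_congr rfl fun x _ => ?_
    rw [Measure.prod_prod, ENNReal.toReal_mul]
    rfl
  rw [h2]
  refine ENNReal.toReal_mono (measure_ne_top _ _) (measure_mono ?_)
  rintro ⟨x, y⟩ hxy
  obtain ⟨⟨i, j⟩, hij, hx, hy⟩ := Set.mem_iUnion₂.1 hxy
  have h3 : |i - j| ≤ (m : ℤ) := (Finset.mem_filter.1 hij).2
  rw [mem_I] at hx hy
  obtain ⟨h4, h5⟩ := Int.floor_eq_iff.1 hx
  obtain ⟨h6, h7⟩ := Int.floor_eq_iff.1 hy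
  obtain ⟨h8, h9⟩ := abs_le.1 h3
  have h10 : -(m : ℝ) ≤ (i : ℝ) - j := by exact_mod_cast h8
  have h11 : (i : ℝ) - j ≤ (m : ℝ) := by exact_mod_cast h9
  show |x - y| ≤ ((m : ℝ) + 1) / 2 ^ n
  have h12 : |x - y| * 2 ^ n = |x * 2 ^ n - y * 2 ^ n| := by
    rw [← sub_mul, abs_mul, abs_of_pos hR]
  simp only at h4 h5 h6 h7
  rw [le_div_iff₀ hR, h12, abs_le]
  constructor <;> linarith

end C4N
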