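import Mathlib
import Pool.Agent.Work.MP_c4bd3e_lc.N.MDefs
import Pool.Agent.Work.MP_c4bd3e_lc.N.Defs
import Pool.Agent.Work.MP_c4bd3e_lc.N.CDefs

set_option autoImplicit false

/-!
# Module Disc2A (size M): discretisation of `X₁ + X₂ X₃`, measure part

`R = 2 ^ n`. `PD (comb μ) (1 / R)` is the probability, under the 6-fold product
`(μ.prod (μ.prod μ)).prod (μ.prod (μ.prod μ))`, of `|Q - Q'| ≤ 1 / R`, `Q = x₁ + x₂ x₃` (`Measure.map_prod_map`). Almost surely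
all six coordinates are in `[1/2, 1]`. Put `i = ⌊R x₁⌋`, `l = ⌊R x₂⌋`, `k = ⌊R x₃⌋` (all in `SS R`, because `R` is even),
`R x₁ = i + a`, `R x₂ = l + b`, `R x₃ = k + c` with `a, b, c ∈ [0, 1)`. Then
`R x₂ x₃ = (l + b) (k + c) / R = l k / R + ((l + b) c + b k) / R` and `l + b = R x₂ ≤ R`, `k ≤ R`, so the last term is in
`[0, 2)`; with `w = i + ⌊(l / R) k⌋` we get `R Q - w ∈ [0, 4)`. If `|Q - Q'| ≤ 1 / R` then `|w - w'| < 5`, so `|w - w'| ≤ 4`.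
So the event is contained (up to a null set) in the union of the boxes of the pairs of triples `(a, a')` in `S3 R ×ˢ S3 R`
with `|w3 R a - w3 R a'| ≤ 4`; subadditivity (`measure_biUnion_finset_le`) and `Measure.prod_prod` give the claim.
-/

namespace C4N

open MeasureTheory ProbabilityTheory

private noncomputable def qf (z : ℝ × ℝ × ℝ) : ℝ := z.1 + z.2.1 * z.2.2

private theorem qf_meas : Measurable qf := by
  unfold qf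
  fun_prop

private def bx (n : ℕ) (a : ℤ × ℤ × ℤ) : Set (ℝ × ℝ × ℝ) :=
  Set.Ico ((a.1 : ℝ) / 2 ^ n) (((a.1 : ℝ) + 1) / 2 ^ n) ×ˢ
    (Set.Ico ((a.2.1 : ℝ) / 2 ^ n) (((a.2.1 : ℝ) + 1) / 2 ^ n) ×ˢ
      Set.Ico ((a.2.2 : ℝ) / 2 ^ n) (((a.2.2 : ℝ) + 1) / 2 ^ n))

private def cb : Set (ℝ × ℝ × ℝ) :=
  Set.Icc (1 / 2) 1 ×ˢ (Set.Icc (1 / 2) 1 ×ˢ Set.Icc (1 / 2) 1)

private theorem fl_mem {n : ℕ} (hn : 1 ≤ n) {x : ℝ} (hx : x ∈ Set.Icc (1 / 2 : ℝ) 1) :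
    ⌊2 ^ n * x⌋ ∈ SS (2 ^ n) ∧
      x ∈ Set.Ico ((⌊2 ^ n * x⌋ : ℝ) / 2 ^ n) (((⌊2 ^ n * x⌋ : ℝ) + 1) / 2 ^ n) := by
  have hR : (0 : ℝ) < 2 ^ n := by positivity
  have h1 : (⌊2 ^ n * x⌋ : ℝ) ≤ 2 ^ n * x := Int.floor_le _
  have h2 : 2 ^ n * x < (⌊2 ^ n * x⌋ : ℝ) + 1 := Int.lt_floor_add_one _
  refine ⟨?_, ?_, ?_⟩
  · rw [mem_SS]
    obtain ⟨m, rfl⟩ := Nat.exists_eq_add_of_le hn
    have h3 : (2 ^ m : ℤ) ≤ ⌊2 ^ (1 + m) * x⌋ := by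
      rw [Int.le_floor]
      push_cast
      rw [pow_add, pow_one]
      have h4 : (0 : ℝ) < 2 ^ m := by positivity
      nlinarith [hx.1]
    have h5 : ⌊2 ^ (1 + m) * x⌋ ≤ (2 ^ (1 + m) : ℤ) := by
      have h6 : (⌊2 ^ (1 + m) * x⌋ : ℝ) ≤ ((2 ^ (1 + m) : ℤ) : ℝ) := by
        push_cast
        nlinarith [hx.2]
      exact_mod_cast h6
    have h7 : (0 : ℤ) < 2 ^ m := by positivity
    refine ⟨⟨by linarith, ?_⟩, ?_⟩
    · push_cast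
      exact h5
    · push_cast
      rw [pow_add, pow_one]
      linarith
  · rw [div_le_iff₀ hR]
    linarith
  · rw [lt_div_iff₀ hR]
    linarith

private theorem tri {n : ℕ} (hn : 1 ≤ n) {z : ℝ × ℝ × ℝ} (hz : z ∈ cb) :
    ∃ a ∈ S3 (2 ^ n), z ∈ bx n a ∧ 0 ≤ 2 ^ n * qf z - (w3 (2 ^ n) a : ℝ) ∧
      2 ^ n * qf z - (w3 (2 ^ n) a : ℝ) < 4 := by
  obtain ⟨x, y, t⟩ := z
  obtain ⟨hx, hy, ht⟩ := hz
  simp only at hx hy ht
  obtain ⟨hx1, hx2⟩ := fl_mem hn hx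
  obtain ⟨hy1, hy2⟩ := fl_mem hn hy
  obtain ⟨ht1, ht2⟩ := fl_mem hn ht
  refine ⟨(⌊2 ^ n * x⌋, ⌊2 ^ n * y⌋, ⌊2 ^ n * t⌋), ?_, ⟨hx2, hy2, ht2⟩, ?_⟩
  · unfold S3
    rw [Finset.mem_product, Finset.mem_product]
    exact ⟨hx1, hy1, ht1⟩
  have hR : (0 : ℝ) < 2 ^ n := by positivity
  have a1 := Int.floor_le (2 ^ n * x)
  have a2 := Int.lt_floor_add_one (2 ^ n * x)
  have b1 := Int.floor_le (2 ^ n * y)
  have b2 := Int.lt_floor_add_one (2 ^ n * y)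
  have c1 := Int.floor_le (2 ^ n * t)
  have c2 := Int.lt_floor_add_one (2 ^ n * t)
  have hl0 : (0 : ℝ) ≤ ⌊2 ^ n * y⌋ := by
    have := (mem_SS.1 hy1).1.1
    exact_mod_cast this
  have hk0 : (0 : ℝ) ≤ ⌊2 ^ n * t⌋ := by
    have := (mem_SS.1 ht1).1.1
    exact_mod_cast this
  have hkR : (⌊2 ^ n * t⌋ : ℝ) ≤ 2 ^ n := by
    nlinarith [ht.2]
  unfold w3 qf
  simp only
  push_cast
  generalize (⌊2 ^ n * x⌋ : ℝ) = i at *
  generalize (⌊2 ^ n * y⌋ : ℝ) = l at *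
  generalize (⌊2 ^ n * t⌋ : ℝ) = k at *
  have d1 := Int.floor_le (l / 2 ^ n * k)
  have d2 := Int.lt_floor_add_one (l / 2 ^ n * k)
  generalize (⌊l / 2 ^ n * k⌋ : ℝ) = w at *
  have hq : 2 ^ n * (y * t) - l / 2 ^ n * k =
      (2 ^ n * y) * (2 ^ n * t - k) / 2 ^ n + (2 ^ n * y - l) * k / 2 ^ n := by
    field_simp
    ring
  have e1 : 0 ≤ (2 ^ n * y) * (2 ^ n * t - k) / 2 ^ n := by
    have : 0 ≤ y := by linarith [hy.1]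
    have h3 : 0 ≤ 2 ^ n * t - k := by linarith
    positivity
  have e2 : (2 ^ n * y) * (2 ^ n * t - k) / 2 ^ n < 1 := by
    rw [div_lt_one hR]
    have h3 : 2 ^ n * y ≤ 2 ^ n := by nlinarith [hy.2]
    have h4 : 2 ^ n * t - k < 1 := by linarith
    have h5 : 0 ≤ 2 ^ n * t - k := by linarith
    nlinarith
  have e3 : 0 ≤ (2 ^ n * y - l) * k / 2 ^ n := by
    have h3 : 0 ≤ 2 ^ n * y - l := by linarith
    positivity
  have e4 : (2 ^ n * y - l) * k / 2 ^ n ≤ 1 := by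
    rw [div_le_one hR]
    have h3 : 0 ≤ 2 ^ n * y - l := by linarith
    nlinarith
  rw [mul_add]
  constructor <;> linarith

private theorem bx_meas (n : ℕ) (a : ℤ × ℤ × ℤ) : MeasurableSet (bx n a) :=
  measurableSet_Ico.prod (measurableSet_Ico.prod measurableSet_Ico)

private theorem nu_bx {μ : Measure ℝ} [IsProbabilityMeasure μ] (n : ℕ) (a : ℤ × ℤ × ℤ) :
    ((μ.prod (μ.prod μ)) (bx n a)).toReal = P3 (pw μ n) a := by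
  unfold bx P3 pw
  rw [Measure.prod_prod, Measure.prod_prod, ENNReal.toReal_mul, ENNReal.toReal_mul]

private theorem nu_cb {μ : Measure ℝ} [IsProbabilityMeasure μ]
    (hμ : μ (Set.Icc (1 / 2) 1)ᶜ = 0) : (μ.prod (μ.prod μ)) cbᶜ = 0 := by
  have h1 : cbᶜ ⊆ ((Set.Icc (1 / 2 : ℝ) 1)ᶜ ×ˢ (Set.univ : Set (ℝ × ℝ))) ∪
      ((Set.univ : Set ℝ) ×ˢ ((Set.Icc (1 / 2 : ℝ) 1)ᶜ ×ˢ (Set.univ : Set ℝ)) ∪
        (Set.univ : Set ℝ) ×ˢ ((Set.univ : Set ℝ) ×ˢ (Set.Icc (1 / 2 : ℝ) 1)ᶜ)) := by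
    rintro ⟨x, y, t⟩ hz
    by_cases hx : x ∈ Set.Icc (1 / 2 : ℝ) 1
    · by_cases hy : y ∈ Set.Icc (1 / 2 : ℝ) 1
      · by_cases ht : t ∈ Set.Icc (1 / 2 : ℝ) 1
        · exact absurd ⟨hx, hy, ht⟩ hz
        · exact Or.inr (Or.inr ⟨Set.mem_univ _, Set.mem_univ _, ht⟩)
      · exact Or.inr (Or.inl ⟨Set.mem_univ _, hy, Set.mem_univ _⟩)
    · exact Or.inl ⟨hx, Set.mem_univ _⟩
  refine measure_mono_null h1 (measure_union_null ?_ (measure_union_null ?_ ?_))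
  · rw [Measure.prod_prod, hμ, zero_mul]
  · rw [Measure.prod_prod, Measure.prod_prod, hμ, zero_mul, mul_zero]
  · rw [Measure.prod_prod, Measure.prod_prod, hμ, mul_zero, mul_zero]

theorem disc2a {μ : Measure ℝ} [IsProbabilityMeasure μ] (hμ : μ (Set.Icc (1 / 2) 1)ᶜ = 0) {n : ℕ}
    (hn : 1 ≤ n) :
    PD (comb μ) (1 / 2 ^ n) ≤
      ∑ x ∈ (S3 (2 ^ n) ×ˢ S3 (2 ^ n)).filter
        (fun x => |w3 (2 ^ n) x.1 - w3 (2 ^ n) x.2| ≤ (4 : ℤ)),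
        P3 (pw μ n) x.1 * P3 (pw μ n) x.2 := by
  set ν := μ.prod (μ.prod μ) with hν
  have h1 : PD (comb μ) (1 / 2 ^ n) =
      ((ν.prod ν) {z | |qf z.1 - qf z.2| ≤ 1 / 2 ^ n}).toReal := by
    unfold PD comb
    change (((ν.map qf).prod (ν.map qf)) _).toReal = _
    rw [Measure.map_prod_map ν ν qf_meas qf_meas, Measure.map_apply (qf_meas.prodMap qf_meas)
      (measurableSet_le (by fun_prop) measurable_const)]
    rfl
  rw [h1]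
  set F := (S3 (2 ^ n) ×ˢ S3 (2 ^ n)).filter
    (fun x => |w3 (2 ^ n) x.1 - w3 (2 ^ n) x.2| ≤ (4 : ℤ)) with hF
  have h2 : {z : (ℝ × ℝ × ℝ) × (ℝ × ℝ × ℝ) | |qf z.1 - qf z.2| ≤ 1 / 2 ^ n} ⊆
      (cbᶜ ×ˢ Set.univ ∪ Set.univ ×ˢ cbᶜ) ∪ ⋃ x ∈ F, bx n x.1 ×ˢ bx n x.2 := by
    rintro ⟨z, z'⟩ hz
    simp only [Set.mem_setOf_eq] at hz
    by_cases h3 : z ∈ cb
    · by_cases h4 : z' ∈ cb
      · right
        obtain ⟨a, ha, hza, ha0, ha4⟩ := tri hn h3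
        obtain ⟨b, hb, hzb, hb0, hb4⟩ := tri hn h4
        rw [Set.mem_iUnion₂]
        refine ⟨(a, b), ?_, hza, hzb⟩
        rw [hF, Finset.mem_filter, Finset.mem_product]
        refine ⟨⟨ha, hb⟩, ?_⟩
        have hR : (0 : ℝ) < 2 ^ n := by positivity
        have h5 : |2 ^ n * qf z - 2 ^ n * qf z'| ≤ 1 := by
          rw [← mul_sub, abs_mul, abs_of_pos hR]
          calc 2 ^ n * |qf z - qf z'| ≤ 2 ^ n * (1 / 2 ^ n) :=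
                mul_le_mul_of_nonneg_left hz hR.le
            _ = 1 := by field_simp
        have h6 := abs_le.1 h5
        have h7 : ((w3 (2 ^ n) a - w3 (2 ^ n) b : ℤ) : ℝ) < 5 := by
          push_cast
          linarith [h6.2]
        have h8 : (-5 : ℝ) < ((w3 (2 ^ n) a - w3 (2 ^ n) b : ℤ) : ℝ) := by
          push_cast
          linarith [h6.1]
        have h9 : w3 (2 ^ n) a - w3 (2 ^ n) b < 5 := by exact_mod_cast h7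
        have h10 : -5 < w3 (2 ^ n) a - w3 (2 ^ n) b := by exact_mod_cast h8
        simp only
        rw [abs_le]
        constructor <;> omega
      · exact Or.inl (Or.inr ⟨Set.mem_univ _, h4⟩)
    · exact Or.inl (Or.inl ⟨h3, Set.mem_univ _⟩)
  have h3 : (ν.prod ν) (cbᶜ ×ˢ Set.univ ∪ Set.univ ×ˢ cbᶜ) = 0 := by
    refine measure_union_null ?_ ?_
    · rw [Measure.prod_prod, hν, nu_cb hμ, zero_mul]
    · rw [Measure.prod_prod, hν, nu_cb hμ, mul_zero]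
  have h4 : (ν.prod ν) {z | |qf z.1 - qf z.2| ≤ 1 / 2 ^ n} ≤
      ∑ x ∈ F, (ν.prod ν) (bx n x.1 ×ˢ bx n x.2) :=
    calc (ν.prod ν) {z | |qf z.1 - qf z.2| ≤ 1 / 2 ^ n} ≤
        (ν.prod ν) ((cbᶜ ×ˢ Set.univ ∪ Set.univ ×ˢ cbᶜ) ∪ ⋃ x ∈ F, bx n x.1 ×ˢ bx n x.2) :=
          measure_mono h2
      _ ≤ (ν.prod ν) (cbᶜ ×ˢ Set.univ ∪ Set.univ ×ˢ cbᶜ) +
          (ν.prod ν) (⋃ x ∈ F, bx n x.1 ×ˢ bx n x.2) := measure_union_le _ _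
      _ = (ν.prod ν) (⋃ x ∈ F, bx n x.1 ×ˢ bx n x.2) := by rw [h3, zero_add]
      _ ≤ _ := measure_biUnion_finset_le _ _
  have h5 : ∀ x ∈ F, (ν.prod ν) (bx n x.1 ×ˢ bx n x.2) ≠ ⊤ := fun x _ => measure_ne_top _ _
  calc ((ν.prod ν) {z | |qf z.1 - qf z.2| ≤ 1 / 2 ^ n}).toReal ≤
      (∑ x ∈ F, (ν.prod ν) (bx n x.1 ×ˢ bx n x.2)).toReal :=
        ENNReal.toReal_mono (ENNReal.sum_ne_top.2 h5) h4
    _ = ∑ x ∈ F, ((ν.prod ν) (bx n x.1 ×ˢ bx n x.2)).toReal := ENNReal.toReal_sum h5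
    _ = _ := by
        refine Finset.sum_congr rfl fun x _ => ?_
        rw [Measure.prod_prod, ENNReal.toReal_mul, hν, nu_bx, nu_bx]

end C4N
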