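import Mathlib
import Pool.Agent.Work.MP_c4bd3e_lc.N.Defs
import Pool.Agent.Work.MP_c4bd3e_lc.N.CDefs

set_option autoImplicit false

/-!
# Module Disc2B (size M): discretisation of `X₁ + X₂ X₃`, finite part

Put `q w = ∑ a ∈ S3 R with w3 R a = w, P3 p a = ∑ l ∈ SS R, p l * qq R (l / R) p p w`. All values `w3 R a` are in `[0, 2 R]`
(`0 ≤ l / R ≤ 1`, `0 ≤ k ≤ R`, `0 ≤ i ≤ R`). The left side is the sum of `q w * q w' ≤ (q w ^ 2 + q w' ^ 2) / 2` over the pairs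
`w, w' ∈ [0, 2 R]` with `|w - w'| ≤ 4`, hence at most `9 * ∑ w, q w ^ 2` (for every `w` there are at most nine `w'`). And
`q w ^ 2 = (∑ l, p l * qq_l w) ^ 2 ≤ ∑ l, p l * qq_l w ^ 2` because `p` is a probability distribution (Cauchy-Schwarz:
`Finset.sum_mul_sq_le_sq_mul_sq` with `√(p l)`, or `inner_mul_le_norm_mul_norm`, or convexity `ConvexOn.map_sum_le`).
-/

namespace C4N

open MeasureTheory ProbabilityTheory

/-- the law of `w3` -/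
private noncomputable def q3 (R : ℕ) (p : ℤ → ℝ) (w : ℤ) : ℝ :=
  ∑ a ∈ (S3 R).filter (fun a => w3 R a = w), P3 p a

private theorem w3_mem {R : ℕ} {a : ℤ × ℤ × ℤ} (ha : a ∈ S3 R) :
    w3 R a ∈ Finset.Icc (0 : ℤ) (2 * (R : ℤ)) := by
  obtain ⟨i, l, k⟩ := a
  rw [S3, Finset.mem_product, Finset.mem_product] at ha
  obtain ⟨hi, hl, hk⟩ := ha
  obtain ⟨⟨i0, i1⟩, -⟩ := mem_SS.1 hi
  obtain ⟨⟨l0, l1⟩, -⟩ := mem_SS.1 hl
  obtain ⟨⟨k0, k1⟩, -⟩ := mem_SS.1 hk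
  change 0 ≤ i at i0
  change i ≤ R at i1
  change 0 ≤ l at l0
  change l ≤ R at l1
  change 0 ≤ k at k0
  change k ≤ R at k1
  have e1 : 0 ≤ ((l : ℝ) / R) * (k : ℝ) := by
    have : (0 : ℝ) ≤ l := by exact_mod_cast l0
    have : (0 : ℝ) ≤ k := by exact_mod_cast k0
    positivity
  have e2 : ((l : ℝ) / R) * (k : ℝ) ≤ R := by
    have h1 : (l : ℝ) / R ≤ 1 := by
      apply div_le_one_of_le₀ _ (Nat.cast_nonneg R)
      exact_mod_cast l1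
    have h2 : (k : ℝ) ≤ R := by exact_mod_cast k1
    have h3 : (0 : ℝ) ≤ k := by exact_mod_cast k0
    calc ((l : ℝ) / R) * (k : ℝ) ≤ 1 * (k : ℝ) := mul_le_mul_of_nonneg_right h1 h3
      _ ≤ R := by rw [one_mul]; exact h2
  have e3 : 0 ≤ ⌊((l : ℝ) / R) * (k : ℝ)⌋ := Int.floor_nonneg.2 e1
  have e4 : ⌊((l : ℝ) / R) * (k : ℝ)⌋ ≤ (R : ℤ) := by
    have h1 := Int.floor_le_floor e2
    rwa [Int.floor_natCast] at h1
  rw [Finset.mem_Icc]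
  show 0 ≤ i + ⌊((l : ℝ) / R) * (k : ℝ)⌋ ∧ i + ⌊((l : ℝ) / R) * (k : ℝ)⌋ ≤ 2 * (R : ℤ)
  omega

private theorem q3_eq {R : ℕ} {p : ℤ → ℝ} (w : ℤ) :
    q3 R p w = ∑ l ∈ SS R, p l * qq R ((l : ℝ) / R) p p w := by
  unfold q3 qq S3
  rw [Finset.sum_filter, Finset.sum_product]
  simp only [Finset.sum_product, Finset.sum_filter, Finset.mul_sum]
  rw [Finset.sum_comm]
  refine Finset.sum_congr rfl fun l _ => Finset.sum_congr rfl fun i _ =>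
    Finset.sum_congr rfl fun k _ => ?_
  show (if i + ⌊((l : ℝ) / R) * (k : ℝ)⌋ = w then p i * (p l * p k) else 0) =
    p l * (if i + ⌊((l : ℝ) / R) * (k : ℝ)⌋ = w then p i * p k else 0)
  split_ifs
  · ring
  · ring

private theorem q3_sq {R : ℕ} {p : ℤ → ℝ} (hp : Wt R p) (w : ℤ) :
    q3 R p w ^ 2 ≤ ∑ l ∈ SS R, p l * qq R ((l : ℝ) / R) p p w ^ 2 := by
  rw [q3_eq]
  have h := Finset.sum_sq_le_sum_mul_sum_of_sq_le_mul (SS R)
    (r := fun l : ℤ => p l * qq R ((l : ℝ) / R) p p w) (f := fun l : ℤ => p l)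
    (g := fun l : ℤ => p l * qq R ((l : ℝ) / R) p p w ^ 2)
    (fun l _ => hp.nonneg l) (fun l _ => mul_nonneg (hp.nonneg l) (sq_nonneg _))
    (fun l _ => le_of_eq (by ring))
  rw [hp.sum, one_mul] at h
  exact h

private theorem card9 (R : ℕ) (w : ℤ) :
    ((Finset.Icc (0 : ℤ) (2 * (R : ℤ))).filter (fun w' => |w - w'| ≤ (4 : ℤ))).card ≤ 9 := by
  have h1 : (Finset.Icc (0 : ℤ) (2 * (R : ℤ))).filter (fun w' => |w - w'| ≤ (4 : ℤ)) ⊆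
      Finset.Icc (w - 4) (w + 4) := by
    intro x hx
    rw [Finset.mem_filter, abs_le] at hx
    rw [Finset.mem_Icc]
    omega
  refine (Finset.card_le_card h1).trans ?_
  rw [Int.card_Icc]
  omega

theorem disc2b {R : ℕ} {p : ℤ → ℝ} (hp : Wt R p) :
    ∑ x ∈ (S3 R ×ˢ S3 R).filter (fun x => |w3 R x.1 - w3 R x.2| ≤ (4 : ℤ)),
      P3 p x.1 * P3 p x.2 ≤ 9 * ∑ l ∈ SS R, p l * WW R ((l : ℝ) / R) p p := by
  obtain ⟨W, hW⟩ : ∃ W, W = Finset.Icc (0 : ℤ) (2 * (R : ℤ)) := ⟨_, rfl⟩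
  have h1 : ∑ x ∈ (S3 R ×ˢ S3 R).filter (fun x => |w3 R x.1 - w3 R x.2| ≤ (4 : ℤ)),
      P3 p x.1 * P3 p x.2 =
      ∑ z ∈ (W ×ˢ W).filter (fun z => |z.1 - z.2| ≤ (4 : ℤ)), q3 R p z.1 * q3 R p z.2 := by
    rw [← Finset.sum_fiberwise_of_maps_to (t := (W ×ˢ W).filter (fun z => |z.1 - z.2| ≤ (4 : ℤ)))
      (g := fun x : (ℤ × ℤ × ℤ) × (ℤ × ℤ × ℤ) => (w3 R x.1, w3 R x.2))]
    · refine Finset.sum_congr rfl fun z hz => ?_
      have hz2 := (Finset.mem_filter.1 hz).2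
      unfold q3
      rw [Finset.sum_mul_sum, ← Finset.sum_product']
      apply Finset.sum_congr _ fun _ _ => rfl
      ext x
      simp only [Finset.mem_filter, Finset.mem_product, Prod.ext_iff]
      constructor
      · rintro ⟨⟨⟨h1, h2⟩, -⟩, h3, h4⟩
        exact ⟨⟨h1, h3⟩, h2, h4⟩
      · rintro ⟨⟨h1, h3⟩, h2, h4⟩
        refine ⟨⟨⟨h1, h2⟩, ?_⟩, h3, h4⟩
        rw [h3, h4]
        exact hz2
    · intro x hx
      rw [Finset.mem_filter, Finset.mem_product] at hx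
      rw [Finset.mem_filter, Finset.mem_product, hW]
      exact ⟨⟨w3_mem hx.1.1, w3_mem hx.1.2⟩, hx.2⟩
  have h2 : ∑ z ∈ (W ×ˢ W).filter (fun z => |z.1 - z.2| ≤ (4 : ℤ)), q3 R p z.1 ^ 2 ≤
      9 * ∑ w ∈ W, q3 R p w ^ 2 := by
    rw [Finset.sum_filter, Finset.sum_product, Finset.mul_sum]
    refine Finset.sum_le_sum fun w _ => ?_
    rw [← Finset.sum_filter]
    show ∑ _a ∈ W.filter (fun w' => |w - w'| ≤ (4 : ℤ)), q3 R p w ^ 2 ≤ 9 * q3 R p w ^ 2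
    rw [Finset.sum_const, nsmul_eq_mul]
    refine mul_le_mul_of_nonneg_right ?_ (sq_nonneg _)
    have h3 := card9 R w
    rw [hW]
    exact_mod_cast h3
  have h3 : ∑ z ∈ (W ×ˢ W).filter (fun z => |z.1 - z.2| ≤ (4 : ℤ)), q3 R p z.2 ^ 2 ≤
      9 * ∑ w ∈ W, q3 R p w ^ 2 := by
    rw [Finset.sum_filter, Finset.sum_product_right, Finset.mul_sum]
    refine Finset.sum_le_sum fun w _ => ?_
    rw [← Finset.sum_filter]
    show ∑ _a ∈ W.filter (fun x => |x - w| ≤ (4 : ℤ)), q3 R p w ^ 2 ≤ 9 * q3 R p w ^ 2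
    rw [Finset.sum_const, nsmul_eq_mul]
    refine mul_le_mul_of_nonneg_right ?_ (sq_nonneg _)
    have h3 := card9 R w
    rw [hW]
    have h4 : (Finset.Icc (0 : ℤ) (2 * (R : ℤ))).filter (fun x => |x - w| ≤ (4 : ℤ)) =
        (Finset.Icc (0 : ℤ) (2 * (R : ℤ))).filter (fun w' => |w - w'| ≤ (4 : ℤ)) :=
      Finset.filter_congr fun x _ => by rw [abs_sub_comm]
    rw [h4]
    exact_mod_cast h3
  have h4 : ∑ z ∈ (W ×ˢ W).filter (fun z => |z.1 - z.2| ≤ (4 : ℤ)), q3 R p z.1 * q3 R p z.2 ≤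
      (∑ z ∈ (W ×ˢ W).filter (fun z => |z.1 - z.2| ≤ (4 : ℤ)), q3 R p z.1 ^ 2 +
        ∑ z ∈ (W ×ˢ W).filter (fun z => |z.1 - z.2| ≤ (4 : ℤ)), q3 R p z.2 ^ 2) / 2 := by
    rw [← Finset.sum_add_distrib, Finset.sum_div]
    refine Finset.sum_le_sum fun z _ => ?_
    nlinarith [sq_nonneg (q3 R p z.1 - q3 R p z.2)]
  have h5 : ∑ w ∈ W, q3 R p w ^ 2 ≤ ∑ l ∈ SS R, p l * WW R ((l : ℝ) / R) p p := by
    refine (Finset.sum_le_sum fun w _ => q3_sq hp w).trans ?_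
    rw [Finset.sum_comm]
    refine Finset.sum_le_sum fun l _ => ?_
    rw [← Finset.mul_sum, WW, hW]
  rw [h1]
  linarith

end C4N
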