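import Mathlib
import Pool.Agent.Work.MP_c4bd3e_lc.N.Defs

set_option autoImplicit false

/-!
# MP_c4bd3e_lc, negative half, module Pack

Packing. `Z` lies in an interval of length `m`.

* `pack`: choose a representative of `T` in each block `[j m, (j+1) m)` that meets `T`; the even blocks or the odd blocks are at
  least one half of them; the representatives of two blocks of the same parity differ by more than `m`, so the translates of `Z` by them are
  disjoint subsets of `T + Z`.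
* `pack_dil`: blocks of length `4m`: representatives `b, b'` of two blocks of the same parity differ by more than `4m`, so
  `⌊t b⌋` and `⌊t b'⌋` differ by more than `2m - 1 ≥ m` (`t ≥ 1/2`).
Both follow from: if `E ⊆ S` and any two different elements of `E` differ by at least `m` then `|E||Z| ≤ |S + Z|`.
-/

namespace C4N

open Finset
open scoped Pointwise

private theorem sep_card {m : ℕ} {E S Z : Finset ℤ} {a : ℤ} (hES : E ⊆ S)
    (hE : ∀ x ∈ E, ∀ y ∈ E, x < y → (m : ℤ) ≤ y - x) (hZ : ∀ z ∈ Z, a ≤ z ∧ z < a + m) :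
    E.card * Z.card ≤ (S + Z).card := by
  rw [← Finset.card_product]
  refine Finset.card_le_card_of_injOn (fun x => x.1 + x.2) ?_ ?_
  · rintro ⟨e, z⟩ h
    rw [Finset.mem_coe, Finset.mem_product] at h
    exact Finset.mem_coe.2 (Finset.add_mem_add (hES h.1) h.2)
  · rintro ⟨e, z⟩ h ⟨e', z'⟩ h' heq
    rw [Finset.mem_coe, Finset.mem_product] at h h'
    simp only at heq
    have h1 := hZ z h.2
    have h2 := hZ z' h'.2
    have h3 : e = e' := by
      rcases lt_trichotomy e e' with hlt | he | hlt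
      · have := hE e h.1 e' h'.1 hlt
        omega
      · exact he
      · have := hE e' h'.1 e h.1 hlt
        omega
    subst h3
    have h4 : z = z' := by omega
    rw [h4]

private theorem exists_sep {m : ℕ} (hm : 1 ≤ m) (T : Finset ℤ) :
    ∃ E : Finset ℤ, E ⊆ T ∧ Nb m T ≤ 2 * E.card ∧ ∀ x ∈ E, ∀ y ∈ E, x < y → (m : ℤ) < y - x := by
  classical
  set Bl := T.image fun x => x / (m : ℤ) with hBl
  have hrep : ∀ b : ℤ, ∃ x : ℤ, b ∈ Bl → x ∈ T ∧ x / (m : ℤ) = b := by
    intro b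
    by_cases hb : b ∈ Bl
    · obtain ⟨x, hx, hxb⟩ := Finset.mem_image.1 hb
      exact ⟨x, fun _ => ⟨hx, hxb⟩⟩
    · exact ⟨0, fun h => absurd h hb⟩
  choose r hr using hrep
  have hmz : (0 : ℤ) < m := by exact_mod_cast hm
  have key : ∀ C : Finset ℤ, C ⊆ Bl → (∀ b ∈ C, ∀ b' ∈ C, b < b' → b + 2 ≤ b') →
      (C.image r) ⊆ T ∧ (C.image r).card = C.card ∧
        ∀ x ∈ C.image r, ∀ y ∈ C.image r, x < y → (m : ℤ) < y - x := by
    intro C hC hpar
    refine ⟨?_, ?_, ?_⟩
    · intro x hx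
      obtain ⟨b, hb, rfl⟩ := Finset.mem_image.1 hx
      exact (hr b (hC hb)).1
    · apply Finset.card_image_of_injOn
      intro b hb b' hb' heq
      rw [← (hr b (hC hb)).2, ← (hr b' (hC hb')).2, heq]
    · intro x hx y hy hxy
      obtain ⟨b, hb, rfl⟩ := Finset.mem_image.1 hx
      obtain ⟨b', hb', rfl⟩ := Finset.mem_image.1 hy
      have e1 := (hr b (hC hb)).2
      have e2 := (hr b' (hC hb')).2
      have f1 := Int.emod_add_mul_ediv (r b) m
      have f2 := Int.emod_add_mul_ediv (r b') m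
      have g1 := Int.emod_nonneg (r b) hmz.ne'
      have g2 := Int.emod_nonneg (r b') hmz.ne'
      have g3 := Int.emod_lt_of_pos (r b) hmz
      have g4 := Int.emod_lt_of_pos (r b') hmz
      rw [e1] at f1
      rw [e2] at f2
      have hbb : b < b' := by
        by_contra hcon
        rcases eq_or_lt_of_le (not_lt.1 hcon) with h | h
        · subst h
          exact lt_irrefl _ hxy
        · have h5 := hpar b' hb' b hb h
          nlinarith
      have h5 := hpar b hb b' hb' hbb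
      nlinarith
  have hsplit : (Bl.filter fun b => Even b).card + (Bl.filter fun b => ¬ Even b).card = Bl.card :=
    Finset.card_filter_add_card_filter_not _
  rcases le_total (Bl.filter fun b => ¬ Even b).card (Bl.filter fun b => Even b).card with h | h
  · obtain ⟨k1, k2, k3⟩ := key (Bl.filter fun b => Even b) (Finset.filter_subset _ _) (by
      intro b hb b' hb' hlt
      rw [Finset.mem_filter] at hb hb'
      obtain ⟨c, hc⟩ := hb.2
      obtain ⟨c', hc'⟩ := hb'.2
      omega)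
    refine ⟨_, k1, ?_, k3⟩
    rw [k2]
    show Bl.card ≤ _
    omega
  · obtain ⟨k1, k2, k3⟩ := key (Bl.filter fun b => ¬ Even b) (Finset.filter_subset _ _) (by
      intro b hb b' hb' hlt
      rw [Finset.mem_filter, Int.not_even_iff_odd] at hb hb'
      obtain ⟨c, hc⟩ := hb.2
      obtain ⟨c', hc'⟩ := hb'.2
      omega)
    refine ⟨_, k1, ?_, k3⟩
    rw [k2]
    show Bl.card ≤ _
    omega

theorem pack {m : ℕ} (hm : 1 ≤ m) (T Z : Finset ℤ) (a : ℤ) (hZ : ∀ z ∈ Z, a ≤ z ∧ z < a + m) :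
    Nb m T * Z.card ≤ 2 * (T + Z).card := by
  obtain ⟨E, h1, h2, h3⟩ := exists_sep hm T
  have h4 := sep_card h1 (fun x hx y hy h => (h3 x hx y hy h).le) hZ
  calc Nb m T * Z.card ≤ 2 * E.card * Z.card := Nat.mul_le_mul_right _ h2
    _ = 2 * (E.card * Z.card) := by ring
    _ ≤ 2 * (T + Z).card := Nat.mul_le_mul_left _ h4

theorem pack_dil {t : ℝ} (ht : 1 / 2 ≤ t) {m : ℕ} (hm : 1 ≤ m) (B Z : Finset ℤ) (a : ℤ)
    (hZ : ∀ z ∈ Z, a ≤ z ∧ z < a + m) :
    Nb (4 * m) B * Z.card ≤ 2 * (dil t B + Z).card := by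
  obtain ⟨E, h1, h2, h3⟩ := exists_sep (m := 4 * m) (by omega) B
  have hd : ∀ x ∈ E, ∀ y ∈ E, x < y → (m : ℤ) ≤ ⌊t * (y : ℝ)⌋ - ⌊t * (x : ℝ)⌋ ∧
      ⌊t * (x : ℝ)⌋ < ⌊t * (y : ℝ)⌋ := by
    intro x hx y hy hxy
    have h4 := h3 x hx y hy hxy
    have h5 : ((4 * m : ℕ) : ℝ) < (y : ℝ) - x := by exact_mod_cast h4
    push_cast at h5
    have h6 := Int.lt_floor_add_one (t * (y : ℝ))
    have h7 := Int.floor_le (t * (x : ℝ))
    have hm' : (1 : ℝ) ≤ m := by exact_mod_cast hm
    have h8 : (2 * m : ℝ) < t * (y : ℝ) - t * (x : ℝ) := by nlinarith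
    have h9 : ((m : ℤ) : ℝ) ≤ ((⌊t * (y : ℝ)⌋ - ⌊t * (x : ℝ)⌋ : ℤ) : ℝ) := by
      push_cast
      linarith
    have h10 : (m : ℤ) ≤ ⌊t * (y : ℝ)⌋ - ⌊t * (x : ℝ)⌋ := by exact_mod_cast h9
    refine ⟨h10, ?_⟩
    omega
  have hinj : Set.InjOn (fun j : ℤ => ⌊t * (j : ℝ)⌋) (E : Set ℤ) := by
    intro x hx y hy heq
    simp only at heq
    rcases lt_trichotomy x y with h | h | h
    · have := (hd x hx y hy h).2
      omega
    · exact h
    · have := (hd y hy x hx h).2
      omega
  have hcard : (dil t E).card = E.card := Finset.card_image_of_injOn hinj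
  have hsub : dil t E ⊆ dil t B := Finset.image_subset_image h1
  have h4 := sep_card hsub (fun x hx y hy h => by
    obtain ⟨x0, hx0, rfl⟩ := mem_dil.1 hx
    obtain ⟨y0, hy0, rfl⟩ := mem_dil.1 hy
    rcases lt_trichotomy x0 y0 with hlt | he | hlt
    · exact (hd x0 hx0 y0 hy0 hlt).1
    · subst he
      exact absurd h (lt_irrefl _)
    · have := (hd y0 hy0 x0 hx0 hlt).2
      omega) hZ
  rw [hcard] at h4
  calc Nb (4 * m) B * Z.card ≤ 2 * E.card * Z.card := Nat.mul_le_mul_right _ h2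
    _ = 2 * (E.card * Z.card) := by ring
    _ ≤ 2 * (dil t B + Z).card := Nat.mul_le_mul_left _ h4

end C4N
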