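import Mathlib
import Pool.Agent.Work.MP_c4bd3e_lc.N.Defs
import Pool.Agent.Work.MP_c4bd3e_lc.N.Pack

set_option autoImplicit false

/-!
# MP_c4bd3e_lc, negative half, module Vcard

Sizes in an approximate ring.

* `tcard`: `Z = T ∩ [a, a+m)`, `pack`: `Nb m T * |Z| ≤ 2 |T + Z| ≤ 2 |T + T| ≤ 2M`, and `Nb m T ≥ κ (R/m)^D`.
* `vcard`: `x, y ∈ [R/2, R]`, so `(u x + v y)/l` varies in an interval of length `(|u| + |v|)(R/2)/l ≤ 4|u|` (`l ≥ R/2`); so `V = VV l u v T` lies in `[a, a+m)` with `m = 6|u|`.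
  `pack` with `Z = V`: `Nb m T * |V| ≤ 2 |T + V| ≤ 2M`.
-/

namespace C4N

open Finset
open scoped Pointwise

private theorem bound_of_pack {R : ℕ} {D κ M : ℝ} {l : ℤ} {T : Finset ℤ} (h : Rg R D κ M l T) {m : ℕ}
    (hm : 1 ≤ m) {c : ℝ} (hc : 0 ≤ c) (hb : (Nb m T : ℝ) * c ≤ 2 * M) :
    c ≤ 2 * M / κ * ((m : ℝ) / R) ^ D := by
  have hR : (0 : ℝ) < R := by exact_mod_cast h.Rpos
  have hm' : (0 : ℝ) < m := by exact_mod_cast hm
  have h1 := h.lb m hm
  have h2 : κ * ((R : ℝ) / m) ^ D * c ≤ 2 * M := (mul_le_mul_of_nonneg_right h1 hc).trans hb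
  have h3 : ((R : ℝ) / m) ^ D * ((m : ℝ) / R) ^ D = 1 := by
    rw [← Real.mul_rpow (by positivity) (by positivity)]
    rw [div_mul_div_cancel₀ hm'.ne', div_self hR.ne', Real.one_rpow]
  have h4 : (0 : ℝ) ≤ ((m : ℝ) / R) ^ D := by positivity
  have hk := h.kpos
  have h5 : c = (κ * ((R : ℝ) / m) ^ D * c) * (((m : ℝ) / R) ^ D / κ) := by
    rw [show (κ * ((R : ℝ) / m) ^ D * c) * (((m : ℝ) / R) ^ D / κ) =
      (((R : ℝ) / m) ^ D * ((m : ℝ) / R) ^ D) * c * (κ / κ) by ring, h3, div_self hk.ne']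
    ring
  rw [h5]
  calc _ ≤ 2 * M * (((m : ℝ) / R) ^ D / κ) := mul_le_mul_of_nonneg_right h2 (by positivity)
    _ = 2 * M / κ * ((m : ℝ) / R) ^ D := by ring

theorem tcard {R : ℕ} {D κ M : ℝ} {l : ℤ} {T : Finset ℤ} (h : Rg R D κ M l T) {m : ℕ} (hm : 1 ≤ m) (a : ℤ) :
    ((T.filter (fun x => a ≤ x ∧ x < a + m)).card : ℝ) ≤ 2 * M / κ * ((m : ℝ) / R) ^ D := by
  refine bound_of_pack h hm (by positivity) ?_
  have h1 := pack hm T (T.filter (fun x => a ≤ x ∧ x < a + m)) a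
    (fun z hz => (Finset.mem_filter.1 hz).2)
  have h2 : (T + T.filter (fun x => a ≤ x ∧ x < a + m)).card ≤ (T + T).card :=
    Finset.card_le_card (Finset.add_subset_add_left (Finset.filter_subset _ _))
  have h3 : Nb m T * (T.filter (fun x => a ≤ x ∧ x < a + m)).card ≤ 2 * (T + T).card :=
    h1.trans (Nat.mul_le_mul_left _ h2)
  have h4 : (Nb m T : ℝ) * ((T.filter (fun x => a ≤ x ∧ x < a + m)).card : ℝ) ≤
      2 * ((T + T).card : ℝ) := by exact_mod_cast h3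
  linarith [h.ub0]

theorem vcard {R : ℕ} {D κ M : ℝ} {l : ℤ} {T : Finset ℤ} (h : Rg R D κ M l T) {u v : ℤ} (huv : Adm T u v)
    (hu : 1 ≤ |u|) (hv : |v| ≤ 3 * |u|) :
    ((VV l u v T).card : ℝ) ≤ 2 * M / κ * (6 * |(u : ℝ)| / R) ^ D := by
  obtain ⟨m, hm⟩ : ∃ m : ℕ, (m : ℤ) = 6 * |u| := ⟨(6 * |u|).toNat, Int.toNat_of_nonneg (by positivity)⟩
  have hm1 : 1 ≤ m := by omega
  have hmr : (m : ℝ) = 6 * |(u : ℝ)| := by
    have : ((m : ℤ) : ℝ) = ((6 * |u| : ℤ) : ℝ) := by rw [hm]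
    push_cast at this
    exact this
  rw [← hmr]
  refine bound_of_pack h hm1 (by positivity) ?_
  rcases (VV l u v T).eq_empty_or_nonempty with he | hne
  · rw [he, Finset.card_empty]
    have h2 := h.ub0
    have h3 : (0 : ℝ) ≤ ((T + T).card : ℝ) := by positivity
    simp only [Nat.cast_zero, mul_zero]
    linarith
  · have hmin := (VV l u v T).min'_mem hne
    set a := (VV l u v T).min' hne with ha
    have hR : (1 : ℝ) ≤ R := by exact_mod_cast h.Rpos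
    have hl := mem_SS.1 h.l_mem
    have hl2 : (R : ℝ) / 2 ≤ l := by
      have : ((R : ℤ) : ℝ) ≤ ((2 * l : ℤ) : ℝ) := by exact_mod_cast hl.2
      push_cast at this
      linarith
    have hlpos : (0 : ℝ) < l := by linarith
    have hbd : ∀ x ∈ T, (R : ℝ) / 2 ≤ x ∧ (x : ℝ) ≤ R := by
      intro x hx
      have hx' := mem_SS.1 (h.sub hx)
      have h1 : ((R : ℤ) : ℝ) ≤ ((2 * x : ℤ) : ℝ) := by exact_mod_cast hx'.2
      have h2 : (x : ℝ) ≤ ((R : ℤ) : ℝ) := by exact_mod_cast hx'.1.2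
      push_cast at h1 h2
      constructor <;> linarith
    have hu' : (1 : ℝ) ≤ |(u : ℝ)| := by exact_mod_cast hu
    have hv' : |(v : ℝ)| ≤ 3 * |(u : ℝ)| := by exact_mod_cast hv
    have hZ : ∀ z ∈ VV l u v T, a ≤ z ∧ z < a + m := by
      intro z hz
      refine ⟨Finset.min'_le _ _ hz, ?_⟩
      obtain ⟨x, hx, y, hy, hxy⟩ := mem_VV.1 hz
      obtain ⟨x', hx', y', hy', hxy'⟩ := mem_VV.1 hmin
      have f1 := Int.floor_le (((u : ℝ) * x + (v : ℝ) * y) / (l : ℝ))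
      have f2 := Int.lt_floor_add_one (((u : ℝ) * x' + (v : ℝ) * y') / (l : ℝ))
      rw [hxy] at f1
      rw [hxy'] at f2
      have g1 := hbd x hx
      have g2 := hbd y hy
      have g3 := hbd x' hx'
      have g4 := hbd y' hy'
      have k1 : |(x : ℝ) - x'| ≤ (R : ℝ) / 2 := by rw [abs_le]; constructor <;> linarith
      have k2 : |(y : ℝ) - y'| ≤ (R : ℝ) / 2 := by rw [abs_le]; constructor <;> linarith
      have k3 : (u : ℝ) * x + (v : ℝ) * y - ((u : ℝ) * x' + (v : ℝ) * y') ≤ 4 * |(u : ℝ)| * l := by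
        have e : (u : ℝ) * x + (v : ℝ) * y - ((u : ℝ) * x' + (v : ℝ) * y') =
            (u : ℝ) * (x - x') + (v : ℝ) * (y - y') := by ring
        rw [e]
        have e1 : (u : ℝ) * (x - x') ≤ |(u : ℝ)| * ((R : ℝ) / 2) :=
          (le_abs_self _).trans (by rw [abs_mul]; exact mul_le_mul_of_nonneg_left k1 (abs_nonneg _))
        have e2 : (v : ℝ) * (y - y') ≤ (3 * |(u : ℝ)|) * ((R : ℝ) / 2) :=
          (le_abs_self _).trans (by
            rw [abs_mul]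
            exact mul_le_mul hv' k2 (abs_nonneg _) (by positivity))
        have e3 : |(u : ℝ)| * ((R : ℝ) / 2) ≤ |(u : ℝ)| * l :=
          mul_le_mul_of_nonneg_left hl2 (abs_nonneg _)
        linarith
      have k4 : ((u : ℝ) * x + (v : ℝ) * y) / l - ((u : ℝ) * x' + (v : ℝ) * y') / l ≤
          4 * |(u : ℝ)| := by
        rw [← sub_div, div_le_iff₀ hlpos]
        exact k3
      have k5 : (z : ℝ) < (a : ℝ) + m := by
        rw [hmr]
        linarith
      exact_mod_cast k5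
    have h1 := pack hm1 T (VV l u v T) a hZ
    have h4 : (Nb m T : ℝ) * ((VV l u v T).card : ℝ) ≤ 2 * ((T + VV l u v T).card : ℝ) := by
      exact_mod_cast h1
    linarith [h.ub u v huv]

/-- `T` is not small -/
theorem card_T_ge {R : ℕ} {D κ M : ℝ} {l : ℤ} {T : Finset ℤ} (h : Rg R D κ M l T) :
    κ * (R : ℝ) ^ D ≤ (T.card : ℝ) := by
  have h1 := h.lb 1 le_rfl
  have h2 : Nb 1 T = T.card := by
    rw [Nb]
    simp
  rw [h2] at h1
  simpa using h1

end C4N
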