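import Mathlib
import Pool.Agent.Work.MP_c4bd3e_lc.N.Defs
import Pool.Agent.Work.MP_c4bd3e_lc.N.Vcard

set_option autoImplicit false

/-!
# MP_c4bd3e_lc, negative half, module Cls

Collisions. `φ(x,y) = ⌊(u x + v y)/l⌋` maps `T × T` to `V = VV l u v T`, `|V| ≤ (2M/κ)(6|u|/R)^D`, `M = Λ R^D`. Let `C` be the largest class: `|C||V| ≥ |T|² ≥ κ²R^(2D)`.
Two elements of `C` have `|(u x + v y) - (u x' + v y')| < l`. For a fixed `y` the `x` with `(x,y) ∈ C` have pairwise distances `< l/|u|`, so they lie in an interval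
`[a, a+n)`, `n = ⌈l/|u|⌉ ≤ 2R/|u|` (`|u| ≤ R`), and their number is `≤ (2M/κ)(2/|u|)^D` (`tcard`). So with `Y` the set of second coordinates
`κ²R^(2D) ≤ |V||Y|(2M/κ)(2/|u|)^D ≤ |Y| (4M²/κ²) (12/R)^D`, `(12/R)^D ≤ 12 R^(-D)`, i.e. `|Y| ≥ κ⁴R^D/(48Λ²)`.
-/

namespace C4N

open Finset
open scoped Pointwise

theorem cls {R : ℕ} {D κ Λ : ℝ} {l : ℤ} {T : Finset ℤ} (h : Rg R D κ (Λ * (R : ℝ) ^ D) l T) (hD0 : 0 ≤ D)
    (hD1 : D ≤ 1) (hΛ : 1 ≤ Λ) {u v : ℤ} (huv : Adm T u v) (hu : 1 ≤ |u|) (huR : |u| ≤ R)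
    (hv : |v| ≤ 3 * |u|) :
    ∃ C : Finset (ℤ × ℤ), C ⊆ T ×ˢ T ∧
      (∀ a ∈ C, ∀ b ∈ C, |u * (a.1 - b.1) + v * (a.2 - b.2)| < l) ∧
      κ ^ 4 / (48 * Λ ^ 2) * (R : ℝ) ^ D ≤ ((C.image Prod.snd).card : ℝ) := by
  classical
  set M : ℝ := Λ * (R : ℝ) ^ D with hM
  have hR1 : (1 : ℝ) ≤ R := by exact_mod_cast h.Rpos
  have hR0 : (0 : ℝ) < R := by linarith
  have hRD : 0 < (R : ℝ) ^ D := Real.rpow_pos_of_pos hR0 D
  have hκ := h.kpos
  have hM0 : 0 < M := by positivity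
  have hlS := mem_SS.1 h.l_mem
  have hRz : (1 : ℤ) ≤ R := by exact_mod_cast h.Rpos
  have hl0 : 0 < l := by omega
  have hlr : (0 : ℝ) < l := by exact_mod_cast hl0
  have hlR : (l : ℝ) ≤ R := by exact_mod_cast hlS.1.2
  have hur : (1 : ℝ) ≤ |(u : ℝ)| := by
    have : ((1 : ℤ) : ℝ) ≤ ((|u| : ℤ) : ℝ) := by exact_mod_cast hu
    simpa using this
  have huRr : |(u : ℝ)| ≤ R := by
    have : ((|u| : ℤ) : ℝ) ≤ ((R : ℤ) : ℝ) := by exact_mod_cast huR
    simpa using this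
  have hu0 : (0 : ℝ) < |(u : ℝ)| := by linarith
  have hT := card_T_ge h
  have hTpos : (0 : ℝ) < T.card := lt_of_lt_of_le (by positivity) hT
  have hTne : T.Nonempty := by
    rw [← Finset.card_pos]
    exact_mod_cast hTpos
  set φ : ℤ × ℤ → ℤ := fun x => ⌊((u : ℝ) * x.1 + (v : ℝ) * x.2) / (l : ℝ)⌋ with hφ
  have hmaps : ∀ a ∈ T ×ˢ T, φ a ∈ VV l u v T := fun a ha => Finset.mem_image_of_mem φ ha
  have hVne : (VV l u v T).Nonempty := by
    obtain ⟨t, ht⟩ := hTne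
    exact ⟨_, hmaps (t, t) (Finset.mem_product.2 ⟨ht, ht⟩)⟩
  have hVpos : (0 : ℝ) < (VV l u v T).card := by exact_mod_cast hVne.card_pos
  obtain ⟨w, hw, hwc⟩ := Finset.exists_le_card_fiber_of_nsmul_le_card_of_maps_to
    (b := ((T.card : ℝ) ^ 2 / (VV l u v T).card)) hmaps hVne (by
      rw [nsmul_eq_mul, mul_div_cancel₀ _ hVpos.ne', Finset.card_product]
      push_cast
      rw [sq])
  set C := (T ×ˢ T).filter (fun x => φ x = w) with hC
  have hCT : C ⊆ T ×ˢ T := Finset.filter_subset _ _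
  have hcl : ∀ a ∈ C, ∀ b ∈ C, |u * (a.1 - b.1) + v * (a.2 - b.2)| < l := by
    intro a ha b hb
    have h1 : φ a = φ b := ((Finset.mem_filter.1 ha).2).trans ((Finset.mem_filter.1 hb).2).symm
    have h2 := Int.abs_sub_lt_one_of_floor_eq_floor h1
    rw [← sub_div, abs_div, abs_of_pos hlr, div_lt_one hlr] at h2
    have h3 : ((|u * (a.1 - b.1) + v * (a.2 - b.2)| : ℤ) : ℝ) < l := by
      push_cast
      rw [show (u : ℝ) * (a.1 - b.1) + v * (a.2 - b.2) =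
        ((u : ℝ) * a.1 + v * a.2) - ((u : ℝ) * b.1 + v * b.2) by ring]
      exact h2
    exact_mod_cast h3
  refine ⟨C, hCT, hcl, ?_⟩
  set Y := C.image Prod.snd with hY
  set n : ℕ := ⌈(l : ℝ) / |(u : ℝ)|⌉₊ with hn
  have hlu : 0 < (l : ℝ) / |(u : ℝ)| := by positivity
  have hn1 : 1 ≤ n := Nat.one_le_iff_ne_zero.2 (by
    have := Nat.ceil_pos.2 hlu
    omega)
  have hnle : (l : ℝ) / |(u : ℝ)| ≤ n := Nat.le_ceil _
  have hnub : (n : ℝ) / R ≤ 2 / |(u : ℝ)| := by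
    have h1 : (n : ℝ) < (l : ℝ) / |(u : ℝ)| + 1 := Nat.ceil_lt_add_one hlu.le
    have h2 : (l : ℝ) / |(u : ℝ)| ≤ (R : ℝ) / |(u : ℝ)| := div_le_div_of_nonneg_right hlR hu0.le
    have h3 : (1 : ℝ) ≤ (R : ℝ) / |(u : ℝ)| := by
      rw [le_div_iff₀ hu0]
      linarith
    have h4 : (n : ℝ) ≤ 2 * ((R : ℝ) / |(u : ℝ)|) := by linarith
    rw [div_le_iff₀ hR0]
    calc (n : ℝ) ≤ 2 * ((R : ℝ) / |(u : ℝ)|) := h4
      _ = 2 / |(u : ℝ)| * R := by ring
  set B : ℝ := 2 * M / κ * (2 / |(u : ℝ)|) ^ D with hB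
  have hfib : ∀ y ∈ Y, ((C.filter (fun p => p.2 = y)).card : ℝ) ≤ B := by
    intro y _
    set F := C.filter (fun p => p.2 = y) with hF
    have hcardF : F.card = (F.image Prod.fst).card := by
      rw [Finset.card_image_of_injOn]
      intro p hp q hq hpq
      have hp2 := (Finset.mem_filter.1 hp).2
      have hq2 := (Finset.mem_filter.1 hq).2
      exact Prod.ext hpq (hp2.trans hq2.symm)
    rw [hcardF]
    by_cases hne : (F.image Prod.fst).Nonempty
    · obtain ⟨a, haF, hamin⟩ := Finset.exists_min_image (F.image Prod.fst) id hne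
      have hsub : F.image Prod.fst ⊆ T.filter (fun x => a ≤ x ∧ x < a + n) := by
        intro x hx
        obtain ⟨p, hp, rfl⟩ := Finset.mem_image.1 hx
        obtain ⟨q, hq, rfl⟩ := Finset.mem_image.1 haF
        have hpC := (Finset.mem_filter.1 hp).1
        have hqC := (Finset.mem_filter.1 hq).1
        have hp2 := (Finset.mem_filter.1 hp).2
        have hq2 := (Finset.mem_filter.1 hq).2
        have hle : q.1 ≤ p.1 := hamin _ hx
        refine Finset.mem_filter.2 ⟨(Finset.mem_product.1 (hCT hpC)).1, hle, ?_⟩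
        have h1 := hcl p hpC q hqC
        rw [hp2, hq2, sub_self, mul_zero, add_zero, abs_mul] at h1
        have h2 : |(u : ℝ)| * ((p.1 : ℝ) - q.1) < l := by
          have h3 : ((|u| * |p.1 - q.1| : ℤ) : ℝ) < (l : ℝ) := by exact_mod_cast h1
          push_cast at h3
          have h4 : (0 : ℝ) ≤ (p.1 : ℝ) - q.1 := by
            have : (q.1 : ℝ) ≤ p.1 := by exact_mod_cast hle
            linarith
          rwa [abs_of_nonneg h4] at h3
        have h5 : (p.1 : ℝ) - q.1 < n := by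
          have : (p.1 : ℝ) - q.1 < (l : ℝ) / |(u : ℝ)| := by
            rw [lt_div_iff₀ hu0]
            linarith
          linarith
        have h6 : ((p.1 - q.1 : ℤ) : ℝ) < ((n : ℤ) : ℝ) := by
          push_cast
          exact h5
        have h7 : p.1 - q.1 < (n : ℤ) := by exact_mod_cast h6
        omega
      calc ((F.image Prod.fst).card : ℝ) ≤ ((T.filter (fun x => a ≤ x ∧ x < a + n)).card : ℝ) := by
            exact_mod_cast Finset.card_le_card hsub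
        _ ≤ 2 * M / κ * ((n : ℝ) / R) ^ D := tcard h hn1 a
        _ ≤ B := by
            apply mul_le_mul_of_nonneg_left _ (by positivity)
            exact Real.rpow_le_rpow (by positivity) hnub hD0
    · rw [Finset.not_nonempty_iff_eq_empty] at hne
      rw [hne, Finset.card_empty, Nat.cast_zero]
      positivity
  have hCY : (C.card : ℝ) ≤ Y.card * B := by
    rw [Finset.card_eq_sum_card_image Prod.snd C]
    push_cast
    calc ∑ y ∈ C.image Prod.snd, ((C.filter (fun p => p.2 = y)).card : ℝ)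
        ≤ ∑ _y ∈ C.image Prod.snd, B := Finset.sum_le_sum hfib
      _ = Y.card * B := by rw [Finset.sum_const, nsmul_eq_mul]
  have hV := vcard h huv hu hv
  have hTC : (T.card : ℝ) ^ 2 ≤ C.card * (VV l u v T).card := by
    rwa [div_le_iff₀ hVpos] at hwc
  have hB0 : 0 ≤ B := by positivity
  have h12 : (2 / |(u : ℝ)|) ^ D * (6 * |(u : ℝ)| / R) ^ D ≤ 12 / (R : ℝ) ^ D := by
    rw [← Real.mul_rpow (by positivity) (by positivity)]
    have e1 : 2 / |(u : ℝ)| * (6 * |(u : ℝ)| / R) = 12 / R := by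
      field_simp
      norm_num
    rw [e1, Real.div_rpow (by norm_num) hR0.le]
    apply div_le_div_of_nonneg_right _ hRD.le
    calc (12 : ℝ) ^ D ≤ 12 ^ (1 : ℝ) := Real.rpow_le_rpow_of_exponent_le (by norm_num) hD1
      _ = 12 := Real.rpow_one _
  have hmain : (κ * (R : ℝ) ^ D) ^ 2 ≤ Y.card * (4 * M ^ 2 / κ ^ 2 * (12 / (R : ℝ) ^ D)) := by
    calc (κ * (R : ℝ) ^ D) ^ 2 ≤ (T.card : ℝ) ^ 2 := pow_le_pow_left₀ (by positivity) hT 2
      _ ≤ C.card * (VV l u v T).card := hTC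
      _ ≤ (Y.card * B) * (2 * M / κ * (6 * |(u : ℝ)| / R) ^ D) :=
          mul_le_mul hCY hV hVpos.le (by positivity)
      _ = Y.card * (4 * M ^ 2 / κ ^ 2 * ((2 / |(u : ℝ)|) ^ D * (6 * |(u : ℝ)| / R) ^ D)) := by
          rw [hB]
          field_simp
          ring
      _ ≤ Y.card * (4 * M ^ 2 / κ ^ 2 * (12 / (R : ℝ) ^ D)) := by
          apply mul_le_mul_of_nonneg_left _ (by positivity)
          apply mul_le_mul_of_nonneg_left h12 (by positivity)
  have hfin : κ ^ 4 * (R : ℝ) ^ D ≤ Y.card * (48 * Λ ^ 2) := by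
    have e2 : (Y.card : ℝ) * (4 * M ^ 2 / κ ^ 2 * (12 / (R : ℝ) ^ D)) =
        Y.card * (48 * Λ ^ 2) * (R : ℝ) ^ D / κ ^ 2 := by
      rw [hM]
      field_simp
      ring
    rw [e2, le_div_iff₀ (by positivity)] at hmain
    have h3 : (κ ^ 4 * (R : ℝ) ^ D) * (R : ℝ) ^ D ≤ (Y.card * (48 * Λ ^ 2)) * (R : ℝ) ^ D := by
      calc (κ ^ 4 * (R : ℝ) ^ D) * (R : ℝ) ^ D = (κ * (R : ℝ) ^ D) ^ 2 * κ ^ 2 := by ring
        _ ≤ _ := hmain
    exact le_of_mul_le_mul_right h3 hRD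
  rw [div_mul_eq_mul_div, div_le_iff₀ (by positivity)]
  exact hfin

end C4N
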