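import Mathlib
import Pool.Agent.Work.MP_c4bd3e_lc.N.Defs
import Pool.Agent.Work.MP_c4bd3e_lc.N.Vcard
import Pool.Agent.Work.MP_c4bd3e_lc.N.Cls

set_option autoImplicit false

/-!
# MP_c4bd3e_lc, negative half, module Halv

If all `y, y' ∈ Y` (second coordinates of the class `C` of `cls`) had `|y - y'| < m` then `Y ⊆ [y_min, y_min + m)`, `|Y| ≤ (2Λ R^D/κ)(m/R)^D` (`tcard`), and
`κ⁵ ≤ 96Λ³(m/R)^D`, which contradicts `1000Λ³(m/R)^D ≤ κ⁵` (`(m/R)^D > 0`). (`C` is nonempty.) `spread`: `T` contains two elements of distance `≥ m`: otherwise `κ R^D ≤ |T| ≤ (2Λ R^D/κ)(m/R)^D`.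
-/

namespace C4N

open Finset
open scoped Pointwise

/-- a set of integers of diameter less than `m` lies in an interval of length `m` -/
private theorem sub_interval {T Y : Finset ℤ} (hY : Y ⊆ T) (hne : Y.Nonempty) {m : ℕ}
    (hd : ∀ y ∈ Y, ∀ y' ∈ Y, |y - y'| < (m : ℤ)) :
    ∃ a : ℤ, Y ⊆ T.filter (fun x => a ≤ x ∧ x < a + m) := by
  refine ⟨Y.min' hne, fun y hy => ?_⟩
  rw [Finset.mem_filter]
  refine ⟨hY hy, Finset.min'_le _ _ hy, ?_⟩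
  have h1 := hd y hy _ (Finset.min'_mem Y hne)
  have h2 := (abs_lt.1 h1).2
  linarith

theorem halv {R : ℕ} {D κ Λ : ℝ} {l : ℤ} {T : Finset ℤ} (h : Rg R D κ (Λ * (R : ℝ) ^ D) l T) (hD0 : 0 ≤ D)
    (hD1 : D ≤ 1) (hΛ : 1 ≤ Λ) {u v : ℤ} (huv : Adm T u v) (hu : 1 ≤ |u|) (huR : |u| ≤ R)
    (hv : |v| ≤ 3 * |u|) {m : ℕ} (hm : 1 ≤ m) (hsm : 1000 * Λ ^ 3 * ((m : ℝ) / R) ^ D ≤ κ ^ 5) :
    ∃ x ∈ T, ∃ x' ∈ T, ∃ y ∈ T, ∃ y' ∈ T,
      |u * (x - x') + v * (y - y')| < l ∧ (m : ℤ) ≤ |y - y'| := by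
  obtain ⟨C, hC, hC1, hC2⟩ := cls h hD0 hD1 hΛ huv hu huR hv
  have hR : (0 : ℝ) < R := by
    have := h.Rpos
    exact_mod_cast this
  have hRD : (0 : ℝ) < (R : ℝ) ^ D := Real.rpow_pos_of_pos hR D
  have hm' : (0 : ℝ) < m := by exact_mod_cast hm
  have hmD : (0 : ℝ) < ((m : ℝ) / R) ^ D := Real.rpow_pos_of_pos (div_pos hm' hR) D
  have hκ := h.kpos
  have hΛ0 : (0 : ℝ) < Λ := by linarith
  by_contra hcon
  push Not at hcon
  have hYT : C.image Prod.snd ⊆ T := by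
    intro y hy
    obtain ⟨c, hc, rfl⟩ := Finset.mem_image.1 hy
    exact (Finset.mem_product.1 (hC hc)).2
  have hd : ∀ y ∈ C.image Prod.snd, ∀ y' ∈ C.image Prod.snd, |y - y'| < (m : ℤ) := by
    intro y hy y' hy'
    obtain ⟨c, hc, rfl⟩ := Finset.mem_image.1 hy
    obtain ⟨c', hc', rfl⟩ := Finset.mem_image.1 hy'
    have h1 := Finset.mem_product.1 (hC hc)
    have h2 := Finset.mem_product.1 (hC hc')
    exact hcon c.1 h1.1 c'.1 h2.1 c.2 h1.2 c'.2 h2.2 (hC1 c hc c' hc')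
  have hpos : 0 < κ ^ 4 / (48 * Λ ^ 2) * (R : ℝ) ^ D := by positivity
  have hne : (C.image Prod.snd).Nonempty := by
    rw [← Finset.card_pos]
    have : (0 : ℝ) < ((C.image Prod.snd).card : ℝ) := lt_of_lt_of_le hpos hC2
    exact_mod_cast this
  obtain ⟨a, ha⟩ := sub_interval hYT hne hd
  have h3 := tcard h hm a
  have h4 : ((C.image Prod.snd).card : ℝ) ≤
      ((T.filter (fun x => a ≤ x ∧ x < a + m)).card : ℝ) := by
    exact_mod_cast Finset.card_le_card ha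
  have h5 := le_trans hC2 (le_trans h4 h3)
  have h6 : κ ^ 4 / (48 * Λ ^ 2) ≤ 2 * Λ / κ * ((m : ℝ) / R) ^ D := by
    have : κ ^ 4 / (48 * Λ ^ 2) * (R : ℝ) ^ D ≤ (2 * Λ / κ * ((m : ℝ) / R) ^ D) * (R : ℝ) ^ D := by
      calc κ ^ 4 / (48 * Λ ^ 2) * (R : ℝ) ^ D
          ≤ 2 * (Λ * (R : ℝ) ^ D) / κ * ((m : ℝ) / R) ^ D := h5
        _ = _ := by ring
    exact le_of_mul_le_mul_right this hRD
  rw [div_le_iff₀ (by positivity)] at h6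
  have h7 : κ ^ 5 ≤ 96 * Λ ^ 3 * ((m : ℝ) / R) ^ D := by
    calc κ ^ 5 = κ ^ 4 * κ := by ring
      _ ≤ (2 * Λ / κ * ((m : ℝ) / R) ^ D * (48 * Λ ^ 2)) * κ :=
        mul_le_mul_of_nonneg_right h6 hκ.le
      _ = 96 * Λ ^ 3 * ((m : ℝ) / R) ^ D := by
        field_simp
        ring
  have h8 : 0 < Λ ^ 3 * ((m : ℝ) / R) ^ D := by positivity
  nlinarith

theorem spread {R : ℕ} {D κ Λ : ℝ} {l : ℤ} {T : Finset ℤ} (h : Rg R D κ (Λ * (R : ℝ) ^ D) l T) (hD0 : 0 ≤ D)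
    (hΛ : 1 ≤ Λ) {m : ℕ} (hm : 1 ≤ m) (hsm : 1000 * Λ ^ 3 * ((m : ℝ) / R) ^ D ≤ κ ^ 5) :
    ∃ y ∈ T, ∃ y' ∈ T, (m : ℤ) ≤ |y - y'| := by
  have hR : (0 : ℝ) < R := by
    have := h.Rpos
    exact_mod_cast this
  have hRD : (0 : ℝ) < (R : ℝ) ^ D := Real.rpow_pos_of_pos hR D
  have hm' : (0 : ℝ) < m := by exact_mod_cast hm
  have hmD : (0 : ℝ) < ((m : ℝ) / R) ^ D := Real.rpow_pos_of_pos (div_pos hm' hR) D
  have hκ := h.kpos
  have hΛ0 : (0 : ℝ) < Λ := by linarith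
  by_contra hcon
  push Not at hcon
  have h1 := card_T_ge h
  have hne : T.Nonempty := by
    rw [← Finset.card_pos]
    have : (0 : ℝ) < (T.card : ℝ) := lt_of_lt_of_le (by positivity) h1
    exact_mod_cast this
  obtain ⟨a, ha⟩ := sub_interval (Finset.Subset.refl T) hne hcon
  have h3 := tcard h hm a
  have h4 : (T.card : ℝ) ≤ ((T.filter (fun x => a ≤ x ∧ x < a + m)).card : ℝ) := by
    exact_mod_cast Finset.card_le_card ha
  have h5 := le_trans h1 (le_trans h4 h3)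
  have h6 : κ ≤ 2 * Λ / κ * ((m : ℝ) / R) ^ D := by
    have : κ * (R : ℝ) ^ D ≤ (2 * Λ / κ * ((m : ℝ) / R) ^ D) * (R : ℝ) ^ D := by
      calc κ * (R : ℝ) ^ D
          ≤ 2 * (Λ * (R : ℝ) ^ D) / κ * ((m : ℝ) / R) ^ D := h5
        _ = _ := by ring
    exact le_of_mul_le_mul_right this hRD
  have h7 : κ ^ 2 ≤ 2 * Λ * ((m : ℝ) / R) ^ D := by
    calc κ ^ 2 = κ * κ := by ring
      _ ≤ (2 * Λ / κ * ((m : ℝ) / R) ^ D) * κ := mul_le_mul_of_nonneg_right h6 hκ.le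
      _ = 2 * Λ * ((m : ℝ) / R) ^ D := by
        field_simp
  have h9 : κ ^ 5 ≤ κ ^ 2 := pow_le_pow_of_le_one hκ.le h.kle (by norm_num)
  have h10 : Λ * ((m : ℝ) / R) ^ D ≤ Λ ^ 3 * ((m : ℝ) / R) ^ D := by
    apply mul_le_mul_of_nonneg_right _ hmD.le
    nlinarith [mul_pos hΛ0 hΛ0, sq_nonneg (Λ - 1)]
  have h8 : 0 < Λ ^ 3 * ((m : ℝ) / R) ^ D := by positivity
  nlinarith

end C4N
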