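import Mathlib
import Pool.Agent.Work.MP_c4bd3e_lc.N.Defs
import Pool.Agent.Work.MP_c4bd3e_lc.N.Halv

set_option autoImplicit false

/-!
# MP_c4bd3e_lc, negative half, module Dense

The fractions `(l1 - l2)/(l3 - l4)`, `l_i ∈ T`, `|l3 - l4| ≥ m`, are dense in `[0, 1]`.

Proof. `ε = R/(2m²) ≤ 1/2`. If `φ = v/u` is such a fraction (`u = l3 - l4`, `v = l1 - l2`) and `|φ| ≤ 2`, then there are such fractions `φ₁`, `φ₂` with
`|φ₁ - φ/2| ≤ ε`, `|φ₂ - (φ+1)/2| ≤ ε`: apply `halv` to `(2u, v)` and to `(2u, v + u)` (`Adm`; `1 ≤ |2u| ≤ R` since `l3, l4 ∈ [R/2, R]`; `|v| ≤ 2|u|`, `|v+u| ≤ 3|u|`):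
`|2u (x - x') + v (y - y')| < l ≤ R`, so `|v/(2u) - (x' - x)/(y - y')| < R/(2|u||y - y'|) ≤ R/(2m²)`.
By induction on `n`: for all `θ ∈ [0,1]` there is such a fraction `φ` with `|φ - θ| ≤ 2⁻ⁿ + 2ε(1 - 2⁻ⁿ)` (`≤ 1`, so `|φ| ≤ 2`): `n = 0`: `φ = 0` (`spread`); step: `θ ≤ 1/2`: use `2θ` and `φ/2`,
`θ > 1/2`: use `2θ - 1` and `(φ+1)/2`. Finally `2⁻ⁿ ≤ ε`: error `≤ 3ε`.
-/

namespace C4N

open Finset
open scoped Pointwise

/-- `φ` is a fraction of the required kind -/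
private def Fr (T : Finset ℤ) (m : ℕ) (φ : ℝ) : Prop :=
  ∃ l1 ∈ T, ∃ l2 ∈ T, ∃ l3 ∈ T, ∃ l4 ∈ T, (m : ℤ) ≤ |l3 - l4| ∧
    ((l1 : ℝ) - l2) / ((l3 : ℝ) - l4) = φ

private theorem close_of {R : ℕ} {l : ℤ} {T : Finset ℤ} (hlR : (l : ℝ) ≤ R) {u w : ℤ} {m : ℕ}
    (hm : 1 ≤ m) (hu : (m : ℤ) ≤ |u|)
    (h : ∃ x ∈ T, ∃ x' ∈ T, ∃ y ∈ T, ∃ y' ∈ T,
      |2 * u * (x - x') + w * (y - y')| < l ∧ (m : ℤ) ≤ |y - y'|) :
    ∃ ψ, Fr T m ψ ∧ |ψ - (w : ℝ) / (2 * u)| ≤ (R : ℝ) / (2 * (m : ℝ) ^ 2) := by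
  obtain ⟨x, hx, x', hx', y, hy, y', hy', h1, h2⟩ := h
  have hm0 : (0 : ℝ) < m := by exact_mod_cast hm
  have hur : (m : ℝ) ≤ |(u : ℝ)| := by
    have : ((m : ℤ) : ℝ) ≤ ((|u| : ℤ) : ℝ) := by exact_mod_cast hu
    simpa using this
  have hyr : (m : ℝ) ≤ |(y : ℝ) - y'| := by
    have : ((m : ℤ) : ℝ) ≤ ((|y - y'| : ℤ) : ℝ) := by exact_mod_cast h2
    simpa using this
  have hu0 : (u : ℝ) ≠ 0 := fun h0 => by
    rw [h0, abs_zero] at hur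
    linarith
  have hy0 : (y : ℝ) - y' ≠ 0 := fun h0 => by
    rw [h0, abs_zero] at hyr
    linarith
  refine ⟨((x' : ℝ) - x) / ((y : ℝ) - y'), ⟨x', hx', x, hx, y, hy, y', hy', h2, rfl⟩, ?_⟩
  have e1 : ((x' : ℝ) - x) / ((y : ℝ) - y') - (w : ℝ) / (2 * u) =
      -((2 * u * (x - x') + w * (y - y')) / (2 * u * (y - y'))) := by
    field_simp
    ring
  have h3 : |2 * (u : ℝ) * (x - x') + w * (y - y')| ≤ R := by
    have : ((|2 * u * (x - x') + w * (y - y')| : ℤ) : ℝ) < (l : ℝ) := by exact_mod_cast h1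
    push_cast at this
    linarith
  rw [e1, abs_neg, abs_div]
  have h4 : 2 * (m : ℝ) ^ 2 ≤ |2 * (u : ℝ) * (y - y')| := by
    rw [abs_mul, abs_mul, abs_two]
    nlinarith
  have h5 : (0 : ℝ) < 2 * (m : ℝ) ^ 2 := by positivity
  calc |2 * (u : ℝ) * (x - x') + w * (y - y')| / |2 * (u : ℝ) * (y - y')|
      ≤ (R : ℝ) / |2 * (u : ℝ) * (y - y')| :=
        div_le_div_of_nonneg_right h3 (abs_nonneg _)
    _ ≤ (R : ℝ) / (2 * (m : ℝ) ^ 2) :=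
        div_le_div_of_nonneg_left (Nat.cast_nonneg _) h5 h4

theorem dense {R : ℕ} {D κ Λ : ℝ} {l : ℤ} {T : Finset ℤ} (h : Rg R D κ (Λ * (R : ℝ) ^ D) l T) (hD0 : 0 ≤ D)
    (hD1 : D ≤ 1) (hΛ : 1 ≤ Λ) {m : ℕ} (hm : 1 ≤ m) (hsm : 1000 * Λ ^ 3 * ((m : ℝ) / R) ^ D ≤ κ ^ 5)
    (hmR : (R : ℝ) ≤ (m : ℝ) ^ 2) (θ : ℝ) (h0 : 0 ≤ θ) (h1 : θ ≤ 1) :
    ∃ l1 ∈ T, ∃ l2 ∈ T, ∃ l3 ∈ T, ∃ l4 ∈ T, (m : ℤ) ≤ |l3 - l4| ∧
      |((l1 : ℝ) - l2) / ((l3 : ℝ) - l4) - θ| ≤ 3 * (R : ℝ) / (2 * (m : ℝ) ^ 2) := by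
  have hR1 : (1 : ℝ) ≤ R := by exact_mod_cast h.Rpos
  have hm0 : (0 : ℝ) < m := by exact_mod_cast hm
  have hlS := mem_SS.1 h.l_mem
  have hlR : (l : ℝ) ≤ R := by exact_mod_cast hlS.1.2
  set ε : ℝ := (R : ℝ) / (2 * (m : ℝ) ^ 2) with hε
  have hε0 : 0 < ε := by positivity
  have hε1 : ε ≤ 1 / 2 := by
    rw [hε, div_le_iff₀ (by positivity)]
    linarith
  -- the two steps
  have hstep : ∀ φ : ℝ, Fr T m φ → |φ| ≤ 2 →
      (∃ ψ, Fr T m ψ ∧ |ψ - φ / 2| ≤ ε) ∧ ∃ ψ, Fr T m ψ ∧ |ψ - (φ + 1) / 2| ≤ ε := by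
    intro φ hφ hφ2
    obtain ⟨l1, hl1, l2, hl2, l3, hl3, l4, hl4, hm34, rfl⟩ := hφ
    have hS3 := mem_SS.1 (h.sub hl3)
    have hS4 := mem_SS.1 (h.sub hl4)
    set u : ℤ := l3 - l4 with hu
    set v : ℤ := l1 - l2 with hv
    have huR : |2 * u| ≤ R := by
      rw [abs_le]
      constructor <;> omega
    have hu1 : 1 ≤ |2 * u| := by
      rw [abs_mul]
      have : (1 : ℤ) ≤ m := by exact_mod_cast hm
      have h2 : |(2 : ℤ)| = 2 := rfl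
      rw [h2]
      omega
    have hmu : (0 : ℤ) < |u| := by
      have : (1 : ℤ) ≤ m := by exact_mod_cast hm
      omega
    have hu0 : u ≠ 0 := fun h0 => by
      rw [h0, abs_zero] at hmu
      omega
    have hur0 : (u : ℝ) ≠ 0 := by exact_mod_cast hu0
    have eφ : ((l1 : ℝ) - l2) / ((l3 : ℝ) - l4) = (v : ℝ) / u := by
      rw [hu, hv]
      push_cast
      rfl
    rw [eφ] at hφ2 ⊢
    have hvu : |v| ≤ 2 * |u| := by
      rw [abs_div, div_le_iff₀ (abs_pos.2 hur0)] at hφ2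
      have : ((|v| : ℤ) : ℝ) ≤ ((2 * |u| : ℤ) : ℝ) := by
        push_cast
        exact hφ2
      exact_mod_cast this
    have hvu' : |v + u| ≤ 3 * |u| := by
      have := abs_add_le v u
      omega
    have h2u : |2 * u| = 2 * |u| := by
      rw [abs_mul]
      rfl
    constructor
    · have h3 := halv (u := 2 * u) (v := v) h hD0 hD1 hΛ
        ⟨l1, hl1, l2, hl2, l3, hl3, l4, hl4, Or.inr (Or.inl ⟨rfl, rfl⟩)⟩ hu1 huR (by omega) hm hsm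
      obtain ⟨ψ, hψ, h4⟩ := close_of hlR hm hm34 h3
      refine ⟨ψ, hψ, ?_⟩
      have e : (v : ℝ) / u / 2 = (v : ℝ) / (2 * u) := by
        rw [div_div, mul_comm]
      rw [e]
      exact h4
    · have h3 := halv (u := 2 * u) (v := v + u) h hD0 hD1 hΛ
        ⟨l1, hl1, l2, hl2, l3, hl3, l4, hl4, Or.inr (Or.inr ⟨rfl, rfl⟩)⟩ hu1 huR (by omega) hm hsm
      obtain ⟨ψ, hψ, h4⟩ := close_of hlR hm hm34 h3
      refine ⟨ψ, hψ, ?_⟩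
      have e : ((v : ℝ) / u + 1) / 2 = ((v + u : ℤ) : ℝ) / (2 * u) := by
        push_cast
        field_simp
      rw [e]
      exact h4
  have hind : ∀ n : ℕ, ∀ θ : ℝ, 0 ≤ θ → θ ≤ 1 →
      ∃ φ, Fr T m φ ∧ |φ - θ| ≤ (1 / 2) ^ n + 2 * ε * (1 - (1 / 2) ^ n) := by
    intro n
    induction n with
    | zero =>
      intro θ h0 h1
      obtain ⟨y, hy, y', hy', hyy⟩ := spread h hD0 hΛ hm hsm
      refine ⟨0, ⟨y, hy, y, hy, y, hy, y', hy', hyy, by rw [sub_self, zero_div]⟩, ?_⟩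
      rw [pow_zero, sub_self, mul_zero, add_zero, zero_sub, abs_neg, abs_of_nonneg h0]
      exact h1
    | succ n ih =>
      intro θ h0 h1
      have hp : (0 : ℝ) < (1 / 2) ^ n := by positivity
      have hp1 : ((1 : ℝ) / 2) ^ n ≤ 1 := pow_le_one₀ (by norm_num) (by norm_num)
      have hle1 : (1 / 2 : ℝ) ^ n + 2 * ε * (1 - (1 / 2) ^ n) ≤ 1 := by
        nlinarith
      have hpow : ((1 : ℝ) / 2) ^ (n + 1) = (1 / 2) ^ n / 2 := by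
        rw [pow_succ]
        ring
      by_cases hθ : θ ≤ 1 / 2
      · obtain ⟨φ, hφ, hφ1⟩ := ih (2 * θ) (by linarith) (by linarith)
        have hφ2 : |φ| ≤ 2 := by
          have h2 := abs_le.1 (hφ1.trans hle1)
          rw [abs_le]
          constructor <;> linarith [h2.1, h2.2]
        obtain ⟨ψ, hψ, h3⟩ := (hstep φ hφ hφ2).1
        refine ⟨ψ, hψ, ?_⟩
        rw [hpow]
        have h4 := abs_le.1 hφ1
        have h5 := abs_le.1 h3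
        rw [abs_le]
        constructor <;> nlinarith [h4.1, h4.2, h5.1, h5.2]
      · push Not at hθ
        obtain ⟨φ, hφ, hφ1⟩ := ih (2 * θ - 1) (by linarith) (by linarith)
        have hφ2 : |φ| ≤ 2 := by
          have h2 := abs_le.1 (hφ1.trans hle1)
          rw [abs_le]
          constructor <;> linarith [h2.1, h2.2]
        obtain ⟨ψ, hψ, h3⟩ := (hstep φ hφ hφ2).2
        refine ⟨ψ, hψ, ?_⟩
        rw [hpow]
        have h4 := abs_le.1 hφ1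
        have h5 := abs_le.1 h3
        rw [abs_le]
        constructor <;> nlinarith [h4.1, h4.2, h5.1, h5.2]
  obtain ⟨n, hn⟩ := exists_pow_lt_of_lt_one hε0 (show (1 / 2 : ℝ) < 1 by norm_num)
  obtain ⟨φ, ⟨l1, hl1, l2, hl2, l3, hl3, l4, hl4, h5, rfl⟩, h6⟩ := hind n θ h0 h1
  refine ⟨l1, hl1, l2, hl2, l3, hl3, l4, hl4, h5, h6.trans ?_⟩
  have hp : (0 : ℝ) < (1 / 2) ^ n := by positivity
  have e : 3 * (R : ℝ) / (2 * (m : ℝ) ^ 2) = 3 * ε := by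
    rw [hε]
    ring
  rw [e]
  nlinarith

end C4N
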