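import Mathlib
import Pool.Agent.Work.MP_c4bd3e_lc.N.Defs
import Pool.Agent.Work.MP_c4bd3e_lc.N.Vcard
import Pool.Agent.Work.MP_c4bd3e_lc.N.Cls
import Pool.Agent.Work.MP_c4bd3e_lc.N.Dense

set_option autoImplicit false

/-!
# MP_c4bd3e_lc, negative half, module Last

The end of the finite argument.

Proof. `s = 5R/m²`, `θ_i = i s` for `0 ≤ i ≤ ⌊1/s⌋` (at least `1/s = m²/(5R)` values in `[0,1]`). `dense`: `u_i = l3 - l4`, `v_i = l1 - l2`, `|u_i| ≥ m`, `|v_i/u_i - θ_i| ≤ 3R/(2m²) ≤ 3/2`,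
so `|v_i| ≤ 3|u_i|`, `|u_i| ≤ R`. `cls`: class `C_i` with `|Y_i| ≥ κ⁴R^D/(48Λ²)`. Fix `(x0, y0) ∈ C_i`. By `tcard` the `y ∈ T` with `|y - y0| < m` number
`≤ (2Λ R^D/κ)(2m/R)^D ≤ (4Λ R^D/κ) κ⁵/(1000Λ³) ≤ κ⁴R^D/(96Λ²)`. So the set `G_i` of the pairs `(x - x0, y - y0)`, `(x,y) ∈ C_i`, `|y - y0| ≥ m`, has at least `κ⁴R^D/(96Λ²)` elements;
`G_i ⊆ (T - T)²`. For `(g', g) ∈ G_i`: `|u_i g' + v_i g| < l ≤ R`, so `|g'/g + v_i/u_i| < R/m²` and `|g'/g + θ_i| < 5R/(2m²)`: the `G_i` are pairwise disjoint.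
`|T - T| ≤ |T + T|²/|T| ≤ (Λ²/κ)R^D` (`Finset.ruzsa_triangle_inequality_sub_add_add`). So `(m²/(5R)) κ⁴R^D/(96Λ²) ≤ Λ⁴R^(2D)/κ²`.
-/

namespace C4N

open Finset
open scoped Pointwise

private theorem exG {R : ℕ} {D κ Λ : ℝ} {l : ℤ} {T : Finset ℤ}
    (h : Rg R D κ (Λ * (R : ℝ) ^ D) l T) (hD0 : 0 ≤ D)
    (hD1 : D ≤ 1) (hΛ : 1 ≤ Λ) {m : ℕ} (hm : 1 ≤ m) (hsm : 1000 * Λ ^ 3 * ((m : ℝ) / R) ^ D ≤ κ ^ 5)
    (hmR : (R : ℝ) ≤ (m : ℝ) ^ 2) (θ : ℝ) (h0 : 0 ≤ θ) (h1 : θ ≤ 1) :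
    ∃ G : Finset (ℤ × ℤ), G ⊆ (T - T) ×ˢ (T - T) ∧
      κ ^ 4 / (96 * Λ ^ 2) * (R : ℝ) ^ D ≤ (G.card : ℝ) ∧
      ∀ g ∈ G, |(g.1 : ℝ) / g.2 + θ| < 5 * R / (2 * (m : ℝ) ^ 2) := by
  classical
  have hR1 : (1 : ℝ) ≤ R := by exact_mod_cast h.Rpos
  have hR0 : (0 : ℝ) < R := by linarith
  have hRD : 0 < (R : ℝ) ^ D := Real.rpow_pos_of_pos hR0 D
  have hm0 : (0 : ℝ) < m := by exact_mod_cast hm
  have hmz : (1 : ℤ) ≤ m := by exact_mod_cast hm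
  have hκ := h.kpos
  have hΛ0 : 0 < Λ := by linarith
  have hlS := mem_SS.1 h.l_mem
  have hlR : (l : ℝ) ≤ R := by exact_mod_cast hlS.1.2
  obtain ⟨l1, hl1, l2, hl2, l3, hl3, l4, hl4, hm34, hθ⟩ := dense h hD0 hD1 hΛ hm hsm hmR θ h0 h1
  obtain ⟨u, hu⟩ : ∃ u : ℤ, u = l3 - l4 := ⟨_, rfl⟩
  obtain ⟨v, hv⟩ : ∃ v : ℤ, v = l1 - l2 := ⟨_, rfl⟩
  have hadm : Adm T u v := ⟨l1, hl1, l2, hl2, l3, hl3, l4, hl4, Or.inl ⟨hu, hv⟩⟩
  rw [← hu] at hm34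
  have e1 : ((l1 : ℝ) - l2) / ((l3 : ℝ) - l4) = (v : ℝ) / u := by
    rw [hu, hv]
    push_cast
    rfl
  rw [e1] at hθ
  have hu1 : 1 ≤ |u| := hmz.trans hm34
  have huR : |u| ≤ R := by
    have hS3 := mem_SS.1 (h.sub hl3)
    have hS4 := mem_SS.1 (h.sub hl4)
    rw [hu, abs_le]
    constructor <;> omega
  have hur : (m : ℝ) ≤ |(u : ℝ)| := by
    have : ((m : ℤ) : ℝ) ≤ ((|u| : ℤ) : ℝ) := by exact_mod_cast hm34
    simpa using this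
  have hu0 : (0 : ℝ) < |(u : ℝ)| := by linarith
  have hur0 : (u : ℝ) ≠ 0 := abs_pos.1 hu0
  have hε : 3 * (R : ℝ) / (2 * (m : ℝ) ^ 2) ≤ 3 / 2 := by
    rw [div_le_div_iff₀ (by positivity) (by norm_num)]
    linarith
  have hv3 : |v| ≤ 3 * |u| := by
    have h2 := abs_le.1 (hθ.trans hε)
    have h3 : |(v : ℝ) / u| ≤ 3 := by
      rw [abs_le]
      constructor <;> linarith [h2.1, h2.2]
    rw [abs_div, div_le_iff₀ hu0] at h3
    have : ((|v| : ℤ) : ℝ) ≤ ((3 * |u| : ℤ) : ℝ) := by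
      push_cast
      exact h3
    exact_mod_cast this
  obtain ⟨C, hCT, hC, hY⟩ := cls h hD0 hD1 hΛ hadm hu1 huR hv3
  have hYpos : (0 : ℝ) < ((C.image Prod.snd).card : ℝ) := lt_of_lt_of_le (by positivity) hY
  have hCne : C.Nonempty := by
    rw [← Finset.image_nonempty (f := Prod.snd), ← Finset.card_pos]
    exact_mod_cast hYpos
  obtain ⟨⟨x0, y0⟩, hxy0⟩ := hCne
  obtain ⟨F, hF⟩ : ∃ F, F = C.filter (fun a : ℤ × ℤ => (m : ℤ) ≤ |a.2 - y0|) := ⟨_, rfl⟩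
  have hFC : F ⊆ C := by
    rw [hF]
    exact Finset.filter_subset _ _
  -- the near part
  have hsub : C.image Prod.snd ⊆ (T.filter (fun x => y0 - m ≤ x ∧ x < y0 - m + m) ∪
      T.filter (fun x => y0 ≤ x ∧ x < y0 + m)) ∪ F.image Prod.snd := by
    intro y hy
    obtain ⟨a, ha, rfl⟩ := Finset.mem_image.1 hy
    have haT := (Finset.mem_product.1 (hCT ha)).2
    by_cases hf : (m : ℤ) ≤ |a.2 - y0|
    · refine Finset.mem_union_right _ (Finset.mem_image_of_mem _ ?_)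
      rw [hF]
      exact Finset.mem_filter.2 ⟨ha, hf⟩
    · rw [not_le, abs_lt] at hf
      refine Finset.mem_union_left _ ?_
      rw [Finset.mem_union, Finset.mem_filter, Finset.mem_filter]
      rcases lt_or_ge a.2 y0 with h2 | h2
      · exact Or.inl ⟨haT, by omega, by omega⟩
      · exact Or.inr ⟨haT, h2, by omega⟩
  have hcard : ((C.image Prod.snd).card : ℝ) ≤
      2 * (2 * (Λ * (R : ℝ) ^ D) / κ * ((m : ℝ) / R) ^ D) + (F.card : ℝ) := by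
    have h2 : (C.image Prod.snd).card ≤ (T.filter (fun x => y0 - m ≤ x ∧ x < y0 - m + m)).card +
        (T.filter (fun x => y0 ≤ x ∧ x < y0 + m)).card + F.card :=
      (Finset.card_le_card hsub).trans ((Finset.card_union_le _ _).trans
        (Nat.add_le_add (Finset.card_union_le _ _) Finset.card_image_le))
    have h3 : ((C.image Prod.snd).card : ℝ) ≤
        ((T.filter (fun x => y0 - m ≤ x ∧ x < y0 - m + m)).card : ℝ) +
        ((T.filter (fun x => y0 ≤ x ∧ x < y0 + m)).card : ℝ) + (F.card : ℝ) := by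
      exact_mod_cast h2
    have h4 := tcard h hm (y0 - m)
    have h5 := tcard h hm y0
    linarith
  have hnear : 2 * (2 * (Λ * (R : ℝ) ^ D) / κ * ((m : ℝ) / R) ^ D) ≤
      κ ^ 4 / (96 * Λ ^ 2) * (R : ℝ) ^ D := by
    have h2 : ((m : ℝ) / R) ^ D ≤ κ ^ 5 / (1000 * Λ ^ 3) := by
      rw [le_div_iff₀ (by positivity)]
      linarith
    calc 2 * (2 * (Λ * (R : ℝ) ^ D) / κ * ((m : ℝ) / R) ^ D) ≤
          2 * (2 * (Λ * (R : ℝ) ^ D) / κ * (κ ^ 5 / (1000 * Λ ^ 3))) := by gcongr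
      _ = κ ^ 4 / (250 * Λ ^ 2) * (R : ℝ) ^ D := by
          field_simp
          ring
      _ ≤ κ ^ 4 / (96 * Λ ^ 2) * (R : ℝ) ^ D := by
          gcongr
          norm_num
  have hFcard : κ ^ 4 / (96 * Λ ^ 2) * (R : ℝ) ^ D ≤ (F.card : ℝ) := by
    have h2 : κ ^ 4 / (48 * Λ ^ 2) * (R : ℝ) ^ D = 2 * (κ ^ 4 / (96 * Λ ^ 2) * (R : ℝ) ^ D) := by
      field_simp
      ring
    linarith
  refine ⟨F.image fun a => (a.1 - x0, a.2 - y0), ?_, ?_, ?_⟩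
  · intro g hg
    obtain ⟨a, ha, rfl⟩ := Finset.mem_image.1 hg
    have haT := Finset.mem_product.1 (hCT (hFC ha))
    have h0T := Finset.mem_product.1 (hCT hxy0)
    exact Finset.mem_product.2 ⟨Finset.sub_mem_sub haT.1 h0T.1, Finset.sub_mem_sub haT.2 h0T.2⟩
  · rw [Finset.card_image_of_injective]
    · exact hFcard
    · intro a a' haa
      have h2 : a.1 - x0 = a'.1 - x0 := congrArg Prod.fst haa
      have h3 : a.2 - y0 = a'.2 - y0 := congrArg Prod.snd haa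
      exact Prod.ext (by omega) (by omega)
  · intro g hg
    obtain ⟨a, ha, rfl⟩ := Finset.mem_image.1 hg
    have h2 := hC a (hFC ha) (x0, y0) hxy0
    have h3 : (m : ℤ) ≤ |a.2 - y0| := by
      rw [hF] at ha
      exact (Finset.mem_filter.1 ha).2
    obtain ⟨p, hp⟩ : ∃ p : ℤ, p = a.1 - x0 := ⟨_, rfl⟩
    obtain ⟨q, hq⟩ : ∃ q : ℤ, q = a.2 - y0 := ⟨_, rfl⟩
    show |((a.1 - x0 : ℤ) : ℝ) / ((a.2 - y0 : ℤ) : ℝ) + θ| < _
    change |u * (a.1 - x0) + v * (a.2 - y0)| < l at h2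
    rw [← hp, ← hq] at h2 ⊢
    rw [← hq] at h3
    have hqr : (m : ℝ) ≤ |(q : ℝ)| := by
      have : ((m : ℤ) : ℝ) ≤ ((|q| : ℤ) : ℝ) := by exact_mod_cast h3
      simpa using this
    have hq0 : (0 : ℝ) < |(q : ℝ)| := by linarith
    have hqr0 : (q : ℝ) ≠ 0 := abs_pos.1 hq0
    have h4 : |(u : ℝ) * p + v * q| < R := by
      have : ((|u * p + v * q| : ℤ) : ℝ) < (l : ℝ) := by exact_mod_cast h2
      push_cast at this
      linarith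
    have h5 : |(p : ℝ) / q + (v : ℝ) / u| < R / (m : ℝ) ^ 2 := by
      have e2 : (p : ℝ) / q + (v : ℝ) / u = ((u : ℝ) * p + v * q) / (u * q) := by
        field_simp
      rw [e2, abs_div, abs_mul, div_lt_div_iff₀ (by positivity) (by positivity)]
      have h6 : (m : ℝ) ^ 2 ≤ |(u : ℝ)| * |(q : ℝ)| := by nlinarith
      calc |(u : ℝ) * p + v * q| * (m : ℝ) ^ 2 < R * (m : ℝ) ^ 2 :=
            mul_lt_mul_of_pos_right h4 (by positivity)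
        _ ≤ R * (|(u : ℝ)| * |(q : ℝ)|) := mul_le_mul_of_nonneg_left h6 hR0.le
    have e3 : (p : ℝ) / q + θ = ((p : ℝ) / q + (v : ℝ) / u) - ((v : ℝ) / u - θ) := by ring
    rw [e3]
    calc |((p : ℝ) / q + (v : ℝ) / u) - ((v : ℝ) / u - θ)|
        ≤ |(p : ℝ) / q + (v : ℝ) / u| + |(v : ℝ) / u - θ| := abs_sub _ _
      _ < R / (m : ℝ) ^ 2 + 3 * (R : ℝ) / (2 * (m : ℝ) ^ 2) := by linarith
      _ = 5 * R / (2 * (m : ℝ) ^ 2) := by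
          field_simp
          ring

theorem last {R : ℕ} {D κ Λ : ℝ} {l : ℤ} {T : Finset ℤ} (h : Rg R D κ (Λ * (R : ℝ) ^ D) l T) (hD0 : 0 ≤ D)
    (hD1 : D ≤ 1) (hΛ : 1 ≤ Λ) {m : ℕ} (hm : 1 ≤ m) (hsm : 1000 * Λ ^ 3 * ((m : ℝ) / R) ^ D ≤ κ ^ 5)
    (hmR : (R : ℝ) ≤ (m : ℝ) ^ 2) :
    (R : ℝ) ^ (1 - D) ≤ 480 * (Λ / κ) ^ 6 * ((R : ℝ) / m) ^ 2 := by
  classical
  have hR1 : (1 : ℝ) ≤ R := by exact_mod_cast h.Rpos
  have hR0 : (0 : ℝ) < R := by linarith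
  have hRD : 0 < (R : ℝ) ^ D := Real.rpow_pos_of_pos hR0 D
  have hm0 : (0 : ℝ) < m := by exact_mod_cast hm
  have hκ := h.kpos
  have hΛ0 : 0 < Λ := by linarith
  obtain ⟨s, hs⟩ : ∃ s : ℝ, s = 5 * R / (m : ℝ) ^ 2 := ⟨_, rfl⟩
  have hs0 : 0 < s := by
    rw [hs]
    positivity
  obtain ⟨N, hN⟩ : ∃ N : ℕ, N = ⌊1 / s⌋₊ := ⟨_, rfl⟩
  have hNs : ∀ i ∈ Finset.range (N + 1), (i : ℝ) * s ≤ 1 := by
    intro i hi
    have h1 : i ≤ N := Nat.lt_succ_iff.1 (Finset.mem_range.1 hi)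
    have h2 : (N : ℝ) ≤ 1 / s := by
      rw [hN]
      exact Nat.floor_le (by positivity)
    have h3 : (i : ℝ) ≤ 1 / s := le_trans (by exact_mod_cast h1) h2
    rwa [le_div_iff₀ hs0] at h3
  have hN1 : 1 / s ≤ (N : ℝ) + 1 := by
    rw [hN]
    exact (Nat.lt_floor_add_one _).le
  have hG : ∀ i : ℕ, ∃ G : Finset (ℤ × ℤ), i ∈ Finset.range (N + 1) →
      (G ⊆ (T - T) ×ˢ (T - T) ∧ κ ^ 4 / (96 * Λ ^ 2) * (R : ℝ) ^ D ≤ (G.card : ℝ) ∧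
      ∀ g ∈ G, |(g.1 : ℝ) / g.2 + (i : ℝ) * s| < 5 * R / (2 * (m : ℝ) ^ 2)) := by
    intro i
    by_cases hi : i ∈ Finset.range (N + 1)
    · obtain ⟨G, h1⟩ := exG h hD0 hD1 hΛ hm hsm hmR ((i : ℝ) * s) (by positivity) (hNs i hi)
      exact ⟨G, fun _ => h1⟩
    · exact ⟨∅, fun h1 => absurd h1 hi⟩
  choose G hG using hG
  have hdisj : ∀ i ∈ Finset.range (N + 1), ∀ j ∈ Finset.range (N + 1), i ≠ j →
      Disjoint (G i) (G j) := by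
    intro i hi j hj hij
    rw [Finset.disjoint_left]
    intro g hgi hgj
    have h1 := abs_lt.1 ((hG i hi).2.2 g hgi)
    have h2 := abs_lt.1 ((hG j hj).2.2 g hgj)
    have e1 : 5 * (R : ℝ) / (2 * (m : ℝ) ^ 2) = s / 2 := by
      rw [hs]
      field_simp
    rw [e1] at h1 h2
    have h3 : |((i : ℝ) - j) * s| < 1 * s := by
      rw [abs_lt]
      constructor <;> nlinarith [h1.1, h1.2, h2.1, h2.2]
    rw [abs_mul, abs_of_pos hs0] at h3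
    have h4 : |(i : ℝ) - j| < 1 := lt_of_mul_lt_mul_right h3 hs0.le
    have h5 : |((i : ℤ) - (j : ℤ))| < 1 := by exact_mod_cast h4
    rw [Int.abs_lt_one_iff] at h5
    exact hij (by omega)
  have hsum : ((N : ℝ) + 1) * (κ ^ 4 / (96 * Λ ^ 2) * (R : ℝ) ^ D) ≤
      ((T - T).card : ℝ) ^ 2 := by
    have h1 : ((Finset.range (N + 1)).biUnion G).card = ∑ i ∈ Finset.range (N + 1), (G i).card :=
      Finset.card_biUnion hdisj
    have h2 : ((Finset.range (N + 1)).biUnion G).card ≤ ((T - T) ×ˢ (T - T)).card :=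
      Finset.card_le_card (Finset.biUnion_subset.2 fun i hi => (hG i hi).1)
    rw [h1, Finset.card_product] at h2
    have h3 : ∑ i ∈ Finset.range (N + 1), ((G i).card : ℝ) ≤ ((T - T).card : ℝ) ^ 2 := by
      rw [pow_two]
      exact_mod_cast h2
    refine le_trans ?_ h3
    have h4 := Finset.card_nsmul_le_sum (Finset.range (N + 1)) (fun i => ((G i).card : ℝ))
      (κ ^ 4 / (96 * Λ ^ 2) * (R : ℝ) ^ D) (fun i hi => (hG i hi).2.1)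
    rw [nsmul_eq_mul, Finset.card_range] at h4
    push_cast at h4
    exact h4
  have hTT : ((T - T).card : ℝ) ≤ Λ ^ 2 / κ * (R : ℝ) ^ D := by
    have h1 := Finset.ruzsa_triangle_inequality_sub_add_add T T T
    have h2 : ((T - T).card : ℝ) * (T.card : ℝ) ≤ ((T + T).card : ℝ) * ((T + T).card : ℝ) := by
      exact_mod_cast h1
    have h3 := h.ub0
    have h4 := card_T_ge h
    have h5 : ((T - T).card : ℝ) * (κ * (R : ℝ) ^ D) ≤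
        (Λ * (R : ℝ) ^ D) * (Λ * (R : ℝ) ^ D) := by
      calc ((T - T).card : ℝ) * (κ * (R : ℝ) ^ D) ≤ ((T - T).card : ℝ) * (T.card : ℝ) :=
            mul_le_mul_of_nonneg_left h4 (Nat.cast_nonneg _)
        _ ≤ _ := h2.trans (mul_le_mul h3 h3 (Nat.cast_nonneg _) (by positivity))
    have h6 : ((T - T).card : ℝ) ≤ (Λ * (R : ℝ) ^ D) * (Λ * (R : ℝ) ^ D) / (κ * (R : ℝ) ^ D) := by
      rw [le_div_iff₀ (by positivity)]
      exact h5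
    refine h6.trans (le_of_eq ?_)
    field_simp
  have h1 : 1 / s * (κ ^ 4 / (96 * Λ ^ 2) * (R : ℝ) ^ D) ≤ (Λ ^ 2 / κ * (R : ℝ) ^ D) ^ 2 :=
    (mul_le_mul_of_nonneg_right hN1 (by positivity)).trans
      (hsum.trans (pow_le_pow_left₀ (Nat.cast_nonneg _) hTT 2))
  have e1 : (R : ℝ) ^ (1 - D) = R / (R : ℝ) ^ D := by
    rw [Real.rpow_sub hR0, Real.rpow_one]
  rw [e1, div_le_iff₀ hRD]
  have h2 := mul_le_mul_of_nonneg_left h1
    (show 0 ≤ 480 * Λ ^ 2 / κ ^ 4 * ((R : ℝ) ^ 2 / (m : ℝ) ^ 2) / (R : ℝ) ^ D by positivity)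
  have e2 : 480 * Λ ^ 2 / κ ^ 4 * ((R : ℝ) ^ 2 / (m : ℝ) ^ 2) / (R : ℝ) ^ D *
      (1 / s * (κ ^ 4 / (96 * Λ ^ 2) * (R : ℝ) ^ D)) = R := by
    rw [hs]
    field_simp
    norm_num
  have e3 : 480 * Λ ^ 2 / κ ^ 4 * ((R : ℝ) ^ 2 / (m : ℝ) ^ 2) / (R : ℝ) ^ D *
      (Λ ^ 2 / κ * (R : ℝ) ^ D) ^ 2 = 480 * (Λ / κ) ^ 6 * ((R : ℝ) / m) ^ 2 * (R : ℝ) ^ D := by
    field_simp
  rw [e2, e3] at h2
  exact h2

end C4N
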