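import Mathlib
import Pool.Agent.Work.MP_c4bd3e_lc.N.Defs

set_option autoImplicit false

/-!
# MP_c4bd3e_lc, negative half, module Cnt

There are few good multipliers at scale `1/R`.

Proof. For `w ∈ W` with `σ = σ_w`, `dil σ H ⊆ X + H`, `|X| ≤ L`: by pigeonhole some `x ∈ X` has `S_w = {h ∈ H : ⌊σ h⌋ ∈ x + H}` with `|S_w| ≥ |H|/L ≥ N/L²`.
Pick `h0 ∈ S_w` and let `S'_w = {h ∈ S_w : |h - h0| ≥ m}`: by `ncon` for `[h0-m, h0+m)` `|S'_w| ≥ N/L² - L N (2m/R)^D ≥ N/L² - N/(2L³) ≥ N/(2L²)`.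
Map `(w, h) ↦ (g, g') = (h - h0, ⌊σ h⌋ - ⌊σ h0⌋) ∈ (H - H)² = (H + H)²`, `|H + H| ≤ |Y||H| ≤ L²N`. Given `(g, g')`, `|g| ≥ m`:
`|σ g - g'| < 1`, so `l σ` lies in an open interval of length `2l/|g| ≤ 2R/m`, and `w = ⌊l σ⌋` takes at most `2R/m + 2 ≤ 4R/m` values; and `w`, `g` determine `h`.
So `|W| N/(2L²) ≤ (L²N)² 4R/m`, `|W| ≤ 8L⁶N (R/m)`.
-/

namespace C4N

open Finset
open scoped Pointwise

private theorem cnt_step {R : ℕ} {N L D : ℝ} {H : Finset ℤ} (h : AGrp R N L D H) (hN : 0 < N) (hL : 1 ≤ L)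
    {m : ℕ} (hm : 1 ≤ m) (hsm : (2 * (m : ℝ) / R) ^ D ≤ 1 / (2 * L ^ 4)) {σ : ℝ} (hσ : Good H L σ) :
    ∃ (h0 : ℤ) (S : Finset ℤ), N / (2 * L ^ 2) ≤ (S.card : ℝ) ∧
      ∀ x ∈ S, (m : ℤ) ≤ |x - h0| ∧ x - h0 ∈ H + H ∧ ⌊σ * (x : ℝ)⌋ - ⌊σ * (h0 : ℝ)⌋ ∈ H + H := by
  obtain ⟨X, hX, hsub⟩ := hσ
  have hL0 : 0 < L := by linarith
  -- pigeonhole
  have hcov : H ⊆ X.biUnion fun x => H.filter fun y : ℤ => ⌊σ * (y : ℝ)⌋ - x ∈ H := by
    intro y hy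
    have h1 : ⌊σ * (y : ℝ)⌋ ∈ X + H := hsub (mem_dil.2 ⟨y, hy, rfl⟩)
    obtain ⟨x, hx, z, hz, hxz⟩ := Finset.mem_add.1 h1
    rw [Finset.mem_biUnion]
    refine ⟨x, hx, Finset.mem_filter.2 ⟨hy, ?_⟩⟩
    have : ⌊σ * (y : ℝ)⌋ - x = z := by omega
    rw [this]
    exact hz
  have hsum : (H.card : ℝ) ≤ ∑ x ∈ X, ((H.filter fun y : ℤ => ⌊σ * (y : ℝ)⌋ - x ∈ H).card : ℝ) := by
    have h1 := (Finset.card_le_card hcov).trans Finset.card_biUnion_le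
    exact_mod_cast h1
  have hex : ∃ x ∈ X, N / L ^ 2 ≤ ((H.filter fun y : ℤ => ⌊σ * (y : ℝ)⌋ - x ∈ H).card : ℝ) := by
    by_contra hcon
    push Not at hcon
    have hXne : X.Nonempty := by
      obtain ⟨x, hx, -⟩ := Finset.mem_biUnion.1 (hcov h.zero)
      exact ⟨x, hx⟩
    have h1 : ∑ x ∈ X, ((H.filter fun y : ℤ => ⌊σ * (y : ℝ)⌋ - x ∈ H).card : ℝ) < ∑ x ∈ X, N / L ^ 2 :=
      Finset.sum_lt_sum_of_nonempty hXne hcon
    rw [Finset.sum_const, nsmul_eq_mul] at h1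
    have h2 : (X.card : ℝ) * (N / L ^ 2) ≤ L * (N / L ^ 2) :=
      mul_le_mul_of_nonneg_right hX (by positivity)
    have h3 : L * (N / L ^ 2) = N / L := by
      field_simp
    have h4 : N / L ≤ H.card := by
      rw [div_le_iff₀ hL0]
      have := h.ge
      linarith
    linarith
  obtain ⟨x0, hx0, hbig⟩ := hex
  set S := H.filter fun y : ℤ => ⌊σ * (y : ℝ)⌋ - x0 ∈ H with hS
  have hSne : S.Nonempty := by
    rw [← Finset.card_pos]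
    have : (0 : ℝ) < S.card := lt_of_lt_of_le (by positivity) hbig
    exact_mod_cast this
  obtain ⟨h0, hh0⟩ := hSne
  refine ⟨h0, S.filter fun y : ℤ => (m : ℤ) ≤ |y - h0|, ?_, ?_⟩
  · -- counting
    have hc1 : S ⊆ (S.filter fun y : ℤ => (m : ℤ) ≤ |y - h0|) ∪
        H.filter fun x : ℤ => (h0 - m) ≤ x ∧ x < (h0 - m) + ((2 * m : ℕ) : ℤ) := by
      intro y hy
      rw [Finset.mem_union]
      by_cases hy2 : (m : ℤ) ≤ |y - h0|
      · left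
        exact Finset.mem_filter.2 ⟨hy, hy2⟩
      · right
        refine Finset.mem_filter.2 ⟨(Finset.mem_filter.1 hy).1, ?_⟩
        have h1 : |y - h0| < m := not_le.1 hy2
        rw [abs_lt] at h1
        push_cast
        constructor <;> linarith [h1.1, h1.2]
    have hc2 : (S.card : ℝ) ≤ ((S.filter fun y : ℤ => (m : ℤ) ≤ |y - h0|).card : ℝ) +
        ((H.filter fun x : ℤ => (h0 - m) ≤ x ∧ x < (h0 - m) + ((2 * m : ℕ) : ℤ)).card : ℝ) := by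
      have := (Finset.card_le_card hc1).trans (Finset.card_union_le _ _)
      exact_mod_cast this
    have hc3 := h.ncon (h0 - m) (2 * m) (by omega)
    have hc4 : L * N * (((2 * m : ℕ) : ℝ) / R) ^ D ≤ N / (2 * L ^ 2) := by
      have h1 : (((2 * m : ℕ) : ℝ) / R) ^ D ≤ 1 / (2 * L ^ 4) := by
        have : (((2 * m : ℕ) : ℝ) / R) = 2 * (m : ℝ) / R := by push_cast; ring
        rw [this]
        exact hsm
      have h2 : L * N * (((2 * m : ℕ) : ℝ) / R) ^ D ≤ L * N * (1 / (2 * L ^ 4)) :=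
        mul_le_mul_of_nonneg_left h1 (by positivity)
      have h3 : L * N * (1 / (2 * L ^ 4)) = N / (2 * L ^ 3) := by
        field_simp
      have h4 : N / (2 * L ^ 3) ≤ N / (2 * L ^ 2) := by
        apply div_le_div_of_nonneg_left hN.le (by positivity)
        have : L ^ 2 ≤ L ^ 3 := pow_le_pow_right₀ hL (by norm_num)
        linarith
      linarith
    have h5 : N / L ^ 2 = N / (2 * L ^ 2) + N / (2 * L ^ 2) := by
      field_simp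
      ring
    linarith
  · intro y hy
    rw [Finset.mem_filter] at hy
    obtain ⟨hyS, hym⟩ := hy
    rw [hS, Finset.mem_filter] at hyS hh0
    refine ⟨hym, ?_, ?_⟩
    · exact Finset.mem_add.2 ⟨y, hyS.1, -h0, h.neg _ hh0.1, by ring⟩
    · exact Finset.mem_add.2 ⟨_, hyS.2, _, h.neg _ hh0.2, by ring⟩

private theorem cnt_int (c ρ : ℝ) (hρ : 1 ≤ ρ) (A : Finset ℤ)
    (hA : ∀ w ∈ A, c - ρ - 1 < (w : ℝ) ∧ (w : ℝ) < c + ρ) : (A.card : ℝ) ≤ 4 * ρ := by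
  have h1 : A ⊆ Finset.Icc (⌊c - ρ - 1⌋ + 1) (⌈c + ρ⌉ - 1) := by
    intro w hw
    obtain ⟨h1, h2⟩ := hA w hw
    rw [Finset.mem_Icc]
    constructor
    · have : ⌊c - ρ - 1⌋ < w := Int.floor_lt.2 h1
      omega
    · have : w < ⌈c + ρ⌉ := Int.lt_ceil.2 h2
      omega
  have h2 := Finset.card_le_card h1
  rw [Int.card_Icc] at h2
  have h3 : (A.card : ℤ) ≤ max (⌈c + ρ⌉ - 1 + 1 - (⌊c - ρ - 1⌋ + 1)) 0 := by
    rw [← Int.toNat_eq_max]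
    exact_mod_cast h2
  have h4 : (A.card : ℝ) ≤ max ((⌈c + ρ⌉ : ℝ) - 1 + 1 - (⌊c - ρ - 1⌋ + 1)) 0 := by
    exact_mod_cast h3
  refine h4.trans (max_le ?_ (by linarith))
  have h5 : (⌈c + ρ⌉ : ℝ) < c + ρ + 1 := Int.ceil_lt_add_one _
  have h6 : c - ρ - 1 < (⌊c - ρ - 1⌋ : ℝ) + 1 := Int.lt_floor_add_one _
  linarith

theorem cnt {R : ℕ} {N L D : ℝ} {H : Finset ℤ} (h : AGrp R N L D H) (hR : 1 ≤ R) (hN : 0 < N) (hL : 1 ≤ L)
    {l : ℤ} (hl : l ∈ SS R) {m : ℕ} (hm : 1 ≤ m) (hmR : m ≤ R)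
    (hsm : (2 * (m : ℝ) / R) ^ D ≤ 1 / (2 * L ^ 4)) {W : Finset ℤ}
    (hW : ∀ w ∈ W, ∃ σ : ℝ, Good H L σ ∧ (w : ℝ) ≤ l * σ ∧ l * σ < w + 1) :
    (W.card : ℝ) ≤ 8 * L ^ 6 * N * ((R : ℝ) / m) := by
  have hL0 : 0 < L := by linarith
  have hm0 : (0 : ℝ) < m := by exact_mod_cast hm
  have hR0 : (0 : ℝ) < R := by exact_mod_cast hR
  have hρ : 1 ≤ (R : ℝ) / m := by
    rw [le_div_iff₀ hm0, one_mul]
    exact_mod_cast hmR
  obtain ⟨⟨hl0, hlR⟩, hl2⟩ := mem_SS.1 hl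
  have hlR' : (l : ℝ) ≤ R := by exact_mod_cast hlR
  have hl0' : (0 : ℝ) ≤ l := by exact_mod_cast hl0
  have hall : ∀ w ∈ W, ∃ (σ : ℝ) (h0 : ℤ) (S : Finset ℤ), ((w : ℝ) ≤ l * σ ∧ l * σ < w + 1) ∧
      N / (2 * L ^ 2) ≤ (S.card : ℝ) ∧
      ∀ x ∈ S, (m : ℤ) ≤ |x - h0| ∧ x - h0 ∈ H + H ∧ ⌊σ * (x : ℝ)⌋ - ⌊σ * (h0 : ℝ)⌋ ∈ H + H := by
    intro w hw
    obtain ⟨σ, hσ, hσ2⟩ := hW w hw
    obtain ⟨h0, S, h1, h2⟩ := cnt_step h hN hL hm hsm hσ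
    exact ⟨σ, h0, S, hσ2, h1, h2⟩
  choose! σ h0 S hσ hS hSp using hall
  set P : Finset (Σ _ : ℤ, ℤ) := W.sigma S with hP
  have hPc : (W.card : ℝ) * (N / (2 * L ^ 2)) ≤ (P.card : ℝ) := by
    rw [hP, Finset.card_sigma]
    push_cast
    calc (W.card : ℝ) * (N / (2 * L ^ 2)) = ∑ _w ∈ W, N / (2 * L ^ 2) := by
          rw [Finset.sum_const, nsmul_eq_mul]
      _ ≤ _ := Finset.sum_le_sum hS
  have hHH : ((H + H).card : ℝ) ≤ L ^ 2 * N := by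
    obtain ⟨Y, hY, hYH⟩ := h.dbl
    have h1 : (H + H).card ≤ Y.card * H.card := (Finset.card_le_card hYH).trans Finset.card_add_le
    have h2 : ((H + H).card : ℝ) ≤ Y.card * H.card := by exact_mod_cast h1
    have h3 : (Y.card : ℝ) * H.card ≤ L * (L * N) :=
      mul_le_mul hY h.le (by positivity) hL0.le
    calc ((H + H).card : ℝ) ≤ L * (L * N) := h2.trans h3
      _ = L ^ 2 * N := by ring
  let φ : (Σ _ : ℤ, ℤ) → ℤ × ℤ := fun a => (a.2 - h0 a.1, ⌊σ a.1 * (a.2 : ℝ)⌋ - ⌊σ a.1 * (h0 a.1 : ℝ)⌋)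
  have hmaps : ∀ a ∈ P, φ a ∈ (H + H) ×ˢ (H + H) := by
    intro a ha
    rw [hP, Finset.mem_sigma] at ha
    obtain ⟨-, h1, h2⟩ := hSp a.1 ha.1 a.2 ha.2
    exact Finset.mem_product.2 ⟨h1, h2⟩
  have hfib : ∀ b ∈ (H + H) ×ˢ (H + H), (P.filter fun a => φ a = b).card ≤ ⌊4 * ((R : ℝ) / m)⌋₊ := by
    intro b _
    apply Nat.le_floor
    have hinj : Set.InjOn (fun a : (Σ _ : ℤ, ℤ) => a.1) (P.filter fun a => φ a = b : Finset _) := by
      rintro ⟨w, x⟩ ha ⟨w', x'⟩ ha' (heq : w = w')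
      subst heq
      have h1 := (Finset.mem_filter.1 (Finset.mem_coe.1 ha)).2
      have h2 := (Finset.mem_filter.1 (Finset.mem_coe.1 ha')).2
      have h3 : x - h0 w = x' - h0 w := by
        have := congrArg Prod.fst (h1.trans h2.symm)
        exact this
      have h4 : x = x' := by omega
      rw [h4]
    rw [← Finset.card_image_of_injOn hinj]
    apply cnt_int ((l : ℝ) * b.2 / b.1) ((R : ℝ) / m) hρ
    intro w hw
    obtain ⟨⟨w', x⟩, ha, (hww : w' = w)⟩ := Finset.mem_image.1 hw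
    subst hww
    obtain ⟨haP, hab⟩ := Finset.mem_filter.1 ha
    rw [hP, Finset.mem_sigma] at haP
    obtain ⟨hwW, hxS⟩ := haP
    obtain ⟨h1, -, -⟩ := hSp w' hwW x hxS
    obtain ⟨hw1, hw2⟩ := hσ w' hwW
    have hb1 : x - h0 w' = b.1 := congrArg Prod.fst hab
    have hb2 : ⌊σ w' * (x : ℝ)⌋ - ⌊σ w' * (h0 w' : ℝ)⌋ = b.2 := congrArg Prod.snd hab
    change (m : ℤ) ≤ |x - h0 w'| at h1
    rw [hb1] at h1
    have hg : (m : ℝ) ≤ |(b.1 : ℝ)| := by exact_mod_cast h1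
    have hgpos : 0 < |(b.1 : ℝ)| := lt_of_lt_of_le hm0 hg
    have hgne : (b.1 : ℝ) ≠ 0 := abs_pos.1 hgpos
    have hkey : |σ w' * (b.1 : ℝ) - b.2| < 1 := by
      have e1 : (b.1 : ℝ) = (x : ℝ) - h0 w' := by
        rw [← hb1]
        push_cast
        ring
      have e2 : (b.2 : ℝ) = (⌊σ w' * (x : ℝ)⌋ : ℝ) - ⌊σ w' * (h0 w' : ℝ)⌋ := by
        rw [← hb2]
        push_cast
        ring
      rw [e1, e2, abs_lt]
      have f1 := Int.floor_le (σ w' * (x : ℝ))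
      have f2 := Int.lt_floor_add_one (σ w' * (x : ℝ))
      have f3 := Int.floor_le (σ w' * (h0 w' : ℝ))
      have f4 := Int.lt_floor_add_one (σ w' * (h0 w' : ℝ))
      constructor <;> nlinarith
    have hkey2 : |(l : ℝ) * σ w' - (l : ℝ) * b.2 / b.1| ≤ (R : ℝ) / m := by
      have e1 : (l : ℝ) * σ w' - (l : ℝ) * b.2 / b.1 = (l : ℝ) * (σ w' * (b.1 : ℝ) - b.2) / b.1 := by
        field_simp
      rw [e1, abs_div, abs_mul, abs_of_nonneg hl0']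
      rw [div_le_div_iff₀ hgpos hm0]
      have f1 : (l : ℝ) * |σ w' * (b.1 : ℝ) - b.2| ≤ R * 1 :=
        mul_le_mul hlR' hkey.le (abs_nonneg _) hR0.le
      calc (l : ℝ) * |σ w' * (b.1 : ℝ) - b.2| * m ≤ R * 1 * m :=
            mul_le_mul_of_nonneg_right f1 hm0.le
        _ = R * m := by ring
        _ ≤ R * |(b.1 : ℝ)| := mul_le_mul_of_nonneg_left hg hR0.le
    rw [abs_le] at hkey2
    -- strictness
    have hkey3 : (l : ℝ) * σ w' - (l : ℝ) * b.2 / b.1 < (R : ℝ) / m := by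
      have e1 : (l : ℝ) * σ w' - (l : ℝ) * b.2 / b.1 = (l : ℝ) * (σ w' * (b.1 : ℝ) - b.2) / b.1 := by
        field_simp
      have f0 : (l : ℝ) * σ w' - (l : ℝ) * b.2 / b.1 ≤
          |(l : ℝ) * (σ w' * (b.1 : ℝ) - b.2) / b.1| := by
        rw [e1]
        exact le_abs_self _
      refine lt_of_le_of_lt f0 ?_
      rw [abs_div, abs_mul, abs_of_nonneg hl0']
      rw [div_lt_div_iff₀ hgpos hm0]
      have f1 : (l : ℝ) * |σ w' * (b.1 : ℝ) - b.2| < R := by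
        have g1 : (l : ℝ) * |σ w' * (b.1 : ℝ) - b.2| ≤ R * |σ w' * (b.1 : ℝ) - b.2| :=
          mul_le_mul_of_nonneg_right hlR' (abs_nonneg _)
        have g2 : (R : ℝ) * |σ w' * (b.1 : ℝ) - b.2| < R * 1 :=
          mul_lt_mul_of_pos_left hkey hR0
        linarith
      calc (l : ℝ) * |σ w' * (b.1 : ℝ) - b.2| * m < R * m :=
            mul_lt_mul_of_pos_right f1 hm0
        _ ≤ R * |(b.1 : ℝ)| := mul_le_mul_of_nonneg_left hg hR0.le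
    constructor <;> linarith [hkey2.1]
  have hcard := Finset.card_le_mul_card_image_of_maps_to hmaps ⌊4 * ((R : ℝ) / m)⌋₊ hfib
  rw [Finset.card_product] at hcard
  have hcard2 : (P.card : ℝ) ≤ (4 * ((R : ℝ) / m)) * ((L ^ 2 * N) * (L ^ 2 * N)) := by
    have h1 : (P.card : ℝ) ≤ (⌊4 * ((R : ℝ) / m)⌋₊ : ℝ) * (((H + H).card : ℝ) * ((H + H).card : ℝ)) := by
      exact_mod_cast hcard
    refine h1.trans ?_
    apply mul_le_mul (Nat.floor_le (by positivity)) _ (by positivity) (by positivity)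
    exact mul_le_mul hHH hHH (by positivity) (by positivity)
  have hfin : (W.card : ℝ) * (N / (2 * L ^ 2)) ≤ (4 * ((R : ℝ) / m)) * ((L ^ 2 * N) * (L ^ 2 * N)) :=
    hPc.trans hcard2
  have hpos : 0 < N / (2 * L ^ 2) := by positivity
  have heq : (4 * ((R : ℝ) / m)) * ((L ^ 2 * N) * (L ^ 2 * N)) =
      (8 * L ^ 6 * N * ((R : ℝ) / m)) * (N / (2 * L ^ 2)) := by
    field_simp
    ring
  rw [heq] at hfin
  exact le_of_mul_le_mul_right hfin hpos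

end C4N
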