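import Mathlib
import Pool.Agent.Work.MP_c4bd3e_lc.N.Defs

set_option autoImplicit false

/-!
# MP_c4bd3e_lc, negative half, module Nbl

A set of large weight meets many blocks. `(∑_T p)² = (∑_j p(T ∩ block_j))² ≤ Nb m T * ∑_j p(T ∩ block_j)²` (Cauchy-Schwarz over the blocks that meet
`T`) and `∑_j p(T ∩ block_j)² ≤ Col R p m` (two elements of a block differ by less than `m`). So for `m ≤ R`
`1/L² ≤ Nb m T * K (m/R)^D`. For `m > R`: `Nb m T ≥ 1` (`T` is nonempty), `(R/m)^D ≤ 1`, `1/(L²K) ≤ 1`.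
-/

namespace C4N

open Finset
open scoped Pointwise

theorem nbl {R : ℕ} {K L D : ℝ} {p : ℤ → ℝ} (hR : 1 ≤ R) (hK : 1 ≤ K) (hL : 1 ≤ L) (hD0 : 0 ≤ D) (hp : Wt R p)
    (hcol : ∀ m : ℕ, 1 ≤ m → m ≤ R → Col R p m ≤ K * ((m : ℝ) / R) ^ D) {T : Finset ℤ} (hT : T ⊆ SS R)
    (hmass : 1 / L ≤ ∑ i ∈ T, p i) (m : ℕ) (hm : 1 ≤ m) :
    1 / (L ^ 2 * K) * ((R : ℝ) / m) ^ D ≤ (Nb m T : ℝ) := by
  have hRpos : (0 : ℝ) < R := by exact_mod_cast hR
  have hmpos : (0 : ℝ) < m := by exact_mod_cast hm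
  have hmz : (0 : ℤ) < m := by exact_mod_cast hm
  have hL0 : (0 : ℝ) < L := by linarith
  have hK0 : (0 : ℝ) < K := by linarith
  have hP0 : (0 : ℝ) < 1 / L := by positivity
  rcases le_or_gt m R with hmR | hmR
  · have hnb : (0 : ℝ) ≤ (Nb m T : ℝ) := Nat.cast_nonneg _
    have h1 : (∑ i ∈ T, p i) ^ 2 ≤ (Nb m T : ℝ) * Col R p m := by
      have e1 : ∑ i ∈ T, p i =
          ∑ j ∈ T.image (fun x => x / (m : ℤ)), ∑ i ∈ T.filter (fun x => x / (m : ℤ) = j), p i :=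
        (Finset.sum_fiberwise_of_maps_to (fun x hx => Finset.mem_image_of_mem _ hx) _).symm
      have e2 : (∑ i ∈ T, p i) ^ 2 ≤ (Nb m T : ℝ) * ∑ j ∈ T.image (fun x => x / (m : ℤ)),
          (∑ i ∈ T.filter (fun x => x / (m : ℤ) = j), p i) ^ 2 := by
        rw [e1, Nb]
        exact sq_sum_le_card_mul_sum_sq
      refine e2.trans (mul_le_mul_of_nonneg_left ?_ hnb)
      have e3 : ∑ z ∈ (T ×ˢ T).filter (fun z => z.1 / (m : ℤ) = z.2 / (m : ℤ)), p z.1 * p z.2 =
          ∑ j ∈ T.image (fun x => x / (m : ℤ)),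
            ∑ z ∈ ((T ×ˢ T).filter (fun z => z.1 / (m : ℤ) = z.2 / (m : ℤ))).filter
              (fun z => z.1 / (m : ℤ) = j), p z.1 * p z.2 := by
        refine (Finset.sum_fiberwise_of_maps_to (fun z hz => ?_) _).symm
        rw [Finset.mem_filter, Finset.mem_product] at hz
        exact Finset.mem_image_of_mem _ hz.1.1
      have e4 : ∀ j : ℤ, ((T ×ˢ T).filter (fun z => z.1 / (m : ℤ) = z.2 / (m : ℤ))).filter
          (fun z => z.1 / (m : ℤ) = j) =
          (T.filter (fun x => x / (m : ℤ) = j)) ×ˢ (T.filter (fun x => x / (m : ℤ) = j)) := by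
        intro j
        ext z
        simp only [Finset.mem_filter, Finset.mem_product]
        constructor
        · rintro ⟨⟨⟨h1, h2⟩, h3⟩, h4⟩
          exact ⟨⟨h1, h4⟩, h2, h3 ▸ h4⟩
        · rintro ⟨⟨h1, h4⟩, h2, h5⟩
          exact ⟨⟨⟨h1, h2⟩, h4.trans h5.symm⟩, h4⟩
      have e5 : ∑ j ∈ T.image (fun x => x / (m : ℤ)),
          (∑ i ∈ T.filter (fun x => x / (m : ℤ) = j), p i) ^ 2 =
          ∑ z ∈ (T ×ˢ T).filter (fun z => z.1 / (m : ℤ) = z.2 / (m : ℤ)), p z.1 * p z.2 := by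
        rw [e3]
        refine Finset.sum_congr rfl fun j _ => ?_
        rw [e4, Finset.sum_product, sq, Finset.sum_mul_sum]
      rw [e5, Col]
      refine Finset.sum_le_sum_of_subset_of_nonneg ?_ ?_
      · intro z hz
        rw [Finset.mem_filter, Finset.mem_product] at hz ⊢
        refine ⟨⟨hT hz.1.1, hT hz.1.2⟩, ?_⟩
        have h2 := Int.emod_add_mul_ediv z.1 (m : ℤ)
        have h3 := Int.emod_add_mul_ediv z.2 (m : ℤ)
        have h4 := Int.emod_nonneg z.1 hmz.ne'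
        have h5 := Int.emod_nonneg z.2 hmz.ne'
        have h6 := Int.emod_lt_of_pos z.1 hmz
        have h7 := Int.emod_lt_of_pos z.2 hmz
        rw [hz.2] at h2
        rw [abs_le]
        constructor <;> linarith
      · intro z _ _
        exact mul_nonneg (hp.nonneg _) (hp.nonneg _)
    have h2 : (1 / L) ^ 2 ≤ (Nb m T : ℝ) * (K * ((m : ℝ) / R) ^ D) := by
      calc (1 / L) ^ 2 ≤ (∑ i ∈ T, p i) ^ 2 := pow_le_pow_left₀ hP0.le hmass 2
        _ ≤ (Nb m T : ℝ) * Col R p m := h1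
        _ ≤ (Nb m T : ℝ) * (K * ((m : ℝ) / R) ^ D) :=
          mul_le_mul_of_nonneg_left (hcol m hm hmR) hnb
    have h3 : ((m : ℝ) / R) ^ D * ((R : ℝ) / m) ^ D = 1 := by
      rw [← Real.mul_rpow (by positivity) (by positivity)]
      have : (m : ℝ) / R * ((R : ℝ) / m) = 1 := by field_simp
      rw [this, Real.one_rpow]
    have h4 : 0 ≤ ((R : ℝ) / m) ^ D := by positivity
    calc 1 / (L ^ 2 * K) * ((R : ℝ) / m) ^ D = (1 / L) ^ 2 * (((R : ℝ) / m) ^ D / K) := by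
          field_simp
      _ ≤ ((Nb m T : ℝ) * (K * ((m : ℝ) / R) ^ D)) * (((R : ℝ) / m) ^ D / K) :=
          mul_le_mul_of_nonneg_right h2 (by positivity)
      _ = (Nb m T : ℝ) * (((m : ℝ) / R) ^ D * ((R : ℝ) / m) ^ D) := by
          field_simp
      _ = (Nb m T : ℝ) := by rw [h3, mul_one]
  · have hTne : T.Nonempty := by
      rw [Finset.nonempty_iff_ne_empty]
      rintro rfl
      rw [Finset.sum_empty] at hmass
      linarith
    have h1 : (1 : ℝ) ≤ (Nb m T : ℝ) := by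
      have : 1 ≤ Nb m T := by
        rw [Nb]
        exact Finset.card_pos.2 (hTne.image _)
      exact_mod_cast this
    have h2 : ((R : ℝ) / m) ^ D ≤ 1 := by
      apply Real.rpow_le_one (by positivity) _ hD0
      rw [div_le_one hmpos]
      exact_mod_cast hmR.le
    have h3 : 1 / (L ^ 2 * K) ≤ 1 := by
      rw [div_le_one (by positivity)]
      have : 1 ≤ L ^ 2 := one_le_pow₀ hL
      nlinarith
    have h4 : 1 / (L ^ 2 * K) * ((R : ℝ) / m) ^ D ≤ 1 * 1 :=
      mul_le_mul h3 h2 (by positivity) (by norm_num)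
    linarith

end C4N
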