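import Mathlib
import Pool.Agent.Work.MP_c4bd3e_lc.N.Defs

set_option autoImplicit false

/-!
# MP_c4bd3e_lc, negative half, module Ring

Good multipliers are closed under the ring operations. (`Good H L τ`: `dil τ H ⊆ X + H`, `|X| ≤ L`.)

* `good_add`: `⌊(σ+τ)h⌋ ∈ ⌊σ h⌋ + ⌊τ h⌋ + {0,1} ⊆ X₁ + H + X₂ + H + {0,1} ⊆ X₁ + X₂ + {0,1} + Y + H`.
* `good_neg`: `⌊-σ h⌋ ∈ -⌊σ h⌋ + {-1,0}` and `-H = H`.
* `good_mul`: `⌊σ h⌋ = x + h'`; `τ σ h - ⌊τ x⌋ - ⌊τ h'⌋ = {τ x} + {τ h'} + τ {σ h} ∈ (-c, c+2)`, so `⌊σ τ h⌋ ∈ ⌊τ x⌋ + ⌊τ h'⌋ + [-c, c+1]`.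
* `ring_add`: `2L³`. `ring_main`: `(l3 - l4)/l` has constant `4L³`, `2 (l3 - l4)/l` and `((l1 - l2) + (l3 - l4))/l` have constant `2 (4L³)² L = 32L⁷`;
  all of them have absolute value `≤ 2` (`|l3 - l4| ≤ R/2 ≤ l`). `(u/l)(x/l)`, `(v/l)(y/l)`: `L * 32L⁷ * 7 = 224L⁸`. Sum `2 (224L⁸)² L = 100352L¹⁷`, with `z/l`: `200704L¹⁹ ≤ 2²⁰L¹⁹`.
  (`(z + (u x + v y)/l)/l = z/l + ((x/l)(u/l) + (y/l)(v/l))`.)
-/

namespace C4N

open Finset
open scoped Pointwise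

theorem Good.mono {H : Finset ℤ} {L L' τ : ℝ} (h : Good H L τ) (hL : L ≤ L') : Good H L' τ := by
  obtain ⟨X, h1, h2⟩ := h
  exact ⟨X, h1.trans hL, h2⟩

/-- `⌊a + b⌋ = ⌊a⌋ + ⌊b⌋ + {0, 1}` -/
private theorem floor_add_mem (a b : ℝ) : ∃ e ∈ ({0, 1} : Finset ℤ), ⌊a + b⌋ = ⌊a⌋ + ⌊b⌋ + e := by
  have h1 := Int.le_floor_add a b
  have h2 := Int.le_floor_add_floor a b
  refine ⟨⌊a + b⌋ - (⌊a⌋ + ⌊b⌋), ?_, by ring⟩
  rw [Finset.mem_insert, Finset.mem_singleton]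
  omega

private theorem card_pair : ((({0, 1} : Finset ℤ).card : ℕ) : ℝ) = 2 := by
  have : ({0, 1} : Finset ℤ).card = 2 := by decide
  rw [this]
  norm_num

theorem good_add {H Y : Finset ℤ} (hY : H + H ⊆ Y + H) {L1 L2 σ τ : ℝ} (h1 : Good H L1 σ)
    (h2 : Good H L2 τ) : Good H (2 * L1 * L2 * (Y.card : ℝ)) (σ + τ) := by
  obtain ⟨X1, c1, s1⟩ := h1
  obtain ⟨X2, c2, s2⟩ := h2
  refine ⟨X1 + X2 + {0, 1} + Y, ?_, ?_⟩
  · have h3 : ((X1 + X2 + {0, 1} + Y).card : ℝ) ≤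
        (X1.card : ℝ) * X2.card * (({0, 1} : Finset ℤ).card : ℝ) * Y.card := by
      have := (Finset.card_add_le (s := X1 + X2 + {0, 1}) (t := Y)).trans (Nat.mul_le_mul_right _
        ((Finset.card_add_le (s := X1 + X2) (t := ({0, 1} : Finset ℤ))).trans
          (Nat.mul_le_mul_right _ (Finset.card_add_le (s := X1) (t := X2)))))
      exact_mod_cast this
    rw [card_pair] at h3
    refine h3.trans ?_
    have k1 : (0 : ℝ) ≤ X1.card := by positivity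
    have k2 : (0 : ℝ) ≤ X2.card := by positivity
    have k3 : (0 : ℝ) ≤ L1 := k1.trans c1
    have k4 : (X1.card : ℝ) * X2.card ≤ L1 * L2 := mul_le_mul c1 c2 k2 k3
    calc (X1.card : ℝ) * X2.card * 2 * Y.card ≤ (L1 * L2) * 2 * Y.card :=
          mul_le_mul_of_nonneg_right (mul_le_mul_of_nonneg_right k4 (by norm_num)) (by positivity)
      _ = 2 * L1 * L2 * Y.card := by ring
  · intro w hw
    obtain ⟨a, ha, rfl⟩ := mem_dil.1 hw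
    obtain ⟨e, he, heq⟩ := floor_add_mem (σ * (a : ℝ)) (τ * (a : ℝ))
    have g1 : ⌊σ * (a : ℝ)⌋ ∈ X1 + H := s1 (mem_dil.2 ⟨a, ha, rfl⟩)
    have g2 : ⌊τ * (a : ℝ)⌋ ∈ X2 + H := s2 (mem_dil.2 ⟨a, ha, rfl⟩)
    obtain ⟨x1, hx1, k1, hk1, e1⟩ := Finset.mem_add.1 g1
    obtain ⟨x2, hx2, k2, hk2, e2⟩ := Finset.mem_add.1 g2
    obtain ⟨y, hy, k, hk, e3⟩ := Finset.mem_add.1 (hY (Finset.add_mem_add hk1 hk2))
    rw [add_mul, heq, ← e1, ← e2]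
    have e4 : x1 + k1 + (x2 + k2) + e = (x1 + x2 + e + y) + k := by
      linear_combination -e3
    rw [e4]
    exact Finset.add_mem_add (Finset.add_mem_add (Finset.add_mem_add
      (Finset.add_mem_add hx1 hx2) he) hy) hk

theorem good_neg {H : Finset ℤ} (hH : ∀ x ∈ H, -x ∈ H) {L1 σ : ℝ} (h1 : Good H L1 σ) :
    Good H (2 * L1) (-σ) := by
  obtain ⟨X, c, s⟩ := h1
  refine ⟨X.image (fun x => -x) + {0, -1}, ?_, ?_⟩
  · have h3 : ((X.image (fun x => -x) + ({0, -1} : Finset ℤ)).card : ℝ) ≤ (X.card : ℝ) * 2 := by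
      have h5 : ({0, -1} : Finset ℤ).card = 2 := by decide
      have := (Finset.card_add_le (s := X.image (fun x => -x)) (t := ({0, -1} : Finset ℤ))).trans
        (Nat.mul_le_mul_right _ (Finset.card_image_le (s := X) (f := fun x => -x)))
      rw [h5] at this
      exact_mod_cast this
    linarith
  · intro w hw
    obtain ⟨a, ha, rfl⟩ := mem_dil.1 hw
    have g1 : ⌊σ * (a : ℝ)⌋ ∈ X + H := s (mem_dil.2 ⟨a, ha, rfl⟩)
    obtain ⟨x, hx, k, hk, e1⟩ := Finset.mem_add.1 g1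
    have h5 : ⌊-σ * (a : ℝ)⌋ = -⌊σ * (a : ℝ)⌋ ∨ ⌊-σ * (a : ℝ)⌋ = -⌊σ * (a : ℝ)⌋ + -1 := by
      have f1 := Int.floor_le (σ * (a : ℝ))
      have f2 := Int.lt_floor_add_one (σ * (a : ℝ))
      have f3 := Int.floor_le (-σ * (a : ℝ))
      have f4 := Int.lt_floor_add_one (-σ * (a : ℝ))
      have f5 : (-⌊σ * (a : ℝ)⌋ : ℝ) - 1 < ⌊-σ * (a : ℝ)⌋ + 1 := by linarith
      have f6 : (⌊-σ * (a : ℝ)⌋ : ℝ) ≤ -⌊σ * (a : ℝ)⌋ := by linarith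
      have f7 : -⌊σ * (a : ℝ)⌋ - 1 < ⌊-σ * (a : ℝ)⌋ + 1 := by exact_mod_cast f5
      have f8 : ⌊-σ * (a : ℝ)⌋ ≤ -⌊σ * (a : ℝ)⌋ := by exact_mod_cast f6
      omega
    obtain ⟨e, he, heq⟩ : ∃ e ∈ ({0, -1} : Finset ℤ), ⌊-σ * (a : ℝ)⌋ = -⌊σ * (a : ℝ)⌋ + e := by
      rcases h5 with h | h
      · exact ⟨0, by simp, by rw [h, add_zero]⟩
      · exact ⟨-1, by simp, h⟩
    rw [heq, ← e1]
    have e4 : -(x + k) + e = (-x + e) + -k := by ring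
    rw [e4]
    exact Finset.add_mem_add (Finset.add_mem_add (Finset.mem_image_of_mem _ hx) he) (hH k hk)

theorem good_mul {H : Finset ℤ} {L1 L2 σ τ : ℝ} {c : ℕ} (hc : 1 ≤ c) (hτ : |τ| ≤ c) (h1 : Good H L1 σ)
    (h2 : Good H L2 τ) : Good H (L1 * L2 * (2 * (c : ℝ) + 3)) (σ * τ) := by
  obtain ⟨X1, c1, s1⟩ := h1
  obtain ⟨X2, c2, s2⟩ := h2
  refine ⟨dil τ X1 + X2 + Finset.Icc (-(c : ℤ) - 1) (c + 1), ?_, ?_⟩
  · have h3 : ((dil τ X1 + X2 + Finset.Icc (-(c : ℤ) - 1) (c + 1)).card : ℝ) ≤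
        (X1.card : ℝ) * X2.card * (2 * (c : ℝ) + 3) := by
      have h5 : (Finset.Icc (-(c : ℤ) - 1) ((c : ℤ) + 1)).card = 2 * c + 3 := by
        rw [Int.card_Icc]
        omega
      have := (Finset.card_add_le (s := dil τ X1 + X2)
        (t := Finset.Icc (-(c : ℤ) - 1) ((c : ℤ) + 1))).trans
        (Nat.mul_le_mul_right _ ((Finset.card_add_le (s := dil τ X1) (t := X2)).trans
          (Nat.mul_le_mul_right _ (Finset.card_image_le (s := X1)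
            (f := fun j : ℤ => ⌊τ * (j : ℝ)⌋)))))
      rw [h5] at this
      exact_mod_cast this
    refine h3.trans ?_
    have k1 : (0 : ℝ) ≤ X1.card := by positivity
    have k2 : (0 : ℝ) ≤ X2.card := by positivity
    have k3 : (0 : ℝ) ≤ L1 := k1.trans c1
    exact mul_le_mul_of_nonneg_right (mul_le_mul c1 c2 k2 k3) (by positivity)
  · intro w hw
    obtain ⟨a, ha, rfl⟩ := mem_dil.1 hw
    have g1 : ⌊σ * (a : ℝ)⌋ ∈ X1 + H := s1 (mem_dil.2 ⟨a, ha, rfl⟩)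
    obtain ⟨x1, hx1, k1, hk1, e1⟩ := Finset.mem_add.1 g1
    have g2 : ⌊τ * (k1 : ℝ)⌋ ∈ X2 + H := s2 (mem_dil.2 ⟨k1, hk1, rfl⟩)
    obtain ⟨x2, hx2, k2, hk2, e2⟩ := Finset.mem_add.1 g2
    have hc' : (1 : ℝ) ≤ c := by exact_mod_cast hc
    -- the error
    obtain ⟨e, he, heq⟩ : ∃ e ∈ Finset.Icc (-(c : ℤ) - 1) ((c : ℤ) + 1),
        ⌊σ * τ * (a : ℝ)⌋ = ⌊τ * (x1 : ℝ)⌋ + ⌊τ * (k1 : ℝ)⌋ + e := by
      refine ⟨⌊σ * τ * (a : ℝ)⌋ - (⌊τ * (x1 : ℝ)⌋ + ⌊τ * (k1 : ℝ)⌋), ?_, by ring⟩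
      have f1 := Int.floor_le (σ * (a : ℝ))
      have f2 := Int.lt_floor_add_one (σ * (a : ℝ))
      have f3 := Int.floor_le (σ * τ * (a : ℝ))
      have f4 := Int.lt_floor_add_one (σ * τ * (a : ℝ))
      have f5 := Int.floor_le (τ * (x1 : ℝ))
      have f6 := Int.lt_floor_add_one (τ * (x1 : ℝ))
      have f7 := Int.floor_le (τ * (k1 : ℝ))
      have f8 := Int.lt_floor_add_one (τ * (k1 : ℝ))
      have e1' : (x1 : ℝ) + k1 = ⌊σ * (a : ℝ)⌋ := by exact_mod_cast e1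
      have g3 : |τ * (σ * a - ⌊σ * (a : ℝ)⌋)| ≤ c := by
        rw [abs_mul]
        have g4 : |σ * (a : ℝ) - ⌊σ * (a : ℝ)⌋| ≤ 1 := by
          rw [abs_le]; constructor <;> linarith
        calc |τ| * |σ * (a : ℝ) - ⌊σ * (a : ℝ)⌋| ≤ c * 1 :=
              mul_le_mul hτ g4 (abs_nonneg _) (by positivity)
          _ = c := mul_one _
      rw [abs_le] at g3
      have g5 : σ * τ * a = τ * x1 + τ * k1 + τ * (σ * a - ⌊σ * (a : ℝ)⌋) := by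
        rw [← e1']
        ring
      rw [Finset.mem_Icc]
      constructor
      · have g6 : ((-(c : ℤ) - 1 - 1 : ℤ) : ℝ) <
            ((⌊σ * τ * (a : ℝ)⌋ - (⌊τ * (x1 : ℝ)⌋ + ⌊τ * (k1 : ℝ)⌋) : ℤ) : ℝ) := by
          push_cast
          linarith [g3.1]
        have g7 : (-(c : ℤ) - 1 - 1 : ℤ) <
            (⌊σ * τ * (a : ℝ)⌋ - (⌊τ * (x1 : ℝ)⌋ + ⌊τ * (k1 : ℝ)⌋) : ℤ) := by exact_mod_cast g6
        omega
      · have g6 : ((⌊σ * τ * (a : ℝ)⌋ - (⌊τ * (x1 : ℝ)⌋ + ⌊τ * (k1 : ℝ)⌋) : ℤ) : ℝ) <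
            (((c : ℤ) + 2 : ℤ) : ℝ) := by
          push_cast
          linarith [g3.2]
        have g7 : (⌊σ * τ * (a : ℝ)⌋ - (⌊τ * (x1 : ℝ)⌋ + ⌊τ * (k1 : ℝ)⌋) : ℤ) <
            ((c : ℤ) + 2 : ℤ) := by exact_mod_cast g6
        omega
    rw [heq, ← e2]
    have e4 : ⌊τ * (x1 : ℝ)⌋ + (x2 + k2) + e = (⌊τ * (x1 : ℝ)⌋ + x2 + e) + k2 := by ring
    rw [e4]
    exact Finset.add_mem_add (Finset.add_mem_add (Finset.add_mem_add
      (mem_dil.2 ⟨x1, hx1, rfl⟩) hx2) he) hk2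

theorem ring_add {R : ℕ} {N L D : ℝ} {H T : Finset ℤ} {l : ℤ} (h : AGrp R N L D H) (hL : 1 ≤ L)
    (hg : ∀ j ∈ T, Good H L ((j : ℝ) / l)) {z x : ℤ} (hz : z ∈ T) (hx : x ∈ T) :
    Good H (2 ^ 20 * L ^ 19) (((z : ℝ) + x) / l) := by
  obtain ⟨Y, hYc, hY⟩ := h.dbl
  rw [add_div]
  refine (good_add hY (hg z hz) (hg x hx)).mono ?_
  calc 2 * L * L * (Y.card : ℝ) ≤ 2 * L * L * L := mul_le_mul_of_nonneg_left hYc (by positivity)
    _ = 2 * L ^ 3 := by ring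
    _ ≤ 2 ^ 20 * L ^ 19 := by
      have : L ^ 3 ≤ L ^ 19 := pow_le_pow_right₀ hL (by norm_num)
      nlinarith [pow_nonneg (zero_le_one.trans hL) 19]

theorem ring_main {R : ℕ} {N L D : ℝ} {H T : Finset ℤ} {l : ℤ} (h : AGrp R N L D H) (hR : 1 ≤ R) (hL : 1 ≤ L)
    (hl : l ∈ SS R) (hT : T ⊆ SS R) (hg : ∀ j ∈ T, Good H L ((j : ℝ) / l)) {u v : ℤ} (huv : Adm T u v)
    {z x y : ℤ} (hz : z ∈ T) (hx : x ∈ T) (hy : y ∈ T) :
    Good H (2 ^ 20 * L ^ 19) (((z : ℝ) + ((u : ℝ) * x + (v : ℝ) * y) / l) / l) := by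
  obtain ⟨Y, hYc, hY⟩ := h.dbl
  have hL0 : 0 < L := zero_lt_one.trans_le hL
  have hR' : (1 : ℝ) ≤ R := by exact_mod_cast hR
  have hl' := mem_SS.1 hl
  have hl2 : (R : ℝ) / 2 ≤ l := by
    have : ((R : ℤ) : ℝ) ≤ ((2 * l : ℤ) : ℝ) := by exact_mod_cast hl'.2
    push_cast at this
    linarith
  have hlpos : (0 : ℝ) < l := by linarith
  have hbd : ∀ x ∈ T, (R : ℝ) / 2 ≤ x ∧ (x : ℝ) ≤ R := by
    intro x hx
    have hx' := mem_SS.1 (hT hx)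
    have h1 : ((R : ℤ) : ℝ) ≤ ((2 * x : ℤ) : ℝ) := by exact_mod_cast hx'.2
    have h2 : (x : ℝ) ≤ ((R : ℤ) : ℝ) := by exact_mod_cast hx'.1.2
    push_cast at h1 h2
    constructor <;> linarith
  -- sums with bounded constants
  have hadd : ∀ {L1 L2 σ τ : ℝ}, 0 ≤ L1 → 0 ≤ L2 → Good H L1 σ → Good H L2 τ →
      Good H (2 * L1 * L2 * L) (σ + τ) := fun h1 h2 g1 g2 =>
    (good_add hY g1 g2).mono (mul_le_mul_of_nonneg_left hYc (by positivity))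
  -- differences
  have hd : ∀ a ∈ T, ∀ b ∈ T, Good H (4 * L ^ 3) (((a : ℝ) - b) / l) ∧
      |((a : ℝ) - b) / l| ≤ 1 := by
    intro a ha b hb
    constructor
    · have h1 := hadd hL0.le (by positivity) (hg a ha) (good_neg h.neg (hg b hb))
      rw [show ((a : ℝ) - b) / l = (a : ℝ) / l + -((b : ℝ) / l) by ring]
      exact h1.mono (by nlinarith)
    · rw [abs_div, abs_of_pos hlpos, div_le_one hlpos]
      have g1 := hbd a ha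
      have g2 := hbd b hb
      rw [abs_le]
      constructor <;> linarith
  have hd2 : ∀ {σ τ : ℝ}, Good H (4 * L ^ 3) σ → Good H (4 * L ^ 3) τ →
      Good H (32 * L ^ 7) (σ + τ) := fun g1 g2 =>
    (hadd (by positivity) (by positivity) g1 g2).mono (by
      have : 2 * (4 * L ^ 3) * (4 * L ^ 3) * L = 32 * L ^ 7 := by ring
      rw [this])
  have h47 : 4 * L ^ 3 ≤ 32 * L ^ 7 := by
    have : L ^ 3 ≤ L ^ 7 := pow_le_pow_right₀ hL (by norm_num)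
    nlinarith [pow_nonneg hL0.le 7]
  -- the coefficients
  have hcoef : (Good H (32 * L ^ 7) ((u : ℝ) / l) ∧ |(u : ℝ) / l| ≤ 2) ∧
      (Good H (32 * L ^ 7) ((v : ℝ) / l) ∧ |(v : ℝ) / l| ≤ 2) := by
    obtain ⟨l1, m1, l2, m2, l3, m3, l4, m4, hcase⟩ := huv
    obtain ⟨p1, q1⟩ := hd l3 m3 l4 m4
    obtain ⟨p2, q2⟩ := hd l1 m1 l2 m2
    have r1 : Good H (32 * L ^ 7) ((((l3 - l4 : ℤ) : ℝ)) / l) ∧
        |((((l3 - l4 : ℤ) : ℝ)) / l)| ≤ 2 := by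
      push_cast
      exact ⟨p1.mono h47, by linarith⟩
    have r2 : Good H (32 * L ^ 7) ((((l1 - l2 : ℤ) : ℝ)) / l) ∧
        |((((l1 - l2 : ℤ) : ℝ)) / l)| ≤ 2 := by
      push_cast
      exact ⟨p2.mono h47, by linarith⟩
    have r3 : Good H (32 * L ^ 7) ((((2 * (l3 - l4) : ℤ) : ℝ)) / l) ∧
        |((((2 * (l3 - l4) : ℤ) : ℝ)) / l)| ≤ 2 := by
      push_cast
      have e : 2 * ((l3 : ℝ) - l4) / l = ((l3 : ℝ) - l4) / l + ((l3 : ℝ) - l4) / l := by ring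
      rw [e]
      refine ⟨hd2 p1 p1, (abs_add_le _ _).trans (by linarith)⟩
    have r4 : Good H (32 * L ^ 7) (((((l1 - l2) + (l3 - l4) : ℤ) : ℝ)) / l) ∧
        |(((((l1 - l2) + (l3 - l4) : ℤ) : ℝ)) / l)| ≤ 2 := by
      push_cast
      have e : (((l1 : ℝ) - l2) + ((l3 : ℝ) - l4)) / l =
          ((l1 : ℝ) - l2) / l + ((l3 : ℝ) - l4) / l := by ring
      rw [e]
      refine ⟨hd2 p2 p1, (abs_add_le _ _).trans (by linarith)⟩
    rcases hcase with ⟨rfl, rfl⟩ | ⟨rfl, rfl⟩ | ⟨rfl, rfl⟩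
    · exact ⟨r1, r2⟩
    · exact ⟨r3, r2⟩
    · exact ⟨r3, r4⟩
  obtain ⟨⟨gu, au⟩, ⟨gv, av⟩⟩ := hcoef
  have hmul : ∀ {w a : ℝ}, Good H (32 * L ^ 7) w → |w| ≤ 2 → Good H L a →
      Good H (224 * L ^ 8) (a * w) := by
    intro w a g1 g2 g3
    have := good_mul (c := 2) (by norm_num) (by exact_mod_cast g2) g3 g1
    refine this.mono (le_of_eq ?_)
    push_cast
    ring
  have s1 := hmul gu au (hg x hx)
  have s2 := hmul gv av (hg y hy)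
  have s3 := hadd (by positivity) (by positivity) s1 s2
  have s4 := hadd hL0.le (by positivity) (hg z hz) s3
  have e : ((z : ℝ) + ((u : ℝ) * x + (v : ℝ) * y) / l) / l =
      (z : ℝ) / l + ((x : ℝ) / l * ((u : ℝ) / l) + (y : ℝ) / l * ((v : ℝ) / l)) := by
    field_simp
  rw [e]
  refine s4.mono ?_
  have e5 : 2 * L * (2 * (224 * L ^ 8) * (224 * L ^ 8) * L) * L = 200704 * L ^ 19 := by ring
  rw [e5]
  exact mul_le_mul_of_nonneg_right (by norm_num) (by positivity)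

end C4N
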