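import Mathlib
import Pool.Agent.Work.MP_c4bd3e_lc.N.Defs

set_option autoImplicit false

/-!
# MP_c4bd3e_lc, negative half, module DilB

Rounding. `⌊x⌋ - ⌊y⌋ ∈ ⌊x - y⌋ + {0, 1}`, and `⌊σ ⌊τ a⌋⌋ - ⌊σ τ a⌋ ∈ [-c, c]` for `|σ| ≤ c`, `c ≥ 1` an integer
(`|σ ⌊τ a⌋ - σ τ a| < c`).
-/

namespace C4N

open Finset
open scoped Pointwise

theorem dil_mono {t : ℝ} {A B : Finset ℤ} (h : A ⊆ B) : dil t A ⊆ dil t B :=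
  Finset.image_subset_image h

private theorem mem_dilB {t : ℝ} {A : Finset ℤ} {x : ℤ} :
    x ∈ dil t A ↔ ∃ a ∈ A, ⌊t * (a : ℝ)⌋ = x := by
  simp [dil]

private theorem fl_sub (x y : ℝ) : ⌊x⌋ - ⌊y⌋ = ⌊x - y⌋ ∨ ⌊x⌋ - ⌊y⌋ = ⌊x - y⌋ + 1 := by
  have h1 := Int.floor_le x
  have h2 := Int.lt_floor_add_one x
  have h3 := Int.floor_le y
  have h4 := Int.lt_floor_add_one y
  have h5 := Int.floor_le (x - y)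
  have h6 := Int.lt_floor_add_one (x - y)
  have h7 : (⌊x - y⌋ : ℝ) < (⌊x⌋ - ⌊y⌋ + 1 : ℤ) := by
    push_cast
    linarith
  have h8 : ((⌊x⌋ - ⌊y⌋ : ℤ) : ℝ) < (⌊x - y⌋ + 2 : ℤ) := by
    push_cast
    linarith
  have h9 : ⌊x - y⌋ < ⌊x⌋ - ⌊y⌋ + 1 := by exact_mod_cast h7
  have h10 : ⌊x⌋ - ⌊y⌋ < ⌊x - y⌋ + 2 := by exact_mod_cast h8
  omega

theorem dil_sub_dil (t : ℝ) (A B : Finset ℤ) : dil t A - dil t B ⊆ dil t (A - B) + {0, 1} := by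
  intro z hz
  obtain ⟨x, hx, y, hy, rfl⟩ := Finset.mem_sub.1 hz
  obtain ⟨a, ha, rfl⟩ := mem_dilB.1 hx
  obtain ⟨b, hb, rfl⟩ := mem_dilB.1 hy
  have h1 : ⌊t * ((a - b : ℤ) : ℝ)⌋ ∈ dil t (A - B) :=
    mem_dilB.2 ⟨a - b, Finset.sub_mem_sub ha hb, rfl⟩
  have h2 : t * ((a - b : ℤ) : ℝ) = t * a - t * b := by
    push_cast
    ring
  rcases fl_sub (t * a) (t * b) with h | h
  · refine Finset.mem_add.2 ⟨_, h1, 0, by simp, ?_⟩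
    rw [h2, h, add_zero]
  · refine Finset.mem_add.2 ⟨_, h1, 1, by simp, ?_⟩
    rw [h2, h]

theorem dil_sub (t : ℝ) (A B : Finset ℤ) : dil t (A - B) ⊆ dil t A - dil t B + {-1, 0} := by
  intro z hz
  obtain ⟨x, hx, rfl⟩ := mem_dilB.1 hz
  obtain ⟨a, ha, b, hb, rfl⟩ := Finset.mem_sub.1 hx
  have h1 : ⌊t * (a : ℝ)⌋ - ⌊t * (b : ℝ)⌋ ∈ dil t A - dil t B :=
    Finset.sub_mem_sub (mem_dilB.2 ⟨a, ha, rfl⟩) (mem_dilB.2 ⟨b, hb, rfl⟩)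
  have h2 : t * ((a - b : ℤ) : ℝ) = t * a - t * b := by
    push_cast
    ring
  rcases fl_sub (t * a) (t * b) with h | h
  · refine Finset.mem_add.2 ⟨_, h1, 0, by simp, ?_⟩
    rw [h2, h, add_zero]
  · refine Finset.mem_add.2 ⟨_, h1, -1, by simp, ?_⟩
    rw [h2, h]
    ring

theorem dil_dil {σ : ℝ} {c : ℕ} (hc : 1 ≤ c) (hσ : |σ| ≤ c) (τ : ℝ) (A : Finset ℤ) :
    dil σ (dil τ A) ⊆ dil (σ * τ) A + Finset.Icc (-(c : ℤ)) (c : ℤ) := by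
  intro z hz
  obtain ⟨x, hx, rfl⟩ := mem_dilB.1 hz
  obtain ⟨a, ha, rfl⟩ := mem_dilB.1 hx
  refine Finset.mem_add.2 ⟨⌊σ * τ * (a : ℝ)⌋, mem_dilB.2 ⟨a, ha, rfl⟩,
    ⌊σ * (⌊τ * (a : ℝ)⌋ : ℝ)⌋ - ⌊σ * τ * (a : ℝ)⌋, ?_, add_sub_cancel _ _⟩
  have hc' : (0 : ℝ) < c := by
    have : (1 : ℝ) ≤ c := by exact_mod_cast hc
    linarith
  obtain ⟨f, hf⟩ : ∃ f, f = τ * (a : ℝ) - ⌊τ * (a : ℝ)⌋ := ⟨_, rfl⟩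
  have hf0 : 0 ≤ f := by
    rw [hf]
    linarith [Int.floor_le (τ * (a : ℝ))]
  have hf1 : f < 1 := by
    rw [hf]
    linarith [Int.lt_floor_add_one (τ * (a : ℝ))]
  have h1 : σ * (⌊τ * (a : ℝ)⌋ : ℝ) = σ * τ * a - σ * f := by
    rw [hf]
    ring
  have h2 : |σ * f| < c := by
    rw [abs_mul, abs_of_nonneg hf0]
    calc |σ| * f ≤ c * f := mul_le_mul_of_nonneg_right hσ hf0
      _ < c * 1 := mul_lt_mul_of_pos_left hf1 hc'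
      _ = c := mul_one _
  obtain ⟨h3, h4⟩ := abs_lt.1 h2
  have h5 := Int.floor_le (σ * (⌊τ * (a : ℝ)⌋ : ℝ))
  have h6 := Int.lt_floor_add_one (σ * (⌊τ * (a : ℝ)⌋ : ℝ))
  have h7 := Int.floor_le (σ * τ * (a : ℝ))
  have h8 := Int.lt_floor_add_one (σ * τ * (a : ℝ))
  have h9 : ((⌊σ * τ * (a : ℝ)⌋ - ⌊σ * (⌊τ * (a : ℝ)⌋ : ℝ)⌋ : ℤ) : ℝ) < ((c : ℤ) + 1 : ℤ) := by
    push_cast
    linarith
  have h10 : ((⌊σ * (⌊τ * (a : ℝ)⌋ : ℝ)⌋ - ⌊σ * τ * (a : ℝ)⌋ : ℤ) : ℝ) < ((c : ℤ) + 1 : ℤ) := by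
    push_cast
    linarith
  have h11 : ⌊σ * τ * (a : ℝ)⌋ - ⌊σ * (⌊τ * (a : ℝ)⌋ : ℝ)⌋ < (c : ℤ) + 1 := by
    exact_mod_cast h9
  have h12 : ⌊σ * (⌊τ * (a : ℝ)⌋ : ℝ)⌋ - ⌊σ * τ * (a : ℝ)⌋ < (c : ℤ) + 1 := by
    exact_mod_cast h10
  rw [Finset.mem_Icc]
  constructor <;> omega

end C4N
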