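import Mathlib
import Pool.Agent.Work.MP_c4bd3e_lc.N.Defs

set_option autoImplicit false

/-!
# MP_c4bd3e_lc, negative half, module Esel

`⌊t y⌋` is at most 2-to-1 for `t ≥ 1/2` (`⌊t y⌋ = k` iff `y` lies in the half-open interval `[k/t, (k+1)/t)` of length `≤ 2`).
So `(x, x', y, y') ↦ (x, x', ⌊t y⌋, ⌊t y'⌋)` is at most 4-to-1. (`Finset.card_le_mul_card_image`.)
-/

namespace C4N

open Finset
open scoped Pointwise

theorem card_dil_le (t : ℝ) (A : Finset ℤ) : (dil t A).card ≤ A.card :=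
  Finset.card_image_le

private theorem esel_fibre {t : ℝ} (ht : 1 / 2 ≤ t) (A : Finset ℤ) (k : ℤ) :
    (A.filter fun y : ℤ => ⌊t * (y : ℝ)⌋ = k).card ≤ 2 := by
  rcases (A.filter fun y : ℤ => ⌊t * (y : ℝ)⌋ = k).eq_empty_or_nonempty with h | h
  · rw [h, Finset.card_empty]
    exact Nat.zero_le _
  · set F := A.filter fun y : ℤ => ⌊t * (y : ℝ)⌋ = k with hF
    have hm := F.min'_mem h
    have hsub : F ⊆ {F.min' h, F.min' h + 1} := by
      intro z hz
      have h1 : F.min' h ≤ z := F.min'_le z hz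
      have h2 : ⌊t * (z : ℝ)⌋ = k := (Finset.mem_filter.1 hz).2
      have h3 : ⌊t * ((F.min' h : ℤ) : ℝ)⌋ = k := (Finset.mem_filter.1 hm).2
      have h4 : t * (z : ℝ) < k + 1 := by
        rw [← h2]
        exact Int.lt_floor_add_one _
      have h5 : (k : ℝ) ≤ t * ((F.min' h : ℤ) : ℝ) := by
        rw [← h3]
        exact Int.floor_le _
      have h6 : z < F.min' h + 2 := by
        by_contra hcon
        have h7 : F.min' h + 2 ≤ z := not_lt.1 hcon
        have h8 : ((F.min' h : ℤ) : ℝ) + 2 ≤ (z : ℝ) := by exact_mod_cast h7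
        nlinarith
      rw [Finset.mem_insert, Finset.mem_singleton]
      omega
    exact (Finset.card_le_card hsub).trans Finset.card_le_two

theorem card_le_dil {t : ℝ} (ht : 1 / 2 ≤ t) (A : Finset ℤ) : A.card ≤ 2 * (dil t A).card := by
  refine Finset.card_le_mul_card_image_of_maps_to (f := fun j : ℤ => ⌊t * (j : ℝ)⌋)
    (fun a ha => mem_dil.2 ⟨a, ha, rfl⟩) 2 fun b _ => ?_
  exact esel_fibre ht A b

theorem en_le {t : ℝ} (ht : 1 / 2 ≤ t) (A : Finset ℤ) : en t A ≤ 4 * Finset.addEnergy A (dil t A) := by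
  refine Finset.card_le_mul_card_image_of_maps_to
    (f := fun x : (ℤ × ℤ) × (ℤ × ℤ) => (x.1, (⌊t * (x.2.1 : ℝ)⌋, ⌊t * (x.2.2 : ℝ)⌋)))
    (fun a ha => ?_) 4 fun b _ => ?_
  · rw [Finset.mem_filter, Finset.mem_product, Finset.mem_product, Finset.mem_product] at ha
    rw [Finset.mem_filter, Finset.mem_product, Finset.mem_product, Finset.mem_product]
    exact ⟨⟨ha.1.1, mem_dil.2 ⟨_, ha.1.2.1, rfl⟩, mem_dil.2 ⟨_, ha.1.2.2, rfl⟩⟩, ha.2⟩
  · have hsub : (((A ×ˢ A) ×ˢ (A ×ˢ A)).filter (fun x : (ℤ × ℤ) × (ℤ × ℤ) =>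
        x.1.1 + ⌊t * (x.2.1 : ℝ)⌋ = x.1.2 + ⌊t * (x.2.2 : ℝ)⌋)).filter
          (fun x => (x.1, (⌊t * (x.2.1 : ℝ)⌋, ⌊t * (x.2.2 : ℝ)⌋)) = b) ⊆
        {b.1} ×ˢ ((A.filter fun y : ℤ => ⌊t * (y : ℝ)⌋ = b.2.1) ×ˢ
          (A.filter fun y : ℤ => ⌊t * (y : ℝ)⌋ = b.2.2)) := by
      intro x hx
      rw [Finset.mem_filter, Finset.mem_filter, Finset.mem_product, Finset.mem_product,
        Finset.mem_product] at hx
      obtain ⟨⟨⟨_, h1, h2⟩, _⟩, rfl⟩ := hx
      rw [Finset.mem_product, Finset.mem_product, Finset.mem_singleton, Finset.mem_filter,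
        Finset.mem_filter]
      exact ⟨rfl, ⟨h1, rfl⟩, ⟨h2, rfl⟩⟩
    refine (Finset.card_le_card hsub).trans ?_
    rw [Finset.card_product, Finset.card_product, Finset.card_singleton, one_mul]
    exact Nat.mul_le_mul (esel_fibre ht A _) (esel_fibre ht A _)

end C4N
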