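import Mathlib
import Pool.Agent.Work.MP_c4bd3e_lc.N.Defs
import Pool.Agent.Work.MP_c4bd3e_lc.N.DilB
import Pool.Agent.Work.MP_c4bd3e_lc.N.Esel

set_option autoImplicit false

/-!
# MP_c4bd3e_lc, negative half, module Ruz1

Ruzsa calculus for the sets of `Pre`. `t_j = j/R ∈ [1/2, 1]` for `j ∈ T ⊆ SS R`; `B0 = dil t_l (B' l)`.

* `ruz1_card`: `|B' l| ≥ N/L` (`interB` for `j = l`), `card_le_dil`. `ruz1_le`: `B' l ⊆ A`.
* `ruz1_self`: Ruzsa's triangle inequality (`Finset.ruzsa_triangle_inequality_sub_add_add`: `|B0 - B0||A' l| ≤ |B0 + A' l||A' l + B0|`),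
  `|A' l| ≥ N/L`: `|B0 - B0| ≤ (LN)²/(N/L)`.
* `ruz1_cross`: `Ai = A' j ∩ A' l`, `Bi = B' j ∩ B' l`. `|B0 - dil t_j Bi||Ai| ≤ |B0 + Ai||Ai + dil t_j Bi| ≤ (LN)²`, so `|B0 - dil t_j Bi| ≤ L³N`.
  `|B' l - B' l| ≤ 2 |dil t_l (B' l - B' l)| ≤ 4 |B0 - B0| ≤ 4L³N` (`dil_sub`), so `|dil t_j (B' l) - dil t_j Bi| ≤ 2 |B' l - B' l| ≤ 8L³N` (`dil_sub_dil`).
  Triangle (`ruzsa_triangle_inequality_sub_sub_sub`): `|dil t_j (B' l) - B0||dil t_j Bi| ≤ 8L³N * L³N`, `|dil t_j Bi| ≥ N/(2L)`.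
-/

namespace C4N

open Finset
open scoped Pointwise

theorem ruz1_half {R : ℕ} (hR : 1 ≤ R) {j : ℤ} (hj : j ∈ SS R) : (1 / 2 : ℝ) ≤ (j : ℝ) / R := by
  have hR0 : (0 : ℝ) < R := by exact_mod_cast hR
  have h1 := (mem_SS.1 hj).2
  have h2 : (R : ℝ) ≤ 2 * j := by exact_mod_cast h1
  rw [div_le_div_iff₀ (by norm_num) hR0]
  linarith

theorem ruz1_cardB {R : ℕ} {N L : ℝ} {p : ℤ → ℝ} {A : Finset ℤ} {l : ℤ} {T : Finset ℤ} {A' B' : ℤ → Finset ℤ}
    (h : Pre R N L p A l T A' B') : N / L ≤ ((B' l).card : ℝ) := by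
  have h1 := h.interB l h.l_mem
  rwa [Finset.inter_self] at h1

theorem ruz1_cardA {R : ℕ} {N L : ℝ} {p : ℤ → ℝ} {A : Finset ℤ} {l : ℤ} {T : Finset ℤ} {A' B' : ℤ → Finset ℤ}
    (h : Pre R N L p A l T A' B') : N / L ≤ ((A' l).card : ℝ) := by
  have h1 := h.interA l h.l_mem
  rwa [Finset.inter_self] at h1

theorem ruz1_card {R : ℕ} {N L : ℝ} {p : ℤ → ℝ} {A : Finset ℤ} {l : ℤ} {T : Finset ℤ} {A' B' : ℤ → Finset ℤ}
    (h : Pre R N L p A l T A' B') (hR : 1 ≤ R) (hN : 0 < N) (hL : 1 ≤ L) :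
    N / (2 * L) ≤ ((dil ((l : ℝ) / R) (B' l)).card : ℝ) := by
  have h1 := ruz1_cardB h
  have h2 := card_le_dil (ruz1_half hR (h.T_sub h.l_mem)) (B' l)
  have h3 : ((B' l).card : ℝ) ≤ 2 * ((dil ((l : ℝ) / R) (B' l)).card : ℝ) := by exact_mod_cast h2
  have h4 : N / (2 * L) = N / L / 2 := by
    rw [mul_comm, ← div_div]
  rw [h4]
  linarith

theorem ruz1_le {R : ℕ} {N L : ℝ} {p : ℤ → ℝ} {A : Finset ℤ} {l : ℤ} {T : Finset ℤ} {A' B' : ℤ → Finset ℤ}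
    (h : Pre R N L p A l T A' B') :
    ((dil ((l : ℝ) / R) (B' l)).card : ℝ) ≤ N := by
  have h1 : (dil ((l : ℝ) / R) (B' l)).card ≤ A.card :=
    (card_dil_le _ _).trans (Finset.card_le_card (h.subB l h.l_mem))
  have h2 : ((dil ((l : ℝ) / R) (B' l)).card : ℝ) ≤ (A.card : ℝ) := by exact_mod_cast h1
  exact h2.trans h.A_card

theorem ruz1_aux {x a X Y : ℕ} {N L : ℝ} (hN : 0 < N) (hL : 1 ≤ L) (ha : N / L ≤ (a : ℝ))
    (hxa : x * a ≤ X * Y) (hX : (X : ℝ) ≤ L * N) (hY : (Y : ℝ) ≤ L * N) : (x : ℝ) ≤ L ^ 3 * N := by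
  have hL0 : 0 < L := by linarith
  have h0 : (x : ℝ) * a ≤ (X : ℝ) * Y := by exact_mod_cast hxa
  have h1 : (x : ℝ) * (N / L) ≤ (L * N) * (L * N) :=
    (mul_le_mul_of_nonneg_left ha (Nat.cast_nonneg x)).trans
      (h0.trans (mul_le_mul hX hY (Nat.cast_nonneg Y) (by positivity)))
  have h2 : (L * N) * (L * N) = (L ^ 3 * N) * (N / L) := by
    field_simp
  rw [h2] at h1
  exact le_of_mul_le_mul_right h1 (by positivity)

theorem ruz1_self {R : ℕ} {N L : ℝ} {p : ℤ → ℝ} {A : Finset ℤ} {l : ℤ} {T : Finset ℤ} {A' B' : ℤ → Finset ℤ}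
    (h : Pre R N L p A l T A' B') (hR : 1 ≤ R) (hN : 0 < N) (hL : 1 ≤ L) :
    ((dil ((l : ℝ) / R) (B' l) - dil ((l : ℝ) / R) (B' l)).card : ℝ) ≤ L ^ 3 * N := by
  have h1 := Finset.ruzsa_triangle_inequality_sub_add_add (dil ((l : ℝ) / R) (B' l)) (A' l)
    (dil ((l : ℝ) / R) (B' l))
  have h2 := h.doub l h.l_mem
  rw [add_comm] at h2
  exact ruz1_aux hN hL (ruz1_cardA h) h1 h2 h2

theorem ruz1_cross {R : ℕ} {N L : ℝ} {p : ℤ → ℝ} {A : Finset ℤ} {l : ℤ} {T : Finset ℤ} {A' B' : ℤ → Finset ℤ}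
    (h : Pre R N L p A l T A' B') (hR : 1 ≤ R) (hN : 0 < N) (hL : 1 ≤ L) {j : ℤ} (hj : j ∈ T) :
    ((dil ((j : ℝ) / R) (B' l) - dil ((l : ℝ) / R) (B' l)).card : ℝ) ≤ 16 * L ^ 7 * N := by
  have hL0 : 0 < L := by linarith
  set B0 := dil ((l : ℝ) / R) (B' l) with hB0
  set Ai := A' j ∩ A' l with hAi
  set Bi := B' j ∩ B' l with hBi
  set C := dil ((j : ℝ) / R) Bi with hC
  set E := dil ((j : ℝ) / R) (B' l) with hE
  have hlh := ruz1_half hR (h.T_sub h.l_mem)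
  have hjh := ruz1_half hR (h.T_sub hj)
  -- `|B0 - C| ≤ L³N`
  have h1 : (((B0 - C).card : ℕ) : ℝ) ≤ L ^ 3 * N := by
    have h2 := Finset.ruzsa_triangle_inequality_sub_add_add B0 Ai C
    refine ruz1_aux hN hL (h.interA j hj) h2 ?_ ?_
    · have h3 : B0 + Ai ⊆ A' l + B0 := by
        rw [add_comm]
        exact Finset.add_subset_add Finset.inter_subset_right (Finset.Subset.refl _)
      exact (Nat.cast_le.2 (Finset.card_le_card h3)).trans (h.doub l h.l_mem)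
    · have h3 : C + Ai ⊆ A' j + dil ((j : ℝ) / R) (B' j) := by
        rw [add_comm]
        exact Finset.add_subset_add Finset.inter_subset_left (dil_mono Finset.inter_subset_left)
      exact (Nat.cast_le.2 (Finset.card_le_card h3)).trans (h.doub j hj)
  -- `|B' l - B' l| ≤ 4 |B0 - B0|`
  have h2 : (B' l - B' l).card ≤ 4 * (B0 - B0).card := by
    have h3 := card_le_dil hlh (B' l - B' l)
    have h4 := Finset.card_le_card (dil_sub ((l : ℝ) / R) (B' l) (B' l))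
    have h5 : (dil ((l : ℝ) / R) (B' l) - dil ((l : ℝ) / R) (B' l) + {-1, 0}).card ≤
        (B0 - B0).card * 2 := by
      refine Finset.card_add_le.trans ?_
      exact Nat.mul_le_mul_left _ (Finset.card_le_two)
    omega
  -- `|E - C| ≤ 8 |B0 - B0|`
  have h3 : (E - C).card ≤ 8 * (B0 - B0).card := by
    have h4 : (E - C).card ≤ _ := Finset.card_le_card (dil_sub_dil ((j : ℝ) / R) (B' l) Bi)
    have h5 : (dil ((j : ℝ) / R) (B' l - Bi) + {0, 1}).card ≤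
        (dil ((j : ℝ) / R) (B' l - Bi)).card * 2 := by
      refine Finset.card_add_le.trans ?_
      exact Nat.mul_le_mul_left _ (Finset.card_le_two)
    have h6 := card_dil_le ((j : ℝ) / R) (B' l - Bi)
    have h7 : (B' l - Bi).card ≤ (B' l - B' l).card :=
      Finset.card_le_card (Finset.sub_subset_sub (Finset.Subset.refl _) Finset.inter_subset_right)
    omega
  have h4 : ((B0 - B0).card : ℝ) ≤ L ^ 3 * N := ruz1_self h hR hN hL
  have h5 : ((E - C).card : ℝ) ≤ 8 * (L ^ 3 * N) := by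
    have : ((E - C).card : ℝ) ≤ 8 * ((B0 - B0).card : ℝ) := by exact_mod_cast h3
    linarith
  have h6 : N / L ≤ 2 * (C.card : ℝ) := by
    have h7 : Bi.card ≤ 2 * C.card := card_le_dil hjh Bi
    have h8 : (Bi.card : ℝ) ≤ 2 * (C.card : ℝ) := by exact_mod_cast h7
    exact (h.interB j hj).trans h8
  have h7 := Finset.ruzsa_triangle_inequality_sub_sub_sub E C B0
  have h8 : ((E - B0).card : ℝ) * (C.card : ℝ) ≤ ((E - C).card : ℝ) * ((B0 - C).card : ℝ) := by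
    exact_mod_cast h7
  have h9 : ((E - B0).card : ℝ) * (N / L) ≤ 2 * ((8 * (L ^ 3 * N)) * (L ^ 3 * N)) := by
    calc ((E - B0).card : ℝ) * (N / L) ≤ ((E - B0).card : ℝ) * (2 * (C.card : ℝ)) :=
          mul_le_mul_of_nonneg_left h6 (Nat.cast_nonneg _)
      _ = 2 * (((E - B0).card : ℝ) * (C.card : ℝ)) := by ring
      _ ≤ 2 * (((E - C).card : ℝ) * ((B0 - C).card : ℝ)) := by linarith
      _ ≤ 2 * ((8 * (L ^ 3 * N)) * (L ^ 3 * N)) := by
          refine mul_le_mul_of_nonneg_left ?_ (by norm_num)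
          exact mul_le_mul h5 h1 (Nat.cast_nonneg _) (by positivity)
  have h10 : 2 * ((8 * (L ^ 3 * N)) * (L ^ 3 * N)) = (16 * L ^ 7 * N) * (N / L) := by
    field_simp
    ring
  rw [h10] at h9
  exact le_of_mul_le_mul_right h9 (by positivity)

end C4N
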