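import Mathlib
import Pool.Agent.Work.MP_c4bd3e_lc.N.Defs
import Pool.Agent.Work.MP_c4bd3e_lc.N.DilB
import Pool.Agent.Work.MP_c4bd3e_lc.N.Ruz1

set_option autoImplicit false

/-!
# MP_c4bd3e_lc, negative half, module Ruz2

The difference set `B0 - B0` is covered well, and `j/l` (`j ∈ T`) is a good multiplier of it.

* `ruz_dbl` (no `Pre`): `|B0 - B0| ≤ L³N` and `|B0| ≥ N/(2L)` give `|B0 - B0| ≤ 2L⁴|B0|`; Pluennecke (`Finset.pluennecke_ruzsa_inequality_nsmul_sub_nsmul_sub` with both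
  sets `B0`): `|3B0 - 2B0| ≤ (2L⁴)⁵|B0|`; Ruzsa's covering lemma (`Finset.ruzsa_covering_add`): `2B0 - 2B0 ⊆ Y + (B0 - B0)`, `|Y| ≤ 32L²⁰`.
* `ruz2`: `C = dil (j/R) (B' l)`. `|C - B0| ≤ 16L⁷N ≤ 32L⁸|B0|`, so `C ⊆ F + (B0 - B0)`, `|F| ≤ 32L⁸` (`ruzsa_covering_add` for `C` and `-B0`), and
  `C - C ⊆ (F - F) + 2(B0 - B0) ⊆ (F - F) + Y + (B0 - B0)`. `j/l ≤ 2` (`l ≥ R/2`), `(j/l)(l/R) = j/R`: by `dil_dil` `dil (j/l) B0 ⊆ C + [-2, 2]`, so
  `dil (j/l) (B0 - B0) ⊆ dil (j/l) B0 - dil (j/l) B0 + {-1, 0} ⊆ (C - C) + [-5, 4]`. Number of translates `≤ 10 * (32L⁸)² * 32L²⁰ ≤ 2²⁰L³⁶`.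
-/

namespace C4N

open Finset
open scoped Pointwise

theorem ruz_nonempty {B0 : Finset ℤ} {N L : ℝ} (hN : 0 < N) (hL : 1 ≤ L)
    (h1 : N / (2 * L) ≤ (B0.card : ℝ)) : B0.Nonempty := by
  rw [← Finset.card_pos]
  have h2 : 0 < N / (2 * L) := by positivity
  have h3 : (0 : ℝ) < (B0.card : ℝ) := lt_of_lt_of_le h2 h1
  exact_mod_cast h3

theorem ruz_N_le {B0 : Finset ℤ} {N L : ℝ} (hL : 1 ≤ L)
    (h1 : N / (2 * L) ≤ (B0.card : ℝ)) : N ≤ 2 * L * (B0.card : ℝ) := by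
  rw [div_le_iff₀ (by positivity)] at h1
  linarith

/-- Pluennecke's inequality with real constants -/
theorem ruz_pl {B0 : Finset ℤ} (hB : B0.Nonempty) {K : ℝ} (h2 : ((B0 - B0).card : ℝ) ≤ K * B0.card)
    (m n : ℕ) : (((m • B0 - n • B0).card : ℕ) : ℝ) ≤ K ^ (m + n) * B0.card := by
  have hpos : (0 : ℝ) < (B0.card : ℝ) := by exact_mod_cast hB.card_pos
  have h3 := Finset.pluennecke_ruzsa_inequality_nsmul_sub_nsmul_sub hB B0 m n
  have h4 : (((m • B0 - n • B0).card : ℕ) : ℝ) ≤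
      (((B0 - B0).card : ℝ) / (B0.card : ℝ)) ^ (m + n) * (B0.card : ℝ) := by
    have h5 := (NNRat.cast_le (K := ℝ)).2 h3
    push_cast at h5
    exact h5
  refine h4.trans (mul_le_mul_of_nonneg_right ?_ hpos.le)
  apply pow_le_pow_left₀ (by positivity)
  rwa [div_le_iff₀ hpos]

theorem ruz_dbl {B0 : Finset ℤ} {N L : ℝ} (hN : 0 < N) (hL : 1 ≤ L) (h1 : N / (2 * L) ≤ (B0.card : ℝ))
    (h2 : ((B0 - B0).card : ℝ) ≤ L ^ 3 * N) :
    ∃ Y : Finset ℤ, (Y.card : ℝ) ≤ 32 * L ^ 20 ∧ (B0 - B0) + (B0 - B0) ⊆ Y + (B0 - B0) := by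
  have hB := ruz_nonempty hN hL h1
  have hL0 : 0 < L := by linarith
  have h3 : ((B0 - B0).card : ℝ) ≤ (2 * L ^ 4) * B0.card := by
    have h4 := ruz_N_le hL h1
    calc ((B0 - B0).card : ℝ) ≤ L ^ 3 * N := h2
      _ ≤ L ^ 3 * (2 * L * (B0.card : ℝ)) := mul_le_mul_of_nonneg_left h4 (by positivity)
      _ = _ := by ring
  have h5 := ruz_pl hB h3 3 2
  have h6 : (B0 - B0) + (B0 - B0) + B0 = 3 • B0 - 2 • B0 := by
    rw [show (3 : ℕ) = 2 + 1 from rfl, add_nsmul, one_nsmul, two_nsmul, ← add_sub_add_comm,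
      sub_add_eq_add_sub]
  have h7 : ((((B0 - B0) + (B0 - B0)) + B0).card : ℝ) ≤ (32 * L ^ 20) * B0.card := by
    rw [h6]
    refine h5.trans (le_of_eq ?_)
    ring
  obtain ⟨Y, -, hY, hsub⟩ := Finset.ruzsa_covering_add hB h7
  exact ⟨Y, hY, hsub⟩

theorem ruz2 {R : ℕ} {N L : ℝ} {p : ℤ → ℝ} {A : Finset ℤ} {l : ℤ} {T : Finset ℤ} {A' B' : ℤ → Finset ℤ}
    (h : Pre R N L p A l T A' B') (hR : 1 ≤ R) (hN : 0 < N) (hL : 1 ≤ L) {j : ℤ} (hj : j ∈ T) :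
    Good (dil ((l : ℝ) / R) (B' l) - dil ((l : ℝ) / R) (B' l)) (2 ^ 20 * L ^ 36) ((j : ℝ) / l) := by
  have hL0 : 0 < L := by linarith
  set B0 := dil ((l : ℝ) / R) (B' l) with hB0
  set C := dil ((j : ℝ) / R) (B' l) with hC
  have h1 : N / (2 * L) ≤ (B0.card : ℝ) := ruz1_card h hR hN hL
  have h2 : ((B0 - B0).card : ℝ) ≤ L ^ 3 * N := ruz1_self h hR hN hL
  have hB := ruz_nonempty hN hL h1
  obtain ⟨Y, hY, hYs⟩ := ruz_dbl hN hL h1 h2
  -- cover of `C`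
  have h3 : ((C - B0).card : ℝ) ≤ 16 * L ^ 7 * N := ruz1_cross h hR hN hL hj
  have h4 : ((C + -B0).card : ℝ) ≤ (32 * L ^ 8) * ((-B0).card : ℝ) := by
    rw [← sub_eq_add_neg, Finset.card_neg]
    have h5 := ruz_N_le hL h1
    calc ((C - B0).card : ℝ) ≤ 16 * L ^ 7 * N := h3
      _ ≤ 16 * L ^ 7 * (2 * L * (B0.card : ℝ)) := mul_le_mul_of_nonneg_left h5 (by positivity)
      _ = _ := by ring
  obtain ⟨F, -, hF, hFs⟩ := Finset.ruzsa_covering_add hB.neg h4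
  have h5 : -B0 - -B0 = B0 - B0 := by
    rw [sub_neg_eq_add, sub_eq_add_neg, add_comm]
  rw [h5] at hFs
  have h6 : C - C ⊆ (F - F) + (Y + (B0 - B0)) := by
    have h7 : C - C ⊆ (F + (B0 - B0)) - (F + (B0 - B0)) := Finset.sub_subset_sub hFs hFs
    have h8 : (F + (B0 - B0)) - (F + (B0 - B0)) = (F - F) + ((B0 - B0) + (B0 - B0)) := by
      have h9 : -(B0 - B0) = B0 - B0 := neg_sub _ _
      rw [add_sub_add_comm, sub_eq_add_neg (B0 - B0), h9]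
    rw [h8] at h7
    exact h7.trans (Finset.add_subset_add (Finset.Subset.refl _) hYs)
  -- the multiplier
  have hlS := mem_SS.1 (h.T_sub h.l_mem)
  have hjS := mem_SS.1 (h.T_sub hj)
  have hl0 : (0 : ℝ) < l := by
    have h7 : (0 : ℤ) < l := by
      have : (1 : ℤ) ≤ R := by exact_mod_cast hR
      omega
    exact_mod_cast h7
  have hR0 : (0 : ℝ) < R := by exact_mod_cast hR
  have hjl : |(j : ℝ) / l| ≤ ((2 : ℕ) : ℝ) := by
    have h7 : (0 : ℝ) ≤ j := by exact_mod_cast hjS.1.1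
    have h8 : (j : ℝ) ≤ R := by exact_mod_cast hjS.1.2
    have h9 : (R : ℝ) ≤ 2 * l := by exact_mod_cast hlS.2
    rw [abs_of_nonneg (by positivity), div_le_iff₀ hl0]
    push_cast
    linarith
  have h7 : dil ((j : ℝ) / l) B0 ⊆ C + Finset.Icc (-2 : ℤ) 2 := by
    have h8 := dil_dil (c := 2) (by norm_num) hjl ((l : ℝ) / R) (B' l)
    have h9 : (j : ℝ) / l * ((l : ℝ) / R) = (j : ℝ) / R := by
      field_simp
    rw [h9] at h8
    simpa using h8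
  have h8 : dil ((j : ℝ) / l) (B0 - B0) ⊆ (C - C) + Finset.Icc (-5 : ℤ) 4 := by
    refine (dil_sub _ _ _).trans ?_
    have h9 : dil ((j : ℝ) / l) B0 - dil ((j : ℝ) / l) B0 + {-1, 0} ⊆
        (C + Finset.Icc (-2 : ℤ) 2) - (C + Finset.Icc (-2 : ℤ) 2) + {-1, 0} :=
      Finset.add_subset_add (Finset.sub_subset_sub h7 h7) (Finset.Subset.refl _)
    refine h9.trans ?_
    have h10 : (C + Finset.Icc (-2 : ℤ) 2) - (C + Finset.Icc (-2 : ℤ) 2) + {-1, 0}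
        = (C - C) + ((Finset.Icc (-2 : ℤ) 2 - Finset.Icc (-2 : ℤ) 2) + {-1, 0}) := by
      rw [add_sub_add_comm, add_assoc]
    rw [h10]
    refine Finset.add_subset_add (Finset.Subset.refl _) ?_
    decide
  refine ⟨(F - F) + Y + Finset.Icc (-5 : ℤ) 4, ?_, ?_⟩
  · have h9 : ((F - F) + Y + Finset.Icc (-5 : ℤ) 4).card ≤ F.card * F.card * Y.card * 10 := by
      refine Finset.card_add_le.trans ?_
      have h10 : (Finset.Icc (-5 : ℤ) 4).card = 10 := by decide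
      rw [h10]
      refine Nat.mul_le_mul_right _ ?_
      refine Finset.card_add_le.trans ?_
      exact Nat.mul_le_mul_right _ Finset.card_sub_le
    have h10 : (((F - F) + Y + Finset.Icc (-5 : ℤ) 4).card : ℝ) ≤
        (F.card : ℝ) * F.card * Y.card * 10 := by exact_mod_cast h9
    refine h10.trans ?_
    have h11 : (F.card : ℝ) * F.card ≤ (32 * L ^ 8) * (32 * L ^ 8) :=
      mul_le_mul hF hF (Nat.cast_nonneg _) (by positivity)
    have h12 : (F.card : ℝ) * F.card * Y.card ≤ (32 * L ^ 8) * (32 * L ^ 8) * (32 * L ^ 20) :=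
      mul_le_mul h11 hY (Nat.cast_nonneg _) (by positivity)
    have h13 : 0 ≤ L ^ 36 := by positivity
    calc (F.card : ℝ) * F.card * Y.card * 10
        ≤ (32 * L ^ 8) * (32 * L ^ 8) * (32 * L ^ 20) * 10 := by linarith
      _ = 327680 * L ^ 36 := by ring
      _ ≤ 2 ^ 20 * L ^ 36 := by
          apply mul_le_mul_of_nonneg_right _ h13
          norm_num
  · refine h8.trans ?_
    have h9 : (C - C) + Finset.Icc (-5 : ℤ) 4 ⊆ (F - F) + (Y + (B0 - B0)) + Finset.Icc (-5 : ℤ) 4 :=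
      Finset.add_subset_add h6 (Finset.Subset.refl _)
    refine h9.trans (subset_of_eq ?_)
    rw [← add_assoc (F - F) Y, add_right_comm]

end C4N
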