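import Mathlib
import Pool.Agent.Work.MP_c4bd3e_lc.N.Defs
import Pool.Agent.Work.MP_c4bd3e_lc.N.Ruz1
import Pool.Agent.Work.MP_c4bd3e_lc.N.Ruz2
import Pool.Agent.Work.MP_c4bd3e_lc.N.Pack
import Pool.Agent.Work.MP_c4bd3e_lc.N.Nbl

set_option autoImplicit false

/-!
# MP_c4bd3e_lc, negative half, module Ruz3

`H = B0 - B0` (`B0 = dil (l/R) (B' l)`) is an approximate group that is not concentrated.

`zero`, `neg` clear (`B0` is nonempty). `le`: `ruz1_self`. `ge`: `|H| ≥ |B0| ≥ N/(2L)`. `dbl`: `ruz_dbl`.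
`ncon`: `Z = H ∩ [a, a+m)`. If `4m > R`: `|Z| ≤ |H| ≤ L³N ≤ 4L³N (m/R)^D` (`(1/4)^D ≥ 1/4`). If `4m ≤ R`: `nbl` for the set `B' l ⊆ A ⊆ SS R`
(`∑_{B' l} p ≥ |B' l|/N ≥ 1/L`) and `4m`: `Nb (4m) (B' l) ≥ (1/(L²K)) (R/(4m))^D`; `pack_dil`: `Nb (4m) (B' l) * |Z| ≤ 2 |B0 + Z| ≤ 2 |B0 + (B0 - B0)|
≤ 2 (2L⁴)³|B0| ≤ 16L¹²N` (Pluennecke, `|B0| ≤ N`). So `|Z| ≤ 16L¹²N L²K 4^D (m/R)^D ≤ 64L¹⁵N (m/R)^D`.
-/

namespace C4N

open Finset
open scoped Pointwise

private theorem r3_plu {B0 : Finset ℤ} {N L : ℝ} (hN : 0 < N) (hL : 1 ≤ L) (h1 : N / (2 * L) ≤ (B0.card : ℝ))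
    (h2 : ((B0 - B0).card : ℝ) ≤ L ^ 3 * N) :
    ((B0 + (B0 - B0)).card : ℝ) ≤ 8 * L ^ 12 * B0.card := by
  have hL0 : 0 < L := by linarith
  have hc : (0 : ℝ) < B0.card := lt_of_lt_of_le (by positivity) h1
  have hne : B0.Nonempty := by
    rw [← Finset.card_pos]
    exact_mod_cast hc
  have hP := Finset.pluennecke_ruzsa_inequality_nsmul_sub_nsmul_sub hne B0 2 1
  have hP' : (((2 • B0 - 1 • B0).card : ℚ≥0) : ℝ) ≤
      ((((B0 - B0).card / B0.card : ℚ≥0) ^ (2 + 1) * B0.card : ℚ≥0) : ℝ) := by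
    exact_mod_cast hP
  push_cast at hP'
  have hsub : B0 + (B0 - B0) ⊆ 2 • B0 - 1 • B0 := by
    intro x hx
    obtain ⟨b, hb, y, hy, rfl⟩ := Finset.mem_add.1 hx
    obtain ⟨b', hb', b'', hb'', rfl⟩ := Finset.mem_sub.1 hy
    rw [two_nsmul, one_nsmul]
    refine Finset.mem_sub.2 ⟨b + b', Finset.add_mem_add hb hb', b'', hb'', ?_⟩
    ring
  have hq : ((B0 - B0).card : ℝ) / B0.card ≤ 2 * L ^ 4 := by
    rw [div_le_iff₀ hc]
    have h3 : N ≤ 2 * L * B0.card := by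
      rw [div_le_iff₀ (by positivity)] at h1
      linarith
    calc ((B0 - B0).card : ℝ) ≤ L ^ 3 * N := h2
      _ ≤ L ^ 3 * (2 * L * B0.card) := by gcongr
      _ = 2 * L ^ 4 * B0.card := by ring
  calc ((B0 + (B0 - B0)).card : ℝ) ≤ ((2 • B0 - 1 • B0).card : ℝ) := by
        exact_mod_cast Finset.card_le_card hsub
    _ ≤ (((B0 - B0).card : ℝ) / B0.card) ^ (2 + 1) * B0.card := hP'
    _ ≤ (2 * L ^ 4) ^ (2 + 1) * B0.card := by gcongr
    _ = 8 * L ^ 12 * B0.card := by ring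

theorem ruz3 {R : ℕ} {N L K D : ℝ} {p : ℤ → ℝ} {A : Finset ℤ} {l : ℤ} {T : Finset ℤ} {A' B' : ℤ → Finset ℤ}
    (h : Pre R N L p A l T A' B') (hR : 1 ≤ R) (hN : 0 < N) (hL : 2 ≤ L) (hK : 1 ≤ K) (hKL : K ≤ L)
    (hD0 : 0 ≤ D) (hD1 : D ≤ 1) (hp : Wt R p)
    (hcol : ∀ m : ℕ, 1 ≤ m → m ≤ R → Col R p m ≤ K * ((m : ℝ) / R) ^ D) :
    AGrp R N (2 ^ 20 * L ^ 36) D (dil ((l : ℝ) / R) (B' l) - dil ((l : ℝ) / R) (B' l)) := by
  classical
  have hL0 : 0 < L := by linarith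
  have hL1 : 1 ≤ L := by linarith
  have hRr : (1 : ℝ) ≤ R := by exact_mod_cast hR
  have hR0 : (0 : ℝ) < R := by linarith
  set B0 := dil ((l : ℝ) / R) (B' l) with hB0
  have c1 := ruz1_card h hR hN hL1
  have c2 := ruz1_le h
  have c3 := ruz1_self h hR hN hL1
  rw [← hB0] at c1 c2 c3
  have hc : (0 : ℝ) < B0.card := lt_of_lt_of_le (by positivity) c1
  have hne : B0.Nonempty := by
    rw [← Finset.card_pos]
    exact_mod_cast hc
  have h3 : N ≤ 2 * L * B0.card := by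
    have h4 := c1
    rw [div_le_iff₀ (by positivity)] at h4
    linarith
  have hself : (B0.card : ℝ) ≤ ((B0 - B0).card : ℝ) := by
    exact_mod_cast Finset.card_le_card_sub_self
  have p1 : ∀ k n : ℕ, k ≤ n → L ^ k ≤ L ^ n := fun k n hkn => pow_le_pow_right₀ hL1 hkn
  refine ⟨?_, ?_, ?_, ?_, ?_, ?_⟩
  · obtain ⟨b, hb⟩ := hne
    exact Finset.mem_sub.2 ⟨b, hb, b, hb, sub_self b⟩
  · intro x hx
    obtain ⟨b, hb, b', hb', rfl⟩ := Finset.mem_sub.1 hx
    exact Finset.mem_sub.2 ⟨b', hb', b, hb, by ring⟩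
  · refine c3.trans (mul_le_mul_of_nonneg_right ?_ hN.le)
    calc L ^ 3 ≤ L ^ 36 := p1 3 36 (by norm_num)
      _ ≤ 2 ^ 20 * L ^ 36 := le_mul_of_one_le_left (by positivity) (by norm_num)
  · calc N ≤ 2 * L * B0.card := h3
      _ ≤ 2 ^ 20 * L ^ 36 * ((B0 - B0).card : ℝ) := by
        refine mul_le_mul ?_ hself hc.le (by positivity)
        have := p1 1 36 (by norm_num)
        rw [pow_one] at this
        nlinarith
  · obtain ⟨Y, hY1, hY2⟩ := ruz_dbl hN hL1 c1 c3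
    refine ⟨Y, hY1.trans ?_, hY2⟩
    have := p1 20 36 (by norm_num)
    have h5 : (0 : ℝ) ≤ L ^ 36 := by positivity
    linarith
  · intro a m hm
    have hmr : (1 : ℝ) ≤ m := by exact_mod_cast hm
    have hm0 : (0 : ℝ) < m := by linarith
    set Z := (B0 - B0).filter (fun x => a ≤ x ∧ x < a + m) with hZ
    have hx0 : (0 : ℝ) < (m : ℝ) / R := by positivity
    have hw0 : (0 : ℝ) < ((m : ℝ) / R) ^ D := Real.rpow_pos_of_pos hx0 D
    have hq : (1 / 4 : ℝ) ≤ (1 / 4 : ℝ) ^ D := by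
      calc (1 / 4 : ℝ) = (1 / 4 : ℝ) ^ (1 : ℝ) := (Real.rpow_one _).symm
        _ ≤ (1 / 4 : ℝ) ^ D := Real.rpow_le_rpow_of_exponent_ge (by norm_num) (by norm_num) hD1
    have hfin : 64 * L ^ 15 ≤ 2 ^ 20 * L ^ 36 := by
      have := p1 15 36 (by norm_num)
      have h5 : (0 : ℝ) ≤ L ^ 36 := by positivity
      linarith
    have hZH : (Z.card : ℝ) ≤ ((B0 - B0).card : ℝ) := by
      exact_mod_cast Finset.card_le_card (Finset.filter_subset _ _)
    have key : (Z.card : ℝ) ≤ 64 * L ^ 15 * N * ((m : ℝ) / R) ^ D := by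
      rcases lt_or_ge R (4 * m) with h4 | h4
      · have h5 : (1 / 4 : ℝ) ≤ (m : ℝ) / R := by
          rw [le_div_iff₀ hR0]
          have : (R : ℝ) < 4 * m := by exact_mod_cast h4
          linarith
        have h6 : (1 / 4 : ℝ) ≤ ((m : ℝ) / R) ^ D :=
          hq.trans (Real.rpow_le_rpow (by norm_num) h5 hD0)
        have h7 := p1 3 15 (by norm_num)
        calc (Z.card : ℝ) ≤ L ^ 3 * N := hZH.trans c3
          _ ≤ L ^ 15 * N := by gcongr
          _ = 4 * L ^ 15 * N * (1 / 4) := by ring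
          _ ≤ 64 * L ^ 15 * N * ((m : ℝ) / R) ^ D := by
            refine mul_le_mul ?_ h6 (by norm_num) (by positivity)
            have : 0 ≤ L ^ 15 * N := by positivity
            nlinarith
      · -- the set of blocks
        have hlT := h.l_mem
        have hlS := mem_SS.1 (h.T_sub hlT)
        have hBA := h.subB l hlT
        have hcardB : N / L ≤ ((B' l).card : ℝ) := by
          have := h.interB l hlT
          rwa [Finset.inter_self] at this
        have hmass : 1 / L ≤ ∑ i ∈ B' l, p i := by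
          calc 1 / L = N / L * (1 / N) := by field_simp
            _ ≤ ((B' l).card : ℝ) * (1 / N) := by gcongr
            _ = ∑ i ∈ B' l, (1 / N) := by rw [Finset.sum_const, nsmul_eq_mul]
            _ ≤ ∑ i ∈ B' l, p i := Finset.sum_le_sum fun i hi => h.A_ge i (hBA hi)
        have hnb := nbl hR hK hL1 hD0 hp hcol (hBA.trans h.A_sub) hmass (4 * m) (by omega)
        have ht : (1 / 2 : ℝ) ≤ (l : ℝ) / R := by
          rw [le_div_iff₀ hR0]
          have : ((R : ℤ) : ℝ) ≤ ((2 * l : ℤ) : ℝ) := by exact_mod_cast hlS.2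
          push_cast at this
          linarith
        have hpk := pack_dil ht hm (B' l) Z a (fun z hz => (Finset.mem_filter.1 hz).2)
        rw [← hB0] at hpk
        have hpk' : (Nb (4 * m) (B' l) : ℝ) * Z.card ≤ 2 * ((B0 + Z).card : ℝ) := by
          exact_mod_cast hpk
        have hBZ : ((B0 + Z).card : ℝ) ≤ ((B0 + (B0 - B0)).card : ℝ) := by
          exact_mod_cast Finset.card_le_card (Finset.add_subset_add_left (Finset.filter_subset _ _))
        have hplu := r3_plu hN hL1 c1 c3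
        have hbig : (Nb (4 * m) (B' l) : ℝ) * Z.card ≤ 16 * L ^ 12 * N := by
          calc (Nb (4 * m) (B' l) : ℝ) * Z.card ≤ 2 * ((B0 + Z).card : ℝ) := hpk'
            _ ≤ 2 * (8 * L ^ 12 * B0.card) := by linarith
            _ ≤ 2 * (8 * L ^ 12 * N) := by gcongr
            _ = 16 * L ^ 12 * N := by ring
        have hZ0 : (0 : ℝ) ≤ Z.card := Nat.cast_nonneg _
        have hnb' : 1 / (L ^ 2 * K) * ((R : ℝ) / (4 * m)) ^ D ≤ (Nb (4 * m) (B' l) : ℝ) := by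
          have := hnb
          push_cast at this
          exact this
        have hprod : ((R : ℝ) / (4 * m)) ^ D * ((m : ℝ) / R) ^ D = (1 / 4 : ℝ) ^ D := by
          rw [← Real.mul_rpow (by positivity) hx0.le]
          congr 1
          field_simp
        have hLK : 0 < L ^ 2 * K := by positivity
        have h8 : 1 / (L ^ 2 * K) * (1 / 4) * Z.card ≤ 16 * L ^ 12 * N * ((m : ℝ) / R) ^ D := by
          calc 1 / (L ^ 2 * K) * (1 / 4) * Z.card
              ≤ 1 / (L ^ 2 * K) * (1 / 4 : ℝ) ^ D * Z.card := by gcongr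
            _ = (1 / (L ^ 2 * K) * ((R : ℝ) / (4 * m)) ^ D) * Z.card * ((m : ℝ) / R) ^ D := by
              rw [← hprod]
              ring
            _ ≤ (Nb (4 * m) (B' l) : ℝ) * Z.card * ((m : ℝ) / R) ^ D := by gcongr
            _ ≤ 16 * L ^ 12 * N * ((m : ℝ) / R) ^ D := by gcongr
        have h9 : (Z.card : ℝ) ≤ 4 * (L ^ 2 * K) * (16 * L ^ 12 * N * ((m : ℝ) / R) ^ D) := by
          calc (Z.card : ℝ) = 4 * (L ^ 2 * K) * (1 / (L ^ 2 * K) * (1 / 4) * Z.card) := by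
                field_simp
            _ ≤ _ := by gcongr
        calc (Z.card : ℝ) ≤ 4 * (L ^ 2 * K) * (16 * L ^ 12 * N * ((m : ℝ) / R) ^ D) := h9
          _ ≤ 4 * (L ^ 2 * L) * (16 * L ^ 12 * N * ((m : ℝ) / R) ^ D) := by gcongr
          _ = 64 * L ^ 15 * N * ((m : ℝ) / R) ^ D := by ring
    calc (Z.card : ℝ) ≤ 64 * L ^ 15 * N * ((m : ℝ) / R) ^ D := key
      _ ≤ 2 ^ 20 * L ^ 36 * N * ((m : ℝ) / R) ^ D := by gcongr

end C4N
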