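import Mathlib

set_option autoImplicit false

/-!
# MP_c4bd3e_lc, negative half, module Paths

Paths of length 3 in dense bipartite graphs (the graph lemma of Balog-Szemeredi-Gowers). Pure finite combinatorics.

Proof. `N(a) = {c : (a,c) ∈ G}`. `A0 = {a ∈ A : |N(a)| ≥ N/(2M)}`: the edges from `A \ A0` number at most `N²/(2M)`, so
`G0 = G ∩ (A0 × C)` has at least `N²/(2M)` edges. `A_c = {a ∈ A0 : (a,c) ∈ G}`: `∑_c |A_c|² ≥ |G0|²/|C| ≥ N³/(4M²)`.
Call `(a,a') ∈ A0²` bad if `|N(a) ∩ N(a')| < N/(128M³)`, `bad_c` = number of bad pairs in `A_c²`: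
`∑_c bad_c ≤ N² * N/(128M³)`. So `∑_c (|A_c|² - 16 M bad_c) ≥ N³/(8M²)`, and some `c ∈ C` has `|A_c|² - 16 M bad_c ≥ N²/(8M²)`.
`A1 = A_c`: `|A1| ≥ N/(3M)`, `bad_c ≤ |A1|²/(16M)`. `A' = {a ∈ A1 : at most |A1|/(8M) a' ∈ A1 are bad with a}`: `|A1 \ A'| ≤ |A1|/2`,
so `|A'| ≥ N/(6M)`. `C' = {c' ∈ C : |N(c') ∩ A1| ≥ |A1|/(4M)}`: `∑_{c'} |N(c') ∩ A1| ≥ |A1| N/(2M)` (`A1 ⊆ A0`), the `c' ∉ C'` contribute
`≤ N |A1|/(4M)`, so `|C'| |A1| ≥ |A1| N/(4M)`. For `a ∈ A'`, `c' ∈ C'`: at least `|A1|/(4M) - |A1|/(8M)` elements `a₁ ∈ A1` are adjacent to `c'`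
and not bad with `a`, each gives `≥ N/(128M³)` common neighbours `c₁`: at least `(N/(3M)) (1/(8M)) N/(128M³) = N²/(3072M⁵)` pairs.
-/

namespace C4N

open Finset
open scoped Pointwise

theorem paths {A C : Finset ℤ} {G : Finset (ℤ × ℤ)} {N M : ℝ} (hN : 0 < N) (hM : 1 ≤ M) (hG : G ⊆ A ×ˢ C)
    (hA : (A.card : ℝ) ≤ N) (hC : (C.card : ℝ) ≤ N) (hcard : N ^ 2 / M ≤ (G.card : ℝ)) :
    ∃ A' C' : Finset ℤ, A' ⊆ A ∧ C' ⊆ C ∧ N / (6 * M) ≤ (A'.card : ℝ) ∧ N / (4 * M) ≤ (C'.card : ℝ) ∧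
      ∀ a ∈ A', ∀ c ∈ C', N ^ 2 / (3072 * M ^ 5) ≤
        (((C ×ˢ A).filter (fun x => (a, x.1) ∈ G ∧ (x.2, x.1) ∈ G ∧ (x.2, c) ∈ G)).card : ℝ) := by
  classical
  have hM0 : 0 < M := by linarith
  -- the indicator of the graph and degrees
  let g : ℤ → ℤ → ℝ := fun a c => if (a, c) ∈ G then 1 else 0
  have g0 : ∀ a c, 0 ≤ g a c := fun a c => by
    simp only [g]
    split_ifs <;> norm_num
  have g1 : ∀ a c, g a c ≤ 1 := fun a c => by
    simp only [g]
    split_ifs <;> norm_num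
  let dg : ℤ → ℝ := fun a => ∑ c ∈ C, g a c
  have hGc : (G.card : ℝ) = ∑ a ∈ A, dg a := by
    have h1 : G = (A ×ˢ C).filter (fun x => x ∈ G) := by
      ext x
      rw [Finset.mem_filter]
      exact ⟨fun h => ⟨hG h, h⟩, fun h => h.2⟩
    conv_lhs => rw [h1]
    rw [Finset.card_filter, Finset.sum_product]
    push_cast
    rfl
  -- step 1
  let A0 : Finset ℤ := A.filter (fun a => N / (2 * M) ≤ dg a)
  have hA0 : A0 ⊆ A := Finset.filter_subset _ _
  have hA0c : (A0.card : ℝ) ≤ N := le_trans (by exact_mod_cast Finset.card_le_card hA0) hA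
  have hS0 : N ^ 2 / (2 * M) ≤ ∑ a ∈ A0, dg a := by
    have h1 : ∑ a ∈ A, dg a = ∑ a ∈ A0, dg a + ∑ a ∈ A.filter (fun a => ¬ N / (2 * M) ≤ dg a), dg a :=
      (Finset.sum_filter_add_sum_filter_not A _ _).symm
    have h2 : ∑ a ∈ A.filter (fun a => ¬ N / (2 * M) ≤ dg a), dg a ≤
        (A.filter (fun a => ¬ N / (2 * M) ≤ dg a)).card • (N / (2 * M)) :=
      Finset.sum_le_card_nsmul _ _ _ fun a ha => (not_le.1 (Finset.mem_filter.1 ha).2).le
    have h3 : ((A.filter (fun a => ¬ N / (2 * M) ≤ dg a)).card : ℝ) ≤ N :=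
      le_trans (by exact_mod_cast Finset.card_le_card (Finset.filter_subset _ _)) hA
    rw [nsmul_eq_mul] at h2
    have h4 : ((A.filter (fun a => ¬ N / (2 * M) ≤ dg a)).card : ℝ) * (N / (2 * M)) ≤
        N * (N / (2 * M)) := mul_le_mul_of_nonneg_right h3 (by positivity)
    have h5 : N ^ 2 / M = 2 * (N * (N / (2 * M))) := by
      field_simp
    have h6 : N ^ 2 / (2 * M) = N * (N / (2 * M)) := by
      field_simp
    rw [h6]
    linarith
  let dA : ℤ → ℝ := fun c => ∑ a ∈ A0, g a c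
  have hdA : ∑ c ∈ C, dA c = ∑ a ∈ A0, dg a := Finset.sum_comm
  -- step 2: Cauchy-Schwarz
  have hCS : N ^ 3 / (4 * M ^ 2) ≤ ∑ c ∈ C, dA c ^ 2 := by
    have h1 : (∑ c ∈ C, dA c) ^ 2 ≤ (C.card : ℝ) * ∑ c ∈ C, dA c ^ 2 := sq_sum_le_card_mul_sum_sq
    have h2 : (C.card : ℝ) * ∑ c ∈ C, dA c ^ 2 ≤ N * ∑ c ∈ C, dA c ^ 2 :=
      mul_le_mul_of_nonneg_right hC (Finset.sum_nonneg fun c _ => sq_nonneg _)
    have h3 : (N ^ 2 / (2 * M)) ^ 2 ≤ (∑ c ∈ C, dA c) ^ 2 := by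
      rw [hdA]
      exact pow_le_pow_left₀ (by positivity) hS0 2
    have h4 : (N ^ 2 / (2 * M)) ^ 2 = N * (N ^ 3 / (4 * M ^ 2)) := by
      field_simp
      ring
    rw [h4] at h3
    exact le_of_mul_le_mul_left (h3.trans (h1.trans h2)) hN
  -- common neighbours and bad pairs
  let co : ℤ → ℤ → ℝ := fun a a' => ∑ c ∈ C, g a c * g a' c
  let bd : ℤ → ℤ → ℝ := fun a a' => if co a a' < N / (128 * M ^ 3) then 1 else 0
  have bd0 : ∀ a a', 0 ≤ bd a a' := fun a a' => by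
    simp only [bd]
    split_ifs <;> norm_num
  let bc : ℤ → ℝ := fun c => ∑ a ∈ A0, ∑ a' ∈ A0, bd a a' * (g a c * g a' c)
  have bc0 : ∀ c, 0 ≤ bc c := fun c => Finset.sum_nonneg fun a _ => Finset.sum_nonneg fun a' _ =>
    mul_nonneg (bd0 _ _) (mul_nonneg (g0 _ _) (g0 _ _))
  have hbc : ∑ c ∈ C, bc c ≤ N ^ 3 / (128 * M ^ 3) := by
    have h1 : ∑ c ∈ C, bc c = ∑ a ∈ A0, ∑ a' ∈ A0, bd a a' * co a a' := by
      simp only [bc, co]
      rw [Finset.sum_comm]
      refine Finset.sum_congr rfl fun a _ => ?_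
      rw [Finset.sum_comm]
      refine Finset.sum_congr rfl fun a' _ => ?_
      rw [Finset.mul_sum]
    have h2 : ∀ a a', bd a a' * co a a' ≤ N / (128 * M ^ 3) := by
      intro a a'
      simp only [bd]
      split_ifs with h
      · rw [one_mul]
        exact h.le
      · rw [zero_mul]
        positivity
    rw [h1]
    calc ∑ a ∈ A0, ∑ a' ∈ A0, bd a a' * co a a' ≤ ∑ a ∈ A0, ∑ a' ∈ A0, N / (128 * M ^ 3) :=
          Finset.sum_le_sum fun a _ => Finset.sum_le_sum fun a' _ => h2 a a'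
      _ = (A0.card : ℝ) * ((A0.card : ℝ) * (N / (128 * M ^ 3))) := by
          rw [Finset.sum_const, Finset.sum_const, nsmul_eq_mul, nsmul_eq_mul]
      _ ≤ N * (N * (N / (128 * M ^ 3))) :=
          mul_le_mul hA0c (mul_le_mul_of_nonneg_right hA0c (by positivity)) (by positivity) hN.le
      _ = N ^ 3 / (128 * M ^ 3) := by ring
  -- choice of `c`
  have hex : ∃ c ∈ C, N ^ 2 / (8 * M ^ 2) ≤ dA c ^ 2 - 16 * M * bc c := by
    by_contra hcon
    push Not at hcon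
    have h1 : ∑ c ∈ C, (dA c ^ 2 - 16 * M * bc c) ≤ C.card • (N ^ 2 / (8 * M ^ 2)) :=
      Finset.sum_le_card_nsmul _ _ _ fun c hc => (hcon c hc).le
    have h2 : ∑ c ∈ C, (dA c ^ 2 - 16 * M * bc c) = ∑ c ∈ C, dA c ^ 2 - 16 * M * ∑ c ∈ C, bc c := by
      rw [Finset.sum_sub_distrib, Finset.mul_sum]
    have h3 : 16 * M * ∑ c ∈ C, bc c ≤ 16 * M * (N ^ 3 / (128 * M ^ 3)) :=
      mul_le_mul_of_nonneg_left hbc (by positivity)
    have h4 : 16 * M * (N ^ 3 / (128 * M ^ 3)) = N ^ 3 / (8 * M ^ 2) := by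
      field_simp
      ring
    have h5 : N ^ 3 / (4 * M ^ 2) = 2 * (N ^ 3 / (8 * M ^ 2)) := by
      field_simp
      ring
    have hCne : C.Nonempty := by
      rw [Finset.nonempty_iff_ne_empty]
      rintro rfl
      rw [Finset.sum_empty] at hCS
      have : 0 < N ^ 3 / (4 * M ^ 2) := by positivity
      linarith
    have h6 : ∑ c ∈ C, (dA c ^ 2 - 16 * M * bc c) < ∑ c ∈ C, (N ^ 2 / (8 * M ^ 2)) :=
      Finset.sum_lt_sum_of_nonempty hCne fun c hc => hcon c hc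
    rw [Finset.sum_const, nsmul_eq_mul] at h6
    have h7 : (C.card : ℝ) * (N ^ 2 / (8 * M ^ 2)) ≤ N * (N ^ 2 / (8 * M ^ 2)) :=
      mul_le_mul_of_nonneg_right hC (by positivity)
    have h8 : N * (N ^ 2 / (8 * M ^ 2)) = N ^ 3 / (8 * M ^ 2) := by ring
    linarith
  obtain ⟨c, -, hc⟩ := hex
  let A1 : Finset ℤ := A0.filter (fun a => (a, c) ∈ G)
  have hA1 : A1 ⊆ A0 := Finset.filter_subset _ _
  have hn1 : (A1.card : ℝ) = dA c := by
    simp only [A1, dA, g]
    rw [Finset.card_filter]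
    push_cast
    rfl
  obtain ⟨n1, hn1'⟩ : ∃ n1 : ℝ, n1 = (A1.card : ℝ) := ⟨_, rfl⟩
  rw [← hn1'] at hn1
  rw [← hn1] at hc
  have hn0 : 0 ≤ n1 := by
    rw [hn1']
    positivity
  have hbcc := bc0 c
  have hn2 : N ^ 2 / (8 * M ^ 2) ≤ n1 ^ 2 := by
    have : 0 ≤ 16 * M * bc c := by positivity
    linarith
  have hn3 : N / (3 * M) ≤ n1 := by
    have h1 : (N / (3 * M)) ^ 2 ≤ n1 ^ 2 := by
      refine le_trans ?_ hn2
      have h2 : (N / (3 * M)) ^ 2 = N ^ 2 / (9 * M ^ 2) := by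
        field_simp
        ring
      rw [h2]
      gcongr
      norm_num
    exact (sq_le_sq₀ (by positivity) hn0).1 h1
  have hn1p : 0 < n1 := lt_of_lt_of_le (by positivity) hn3
  have hbc2 : bc c ≤ n1 ^ 2 / (16 * M) := by
    rw [le_div_iff₀ (by positivity)]
    have : 0 ≤ N ^ 2 / (8 * M ^ 2) := by positivity
    linarith
  let bn : ℤ → ℝ := fun a => ∑ a' ∈ A1, bd a a'
  have hbc3 : bc c = ∑ a ∈ A1, bn a := by
    simp only [bc, bn, A1]
    rw [Finset.sum_filter (s := A0) (p := fun a => (a, c) ∈ G)]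
    refine Finset.sum_congr rfl fun a _ => ?_
    by_cases ha : (a, c) ∈ G
    · rw [if_pos ha, Finset.sum_filter (s := A0) (p := fun a => (a, c) ∈ G)]
      refine Finset.sum_congr rfl fun a' _ => ?_
      simp only [g, ha, if_true, one_mul]
      split_ifs <;> simp
    · rw [if_neg ha]
      refine Finset.sum_eq_zero fun a' _ => ?_
      simp only [g, ha, if_false, zero_mul, mul_zero]
  -- the set `A'`
  let A' : Finset ℤ := A1.filter (fun a => bn a ≤ n1 / (8 * M))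
  have hA'c : n1 / 2 ≤ (A'.card : ℝ) := by
    have h1 : ((A1.filter (fun a => ¬ bn a ≤ n1 / (8 * M))).card : ℝ) * (n1 / (8 * M)) ≤ bc c := by
      rw [hbc3, ← nsmul_eq_mul]
      refine le_trans (Finset.card_nsmul_le_sum _ bn _ fun a ha =>
        (not_le.1 (Finset.mem_filter.1 ha).2).le) ?_
      exact Finset.sum_le_sum_of_subset_of_nonneg (Finset.filter_subset _ _)
        fun a _ _ => Finset.sum_nonneg fun a' _ => bd0 _ _
    have h2 : ((A1.filter (fun a => ¬ bn a ≤ n1 / (8 * M))).card : ℝ) * (n1 / (8 * M)) ≤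
        n1 / 2 * (n1 / (8 * M)) := by
      refine h1.trans (hbc2.trans (le_of_eq ?_))
      field_simp
      ring
    have h3 := le_of_mul_le_mul_right h2 (by positivity)
    have h4 : (A'.card : ℝ) + ((A1.filter (fun a => ¬ bn a ≤ n1 / (8 * M))).card : ℝ) = n1 := by
      refine Eq.trans ?_ hn1'.symm
      exact_mod_cast Finset.card_filter_add_card_filter_not (s := A1) (fun a => bn a ≤ n1 / (8 * M))
    linarith
  -- the set `C'`
  let hd : ℤ → ℝ := fun c' => ∑ a ∈ A1, g a c'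
  have hd1 : ∀ c', hd c' ≤ n1 := by
    intro c'
    rw [hn1', ← mul_one (A1.card : ℝ), ← nsmul_eq_mul]
    exact Finset.sum_le_card_nsmul _ _ _ fun a _ => g1 a c'
  let C' : Finset ℤ := C.filter (fun c' => n1 / (4 * M) ≤ hd c')
  have hC'c : N / (4 * M) ≤ (C'.card : ℝ) := by
    have h1 : ∑ c' ∈ C, hd c' = ∑ a ∈ A1, dg a := Finset.sum_comm
    have h2 : n1 * (N / (2 * M)) ≤ ∑ a ∈ A1, dg a := by
      rw [hn1', ← nsmul_eq_mul]
      exact Finset.card_nsmul_le_sum _ dg _ fun a ha => (Finset.mem_filter.1 (hA1 ha)).2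
    have h3 : ∑ c' ∈ C, hd c' = ∑ c' ∈ C', hd c' +
        ∑ c' ∈ C.filter (fun c' => ¬ n1 / (4 * M) ≤ hd c'), hd c' :=
      (Finset.sum_filter_add_sum_filter_not C _ _).symm
    have h4 : ∑ c' ∈ C.filter (fun c' => ¬ n1 / (4 * M) ≤ hd c'), hd c' ≤ N * (n1 / (4 * M)) := by
      refine (Finset.sum_le_card_nsmul _ _ _ fun a ha =>
        (not_le.1 (Finset.mem_filter.1 ha).2).le).trans ?_
      rw [nsmul_eq_mul]
      refine mul_le_mul_of_nonneg_right ?_ (by positivity)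
      exact le_trans (by exact_mod_cast Finset.card_le_card (Finset.filter_subset _ _)) hC
    have h5 : ∑ c' ∈ C', hd c' ≤ (C'.card : ℝ) * n1 := by
      rw [← nsmul_eq_mul]
      exact Finset.sum_le_card_nsmul _ _ _ fun c' _ => hd1 c'
    have h6 : n1 * (N / (2 * M)) = 2 * (N / (4 * M) * n1) := by
      field_simp
      ring
    have h7 : N * (n1 / (4 * M)) = N / (4 * M) * n1 := by ring
    have h8 : N / (4 * M) * n1 ≤ (C'.card : ℝ) * n1 := by linarith
    exact le_of_mul_le_mul_right h8 hn1p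
  refine ⟨A', C', (Finset.filter_subset _ _).trans (hA1.trans hA0), Finset.filter_subset _ _, ?_,
    hC'c, ?_⟩
  · refine le_trans ?_ hA'c
    have h1 : N / (6 * M) = N / (3 * M) / 2 := by
      field_simp
      norm_num
    rw [h1]
    linarith
  · intro a ha c' hc'
    have hba : bn a ≤ n1 / (8 * M) := (Finset.mem_filter.1 ha).2
    have hhd : n1 / (4 * M) ≤ hd c' := (Finset.mem_filter.1 hc').2
    have hcount : (((C ×ˢ A).filter (fun x => (a, x.1) ∈ G ∧ (x.2, x.1) ∈ G ∧ (x.2, c') ∈ G)).card : ℝ) =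
        ∑ a1 ∈ A, g a1 c' * co a a1 := by
      rw [Finset.card_filter, Finset.sum_product]
      push_cast
      rw [Finset.sum_comm]
      refine Finset.sum_congr rfl fun a1 _ => ?_
      simp only [co]
      rw [Finset.mul_sum]
      refine Finset.sum_congr rfl fun c1 _ => ?_
      simp only [g]
      by_cases k1 : (a, c1) ∈ G <;> by_cases k2 : (a1, c1) ∈ G <;> by_cases k3 : (a1, c') ∈ G <;>
        simp [k1, k2, k3]
    have hco : ∀ a1, 0 ≤ co a a1 := fun a1 => Finset.sum_nonneg fun c1 _ => mul_nonneg (g0 _ _) (g0 _ _)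
    have hstep : ∀ a1, (g a1 c' - bd a a1) * (N / (128 * M ^ 3)) ≤ g a1 c' * co a a1 := by
      intro a1
      have hp : 0 < N / (128 * M ^ 3) := by positivity
      simp only [bd]
      split_ifs with h
      · have h1 : g a1 c' - 1 ≤ 0 := by linarith [g1 a1 c']
        have h2 := mul_nonneg (g0 a1 c') (hco a1)
        nlinarith
      · rw [sub_zero]
        exact mul_le_mul_of_nonneg_left (not_lt.1 h) (g0 _ _)
    have hmain : (n1 / (8 * M)) * (N / (128 * M ^ 3)) ≤ ∑ a1 ∈ A, g a1 c' * co a a1 := by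
      calc (n1 / (8 * M)) * (N / (128 * M ^ 3)) ≤ (hd c' - bn a) * (N / (128 * M ^ 3)) := by
            refine mul_le_mul_of_nonneg_right ?_ (by positivity)
            have h1 : n1 / (4 * M) = 2 * (n1 / (8 * M)) := by
              field_simp
              norm_num
            linarith
        _ = ∑ a1 ∈ A1, (g a1 c' - bd a a1) * (N / (128 * M ^ 3)) := by
            rw [← Finset.sum_mul, Finset.sum_sub_distrib]
        _ ≤ ∑ a1 ∈ A1, g a1 c' * co a a1 := Finset.sum_le_sum fun a1 _ => hstep a1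
        _ ≤ ∑ a1 ∈ A, g a1 c' * co a a1 :=
            Finset.sum_le_sum_of_subset_of_nonneg (hA1.trans hA0)
              fun a1 _ _ => mul_nonneg (g0 _ _) (hco a1)
    rw [hcount]
    refine le_trans ?_ hmain
    have h1 : N ^ 2 / (3072 * M ^ 5) = (N / (3 * M) / (8 * M)) * (N / (128 * M ^ 3)) := by
      field_simp
      norm_num
    rw [h1]
    refine mul_le_mul_of_nonneg_right ?_ (by positivity)
    exact div_le_div_of_nonneg_right hn3 (by positivity)

end C4N
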