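import Mathlib
import Pool.Agent.Work.MP_c4bd3e_lc.N.Paths

set_option autoImplicit false

/-!
# MP_c4bd3e_lc, negative half, module Bsg

The Balog-Szemeredi-Gowers theorem (integers, explicit constants).

Proof. `r(w)` = number of `(a,c) ∈ A × C` with `a + c = w`; `addEnergy A C = ∑_w r(w)²` (over `w ∈ A + C`), `∑ r = |A||C| ≤ N²`, `r ≤ N`.
`S = {w ∈ A + C : r(w) ≥ N/(2L)}`: `∑_{w ∉ S} r² ≤ (N/(2L)) N²`, so `∑_{w ∈ S} r² ≥ N³/(2L)`, and `G = {(a,c) : a + c ∈ S}` has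
`|G| = ∑_{S} r ≥ N²/(2L)`; `|S| ≤ 2LN`. `paths` with `M = 2L`: `A'`, `C'`. For `a ∈ A'`, `c ∈ C'` there are `≥ N²/(3072 * 32 L⁵)` pairs `(c₁,a₁)` with
`w₁ = a + c₁`, `w₂ = a₁ + c₁`, `w₃ = a₁ + c` in `S` and `a + c = w₁ - w₂ + w₃`; for a fixed `(a,c)` the pair is determined by `(w₁,w₃)`.
Choose one `(a,c)` for each element of `A' + C'`: `|A' + C'| * N²/(98304 L⁵) ≤ |S|³ ≤ 8L³N³`, so `|A' + C'| ≤ 786432 L⁸ N ≤ 2²⁰ L⁸ N`.
-/

namespace C4N

open Finset
open scoped Pointwise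

theorem bsg {A C : Finset ℤ} {N L : ℝ} (hN : 0 < N) (hL : 1 ≤ L) (hA : (A.card : ℝ) ≤ N)
    (hC : (C.card : ℝ) ≤ N) (hE : N ^ 3 / L ≤ (Finset.addEnergy A C : ℝ)) :
    ∃ A' C' : Finset ℤ, A' ⊆ A ∧ C' ⊆ C ∧ N / (12 * L) ≤ (A'.card : ℝ) ∧ N / (8 * L) ≤ (C'.card : ℝ) ∧
      ((A' + C').card : ℝ) ≤ 2 ^ 20 * L ^ 8 * N := by
  classical
  have hL0 : 0 < L := by linarith
  let r : ℤ → ℕ := fun w => ((A ×ˢ C).filter (fun x : ℤ × ℤ => x.1 + x.2 = w)).card
  have hEr : (Finset.addEnergy A C : ℝ) = ∑ w ∈ A + C, (r w : ℝ) ^ 2 := by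
    rw [Finset.addEnergy_eq_sum_sq']
    push_cast
    rfl
  have hrN : ∀ w, (r w : ℝ) ≤ N := by
    intro w
    refine le_trans ?_ hA
    have h1 : r w ≤ A.card := by
      refine Finset.card_le_card_of_injOn (fun x : ℤ × ℤ => x.1) (fun x hx => ?_)
        (fun x hx y hy hxy => ?_)
      · exact (Finset.mem_product.1 (Finset.mem_filter.1 hx).1).1
      · have h1 := (Finset.mem_filter.1 hx).2
        have h2 := (Finset.mem_filter.1 hy).2
        have hxy' : x.1 = y.1 := hxy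
        refine Prod.ext hxy' ?_
        omega
    exact_mod_cast h1
  have hsum : (∑ w ∈ A + C, (r w : ℝ)) ≤ N ^ 2 := by
    have h1 : (A ×ˢ C).card = ∑ w ∈ A + C, r w :=
      Finset.card_eq_sum_card_fiberwise (f := fun x : ℤ × ℤ => x.1 + x.2) fun x hx => by
        have hx' := Finset.mem_product.1 hx
        exact Finset.add_mem_add hx'.1 hx'.2
    rw [Finset.card_product] at h1
    have h2 : (∑ w ∈ A + C, (r w : ℝ)) = (A.card : ℝ) * C.card := by
      rw [← Nat.cast_sum, ← h1, Nat.cast_mul]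
    rw [h2, sq]
    exact mul_le_mul hA hC (Nat.cast_nonneg _) hN.le
  let S : Finset ℤ := (A + C).filter (fun w => N / (2 * L) ≤ (r w : ℝ))
  have hsplit : (∑ w ∈ A + C, (r w : ℝ) ^ 2) ≤ (∑ w ∈ S, (r w : ℝ) ^ 2) + N / (2 * L) * N ^ 2 := by
    rw [← Finset.sum_filter_add_sum_filter_not (A + C) (fun w => N / (2 * L) ≤ (r w : ℝ))]
    refine add_le_add le_rfl ?_
    calc ∑ w ∈ (A + C).filter (fun w => ¬ N / (2 * L) ≤ (r w : ℝ)), (r w : ℝ) ^ 2
        ≤ ∑ w ∈ (A + C).filter (fun w => ¬ N / (2 * L) ≤ (r w : ℝ)), N / (2 * L) * (r w : ℝ) := by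
          refine Finset.sum_le_sum fun w hw => ?_
          have h1 := (Finset.mem_filter.1 hw).2
          rw [sq]
          exact mul_le_mul_of_nonneg_right (not_le.1 h1).le (Nat.cast_nonneg _)
      _ ≤ ∑ w ∈ A + C, N / (2 * L) * (r w : ℝ) := by
          refine Finset.sum_le_sum_of_subset_of_nonneg (Finset.filter_subset _ _) fun w _ _ => ?_
          positivity
      _ = N / (2 * L) * ∑ w ∈ A + C, (r w : ℝ) := (Finset.mul_sum _ _ _).symm
      _ ≤ N / (2 * L) * N ^ 2 := mul_le_mul_of_nonneg_left hsum (by positivity)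
  have hS2 : N ^ 3 / (2 * L) ≤ ∑ w ∈ S, (r w : ℝ) ^ 2 := by
    rw [hEr] at hE
    have e : N ^ 3 / L = N ^ 3 / (2 * L) + N / (2 * L) * N ^ 2 := by
      field_simp
      ring
    linarith
  have hSsum : (∑ w ∈ S, (r w : ℝ)) ≤ N ^ 2 := by
    refine le_trans (Finset.sum_le_sum_of_subset_of_nonneg (Finset.filter_subset _ _)
      fun w _ _ => Nat.cast_nonneg _) hsum
  have hS1 : N ^ 2 / (2 * L) ≤ ∑ w ∈ S, (r w : ℝ) := by
    have h1 : ∑ w ∈ S, (r w : ℝ) ^ 2 ≤ N * ∑ w ∈ S, (r w : ℝ) := by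
      rw [Finset.mul_sum]
      refine Finset.sum_le_sum fun w _ => ?_
      rw [sq]
      exact mul_le_mul_of_nonneg_right (hrN w) (Nat.cast_nonneg _)
    have h2 : N * (N ^ 2 / (2 * L)) ≤ N * ∑ w ∈ S, (r w : ℝ) := by
      have e : N * (N ^ 2 / (2 * L)) = N ^ 3 / (2 * L) := by ring
      rw [e]
      exact hS2.trans h1
    exact le_of_mul_le_mul_left h2 hN
  have hScard : (S.card : ℝ) ≤ 2 * L * N := by
    have h1 : (S.card : ℝ) * (N / (2 * L)) ≤ ∑ w ∈ S, (r w : ℝ) := by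
      rw [← nsmul_eq_mul]
      refine Finset.card_nsmul_le_sum _ _ _ fun w hw => (Finset.mem_filter.1 hw).2
    have h2 : (S.card : ℝ) * (N / (2 * L)) ≤ (2 * L * N) * (N / (2 * L)) := by
      have e : (2 * L * N) * (N / (2 * L)) = N ^ 2 := by
        field_simp
      rw [e]
      exact h1.trans hSsum
    exact le_of_mul_le_mul_right h2 (by positivity)
  let G : Finset (ℤ × ℤ) := (A ×ˢ C).filter (fun x => x.1 + x.2 ∈ S)
  have hGc : (G.card : ℝ) = ∑ w ∈ S, (r w : ℝ) := by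
    have h1 : G.card = ∑ w ∈ S, r w :=
      (Finset.sum_card_fiberwise_eq_card_filter (A ×ˢ C) S (fun x : ℤ × ℤ => x.1 + x.2)).symm
    rw [h1, Nat.cast_sum]
  obtain ⟨A', C', hA', hC', hAc, hCc, hP⟩ := paths (A := A) (C := C) (G := G) (M := 2 * L) hN
    (by linarith) (Finset.filter_subset _ _) hA hC (by rw [hGc]; exact hS1)
  refine ⟨A', C', hA', hC', ?_, ?_, ?_⟩
  · have e : 12 * L = 6 * (2 * L) := by ring
    rw [e]
    exact hAc
  · have e : 8 * L = 4 * (2 * L) := by ring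
    rw [e]
    exact hCc
  have hch : ∀ z : ℤ, ∃ ac : ℤ × ℤ, z ∈ A' + C' → ac.1 ∈ A' ∧ ac.2 ∈ C' ∧ ac.1 + ac.2 = z := by
    intro z
    by_cases hz : z ∈ A' + C'
    · obtain ⟨a, ha, c, hc, h⟩ := Finset.mem_add.1 hz
      exact ⟨(a, c), fun _ => ⟨ha, hc, h⟩⟩
    · exact ⟨(0, 0), fun h => absurd h hz⟩
  choose ac hac using hch
  let P : ℤ × ℤ → Finset (ℤ × ℤ) := fun y =>
    (C ×ˢ A).filter (fun x => (y.1, x.1) ∈ G ∧ (x.2, x.1) ∈ G ∧ (x.2, y.2) ∈ G)
  have hGS : ∀ {a c : ℤ}, (a, c) ∈ G → a + c ∈ S := fun h => (Finset.mem_filter.1 h).2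
  have hinj : ((A' + C').sigma fun z => P (ac z)).card ≤ (S ×ˢ S ×ˢ S).card := by
    refine Finset.card_le_card_of_injOn
      (fun q : (_ : ℤ) × (ℤ × ℤ) => ((ac q.1).1 + q.2.1, q.2.2 + q.2.1, q.2.2 + (ac q.1).2))
      (fun q hq => ?_) (fun q hq q' hq' h => ?_)
    · have hq2 := (Finset.mem_filter.1 (Finset.mem_sigma.1 hq).2).2
      refine Finset.mem_product.2 ⟨hGS hq2.1, Finset.mem_product.2 ⟨hGS hq2.2.1, hGS hq2.2.2⟩⟩
    · obtain ⟨z, c1, a1⟩ := q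
      obtain ⟨z', c1', a1'⟩ := q'
      have hz := (hac z (Finset.mem_sigma.1 hq).1).2.2
      have hz' := (hac z' (Finset.mem_sigma.1 hq').1).2.2
      simp only [Prod.mk.injEq] at h
      obtain ⟨e1, e2, e3⟩ := h
      have hzz : z = z' := by omega
      subst hzz
      have e4 : c1 = c1' := by omega
      have e5 : a1 = a1' := by omega
      rw [e4, e5]
  have hlow : ((A' + C').card : ℝ) * (N ^ 2 / (3072 * (2 * L) ^ 5)) ≤
      (((A' + C').sigma fun z => P (ac z)).card : ℝ) := by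
    rw [Finset.card_sigma, Nat.cast_sum, ← nsmul_eq_mul]
    refine Finset.card_nsmul_le_sum _ _ _ fun z hz => ?_
    exact hP _ (hac z hz).1 _ (hac z hz).2.1
  have hup : (((A' + C').sigma fun z => P (ac z)).card : ℝ) ≤ (2 * L * N) ^ 3 := by
    have h1 : (((A' + C').sigma fun z => P (ac z)).card : ℝ) ≤ ((S ×ˢ S ×ˢ S).card : ℝ) := by
      exact_mod_cast hinj
    refine h1.trans ?_
    rw [Finset.card_product, Finset.card_product]
    push_cast
    have e : (S.card : ℝ) * (S.card * S.card) = (S.card : ℝ) ^ 3 := by ring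
    rw [e]
    exact pow_le_pow_left₀ (Nat.cast_nonneg _) hScard 3
  have hfin := hlow.trans hup
  have hpos : 0 < N ^ 2 / (3072 * (2 * L) ^ 5) := by positivity
  have h3 : ((A' + C').card : ℝ) * (N ^ 2 / (3072 * (2 * L) ^ 5)) ≤
      (786432 * L ^ 8 * N) * (N ^ 2 / (3072 * (2 * L) ^ 5)) := by
    refine hfin.trans (le_of_eq ?_)
    field_simp
    ring
  have h4 := le_of_mul_le_mul_right h3 hpos
  refine h4.trans ?_
  have h5 : 0 ≤ L ^ 8 * N := by positivity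
  nlinarith

end C4N
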