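import Mathlib

set_option autoImplicit false

/-!
# MP_c4bd3e_lc, negative half, module Pick

Choice of a popular multiplier. Pure finite combinatorics.

Proof. `m0 = ∑_{T0} p ≥ 1/L`. Cauchy-Schwarz over `(a,b) ∈ A × A`:
`∑_{j,l ∈ T0} p_j p_l |A'_j ∩ A'_l| |B'_j ∩ B'_l| = ∑_{(a,b)} (∑_j p_j 1[a ∈ A'_j, b ∈ B'_j])² ≥ (∑_j p_j |A'_j||B'_j|)² / |A|² ≥ (m0 N²/L²)²/N²`.
So some `l ∈ T0` has `∑_j p_j |A'_j ∩ A'_l||B'_j ∩ B'_l| ≥ m0 N²/L⁴`. `T = {j ∈ T0 : |A'_j ∩ A'_l||B'_j ∩ B'_l| ≥ N²/(2L⁴)}`: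
`mass(T) N² + m0 N²/(2L⁴) ≥ m0 N²/L⁴`, so `mass(T) ≥ m0/(2L⁴) ≥ 1/(2L⁵)`. The other factor is `≤ N`. `l ∈ T` since `|A'_l||B'_l| ≥ N²/L²`.
-/

namespace C4N

open Finset
open scoped Pointwise

theorem pick {A T0 : Finset ℤ} {p : ℤ → ℝ} {N L : ℝ} {A' B' : ℤ → Finset ℤ} (hN : 0 < N) (hL : 1 ≤ L)
    (hA : (A.card : ℝ) ≤ N) (hp : ∀ i, 0 ≤ p i) (h0 : 1 / L ≤ ∑ i ∈ T0, p i)
    (hsA : ∀ j ∈ T0, A' j ⊆ A) (hsB : ∀ j ∈ T0, B' j ⊆ A)
    (hcA : ∀ j ∈ T0, N / L ≤ ((A' j).card : ℝ)) (hcB : ∀ j ∈ T0, N / L ≤ ((B' j).card : ℝ)) :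
    ∃ l ∈ T0, ∃ T : Finset ℤ, T ⊆ T0 ∧ l ∈ T ∧ 1 / (2 * L ^ 5) ≤ ∑ i ∈ T, p i ∧
      (∀ j ∈ T, N / (2 * L ^ 4) ≤ ((A' j ∩ A' l).card : ℝ)) ∧
      (∀ j ∈ T, N / (2 * L ^ 4) ≤ ((B' j ∩ B' l).card : ℝ)) := by
  classical
  have hLpos : 0 < L := lt_of_lt_of_le one_pos hL
  obtain ⟨m0, hm0⟩ : ∃ m0, m0 = ∑ i ∈ T0, p i := ⟨_, rfl⟩
  rw [← hm0] at h0
  have hm0pos : 0 < m0 := lt_of_lt_of_le (by positivity) h0
  let I : ℤ → ℤ → ℝ := fun j l => ((A' j ∩ A' l).card : ℝ) * ((B' j ∩ B' l).card : ℝ)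
  have hI0 : ∀ j l, 0 ≤ I j l := fun j l => by positivity
  let χ : ℤ → ℤ × ℤ → ℝ := fun j x => if x.1 ∈ A' j ∧ x.2 ∈ B' j then 1 else 0
  have hχI : ∀ j ∈ T0, ∀ l ∈ T0, ∑ x ∈ A ×ˢ A, χ j x * χ l x = I j l := by
    intro j hj l hl
    have h1 : ∀ x ∈ A ×ˢ A, χ j x * χ l x =
        if x ∈ (A' j ∩ A' l) ×ˢ (B' j ∩ B' l) then (1 : ℝ) else 0 := by
      intro x _
      simp only [χ, Finset.mem_product, Finset.mem_inter]
      by_cases a1 : x.1 ∈ A' j <;> by_cases a2 : x.1 ∈ A' l <;> by_cases a3 : x.2 ∈ B' j <;>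
        by_cases a4 : x.2 ∈ B' l <;> simp [a1, a2, a3, a4]
    rw [Finset.sum_congr rfl h1, Finset.sum_boole]
    have h2 : (A ×ˢ A).filter (fun x => x ∈ (A' j ∩ A' l) ×ˢ (B' j ∩ B' l)) =
        (A' j ∩ A' l) ×ˢ (B' j ∩ B' l) := by
      ext x
      rw [Finset.mem_filter]
      refine ⟨fun h => h.2, fun h => ⟨?_, h⟩⟩
      rw [Finset.mem_product, Finset.mem_inter, Finset.mem_inter] at h
      exact Finset.mem_product.2 ⟨hsA j hj h.1.1, hsB j hj h.2.1⟩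
    rw [h2, Finset.card_product]
    push_cast
    rfl
  have hχ1 : ∀ j ∈ T0, ∑ x ∈ A ×ˢ A, χ j x = ((A' j).card : ℝ) * ((B' j).card : ℝ) := by
    intro j hj
    have h1 := hχI j hj j hj
    have h2 : ∀ x ∈ A ×ˢ A, χ j x * χ j x = χ j x := by
      intro x _
      simp only [χ]
      split <;> simp
    rw [Finset.sum_congr rfl h2] at h1
    rw [h1]
    simp only [I, Finset.inter_self]
  have hS : ∑ x ∈ A ×ˢ A, (∑ j ∈ T0, p j * χ j x) ^ 2 =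
      ∑ l ∈ T0, p l * ∑ j ∈ T0, p j * I j l := by
    have h1 : ∀ x ∈ A ×ˢ A, (∑ j ∈ T0, p j * χ j x) ^ 2 =
        ∑ l ∈ T0, ∑ j ∈ T0, p l * p j * (χ j x * χ l x) := by
      intro x _
      rw [sq, Finset.sum_mul_sum]
      rw [Finset.sum_comm]
      refine Finset.sum_congr rfl fun l _ => Finset.sum_congr rfl fun j _ => ?_
      ring
    rw [Finset.sum_congr rfl h1, Finset.sum_comm]
    refine Finset.sum_congr rfl fun l hl => ?_
    rw [Finset.sum_comm, Finset.mul_sum]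
    refine Finset.sum_congr rfl fun j hj => ?_
    rw [← Finset.mul_sum, hχI j hj l hl]
    ring
  have hlin : ∑ x ∈ A ×ˢ A, ∑ j ∈ T0, p j * χ j x =
      ∑ j ∈ T0, p j * (((A' j).card : ℝ) * ((B' j).card : ℝ)) := by
    rw [Finset.sum_comm]
    refine Finset.sum_congr rfl fun j hj => ?_
    rw [← Finset.mul_sum, hχ1 j hj]
  have hlin2 : m0 * (N ^ 2 / L ^ 2) ≤ ∑ x ∈ A ×ˢ A, ∑ j ∈ T0, p j * χ j x := by
    rw [hlin, hm0, Finset.sum_mul]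
    refine Finset.sum_le_sum fun j hj => ?_
    refine mul_le_mul_of_nonneg_left ?_ (hp j)
    have h1 := mul_le_mul (hcA j hj) (hcB j hj) (by positivity) (Nat.cast_nonneg _)
    calc N ^ 2 / L ^ 2 = N / L * (N / L) := by ring
      _ ≤ _ := h1
  have hCS := sq_sum_le_card_mul_sum_sq (s := A ×ˢ A) (f := fun x => ∑ j ∈ T0, p j * χ j x)
  have hcard : (((A ×ˢ A).card : ℕ) : ℝ) ≤ N ^ 2 := by
    rw [Finset.card_product]
    push_cast
    rw [sq]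
    exact mul_le_mul hA hA (Nat.cast_nonneg _) hN.le
  have hSge : m0 * (m0 * N ^ 2 / L ^ 4) ≤ ∑ l ∈ T0, p l * ∑ j ∈ T0, p j * I j l := by
    rw [← hS]
    have h1 : (m0 * (N ^ 2 / L ^ 2)) ^ 2 ≤ (∑ x ∈ A ×ˢ A, ∑ j ∈ T0, p j * χ j x) ^ 2 :=
      pow_le_pow_left₀ (by positivity) hlin2 2
    have h2 : 0 ≤ ∑ x ∈ A ×ˢ A, (∑ j ∈ T0, p j * χ j x) ^ 2 :=
      Finset.sum_nonneg fun x _ => sq_nonneg _
    have h3 : (m0 * (N ^ 2 / L ^ 2)) ^ 2 ≤ N ^ 2 * ∑ x ∈ A ×ˢ A, (∑ j ∈ T0, p j * χ j x) ^ 2 :=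
      (h1.trans hCS).trans (mul_le_mul_of_nonneg_right hcard h2)
    have h4 : (m0 * (N ^ 2 / L ^ 2)) ^ 2 = N ^ 2 * (m0 * (m0 * N ^ 2 / L ^ 4)) := by
      field_simp
    rw [h4] at h3
    exact le_of_mul_le_mul_left h3 (by positivity)
  obtain ⟨l, hl, hF⟩ : ∃ l ∈ T0, m0 * N ^ 2 / L ^ 4 ≤ ∑ j ∈ T0, p j * I j l := by
    by_contra hcon
    push Not at hcon
    have h1 : ∑ l ∈ T0, p l * ∑ j ∈ T0, p j * I j l < ∑ l ∈ T0, p l * (m0 * N ^ 2 / L ^ 4) := by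
      obtain ⟨i, hi, hi0⟩ : ∃ i ∈ T0, p i ≠ 0 := by
        refine Finset.exists_ne_zero_of_sum_ne_zero ?_
        rw [← hm0]
        exact hm0pos.ne'
      refine Finset.sum_lt_sum (fun l hl => mul_le_mul_of_nonneg_left (hcon l hl).le (hp l))
        ⟨i, hi, ?_⟩
      exact mul_lt_mul_of_pos_left (hcon i hi) (lt_of_le_of_ne (hp i) (Ne.symm hi0))
    rw [← Finset.sum_mul, ← hm0] at h1
    exact absurd hSge (not_le.2 h1)
  have hIle : ∀ j ∈ T0, I j l ≤ N ^ 2 := by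
    intro j hj
    have h1 : ((A' j ∩ A' l).card : ℝ) ≤ N := by
      refine le_trans ?_ hA
      exact_mod_cast Finset.card_le_card (Finset.inter_subset_left.trans (hsA j hj))
    have h2 : ((B' j ∩ B' l).card : ℝ) ≤ N := by
      refine le_trans ?_ hA
      exact_mod_cast Finset.card_le_card (Finset.inter_subset_left.trans (hsB j hj))
    rw [sq]
    exact mul_le_mul h1 h2 (Nat.cast_nonneg _) hN.le
  have hT : ∀ j, j ∈ T0.filter (fun j => N ^ 2 / (2 * L ^ 4) ≤ I j l) ↔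
      j ∈ T0 ∧ N ^ 2 / (2 * L ^ 4) ≤ I j l := fun j => Finset.mem_filter
  refine ⟨l, hl, T0.filter (fun j => N ^ 2 / (2 * L ^ 4) ≤ I j l), Finset.filter_subset _ _,
    (hT l).2 ⟨hl, ?_⟩, ?_, ?_, ?_⟩
  · simp only [I, Finset.inter_self]
    have h1 := mul_le_mul (hcA l hl) (hcB l hl) (by positivity) (Nat.cast_nonneg _)
    refine le_trans ?_ h1
    have h2 : N / L * (N / L) = N ^ 2 / L ^ 2 := by ring
    rw [h2]
    refine div_le_div_of_nonneg_left (by positivity) (by positivity) ?_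
    have h3 : L ^ 2 ≤ L ^ 4 := pow_le_pow_right₀ hL (by norm_num)
    have h4 : 0 ≤ L ^ 4 := by positivity
    linarith
  · have h1 : ∑ j ∈ T0, p j * I j l ≤
        (∑ j ∈ T0.filter (fun j => N ^ 2 / (2 * L ^ 4) ≤ I j l), p j) * N ^ 2 +
          m0 * (N ^ 2 / (2 * L ^ 4)) := by
      rw [← Finset.sum_filter_add_sum_filter_not T0 (fun j => N ^ 2 / (2 * L ^ 4) ≤ I j l)
        (fun j => p j * I j l)]
      refine add_le_add ?_ ?_
      · rw [Finset.sum_mul]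
        refine Finset.sum_le_sum fun j hj => ?_
        exact mul_le_mul_of_nonneg_left (hIle j (Finset.mem_filter.1 hj).1) (hp j)
      · rw [hm0, Finset.sum_mul]
        refine (Finset.sum_le_sum (fun j hj => ?_)).trans
          (Finset.sum_le_sum_of_subset_of_nonneg (Finset.filter_subset _ _)
            (fun j _ _ => mul_nonneg (hp j) (by positivity)))
        exact mul_le_mul_of_nonneg_left (not_le.1 (Finset.mem_filter.1 hj).2).le (hp j)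
    have h2 := hF.trans h1
    have h3 : m0 * N ^ 2 / L ^ 4 = m0 * (N ^ 2 / (2 * L ^ 4)) + m0 / (2 * L ^ 4) * N ^ 2 := by
      field_simp
      ring
    rw [h3, add_comm] at h2
    have h4 : m0 / (2 * L ^ 4) * N ^ 2 ≤
        (∑ j ∈ T0.filter (fun j => N ^ 2 / (2 * L ^ 4) ≤ I j l), p j) * N ^ 2 :=
      le_of_add_le_add_right h2
    have h5 : m0 / (2 * L ^ 4) ≤ ∑ j ∈ T0.filter (fun j => N ^ 2 / (2 * L ^ 4) ≤ I j l), p j :=
      le_of_mul_le_mul_right h4 (by positivity)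
    refine le_trans ?_ h5
    have h6 : 1 / (2 * L ^ 5) = 1 / L / (2 * L ^ 4) := by
      field_simp
    rw [h6]
    exact div_le_div_of_nonneg_right h0 (by positivity)
  · intro j hj
    obtain ⟨hj0, hj1⟩ := (hT j).1 hj
    have h2 : ((B' j ∩ B' l).card : ℝ) ≤ N := by
      refine le_trans ?_ hA
      exact_mod_cast Finset.card_le_card (Finset.inter_subset_left.trans (hsB j hj0))
    have h3 : N ^ 2 / (2 * L ^ 4) ≤ ((A' j ∩ A' l).card : ℝ) * N :=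
      hj1.trans (mul_le_mul_of_nonneg_left h2 (Nat.cast_nonneg _))
    have h4 : N ^ 2 / (2 * L ^ 4) = N / (2 * L ^ 4) * N := by ring
    rw [h4] at h3
    exact le_of_mul_le_mul_right h3 hN
  · intro j hj
    obtain ⟨hj0, hj1⟩ := (hT j).1 hj
    have h2 : ((A' j ∩ A' l).card : ℝ) ≤ N := by
      refine le_trans ?_ hA
      exact_mod_cast Finset.card_le_card (Finset.inter_subset_left.trans (hsA j hj0))
    have h3 : N ^ 2 / (2 * L ^ 4) ≤ ((B' j ∩ B' l).card : ℝ) * N := by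
      refine hj1.trans ?_
      rw [mul_comm ((B' j ∩ B' l).card : ℝ) N]
      exact mul_le_mul_of_nonneg_right h2 (Nat.cast_nonneg _)
    have h4 : N ^ 2 / (2 * L ^ 4) = N / (2 * L ^ 4) * N := by ring
    rw [h4] at h3
    exact le_of_mul_le_mul_right h3 hN

end C4N
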