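import Mathlib
import Pool.Agent.Work.MP_c4bd3e_lc.N.Defs

set_option autoImplicit false

/-!
# MP_c4bd3e_lc, negative half, module Young

`L²` bounds for the convolution `qq R t f g (w) = ∑ f x * g y` over `x, y ∈ SS R`, `x + ⌊t y⌋ = w`.

* `young_left`: for a fixed `y` the map `x ↦ x + ⌊t y⌋` is injective. By Cauchy-Schwarz
  `qq(w)² ≤ (∑ g) * ∑_{(x,y), x + ⌊t y⌋ = w} f(x)² g(y)`. Sum over `w` (each pair `(x, y)` belongs to one `w`).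
  (`Finset.sum_mul_sq_le_sq_mul_sq` or `inner_mul_le_norm_mul_norm` with `f x * √(g y)` and `√(g y)`; note that for a
  fixed `w` the `x` is determined by `y`, so `∑_{(x,y), x+⌊t y⌋=w} g y ≤ ∑_y g y`.)
* `young_right`: `1/2 ≤ t`, so for a fixed `x` at most TWO `y` have `x + ⌊t y⌋ = w` (`y` lies in a half-open interval of
  length `1/t ≤ 2`). Cauchy-Schwarz: `qq(w)² ≤ (∑_{(x,y), ..} f x) * (∑_{(x,y), ..} f(x) g(y)²) ≤ 2 (∑ f) * ∑_{(x,y), ..} f(x) g(y)²`,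
  sum over `w`.
* `WW_split`: `qq p p = qq f1 f1 + qq f1 f2 + qq f1 f3 + qq f2 p + qq f3 p` and `(a+b+c+d+e)² ≤ 5 (a²+b²+c²+d²+e²)`.
-/

namespace C4N

open Finset
open scoped Pointwise

/-- the pairs with `x + ⌊t y⌋ = w` -/
private noncomputable def PP (R : ℕ) (t : ℝ) (w : ℤ) : Finset (ℤ × ℤ) :=
  (SS R ×ˢ SS R).filter (fun x => x.1 + ⌊t * (x.2 : ℝ)⌋ = w)

private theorem sum_fib_le {R : ℕ} {t : ℝ} {h : ℤ × ℤ → ℝ} (hh : ∀ x, 0 ≤ h x) :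
    ∑ w ∈ Finset.Icc 0 (2 * (R : ℤ)), ∑ x ∈ PP R t w, h x ≤ ∑ x ∈ SS R ×ˢ SS R, h x :=
  Finset.sum_fiberwise_le_sum_of_sum_fiber_nonneg fun _ _ => Finset.sum_nonneg fun x _ => hh x

private theorem sum_snd_le {R : ℕ} {t : ℝ} {w : ℤ} {g : ℤ → ℝ} (hg : ∀ i, 0 ≤ g i) :
    ∑ x ∈ PP R t w, g x.2 ≤ ∑ i ∈ SS R, g i := by
  have hinj : ∀ x ∈ PP R t w, ∀ y ∈ PP R t w, x.2 = y.2 → x = y := by
    intro x hx y hy h
    have h1 := (Finset.mem_filter.1 hx).2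
    have h2 := (Finset.mem_filter.1 hy).2
    rw [h] at h1
    exact Prod.ext (by omega) h
  rw [← Finset.sum_image (f := g) hinj]
  refine Finset.sum_le_sum_of_subset_of_nonneg ?_ fun i _ _ => hg i
  intro i hi
  obtain ⟨x, hx, rfl⟩ := Finset.mem_image.1 hi
  exact (Finset.mem_product.1 (Finset.mem_filter.1 hx).1).2

private theorem card_two {R : ℕ} {t : ℝ} (ht : 1 / 2 ≤ t) (x w : ℤ) :
    ((SS R).filter (fun y : ℤ => x + ⌊t * (y : ℝ)⌋ = w)).card ≤ 2 := by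
  by_contra hcon
  rw [not_le] at hcon
  obtain ⟨a, b, c, ha, hb, hc, hab, hac, hbc⟩ := Finset.two_lt_card_iff.1 hcon
  have key : ∀ u v : ℤ, u ∈ (SS R).filter (fun y : ℤ => x + ⌊t * (y : ℝ)⌋ = w) →
      v ∈ (SS R).filter (fun y : ℤ => x + ⌊t * (y : ℝ)⌋ = w) → u - v < 2 := by
    intro u v hu hv
    have h1 := (Finset.mem_filter.1 hu).2
    have h2 := (Finset.mem_filter.1 hv).2
    have h3 : ⌊t * (u : ℝ)⌋ = ⌊t * (v : ℝ)⌋ := by omega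
    have h4 := Int.abs_sub_lt_one_of_floor_eq_floor h3
    have h5 := (abs_lt.1 h4).2
    by_contra h6
    rw [not_lt] at h6
    have h7 : (2 : ℝ) ≤ (u : ℝ) - v := by exact_mod_cast h6
    nlinarith
  have k1 := key a b ha hb
  have k2 := key b a hb ha
  have k3 := key a c ha hc
  have k4 := key c a hc ha
  have k5 := key b c hb hc
  have k6 := key c b hc hb
  omega

private theorem sum_fst_le {R : ℕ} {t : ℝ} {w : ℤ} (ht : 1 / 2 ≤ t) {f : ℤ → ℝ} (hf : ∀ i, 0 ≤ f i) :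
    ∑ x ∈ PP R t w, f x.1 ≤ 2 * ∑ i ∈ SS R, f i := by
  unfold PP
  rw [Finset.sum_filter, Finset.sum_product, Finset.mul_sum]
  refine Finset.sum_le_sum fun x _ => ?_
  rw [← Finset.sum_filter]
  show ∑ a ∈ (SS R).filter (fun y : ℤ => x + ⌊t * (y : ℝ)⌋ = w), f x ≤ 2 * f x
  rw [Finset.sum_const, nsmul_eq_mul]
  exact mul_le_mul_of_nonneg_right (by exact_mod_cast card_two ht x w) (hf x)

theorem young_left {R : ℕ} {t : ℝ} {f g : ℤ → ℝ} (hf : ∀ i, 0 ≤ f i) (hg : ∀ i, 0 ≤ g i) :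
    WW R t f g ≤ (∑ i ∈ SS R, f i ^ 2) * (∑ i ∈ SS R, g i) ^ 2 := by
  have hG : 0 ≤ ∑ i ∈ SS R, g i := Finset.sum_nonneg fun i _ => hg i
  have h1 : ∀ w, qq R t f g w ^ 2 ≤ (∑ i ∈ SS R, g i) * ∑ x ∈ PP R t w, f x.1 ^ 2 * g x.2 := by
    intro w
    have h2 : qq R t f g w ^ 2 ≤ (∑ x ∈ PP R t w, g x.2) * ∑ x ∈ PP R t w, f x.1 ^ 2 * g x.2 := by
      refine Finset.sum_sq_le_sum_mul_sum_of_sq_le_mul _ (fun x _ => hg _)
        (fun x _ => mul_nonneg (sq_nonneg _) (hg _)) (fun x _ => le_of_eq ?_)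
      ring
    exact h2.trans (mul_le_mul_of_nonneg_right (sum_snd_le hg)
      (Finset.sum_nonneg fun x _ => mul_nonneg (sq_nonneg _) (hg _)))
  calc WW R t f g ≤ ∑ w ∈ Finset.Icc 0 (2 * (R : ℤ)),
        (∑ i ∈ SS R, g i) * ∑ x ∈ PP R t w, f x.1 ^ 2 * g x.2 := Finset.sum_le_sum fun w _ => h1 w
    _ = (∑ i ∈ SS R, g i) * ∑ w ∈ Finset.Icc 0 (2 * (R : ℤ)), ∑ x ∈ PP R t w, f x.1 ^ 2 * g x.2 := by
        rw [Finset.mul_sum]
    _ ≤ (∑ i ∈ SS R, g i) * ∑ x ∈ SS R ×ˢ SS R, f x.1 ^ 2 * g x.2 :=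
        mul_le_mul_of_nonneg_left (sum_fib_le (h := fun x : ℤ × ℤ => f x.1 ^ 2 * g x.2)
          fun x => mul_nonneg (sq_nonneg _) (hg _)) hG
    _ = (∑ i ∈ SS R, f i ^ 2) * (∑ i ∈ SS R, g i) ^ 2 := by
        rw [Finset.sum_product]
        have h3 : ∑ x ∈ SS R, ∑ y ∈ SS R, f x ^ 2 * g y = (∑ i ∈ SS R, f i ^ 2) * ∑ i ∈ SS R, g i := by
          rw [Finset.sum_mul]
          exact Finset.sum_congr rfl fun x _ => (Finset.mul_sum _ _ _).symm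
        rw [h3]
        ring

theorem young_right {R : ℕ} {t : ℝ} {f g : ℤ → ℝ} (ht : 1 / 2 ≤ t) (hf : ∀ i, 0 ≤ f i) (hg : ∀ i, 0 ≤ g i) :
    WW R t f g ≤ 2 * (∑ i ∈ SS R, f i) ^ 2 * (∑ i ∈ SS R, g i ^ 2) := by
  have hF : 0 ≤ ∑ i ∈ SS R, f i := Finset.sum_nonneg fun i _ => hf i
  have h1 : ∀ w, qq R t f g w ^ 2 ≤ (2 * ∑ i ∈ SS R, f i) * ∑ x ∈ PP R t w, f x.1 * g x.2 ^ 2 := by
    intro w
    have h2 : qq R t f g w ^ 2 ≤ (∑ x ∈ PP R t w, f x.1) * ∑ x ∈ PP R t w, f x.1 * g x.2 ^ 2 := by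
      refine Finset.sum_sq_le_sum_mul_sum_of_sq_le_mul _ (fun x _ => hf _)
        (fun x _ => mul_nonneg (hf _) (sq_nonneg _)) (fun x _ => le_of_eq ?_)
      ring
    exact h2.trans (mul_le_mul_of_nonneg_right (sum_fst_le ht hf)
      (Finset.sum_nonneg fun x _ => mul_nonneg (hf _) (sq_nonneg _)))
  calc WW R t f g ≤ ∑ w ∈ Finset.Icc 0 (2 * (R : ℤ)),
        (2 * ∑ i ∈ SS R, f i) * ∑ x ∈ PP R t w, f x.1 * g x.2 ^ 2 := Finset.sum_le_sum fun w _ => h1 w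
    _ = (2 * ∑ i ∈ SS R, f i) * ∑ w ∈ Finset.Icc 0 (2 * (R : ℤ)),
        ∑ x ∈ PP R t w, f x.1 * g x.2 ^ 2 := (Finset.mul_sum _ _ _).symm
    _ ≤ (2 * ∑ i ∈ SS R, f i) * ∑ x ∈ SS R ×ˢ SS R, f x.1 * g x.2 ^ 2 :=
        mul_le_mul_of_nonneg_left (sum_fib_le (h := fun x : ℤ × ℤ => f x.1 * g x.2 ^ 2)
          fun x => mul_nonneg (hf _) (sq_nonneg _)) (by positivity)
    _ = 2 * (∑ i ∈ SS R, f i) ^ 2 * (∑ i ∈ SS R, g i ^ 2) := by
        rw [Finset.sum_product]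
        have h3 : ∑ x ∈ SS R, ∑ y ∈ SS R, f x * g y ^ 2 = (∑ i ∈ SS R, f i) * ∑ i ∈ SS R, g i ^ 2 := by
          rw [Finset.sum_mul]
          exact Finset.sum_congr rfl fun x _ => (Finset.mul_sum _ _ _).symm
        rw [h3]
        ring

theorem WW_split {R : ℕ} {t : ℝ} {p f1 f2 f3 : ℤ → ℝ} (h : ∀ i, p i = f1 i + f2 i + f3 i) :
    WW R t p p ≤ 5 * (WW R t f1 f1 + WW R t f1 f2 + WW R t f1 f3 + WW R t f2 p + WW R t f3 p) := by
  have h1 : ∀ w, qq R t p p w = qq R t f1 f1 w + qq R t f1 f2 w + qq R t f1 f3 w + qq R t f2 p w +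
      qq R t f3 p w := by
    intro w
    unfold qq
    rw [← Finset.sum_add_distrib, ← Finset.sum_add_distrib, ← Finset.sum_add_distrib,
      ← Finset.sum_add_distrib]
    refine Finset.sum_congr rfl fun x _ => ?_
    have e1 : p x.1 * p x.2 = f1 x.1 * p x.2 + f2 x.1 * p x.2 + f3 x.1 * p x.2 := by
      rw [h x.1]
      ring
    have e2 : f1 x.1 * p x.2 = f1 x.1 * f1 x.2 + f1 x.1 * f2 x.2 + f1 x.1 * f3 x.2 := by
      rw [h x.2]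
      ring
    rw [e1, e2]
  have h2 : ∀ a b c d e : ℝ, (a + b + c + d + e) ^ 2 ≤ 5 * (a ^ 2 + b ^ 2 + c ^ 2 + d ^ 2 + e ^ 2) := by
    intro a b c d e
    nlinarith [sq_nonneg (a - b), sq_nonneg (a - c), sq_nonneg (a - d), sq_nonneg (a - e),
      sq_nonneg (b - c), sq_nonneg (b - d), sq_nonneg (b - e), sq_nonneg (c - d), sq_nonneg (c - e),
      sq_nonneg (d - e)]
  unfold WW
  rw [← Finset.sum_add_distrib, ← Finset.sum_add_distrib, ← Finset.sum_add_distrib,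
    ← Finset.sum_add_distrib, Finset.mul_sum]
  refine Finset.sum_le_sum fun w _ => ?_
  rw [h1 w]
  exact h2 _ _ _ _ _

end C4N
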