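import Mathlib
import Pool.Agent.Work.MP_c4bd3e_lc.N.Defs
import Pool.Agent.Work.MP_c4bd3e_lc.N.Young

set_option autoImplicit false

/-!
# MP_c4bd3e_lc, negative half, module Trunc

Truncation to the weights of size about `1 / X`.

* `card_AA`: `1 ≥ ∑_{AA} p ≥ |AA| / (K⁵ X)`.
* `mass_T0`: `WW R t p p ≤ K / X` by `young_left`; so `1/(KX) ≤ mass(T0) * K/X + 1/(2KX)`.
* `trunc`: `f1 = p` on `AA`, `f2 = p` where `p > K⁵/X`, `f3 = p` where `p < 1/(K⁵X)` (0 elsewhere; on `SS R`; outside `SS R`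
  `p = 0`, put it in `f3`). `∑ f2 ≤ ∑ p² * X/K⁵ ≤ K⁻⁴`; `∑ f3² ≤ (1/(K⁵X)) ∑ f3 ≤ 1/(K⁵X)`.
  `WW f1 f2 ≤ (K/X) K⁻⁸`, `WW f1 f3 ≤ 2/(K⁵X)`, `WW f2 p ≤ 2 K⁻⁸ K/X`, `WW f3 p ≤ 1/(K⁵X)`. By `WW_split`
  `1/(2KX) ≤ 5 (WW f1 f1 + 3K⁻⁷/X + 3K⁻⁵/X)`, `K ≥ 10`: `WW f1 f1 ≥ 1/(11KX)`.
  `WW f1 f1` is a sum over the quadruples `(x,y),(x',y') ∈ AA²` with `x + ⌊t y⌋ = x' + ⌊t y'⌋` of products of four
  weights `≤ K⁵/X`: `WW f1 f1 ≤ en t AA * K²⁰/X⁴`. So `en ≥ X³/(11K²¹) ≥ X³/K²³`.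
-/

namespace C4N

open Finset
open scoped Pointwise

theorem card_AA {R : ℕ} {K X : ℝ} {p : ℤ → ℝ} (hK : 0 < K) (hX : 0 < X) (hp : Wt R p) :
    ((AA R K X p).card : ℝ) ≤ K ^ 5 * X := by
  have h1 : ∑ i ∈ AA R K X p, p i ≤ 1 := by
    rw [← hp.sum]
    exact Finset.sum_le_sum_of_subset_of_nonneg (Finset.filter_subset _ _)
      (fun i _ _ => hp.nonneg i)
  have h2 := Finset.card_nsmul_le_sum (AA R K X p) p (1 / (K ^ 5 * X))
    (fun i hi => (Finset.mem_filter.1 hi).2.1)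
  rw [nsmul_eq_mul, mul_one_div] at h2
  exact (div_le_one (by positivity)).1 (h2.trans h1)

theorem mass_T0 {R : ℕ} {K X : ℝ} {p : ℤ → ℝ} (hK : 0 < K) (hX : 0 < X) (hp : Wt R p)
    (h2 : ∑ i ∈ SS R, p i ^ 2 ≤ K / X)
    (h : 1 / (K * X) ≤ ∑ l ∈ SS R, p l * WW R ((l : ℝ) / R) p p) :
    1 / (2 * K ^ 2) ≤ ∑ l ∈ (SS R).filter (fun l : ℤ => 1 / (2 * K * X) ≤ WW R ((l : ℝ) / R) p p), p l := by
  have hb : ∀ l : ℤ, WW R ((l : ℝ) / R) p p ≤ K / X := fun l => by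
    refine (young_left hp.nonneg hp.nonneg).trans ?_
    rw [hp.sum, one_pow, mul_one]
    exact h2
  have h3 := (Finset.sum_filter_add_sum_filter_not (SS R)
    (fun l : ℤ => 1 / (2 * K * X) ≤ WW R ((l : ℝ) / R) p p)
    (fun l : ℤ => p l * WW R ((l : ℝ) / R) p p)).symm
  have h4 : ∑ l ∈ (SS R).filter (fun l : ℤ => 1 / (2 * K * X) ≤ WW R ((l : ℝ) / R) p p),
      p l * WW R ((l : ℝ) / R) p p ≤
      (∑ l ∈ (SS R).filter (fun l : ℤ => 1 / (2 * K * X) ≤ WW R ((l : ℝ) / R) p p), p l) *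
        (K / X) := by
    rw [Finset.sum_mul]
    exact Finset.sum_le_sum fun l _ => mul_le_mul_of_nonneg_left (hb l) (hp.nonneg l)
  have h5 : ∑ l ∈ (SS R).filter (fun l : ℤ => ¬ 1 / (2 * K * X) ≤ WW R ((l : ℝ) / R) p p),
      p l * WW R ((l : ℝ) / R) p p ≤ 1 / (2 * K * X) := by
    calc _ ≤ ∑ l ∈ (SS R).filter (fun l : ℤ => ¬ 1 / (2 * K * X) ≤ WW R ((l : ℝ) / R) p p),
          p l * (1 / (2 * K * X)) :=
          Finset.sum_le_sum fun l hl => mul_le_mul_of_nonneg_left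
            (le_of_lt (not_le.1 (Finset.mem_filter.1 hl).2)) (hp.nonneg l)
      _ ≤ ∑ l ∈ SS R, p l * (1 / (2 * K * X)) :=
          Finset.sum_le_sum_of_subset_of_nonneg (Finset.filter_subset _ _)
            (fun i _ _ => mul_nonneg (hp.nonneg i) (by positivity))
      _ = 1 / (2 * K * X) := by rw [← Finset.sum_mul, hp.sum, one_mul]
  rw [h3] at h
  have h6 : 1 / (K * X) - 1 / (2 * K * X) ≤
      (∑ l ∈ (SS R).filter (fun l : ℤ => 1 / (2 * K * X) ≤ WW R ((l : ℝ) / R) p p), p l) *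
        (K / X) := by linarith
  have h7 := mul_le_mul_of_nonneg_right h6 (show 0 ≤ X / K by positivity)
  have h8 : (1 / (K * X) - 1 / (2 * K * X)) * (X / K) = 1 / (2 * K ^ 2) := by
    field_simp
    ring
  have h9 : ∀ m : ℝ, m * (K / X) * (X / K) = m := fun m => by field_simp
  rw [h8, h9] at h7
  exact h7

theorem trunc {R : ℕ} {t K X : ℝ} {p : ℤ → ℝ} (ht : 1 / 2 ≤ t) (hK : 10 ≤ K) (hX : 0 < X) (hp : Wt R p)
    (h2 : ∑ i ∈ SS R, p i ^ 2 ≤ K / X) (hW : 1 / (2 * K * X) ≤ WW R t p p) :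
    X ^ 3 / K ^ 23 ≤ (en t (AA R K X p) : ℝ) := by
  have hK0 : 0 < K := by linarith
  have hKX : 0 < K ^ 5 * X := by positivity
  have hc : 1 / (K ^ 5 * X) ≤ K ^ 5 / X := by
    rw [div_le_div_iff₀ hKX hX]
    have h1 : 1 ≤ K ^ 5 := one_le_pow₀ (by linarith)
    nlinarith [mul_le_mul h1 h1 zero_le_one (by positivity)]
  -- the three parts
  obtain ⟨f1, hf1⟩ : ∃ f1 : ℤ → ℝ, f1 = fun i => if i ∈ AA R K X p then p i else 0 := ⟨_, rfl⟩
  obtain ⟨f2, hf2⟩ : ∃ f2 : ℤ → ℝ, f2 = fun i => if K ^ 5 / X < p i then p i else 0 := ⟨_, rfl⟩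
  obtain ⟨f3, hf3⟩ : ∃ f3 : ℤ → ℝ, f3 = fun i => if p i < 1 / (K ^ 5 * X) then p i else 0 :=
    ⟨_, rfl⟩
  have hn : ∀ i, 0 ≤ p i := hp.nonneg
  have n1 : ∀ i, 0 ≤ f1 i := fun i => by rw [hf1]; beta_reduce; split_ifs <;> simp [hn i]
  have n2 : ∀ i, 0 ≤ f2 i := fun i => by rw [hf2]; beta_reduce; split_ifs <;> simp [hn i]
  have n3 : ∀ i, 0 ≤ f3 i := fun i => by rw [hf3]; beta_reduce; split_ifs <;> simp [hn i]
  have l1 : ∀ i, f1 i ≤ p i := fun i => by rw [hf1]; beta_reduce; split_ifs <;> simp [hn i]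
  have l2 : ∀ i, f2 i ≤ p i := fun i => by rw [hf2]; beta_reduce; split_ifs <;> simp [hn i]
  have l3 : ∀ i, f3 i ≤ p i := fun i => by rw [hf3]; beta_reduce; split_ifs <;> simp [hn i]
  have hsplit : ∀ i, p i = f1 i + f2 i + f3 i := by
    intro i
    rw [hf1, hf2, hf3]
    beta_reduce
    by_cases h0 : p i = 0
    · simp [h0]
    · have hi := hp.supp i h0
      have hA : i ∈ AA R K X p ↔ 1 / (K ^ 5 * X) ≤ p i ∧ p i ≤ K ^ 5 / X := by
        rw [AA, Finset.mem_filter]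
        exact and_iff_right hi
      rcases lt_or_ge (p i) (1 / (K ^ 5 * X)) with h1 | h1
      · rw [if_neg (fun h => absurd (hA.1 h).1 (not_le.2 h1)), if_neg (not_lt.2 (h1.le.trans hc)),
          if_pos h1, zero_add, zero_add]
      · rcases le_or_gt (p i) (K ^ 5 / X) with h3 | h3
        · rw [if_pos (hA.2 ⟨h1, h3⟩), if_neg (not_lt.2 h3), if_neg (not_lt.2 h1), add_zero,
            add_zero]
        · rw [if_neg (fun h => absurd (hA.1 h).2 (not_le.2 h3)), if_pos h3, if_neg (not_lt.2 h1),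
            add_zero, zero_add]
  -- the sums
  have hs : ∀ f : ℤ → ℝ, (∀ i, f i ≤ p i) → ∑ i ∈ SS R, f i ≤ 1 := fun f hf => by
    rw [← hp.sum]
    exact Finset.sum_le_sum fun i _ => hf i
  have hq : ∀ f : ℤ → ℝ, (∀ i, 0 ≤ f i) → (∀ i, f i ≤ p i) → ∑ i ∈ SS R, f i ^ 2 ≤ K / X :=
    fun f hf hf' => (Finset.sum_le_sum fun i _ => pow_le_pow_left₀ (hf i) (hf' i) 2).trans h2
  have s2 : ∑ i ∈ SS R, f2 i ≤ 1 / K ^ 4 := by
    have h1 : ∀ i ∈ SS R, f2 i ≤ p i ^ 2 * (X / K ^ 5) := by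
      intro i _
      rw [hf2]
      beta_reduce
      split_ifs with h
      · have h3 : 1 ≤ p i * (X / K ^ 5) := by
          rw [← mul_div_assoc, le_div_iff₀ (by positivity), one_mul]
          exact ((div_lt_iff₀ hX).1 h).le
        calc p i = p i * 1 := (mul_one _).symm
          _ ≤ p i * (p i * (X / K ^ 5)) := mul_le_mul_of_nonneg_left h3 (hn i)
          _ = p i ^ 2 * (X / K ^ 5) := by ring
      · positivity
    calc _ ≤ ∑ i ∈ SS R, p i ^ 2 * (X / K ^ 5) := Finset.sum_le_sum h1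
      _ = (∑ i ∈ SS R, p i ^ 2) * (X / K ^ 5) := by rw [Finset.sum_mul]
      _ ≤ (K / X) * (X / K ^ 5) := mul_le_mul_of_nonneg_right h2 (by positivity)
      _ = 1 / K ^ 4 := by field_simp
  have q3 : ∑ i ∈ SS R, f3 i ^ 2 ≤ 1 / (K ^ 5 * X) := by
    have h1 : ∀ i ∈ SS R, f3 i ^ 2 ≤ p i * (1 / (K ^ 5 * X)) := by
      intro i _
      rw [hf3]
      beta_reduce
      split_ifs with h
      · rw [pow_two]
        exact mul_le_mul_of_nonneg_left h.le (hn i)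
      · rw [zero_pow two_ne_zero]
        exact mul_nonneg (hn i) (by positivity)
    calc _ ≤ ∑ i ∈ SS R, p i * (1 / (K ^ 5 * X)) := Finset.sum_le_sum h1
      _ = 1 / (K ^ 5 * X) := by rw [← Finset.sum_mul, hp.sum, one_mul]
  have sn : ∀ f : ℤ → ℝ, (∀ i, 0 ≤ f i) → 0 ≤ ∑ i ∈ SS R, f i := fun f hf =>
    Finset.sum_nonneg fun i _ => hf i
  have w12 : WW R t f1 f2 ≤ 1 / (K ^ 7 * X) := by
    refine (young_left n1 n2).trans ?_
    calc _ ≤ (K / X) * (1 / K ^ 4) ^ 2 :=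
          mul_le_mul (hq f1 n1 l1) (pow_le_pow_left₀ (sn f2 n2) s2 2) (by positivity)
            (by positivity)
      _ = 1 / (K ^ 7 * X) := by field_simp
  have w13 : WW R t f1 f3 ≤ 2 / (K ^ 5 * X) := by
    refine (young_right ht n1 n3).trans ?_
    calc _ ≤ 2 * 1 ^ 2 * (1 / (K ^ 5 * X)) :=
          mul_le_mul (mul_le_mul_of_nonneg_left (pow_le_pow_left₀ (sn f1 n1) (hs f1 l1) 2)
            (by norm_num)) q3 (Finset.sum_nonneg fun i _ => sq_nonneg _) (by norm_num)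
      _ = 2 / (K ^ 5 * X) := by ring
  have w2p : WW R t f2 p ≤ 2 / (K ^ 7 * X) := by
    refine (young_right ht n2 hn).trans ?_
    calc _ ≤ 2 * (1 / K ^ 4) ^ 2 * (K / X) :=
          mul_le_mul (mul_le_mul_of_nonneg_left (pow_le_pow_left₀ (sn f2 n2) s2 2)
            (by norm_num)) h2 (Finset.sum_nonneg fun i _ => sq_nonneg _) (by positivity)
      _ = 2 / (K ^ 7 * X) := by field_simp
  have w3p : WW R t f3 p ≤ 1 / (K ^ 5 * X) := by
    refine (young_left n3 hn).trans ?_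
    rw [hp.sum, one_pow, mul_one]
    exact q3
  have hWW := WW_split (R := R) (t := t) hsplit
  have e1 : 1 / (11 * K * X) ≤ WW R t f1 f1 := by
    have h3 : 1 / (2 * K * X) ≤ 5 * (WW R t f1 f1 + 1 / (K ^ 7 * X) + 2 / (K ^ 5 * X) +
        2 / (K ^ 7 * X) + 1 / (K ^ 5 * X)) := by
      refine hW.trans (hWW.trans ?_)
      gcongr
    have h4 : 1 / (K ^ 5 * X) ≤ (1 / 10000) * (1 / (K * X)) := by
      rw [one_div_mul_one_div]
      apply one_div_le_one_div_of_le (by positivity)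
      have h5 : (10000 : ℝ) ≤ K ^ 4 := by
        have := pow_le_pow_left₀ (by norm_num : (0 : ℝ) ≤ 10) hK 4
        norm_num at this
        exact this
      have h6 : 0 < K * X := by positivity
      nlinarith [mul_le_mul_of_nonneg_right h5 h6.le]
    have h5 : 1 / (K ^ 7 * X) ≤ 1 / (K ^ 5 * X) := by
      apply one_div_le_one_div_of_le hKX
      have h6 : K ^ 5 ≤ K ^ 7 := pow_le_pow_right₀ (by linarith) (by norm_num)
      exact mul_le_mul_of_nonneg_right h6 hX.le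
    have h6 : 2 / (K ^ 5 * X) = 2 * (1 / (K ^ 5 * X)) := by ring
    have h7 : 2 / (K ^ 7 * X) = 2 * (1 / (K ^ 7 * X)) := by ring
    have h8 : 1 / (2 * K * X) = (1 / 2) * (1 / (K * X)) := by field_simp
    have h9 : 1 / (11 * K * X) = (1 / 11) * (1 / (K * X)) := by field_simp
    have h10 : 0 < 1 / (K * X) := by positivity
    rw [h6, h7, h8] at h3
    rw [h9]
    linarith
  -- the energy
  obtain ⟨r, hr⟩ : ∃ r : ℤ → ℕ, r = fun w => (((AA R K X p) ×ˢ (AA R K X p)).filter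
    (fun x : ℤ × ℤ => x.1 + ⌊t * (x.2 : ℝ)⌋ = w)).card := ⟨_, rfl⟩
  have hqr : ∀ w, qq R t f1 f1 w ≤ (r w : ℝ) * (K ^ 5 / X) ^ 2 := by
    intro w
    have hAS : AA R K X p ⊆ SS R := Finset.filter_subset _ _
    have h3 : qq R t f1 f1 w = ∑ x ∈ ((AA R K X p) ×ˢ (AA R K X p)).filter
        (fun x : ℤ × ℤ => x.1 + ⌊t * (x.2 : ℝ)⌋ = w), f1 x.1 * f1 x.2 := by
      unfold qq
      symm
      apply Finset.sum_subset
      · exact Finset.filter_subset_filter _ (Finset.product_subset_product hAS hAS)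
      · intro x hx hx'
        rw [Finset.mem_filter, Finset.mem_product] at hx
        rw [Finset.mem_filter, Finset.mem_product, not_and] at hx'
        have h4 : ¬ (x.1 ∈ AA R K X p ∧ x.2 ∈ AA R K X p) := fun h => hx' h hx.2
        rw [hf1]
        beta_reduce
        rcases not_and_or.1 h4 with h5 | h5
        · rw [if_neg h5, zero_mul]
        · rw [if_neg h5, mul_zero]
    rw [h3, hr]
    have h4 := Finset.sum_le_card_nsmul (((AA R K X p) ×ˢ (AA R K X p)).filter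
      (fun x : ℤ × ℤ => x.1 + ⌊t * (x.2 : ℝ)⌋ = w)) (fun x => f1 x.1 * f1 x.2)
      ((K ^ 5 / X) ^ 2) (by
        intro x hx
        rw [Finset.mem_filter, Finset.mem_product] at hx
        have h5 := (Finset.mem_filter.1 hx.1.1).2.2
        have h6 := (Finset.mem_filter.1 hx.1.2).2.2
        rw [pow_two]
        exact mul_le_mul ((l1 _).trans h5) ((l1 _).trans h6) (n1 _) (by positivity))
    rw [nsmul_eq_mul] at h4
    exact h4
  have hqn : ∀ w, 0 ≤ qq R t f1 f1 w := fun w =>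
    Finset.sum_nonneg fun x _ => mul_nonneg (n1 _) (n1 _)
  have hrr : ∑ w ∈ Finset.Icc 0 (2 * (R : ℤ)), r w ^ 2 ≤ en t (AA R K X p) := by
    have h3 : ∀ w, r w ^ 2 = (((((AA R K X p) ×ˢ (AA R K X p)) ×ˢ
        ((AA R K X p) ×ˢ (AA R K X p))).filter (fun x : (ℤ × ℤ) × (ℤ × ℤ) =>
          x.1.1 + ⌊t * (x.2.1 : ℝ)⌋ = x.1.2 + ⌊t * (x.2.2 : ℝ)⌋)).filter
            (fun x => x.1.1 + ⌊t * (x.2.1 : ℝ)⌋ = w)).card := by
      intro w
      rw [hr]
      beta_reduce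
      rw [pow_two, ← Finset.card_product]
      refine Finset.card_bij' (fun x _ => ((x.1.1, x.2.1), (x.1.2, x.2.2)))
        (fun x _ => ((x.1.1, x.2.1), (x.1.2, x.2.2))) ?_ ?_ (fun _ _ => rfl) (fun _ _ => rfl)
      · rintro ⟨⟨a, b⟩, ⟨c, d⟩⟩ hx
        simp only [Finset.mem_product, Finset.mem_filter] at hx ⊢
        exact ⟨⟨⟨⟨hx.1.1.1, hx.2.1.1⟩, hx.1.1.2, hx.2.1.2⟩, hx.1.2.trans hx.2.2.symm⟩, hx.1.2⟩
      · rintro ⟨⟨a, b⟩, ⟨c, d⟩⟩ hx
        simp only [Finset.mem_product, Finset.mem_filter] at hx ⊢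
        exact ⟨⟨⟨hx.1.1.1.1, hx.1.1.2.1⟩, hx.2⟩, ⟨hx.1.1.1.2, hx.1.1.2.2⟩,
          hx.1.2.symm.trans hx.2⟩
    rw [Finset.sum_congr rfl fun w _ => h3 w, Finset.sum_card_fiberwise_eq_card_filter]
    exact Finset.card_filter_le _ _
  have e2 : WW R t f1 f1 ≤ (en t (AA R K X p) : ℝ) * (K ^ 5 / X) ^ 4 := by
    calc WW R t f1 f1 ≤ ∑ w ∈ Finset.Icc 0 (2 * (R : ℤ)), ((r w : ℝ) * (K ^ 5 / X) ^ 2) ^ 2 :=
          Finset.sum_le_sum fun w _ => pow_le_pow_left₀ (hqn w) (hqr w) 2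
      _ = ((∑ w ∈ Finset.Icc 0 (2 * (R : ℤ)), r w ^ 2 : ℕ) : ℝ) * (K ^ 5 / X) ^ 4 := by
          push_cast
          rw [Finset.sum_mul]
          exact Finset.sum_congr rfl fun w _ => by ring
      _ ≤ _ := mul_le_mul_of_nonneg_right (by exact_mod_cast hrr) (by positivity)
  have e3 := e1.trans e2
  have e4 : (en t (AA R K X p) : ℝ) * (K ^ 5 / X) ^ 4 * (X ^ 4 / K ^ 20) =
      (en t (AA R K X p) : ℝ) := by
    field_simp
  have e5 := mul_le_mul_of_nonneg_right e3 (show 0 ≤ X ^ 4 / K ^ 20 by positivity)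
  rw [e4] at e5
  refine le_trans ?_ e5
  have e6 : 1 / (11 * K * X) * (X ^ 4 / K ^ 20) = X ^ 3 / (11 * K ^ 21) := by
    field_simp
  rw [e6]
  apply div_le_div_of_nonneg_left (by positivity) (by positivity)
  have e7 : (11 : ℝ) ≤ K ^ 2 := by nlinarith
  calc 11 * K ^ 21 ≤ K ^ 2 * K ^ 21 := mul_le_mul_of_nonneg_right e7 (by positivity)
    _ = K ^ 23 := by ring

end C4N
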