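import Mathlib
import Pool.Agent.Work.MP_c4bd3e_lc.N.Defs
import Pool.Agent.Work.MP_c4bd3e_lc.N.Trunc
import Pool.Agent.Work.MP_c4bd3e_lc.N.Bsg
import Pool.Agent.Work.MP_c4bd3e_lc.N.Esel
import Pool.Agent.Work.MP_c4bd3e_lc.N.Pick

set_option autoImplicit false

/-!
# MP_c4bd3e_lc, negative half, module St1

First half of the discrete argument: many multipliers `j` for which `A' j + (j/R) B' j` is small.

Proof. `N = K⁵ X`, `A = AA R K X p`, `T0 = {l ∈ SS R : 1/(2KX) ≤ WW R (l/R) p p}`. `card_AA`, `mass_T0` (`≥ 1/(2K²)`); on `A` `p ≥ 1/N`. For `j ∈ T0`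
(`t = j/R ∈ [1/2, 1]` since `R ≤ 2j`, `R ≥ 1`) `trunc`, `en_le`: `addEnergy A (dil t A) ≥ X³/(4K²³) = N³/(4K³⁸) ≥ N³/K³⁹`. `bsg` with `L = K³⁹`:
`A' j ⊆ A`, `C' ⊆ dil t A`; `B' j = {b ∈ A : ⌊t b⌋ ∈ C'}`, so `dil t (B' j) = C'`, `|B' j| ≥ |C'|`.
`|A' j + dil t (B' j)| ≤ 2²⁰ K³¹² N ≤ K³²⁰ N`; sizes `≥ N/(12K³⁹) ≥ N/K⁴¹`. `pick` with `L = K⁴¹`: `mass T ≥ 1/(2K²⁰⁵)`, intersections `≥ N/(2K¹⁶⁴)`.
(Outside `T0` define `A'`, `B'` arbitrarily.)
-/

namespace C4N

open Finset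
open scoped Pointwise

theorem st1 {R : ℕ} {K X : ℝ} {p : ℤ → ℝ} (hR : 1 ≤ R) (hK : 10 ≤ K) (hX : 0 < X) (hp : Wt R p)
    (h2 : ∑ i ∈ SS R, p i ^ 2 ≤ K / X)
    (h : 1 / (K * X) ≤ ∑ l ∈ SS R, p l * WW R ((l : ℝ) / R) p p) :
    ∃ (A : Finset ℤ) (l : ℤ) (T : Finset ℤ) (A' B' : ℤ → Finset ℤ),
      Pre R (K ^ 5 * X) (K ^ 320) p A l T A' B' := by
  have hK0 : (0 : ℝ) < K := by linarith
  have hK1 : (1 : ℝ) ≤ K := by linarith
  obtain ⟨N, hN⟩ : ∃ N : ℝ, N = K ^ 5 * X := ⟨_, rfl⟩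
  obtain ⟨A, hA⟩ : ∃ A : Finset ℤ, A = AA R K X p := ⟨_, rfl⟩
  obtain ⟨T0, hT0⟩ : ∃ T0 : Finset ℤ, T0 =
      (SS R).filter (fun l : ℤ => 1 / (2 * K * X) ≤ WW R ((l : ℝ) / R) p p) := ⟨_, rfl⟩
  have hN0 : 0 < N := by rw [hN]; positivity
  have hAc : (A.card : ℝ) ≤ N := by rw [hA, hN]; exact card_AA hK0 hX hp
  have hmass : 1 / (2 * K ^ 2) ≤ ∑ i ∈ T0, p i := by
    rw [hT0]
    exact mass_T0 hK0 hX hp h2 h
  have hRpos : (0 : ℝ) < R := by exact_mod_cast hR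
  have st1_pow : ∀ (c : ℝ) (m n k : ℕ), c ≤ 10 ^ k → n = m + k → c * K ^ m ≤ K ^ n := by
    intro c m n k hc hn
    rw [hn, pow_add, mul_comm]
    refine mul_le_mul_of_nonneg_left (hc.trans ?_) (by positivity)
    exact pow_le_pow_left₀ (by norm_num) hK k
  have H : ∀ j ∈ T0, ∃ A' B' : Finset ℤ, A' ⊆ A ∧ B' ⊆ A ∧ N / K ^ 41 ≤ (A'.card : ℝ) ∧
      N / K ^ 41 ≤ (B'.card : ℝ) ∧
      ((A' + dil ((j : ℝ) / R) B').card : ℝ) ≤ K ^ 320 * N := by
    intro j hj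
    rw [hT0, Finset.mem_filter, mem_SS] at hj
    obtain ⟨⟨-, hj1⟩, hj2⟩ := hj
    obtain ⟨t, ht⟩ : ∃ t : ℝ, t = (j : ℝ) / R := ⟨_, rfl⟩
    rw [← ht] at hj2 ⊢
    have ht2 : 1 / 2 ≤ t := by
      rw [ht, le_div_iff₀ hRpos]
      have : (R : ℝ) ≤ 2 * j := by exact_mod_cast hj1
      linarith
    have h3 := trunc ht2 hK hX hp h2 hj2
    rw [← hA] at h3
    have h4 : (en t A : ℝ) ≤ 4 * (Finset.addEnergy A (dil t A) : ℝ) := by exact_mod_cast en_le ht2 A
    have hE : N ^ 3 / K ^ 39 ≤ (Finset.addEnergy A (dil t A) : ℝ) := by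
      have h5 : N ^ 3 / K ^ 39 = X ^ 3 / K ^ 24 := by
        rw [hN, div_eq_div_iff (by positivity) (by positivity)]
        ring
      have h6 : X ^ 3 / K ^ 24 ≤ X ^ 3 / (4 * K ^ 23) := by
        apply div_le_div_of_nonneg_left (by positivity) (by positivity)
        exact st1_pow 4 23 24 1 (by norm_num) rfl
      have h7 : X ^ 3 / (4 * K ^ 23) = (X ^ 3 / K ^ 23) / 4 := by
        rw [div_div]
        ring
      rw [h5]
      linarith
    have hCc : ((dil t A).card : ℝ) ≤ N := by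
      have : ((dil t A).card : ℝ) ≤ (A.card : ℝ) := by exact_mod_cast card_dil_le t A
      linarith
    obtain ⟨A', C', h8, h9, h10, h11, h12⟩ := bsg hN0 (one_le_pow₀ hK1) hAc hCc hE
    have hdil : dil t (A.filter (fun b : ℤ => ⌊t * (b : ℝ)⌋ ∈ C')) = C' := by
      ext w
      rw [mem_dil]
      constructor
      · rintro ⟨a, ha, rfl⟩
        exact (Finset.mem_filter.1 ha).2
      · intro hw
        obtain ⟨a, ha, rfl⟩ := mem_dil.1 (h9 hw)
        exact ⟨a, Finset.mem_filter.2 ⟨ha, hw⟩, rfl⟩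
    refine ⟨A', A.filter (fun b : ℤ => ⌊t * (b : ℝ)⌋ ∈ C'), h8, Finset.filter_subset _ _, ?_, ?_, ?_⟩
    · refine le_trans ?_ h10
      apply div_le_div_of_nonneg_left hN0.le (by positivity)
      exact st1_pow 12 39 41 2 (by norm_num) rfl
    · have h13 : (C'.card : ℝ) ≤ ((A.filter (fun b : ℤ => ⌊t * (b : ℝ)⌋ ∈ C')).card : ℝ) := by
        have h14 := card_dil_le t (A.filter (fun b : ℤ => ⌊t * (b : ℝ)⌋ ∈ C'))
        rw [hdil] at h14
        exact_mod_cast h14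
      refine le_trans ?_ (h11.trans h13)
      apply div_le_div_of_nonneg_left hN0.le (by positivity)
      exact st1_pow 8 39 41 2 (by norm_num) rfl
    · rw [hdil]
      refine h12.trans ?_
      have h15 : (K ^ 39) ^ 8 = K ^ 312 := by rw [← pow_mul]
      rw [h15]
      exact mul_le_mul_of_nonneg_right (st1_pow (2 ^ 20) 312 320 8 (by norm_num) rfl) hN0.le
  choose! A' B' hsA hsB hcA hcB hd using H
  have h0 : 1 / K ^ 41 ≤ ∑ i ∈ T0, p i := by
    refine le_trans ?_ hmass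
    apply div_le_div_of_nonneg_left (by norm_num) (by positivity)
    exact st1_pow 2 2 41 39 (by norm_num) rfl
  obtain ⟨l, hl, T, hT, hlT, hm, hiA, hiB⟩ :=
    pick hN0 (one_le_pow₀ hK1) hAc hp.nonneg h0 hsA hsB hcA hcB
  refine ⟨A, l, T, A', B', ?_⟩
  rw [← hN]
  have hT0S : T0 ⊆ SS R := by rw [hT0]; exact Finset.filter_subset _ _
  exact
    { A_sub := by rw [hA]; exact Finset.filter_subset _ _
      A_card := hAc
      A_ge := by
        intro i hi
        rw [hA, AA, Finset.mem_filter] at hi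
        rw [hN]
        exact hi.2.1
      T_sub := hT.trans hT0S
      l_mem := hlT
      mass := by
        refine le_trans ?_ hm
        apply div_le_div_of_nonneg_left (by norm_num) (by positivity)
        rw [← pow_mul]
        exact st1_pow 2 (41 * 5) 320 115 (by norm_num) rfl
      subA := fun j hj => hsA j (hT hj)
      subB := fun j hj => hsB j (hT hj)
      doub := fun j hj => hd j (hT hj)
      interA := by
        intro j hj
        refine le_trans ?_ (hiA j hj)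
        apply div_le_div_of_nonneg_left hN0.le (by positivity)
        rw [← pow_mul]
        exact st1_pow 2 (41 * 4) 320 156 (by norm_num) rfl
      interB := by
        intro j hj
        refine le_trans ?_ (hiB j hj)
        apply div_le_div_of_nonneg_left hN0.le (by positivity)
        rw [← pow_mul]
        exact st1_pow 2 (41 * 4) 320 156 (by norm_num) rfl }

end C4N
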