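import Mathlib
import Pool.Agent.Work.MP_c4bd3e_lc.N.Defs
import Pool.Agent.Work.MP_c4bd3e_lc.N.St1
import Pool.Agent.Work.MP_c4bd3e_lc.N.Ruz1
import Pool.Agent.Work.MP_c4bd3e_lc.N.Ruz2
import Pool.Agent.Work.MP_c4bd3e_lc.N.Ruz3
import Pool.Agent.Work.MP_c4bd3e_lc.N.Ring
import Pool.Agent.Work.MP_c4bd3e_lc.N.Cnt
import Pool.Agent.Work.MP_c4bd3e_lc.N.Nbl

set_option autoImplicit false

/-!
# MP_c4bd3e_lc, negative half, module St2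

Second half of the reduction: an approximate ring. Assembly of the earlier modules.

Proof. `X = R^D`, `K₁ = K⁴ ≥ 16` (the hypotheses are monotone in `K`). `∑ p² ≤ Col R p 1 ≤ K/X`. `st1` with `K₁`: `Pre` with `N = K₁⁵ X`, `L = K₁³²⁰` (`l`, `T`, `A'`, `B'`).
`H = B0 - B0`: `ruz3` gives `AGrp R N L₂ D H`, `L₂ = 2²⁰L³⁶`, `ruz2` gives `Good H L₂ (j/l)` for `j ∈ T`. `L₃ = 2²⁰L₂¹⁹` (`AGrp` is monotone in `L`).
`m = ⌊(R/2) (2L₃⁴)^(-1/D)⌋`. If `(R/2) (2L₃⁴)^(-1/D) < 1` then `R ≤ 2 (2L₃⁴)^(1/D) ≤ K^c`. Otherwise `1 ≤ m ≤ R`, `R/m ≤ 4 (2L₃⁴)^(1/D)` and `cnt` with `L₃`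
bounds every `W` as in its statement by `8L₃⁶N * 4 (2L₃⁴)^(1/D) ≤ K^c R^D`. `W = T + T`: `σ = (z + x)/l` (`ring_add`). `W = T + VV l u v T`: `w = z + ⌊(u x + v y)/l⌋`,
`σ = (z + (u x + v y)/l)/l` (`ring_main`), `l σ = z + (u x + v y)/l`. `lb`: `nbl` (`mass`), `1/(L²K) ≥ K^(-c)`. All constants are powers of `K` (`2 ≤ K`), with the exponent depending on `D`
only: `L = K^1280`, `L₂ ≤ K^46100`, `L₃ ≤ K^875920`.
-/

namespace C4N

open Finset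
open scoped Pointwise

theorem AGrp.mono {R : ℕ} {N L L' D : ℝ} {H : Finset ℤ} (h : AGrp R N L D H) (hN : 0 < N) (hL : L ≤ L') :
    AGrp R N L' D H := by
  refine ⟨h.zero, h.neg, h.le.trans (by gcongr), h.ge.trans (by gcongr), ?_, ?_⟩
  · obtain ⟨Y, h1, h2⟩ := h.dbl
    exact ⟨Y, h1.trans hL, h2⟩
  · intro a m hm
    refine (h.ncon a m hm).trans ?_
    have h1 : 0 ≤ ((m : ℝ) / R) ^ D := by positivity
    gcongr

/-- the sum of the squares is at most the collision probability -/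
private theorem sq_le_col {R : ℕ} {p : ℤ → ℝ} (hp : Wt R p) : ∑ i ∈ SS R, p i ^ 2 ≤ Col R p 1 := by
  have h1 : ∑ i ∈ SS R, p i ^ 2 = ∑ x ∈ (SS R).diag, p x.1 * p x.2 := by
    rw [Finset.sum_diag]
    refine Finset.sum_congr rfl fun i _ => ?_
    ring
  rw [h1, Col]
  refine Finset.sum_le_sum_of_subset_of_nonneg ?_ ?_
  · intro x hx
    rw [Finset.mem_diag] at hx
    rw [Finset.mem_filter, Finset.mem_product]
    refine ⟨⟨hx.1, hx.2 ▸ hx.1⟩, ?_⟩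
    rw [hx.2]
    simp
  · intro x _ _
    exact mul_nonneg (hp.nonneg _) (hp.nonneg _)

theorem st2 (D : ℝ) (hD0 : 0 < D) (hD1 : D < 1) :
    ∃ c : ℝ, 1 ≤ c ∧ ∀ (R : ℕ) (K : ℝ) (p : ℤ → ℝ), 1 ≤ R → 2 ≤ K → Wt R p →
      (∀ m : ℕ, 1 ≤ m → m ≤ R → Col R p m ≤ K * ((m : ℝ) / R) ^ D) →
      1 / (K * (R : ℝ) ^ D) ≤ ∑ l ∈ SS R, p l * WW R ((l : ℝ) / R) p p →
      (R : ℝ) ≤ K ^ c ∨
        ∃ (l : ℤ) (T : Finset ℤ), Rg R D (K ^ (-c)) (K ^ c * (R : ℝ) ^ D) l T := by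
  obtain ⟨e, he⟩ : ∃ e : ℝ, e = 3503681 / D := ⟨_, rfl⟩
  have he0 : 0 < e := by rw [he]; positivity
  have heD : e * D = 3503681 := by rw [he]; field_simp
  refine ⟨5255545 + e, by linarith, ?_⟩
  intro R K p hR hK hp hcol hE
  have hR1 : (1 : ℝ) ≤ R := by exact_mod_cast hR
  have hR0 : (0 : ℝ) < R := by linarith
  have hK0 : (0 : ℝ) < K := by linarith
  have hK1 : (1 : ℝ) ≤ K := by linarith
  have hX : 0 < (R : ℝ) ^ D := Real.rpow_pos_of_pos hR0 _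
  have hmono : ∀ a b : ℝ, a ≤ b → K ^ a ≤ K ^ b := fun a b h =>
    Real.rpow_le_rpow_of_exponent_le hK1 h
  have hKK : K ≤ K ^ 4 := le_self_pow₀ hK1 (by norm_num)
  have h10 : (10 : ℝ) ≤ K ^ 4 := by
    have : (2 : ℝ) ^ 4 ≤ K ^ 4 := pow_le_pow_left₀ (by norm_num) hK 4
    norm_num at this
    linarith
  -- first stage
  have h2 : ∑ i ∈ SS R, p i ^ 2 ≤ K ^ 4 / (R : ℝ) ^ D := by
    have h3 := hcol 1 le_rfl hR
    have h4 : K * (((1 : ℕ) : ℝ) / R) ^ D = K / (R : ℝ) ^ D := by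
      rw [Nat.cast_one, Real.div_rpow (by norm_num) hR0.le, Real.one_rpow]
      ring
    rw [h4] at h3
    exact (sq_le_col hp).trans (h3.trans (by gcongr))
  have h3 : 1 / (K ^ 4 * (R : ℝ) ^ D) ≤ ∑ l ∈ SS R, p l * WW R ((l : ℝ) / R) p p :=
    le_trans (by gcongr) hE
  obtain ⟨A, l, T, A', B', hPre⟩ := st1 hR h10 hX hp h2 h3
  obtain ⟨N, hN⟩ : ∃ N : ℝ, N = (K ^ 4) ^ 5 * (R : ℝ) ^ D := ⟨_, rfl⟩
  obtain ⟨L, hL⟩ : ∃ L : ℝ, L = (K ^ 4) ^ 320 := ⟨_, rfl⟩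
  rw [← hN, ← hL] at hPre
  have hN0 : 0 < N := by rw [hN]; positivity
  have hLK : L = K ^ 1280 := by rw [hL, ← pow_mul]
  have hL2 : 2 ≤ L := by
    rw [hLK]
    exact hK.trans (le_self_pow₀ hK1 (by norm_num))
  have hL1 : 1 ≤ L := by linarith
  have hKL : K ≤ L := by
    rw [hLK]
    exact le_self_pow₀ hK1 (by norm_num)
  have h20 : (2 : ℝ) ^ 20 ≤ K ^ 20 := pow_le_pow_left₀ (by norm_num) hK 20
  obtain ⟨L2, hL2d⟩ : ∃ L2 : ℝ, L2 = K ^ 46100 := ⟨_, rfl⟩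
  obtain ⟨L3, hL3d⟩ : ∃ L3 : ℝ, L3 = K ^ 875920 := ⟨_, rfl⟩
  have hLa : 2 ^ 20 * L ^ 36 ≤ L2 := by
    rw [hLK, hL2d, ← pow_mul]
    calc (2 : ℝ) ^ 20 * K ^ (1280 * 36) ≤ K ^ 20 * K ^ (1280 * 36) := by gcongr
      _ = K ^ 46100 := by rw [← pow_add]
  have hLb : 2 ^ 20 * L2 ^ 19 ≤ L3 := by
    rw [hL2d, hL3d, ← pow_mul]
    calc (2 : ℝ) ^ 20 * K ^ (46100 * 19) ≤ K ^ 20 * K ^ (46100 * 19) := by gcongr
      _ = K ^ 875920 := by rw [← pow_add]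
  have hL21 : 1 ≤ L2 := by rw [hL2d]; exact one_le_pow₀ hK1
  have hL31 : 1 ≤ L3 := by rw [hL3d]; exact one_le_pow₀ hK1
  have hL23 : L2 ≤ L3 := by
    rw [hL2d, hL3d]; exact pow_le_pow_right₀ hK1 (by norm_num)
  obtain ⟨H, hH⟩ : ∃ H : Finset ℤ, H = dil ((l : ℝ) / R) (B' l) - dil ((l : ℝ) / R) (B' l) := ⟨_, rfl⟩
  have hG : AGrp R N L2 D H := by
    rw [hH]
    exact (ruz3 hPre hR hN0 hL2 hK1 hKL hD0.le hD1.le hp hcol).mono hN0 hLa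
  have hgood : ∀ j ∈ T, Good H L2 ((j : ℝ) / l) := by
    intro j hj
    rw [hH]
    exact (ruz2 hPre hR hN0 hL1 hj).mono hLa
  have hG3 : AGrp R N L3 D H := hG.mono hN0 hL23
  have hl : l ∈ SS R := hPre.T_sub hPre.l_mem
  have hl0 : (0 : ℝ) < l := by
    have h5 := (mem_SS.1 hl).2
    have h6 : ((R : ℤ) : ℝ) ≤ ((2 * l : ℤ) : ℝ) := by exact_mod_cast h5
    push_cast at h6
    linarith
  -- the scale
  obtain ⟨ρ, hρ⟩ : ∃ ρ : ℝ, ρ = K ^ (-e) := ⟨_, rfl⟩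
  have hρ0 : 0 < ρ := by rw [hρ]; exact Real.rpow_pos_of_pos hK0 _
  have hρe : ρ * K ^ e = 1 := by rw [hρ, ← Real.rpow_add hK0]; simp
  have hKe : 0 < K ^ e := Real.rpow_pos_of_pos hK0 _
  rcases lt_or_ge ((R : ℝ) / 2 * ρ) 1 with h5 | h5
  · left
    calc (R : ℝ) = 2 * (R / 2 * ρ) * K ^ e := by rw [← mul_assoc, mul_assoc, hρe]; ring
      _ ≤ 2 * 1 * K ^ e := by gcongr
      _ ≤ K ^ (1 : ℝ) * K ^ e := by rw [Real.rpow_one]; gcongr; linarith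
      _ = K ^ (1 + e) := by rw [← Real.rpow_add hK0]
      _ ≤ K ^ (5255545 + e) := hmono _ _ (by linarith)
  right
  obtain ⟨m, hm⟩ : ∃ m : ℕ, m = ⌊(R : ℝ) / 2 * ρ⌋₊ := ⟨_, rfl⟩
  have hm1 : 1 ≤ m := by
    rw [hm]
    exact Nat.le_floor (by simpa using h5)
  have hm1' : (1 : ℝ) ≤ m := by exact_mod_cast hm1
  have hm0 : (0 : ℝ) < m := by linarith
  have hmle : (m : ℝ) ≤ R / 2 * ρ := by
    rw [hm]; exact Nat.floor_le (by positivity)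
  have hmge : (R : ℝ) / 2 * ρ ≤ 2 * m := by
    have := Nat.lt_floor_add_one ((R : ℝ) / 2 * ρ)
    rw [← hm] at this
    linarith
  have hρ1 : ρ ≤ 1 := by
    rw [hρ]
    exact Real.rpow_le_one_of_one_le_of_nonpos hK1 (by linarith)
  have hmR : m ≤ R := by
    have h6 : (m : ℝ) ≤ R := by nlinarith
    exact_mod_cast h6
  have hmul : (R : ℝ) / m ≤ 4 * K ^ e := by
    rw [div_le_iff₀ hm0]
    calc (R : ℝ) = 2 * (R / 2 * ρ) * K ^ e := by rw [← mul_assoc, mul_assoc, hρe]; ring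
      _ ≤ 2 * (2 * m) * K ^ e := by gcongr
      _ = 4 * K ^ e * m := by ring
  have hsm : (2 * (m : ℝ) / R) ^ D ≤ 1 / (2 * L3 ^ 4) := by
    have h6 : 2 * (m : ℝ) / R ≤ ρ := by
      rw [div_le_iff₀ hR0]; linarith
    have h7 : ρ ^ D = 1 / (K * L3 ^ 4) := by
      rw [hρ, ← Real.rpow_mul hK0.le, show -e * D = -3503681 by linarith, hL3d, ← pow_mul, ← pow_succ',
        Real.rpow_neg hK0.le, one_div]
      congr 1
      rw [← Real.rpow_natCast]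
      norm_num
    calc (2 * (m : ℝ) / R) ^ D ≤ ρ ^ D := Real.rpow_le_rpow (by positivity) h6 hD0.le
      _ = 1 / (K * L3 ^ 4) := h7
      _ ≤ 1 / (2 * L3 ^ 4) := by gcongr
  have hcnt : ∀ W : Finset ℤ, (∀ w ∈ W, ∃ σ : ℝ, Good H L3 σ ∧ (w : ℝ) ≤ l * σ ∧ l * σ < w + 1) →
      (W.card : ℝ) ≤ K ^ (5255545 + e) * (R : ℝ) ^ D := by
    intro W hW
    refine (cnt hG3 hR hN0 hL31 hl hm1 hmR hsm hW).trans ?_
    have h6 : 8 * L3 ^ 6 * N = 8 * K ^ 5255540 * (R : ℝ) ^ D := by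
      rw [hL3d, hN, ← pow_mul, ← pow_mul, show (5255540 : ℕ) = 875920 * 6 + 4 * 5 by norm_num, pow_add]
      ring
    have h7 : (2 : ℝ) ^ 5 ≤ K ^ 5 := pow_le_pow_left₀ (by norm_num) hK 5
    rw [h6, Real.rpow_add hK0]
    have h8 : K ^ (5255545 : ℝ) = K ^ 5 * K ^ 5255540 := by
      rw [← pow_add, ← Real.rpow_natCast]
      norm_num
    rw [h8]
    have h9 : 0 < K ^ 5255540 := by positivity
    calc 8 * K ^ 5255540 * (R : ℝ) ^ D * (R / m) ≤ 8 * K ^ 5255540 * (R : ℝ) ^ D * (4 * K ^ e) := by gcongr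
      _ = 2 ^ 5 * (K ^ 5255540 * K ^ e * (R : ℝ) ^ D) := by ring
      _ ≤ K ^ 5 * (K ^ 5255540 * K ^ e * (R : ℝ) ^ D) := by gcongr
      _ = K ^ 5 * K ^ 5255540 * K ^ e * (R : ℝ) ^ D := by ring
  refine ⟨l, T, ⟨hR, hl, hPre.T_sub, Real.rpow_pos_of_pos hK0 _,
    Real.rpow_le_one_of_one_le_of_nonpos hK1 (by linarith), ?_, ?_, ?_⟩⟩
  · intro k hk
    refine le_trans ?_ (nbl hR hK1 hL1 hD0.le hp hcol hPre.T_sub hPre.mass k hk)
    have h6 : K ^ (-(5255545 + e)) ≤ 1 / (L ^ 2 * K) := by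
      have h7 : 1 / (L ^ 2 * K) = K ^ (-2561 : ℝ) := by
        rw [hLK, ← pow_mul, ← pow_succ, Real.rpow_neg hK0.le, one_div]
        congr 1
        rw [← Real.rpow_natCast]
        norm_num
      rw [h7]
      exact hmono _ _ (by linarith)
    gcongr
  · refine hcnt _ fun w hw => ?_
    obtain ⟨z, hz, x, hx, rfl⟩ := Finset.mem_add.1 hw
    refine ⟨((z : ℝ) + x) / l, (ring_add hG hL21 hgood hz hx).mono hLb, ?_, ?_⟩
    · rw [mul_div_cancel₀ _ hl0.ne']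
      push_cast
      exact le_rfl
    · rw [mul_div_cancel₀ _ hl0.ne']
      push_cast
      linarith
  · intro u v huv
    refine hcnt _ fun w hw => ?_
    obtain ⟨z, hz, w', hw', rfl⟩ := Finset.mem_add.1 hw
    obtain ⟨x, hx, y, hy, rfl⟩ := mem_VV.1 hw'
    refine ⟨((z : ℝ) + ((u : ℝ) * x + (v : ℝ) * y) / l) / l,
      (ring_main hG hR hL21 hl hPre.T_sub hgood huv hz hx hy).mono hLb, ?_, ?_⟩
    · rw [mul_div_cancel₀ _ hl0.ne']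
      push_cast
      have := Int.floor_le (((u : ℝ) * x + (v : ℝ) * y) / (l : ℝ))
      linarith
    · rw [mul_div_cancel₀ _ hl0.ne']
      push_cast
      have := Int.lt_floor_add_one (((u : ℝ) * x + (v : ℝ) * y) / (l : ℝ))
      linarith

end C4N
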