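import Mathlib
import Pool.Agent.Work.MP_c4bd3e_lc.N.Defs
import Pool.Agent.Work.MP_c4bd3e_lc.N.St2
import Pool.Agent.Work.MP_c4bd3e_lc.N.Last

set_option autoImplicit false

/-!
# MP_c4bd3e_lc, negative half, module Fin

The discrete flattening theorem (end of the finite part). Assembly of `st2` and `last`.

Proof. `c` from `st2`. If `R ≤ K^c` then `R^(1-D) ≤ R ≤ K^c`. Otherwise `Rg` with `κ = K^(-c)`, `Λ = K^c`. `ρ = (κ⁵/(1000Λ³))^(1/D) ≥ K^(-(8c+10)/D)` (`1000 ≤ K^10`), `m = ⌊R ρ⌋`.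
If `R ρ < 1` then `R ≤ K^((8c+10)/D)`. Otherwise `m ≥ 1`, `m ≥ R ρ/2`, `1000Λ³(m/R)^D ≤ κ⁵`. If `R > m²` then `R > R²ρ²/4`, `R < 4/ρ² ≤ K^(2 + 2(8c+10)/D)`. Otherwise `last`:
`R^(1-D) ≤ 480 (Λ/κ)⁶ (2/ρ)² ≤ K^(9 + 12c + 2 + 2(8c+10)/D)`.
-/

namespace C4N

open Finset
open scoped Pointwise

theorem fin_main (D : ℝ) (hD0 : 0 < D) (hD1 : D < 1) :
    ∃ C : ℝ, 1 ≤ C ∧ ∀ (R : ℕ) (K : ℝ) (p : ℤ → ℝ), 1 ≤ R → 2 ≤ K → Wt R p →
      (∀ m : ℕ, 1 ≤ m → m ≤ R → Col R p m ≤ K * ((m : ℝ) / R) ^ D) →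
      1 / (K * (R : ℝ) ^ D) ≤ ∑ l ∈ SS R, p l * WW R ((l : ℝ) / R) p p →
      (R : ℝ) ^ (1 - D) ≤ K ^ C := by
  obtain ⟨c, hc1, hc⟩ := st2 D hD0 hD1
  obtain ⟨e, he⟩ : ∃ e : ℝ, e = (8 * c + 10) / D := ⟨_, rfl⟩
  have he0 : 0 < e := by rw [he]; positivity
  have heD : e * D = 8 * c + 10 := by rw [he]; field_simp
  refine ⟨11 + 12 * c + 2 * e, by linarith, ?_⟩
  intro R K p hR hK hp hcol hE
  have hR1 : (1 : ℝ) ≤ R := by exact_mod_cast hR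
  have hR0 : (0 : ℝ) < R := by linarith
  have hK0 : (0 : ℝ) < K := by linarith
  have hK1 : (1 : ℝ) ≤ K := by linarith
  have hRR : (R : ℝ) ^ (1 - D) ≤ R := by
    calc (R : ℝ) ^ (1 - D) ≤ (R : ℝ) ^ (1 : ℝ) := Real.rpow_le_rpow_of_exponent_le hR1 (by linarith)
      _ = R := Real.rpow_one _
  have hmono : ∀ a b : ℝ, a ≤ b → K ^ a ≤ K ^ b := fun a b h =>
    Real.rpow_le_rpow_of_exponent_le hK1 h
  have hpow : ∀ (n : ℕ), (2 : ℝ) ^ n ≤ K ^ (n : ℝ) := by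
    intro n
    rw [Real.rpow_natCast]
    exact pow_le_pow_left₀ (by norm_num) hK n
  rcases hc R K p hR hK hp hcol hE with h | ⟨l, T, hRg⟩
  · exact hRR.trans (h.trans (hmono _ _ (by linarith)))
  obtain ⟨ρ, hρ⟩ : ∃ ρ : ℝ, ρ = K ^ (-e) := ⟨_, rfl⟩
  have hρ0 : 0 < ρ := by rw [hρ]; exact Real.rpow_pos_of_pos hK0 _
  rcases lt_or_ge ((R : ℝ) * ρ) 1 with h1 | h1
  · have h2 : (R : ℝ) ≤ K ^ e := by
      have h3 : ρ * K ^ e = 1 := by
        rw [hρ, ← Real.rpow_add hK0]; simp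
      have h4 : 0 < K ^ e := Real.rpow_pos_of_pos hK0 _
      nlinarith
    exact hRR.trans (h2.trans (hmono _ _ (by linarith)))
  obtain ⟨m, hm⟩ : ∃ m : ℕ, m = ⌊(R : ℝ) * ρ⌋₊ := ⟨_, rfl⟩
  have hm1 : 1 ≤ m := by
    rw [hm]
    exact Nat.le_floor (by simpa using h1)
  have hm1' : (1 : ℝ) ≤ m := by exact_mod_cast hm1
  have hmle : (m : ℝ) ≤ R * ρ := by
    rw [hm]; exact Nat.floor_le (by positivity)
  have hmge : (R : ℝ) * ρ ≤ 2 * m := by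
    have := Nat.lt_floor_add_one ((R : ℝ) * ρ)
    rw [← hm] at this
    linarith
  have hmR : (m : ℝ) / R ≤ ρ := by
    rw [div_le_iff₀ hR0]; linarith
  have hΛ : (1 : ℝ) ≤ K ^ c := Real.one_le_rpow hK1 (by linarith)
  have hsm : 1000 * (K ^ c) ^ 3 * ((m : ℝ) / R) ^ D ≤ (K ^ (-c)) ^ 5 := by
    have h3 : ((m : ℝ) / R) ^ D ≤ K ^ (-(8 * c + 10)) := by
      calc ((m : ℝ) / R) ^ D ≤ ρ ^ D := Real.rpow_le_rpow (by positivity) hmR hD0.le
        _ = K ^ (-(8 * c + 10)) := by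
          rw [hρ, ← Real.rpow_mul hK0.le]
          congr 1
          linarith
    have h4 : (1000 : ℝ) ≤ K ^ (10 : ℝ) := by
      have := hpow 10
      norm_num at this ⊢
      linarith
    have h5 : (K ^ c) ^ 3 = K ^ (3 * c) := by
      rw [← Real.rpow_natCast, ← Real.rpow_mul hK0.le]
      congr 1
      push_cast
      ring
    have h6 : (K ^ (-c)) ^ 5 = K ^ (10 : ℝ) * K ^ (3 * c) * K ^ (-(8 * c + 10)) := by
      rw [← Real.rpow_natCast, ← Real.rpow_mul hK0.le, ← Real.rpow_add hK0, ← Real.rpow_add hK0]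
      congr 1
      push_cast
      ring
    rw [h6, h5]
    have h7 : 0 < K ^ (3 * c) := Real.rpow_pos_of_pos hK0 _
    have h8 : 0 ≤ ((m : ℝ) / R) ^ D := by positivity
    gcongr
  rcases lt_or_ge ((m : ℝ) ^ 2) (R : ℝ) with h2 | h2
  · have h3 : (R : ℝ) ≤ K ^ (2 + 2 * e) := by
      have h4 : ρ ^ 2 * K ^ (2 * e) = 1 := by
        rw [hρ, ← Real.rpow_natCast, ← Real.rpow_mul hK0.le, ← Real.rpow_add hK0]
        norm_num
        rw [show -(e * 2) + 2 * e = 0 by ring, Real.rpow_zero]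
      have h5 : (4 : ℝ) ≤ K ^ (2 : ℝ) := by
        have := hpow 2
        norm_num at this ⊢
        linarith
      have h6 : (R : ℝ) * ρ ^ 2 ≤ 4 := by
        have h7 : ((R : ℝ) * ρ) ^ 2 ≤ 4 * m ^ 2 := by
          calc ((R : ℝ) * ρ) ^ 2 ≤ (2 * m) ^ 2 := pow_le_pow_left₀ (by positivity) hmge 2
            _ = 4 * (m : ℝ) ^ 2 := by ring
        have h8 : (R : ℝ) * ((R : ℝ) * ρ ^ 2) ≤ R * 4 := by nlinarith
        exact le_of_mul_le_mul_left h8 hR0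
      rw [Real.rpow_add hK0]
      have h9 : 0 < K ^ (2 * e) := Real.rpow_pos_of_pos hK0 _
      calc (R : ℝ) = R * ρ ^ 2 * K ^ (2 * e) := by rw [mul_assoc, h4, mul_one]
        _ ≤ 4 * K ^ (2 * e) := by gcongr
        _ ≤ K ^ (2 : ℝ) * K ^ (2 * e) := by gcongr
    exact hRR.trans (h3.trans (hmono _ _ (by linarith)))
  · have h3 := last hRg hD0.le hD1.le hΛ hm1 hsm h2
    refine h3.trans ?_
    have h4 : K ^ c / K ^ (-c) = K ^ (2 * c) := by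
      rw [← Real.rpow_sub hK0]; congr 1; ring
    have h5 : (R : ℝ) / m ≤ 2 * K ^ e := by
      rw [div_le_iff₀ (by linarith)]
      have h6 : ρ * K ^ e = 1 := by
        rw [hρ, ← Real.rpow_add hK0]; simp
      have h7 : 0 < K ^ e := Real.rpow_pos_of_pos hK0 _
      calc (R : ℝ) = R * ρ * K ^ e := by rw [mul_assoc, h6, mul_one]
        _ ≤ 2 * m * K ^ e := by gcongr
        _ = 2 * K ^ e * m := by ring
    have h6 : (480 * 4 : ℝ) ≤ K ^ (11 : ℝ) := by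
      have := hpow 11
      norm_num at this ⊢
      linarith
    have h7 : (K ^ (2 * c)) ^ 6 = K ^ (12 * c) := by
      rw [← Real.rpow_natCast, ← Real.rpow_mul hK0.le]
      congr 1
      push_cast
      ring
    have h8 : (K ^ e) ^ 2 = K ^ (2 * e) := by
      rw [← Real.rpow_natCast, ← Real.rpow_mul hK0.le]
      congr 1
      push_cast
      ring
    rw [h4, h7, Real.rpow_add hK0, Real.rpow_add hK0]
    have h9 : 0 < K ^ (12 * c) := Real.rpow_pos_of_pos hK0 _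
    have h10 : 0 < K ^ (2 * e) := Real.rpow_pos_of_pos hK0 _
    have h11 : ((R : ℝ) / m) ^ 2 ≤ 4 * K ^ (2 * e) := by
      calc ((R : ℝ) / m) ^ 2 ≤ (2 * K ^ e) ^ 2 := pow_le_pow_left₀ (by positivity) h5 2
        _ = 4 * K ^ (2 * e) := by rw [mul_pow, h8]; norm_num
    calc 480 * K ^ (12 * c) * ((R : ℝ) / m) ^ 2 ≤ 480 * K ^ (12 * c) * (4 * K ^ (2 * e)) := by gcongr
      _ = (480 * 4) * K ^ (12 * c) * K ^ (2 * e) := by ring
      _ ≤ K ^ (11 : ℝ) * K ^ (12 * c) * K ^ (2 * e) := by gcongr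

end C4N
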