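import Mathlib
import Pool.Agent.Work.MP_c4bd3e_lc.N.MDefs
import Pool.Agent.Work.MP_c4bd3e_lc.N.Defs
import Pool.Agent.Work.MP_c4bd3e_lc.N.CDefs
import Pool.Agent.Work.MP_c4bd3e_lc.N.Fin
import Pool.Agent.Work.MP_c4bd3e_lc.N.DmA
import Pool.Agent.Work.MP_c4bd3e_lc.N.Disc1
import Pool.Agent.Work.MP_c4bd3e_lc.N.Disc2A
import Pool.Agent.Work.MP_c4bd3e_lc.N.Disc2B

set_option autoImplicit false

/-!
# Module Flat (size M): the flattening theorem

Let `C ≥ 1` be the constant of `fin_main D`, `η = min (D / 2) ((1 - D) / (2 C))` (so `η ≤ (1 - D) / 2` and `η C ≤ (1 - D) / 2`).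
Let `C₀ ≥ 1` be the constant of `Dm.all` for `Dm (D - η) μ` (`D - η ≥ 0`). Put `B = (72 C₀) ^ C`, `R₀ = B ^ (2 / (1 - D))` (`≥ 1`) and
`C₁ = 8 R₀`. CLAIM: `PD (comb μ) δ ≤ C₁ δ ^ (D + η)` for `0 < δ ≤ 1`. Suppose not, for some `δ`. Take `n` with
`2 ^ (-n - 1) < δ ≤ 2 ^ (-n)` (`exists_nat_pow_near_of_lt_one` or `Nat.find`), `R = 2 ^ n` (a natural number). As `D + η ≤ 1`,
`1 ≥ PD (comb μ) (1 / R) ≥ PD (comb μ) δ > C₁ (1 / (2 R)) ^ (D + η) ≥ (C₁ / 4) R ^ (-(D + η))`. So `R ≥ R ^ (D + η) > C₁ / 4 = 2 R₀ ≥ 2`,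
hence `n ≥ 1` and `R > R₀`. Now
* `Col R p m ≤ PD μ ((m + 1) / R) ≤ C₀ ((m + 1) / R) ^ (D - η) ≤ C₀ (2 m / R) ^ (D - η) ≤ 2 C₀ (m / R) ^ D R ^ η` for `m ≥ 1`
  (`(m / R) ^ (-η) = (R / m) ^ η ≤ R ^ η`, `2 ^ (D - η) ≤ 2`);
* `∑ l, p l * WW ≥ (1 / 9) PD (comb μ) (1 / R) ≥ (1 / 9) (C₁ / 4) R ^ (-(D + η)) ≥ (1 / 36) R ^ (-(D + η))` (`disc2a`, `disc2b`).
With `K = 72 C₀ R ^ η ≥ 2` both hypotheses of `fin_main` hold (`1 / (K R ^ D) = R ^ (-(D + η)) / (72 C₀)`), so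
`R ^ (1 - D) ≤ K ^ C = B R ^ (η C) ≤ B R ^ ((1 - D) / 2)`, `R ^ ((1 - D) / 2) ≤ B`, `R ≤ R₀`: contradiction.
-/

namespace C4N

open MeasureTheory ProbabilityTheory

theorem flat (D : ℝ) (hD0 : 0 < D) (hD1 : D < 1) :
    ∃ η : ℝ, 0 < η ∧ η ≤ D / 2 ∧ η ≤ (1 - D) / 2 ∧ ∀ μ : Measure ℝ, IsProbabilityMeasure μ →
      μ (Set.Icc (1 / 2) 1)ᶜ = 0 → Dm (D - η) μ → Dm (D + η) (comb μ) := by
  obtain ⟨C, hC1, hfin⟩ := fin_main D hD0 hD1
  have hC0' : 0 < C := by linarith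
  have h1D : 0 < 1 - D := by linarith
  obtain ⟨η, hη⟩ : ∃ η : ℝ, η = min (D / 2) ((1 - D) / (2 * C)) := ⟨_, rfl⟩
  have hη0 : 0 < η := by
    rw [hη]
    exact lt_min (by linarith) (by positivity)
  have hηD : η ≤ D / 2 := by rw [hη]; exact min_le_left _ _
  have hηC : η ≤ (1 - D) / (2 * C) := by rw [hη]; exact min_le_right _ _
  have hηC' : η * C ≤ (1 - D) / 2 := by
    calc η * C ≤ (1 - D) / (2 * C) * C := mul_le_mul_of_nonneg_right hηC hC0'.le
      _ = (1 - D) / 2 := by field_simp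
  have hη1 : η ≤ (1 - D) / 2 := by
    calc η = η * 1 := (mul_one _).symm
      _ ≤ η * C := mul_le_mul_of_nonneg_left hC1 hη0.le
      _ ≤ _ := hηC'
  refine ⟨η, hη0, hηD, hη1, fun μ hprob hμ hdm => ?_⟩
  have hDη : 0 ≤ D - η := by linarith
  obtain ⟨C₀, hC₀, hall⟩ := hdm.all hDη
  have hC₀p : 0 < C₀ := by linarith
  obtain ⟨B, hB⟩ : ∃ B : ℝ, B = (72 * C₀) ^ C := ⟨_, rfl⟩
  have hB1 : 1 ≤ B := by
    rw [hB]
    exact Real.one_le_rpow (by linarith) hC0'.le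
  obtain ⟨R₀, hR₀⟩ : ∃ R₀ : ℝ, R₀ = B ^ (2 / (1 - D)) := ⟨_, rfl⟩
  have hR₀1 : 1 ≤ R₀ := by
    rw [hR₀]
    exact Real.one_le_rpow hB1 (by positivity)
  have hcm : Measurable fun x : ℝ × ℝ × ℝ => x.1 + x.2.1 * x.2.2 := by fun_prop
  have hcp : IsProbabilityMeasure (comb μ) := Measure.isProbabilityMeasure_map hcm.aemeasurable
  refine ⟨8 * R₀, fun δ h0 h1 => ?_⟩
  by_contra hc
  rw [not_le] at hc
  change 8 * R₀ * δ ^ (D + η) < PD (comb μ) δ at hc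
  obtain ⟨n, hn1, hn2⟩ := exists_nat_pow_near_of_lt_one h0 h1 (by norm_num : (0 : ℝ) < 1 / 2)
    (by norm_num)
  obtain ⟨r, hr⟩ : ∃ r : ℝ, r = 2 ^ n := ⟨_, rfl⟩
  have hr1 : 1 ≤ r := by rw [hr]; exact one_le_pow₀ (by norm_num)
  have hr0 : 0 < r := by linarith
  have e1 : (1 / 2 : ℝ) ^ n = 1 / r := by rw [hr, one_div, inv_pow, one_div]
  have e2 : (1 / 2 : ℝ) ^ (n + 1) = 1 / (2 * r) := by
    rw [pow_succ, e1]
    field_simp
  rw [e1] at hn2
  rw [e2] at hn1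
  have hs0 : 0 < D + η := by linarith
  have hs1 : D + η ≤ 1 := by linarith
  obtain ⟨T, hT⟩ : ∃ T : ℝ, T = r ^ (D + η) := ⟨_, rfl⟩
  have hTp : 0 < T := by rw [hT]; positivity
  have hTr : T ≤ r := by
    rw [hT]
    calc r ^ (D + η) ≤ r ^ (1 : ℝ) := Real.rpow_le_rpow_of_exponent_le hr1 hs1
      _ = r := Real.rpow_one r
  have hδT : 1 / (2 * T) ≤ δ ^ (D + η) := by
    calc 1 / (2 * T) = (1 / 2) * (1 / T) := by field_simp
      _ ≤ (1 / 2 : ℝ) ^ (D + η) * (1 / T) := by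
        refine mul_le_mul_of_nonneg_right ?_ (by positivity)
        calc (1 / 2 : ℝ) = (1 / 2 : ℝ) ^ (1 : ℝ) := (Real.rpow_one _).symm
          _ ≤ (1 / 2 : ℝ) ^ (D + η) :=
            Real.rpow_le_rpow_of_exponent_ge (by norm_num) (by norm_num) hs1
      _ = (1 / (2 * r)) ^ (D + η) := by
        rw [hT, one_div (r ^ (D + η)), ← Real.inv_rpow hr0.le, ← Real.mul_rpow (by norm_num) (by positivity)]
        congr 1
        field_simp
      _ ≤ δ ^ (D + η) := Real.rpow_le_rpow (by positivity) hn1.le hs0.le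
  have hPD : 4 * R₀ / T < PD (comb μ) (1 / r) := by
    calc 4 * R₀ / T = 8 * R₀ * (1 / (2 * T)) := by field_simp; ring
      _ ≤ 8 * R₀ * δ ^ (D + η) := mul_le_mul_of_nonneg_left hδT (by positivity)
      _ < PD (comb μ) δ := hc
      _ ≤ PD (comb μ) (1 / r) := pd_mono hn2
  have hTR : 4 * R₀ < T := by
    have h2 : 4 * R₀ / T < 1 := lt_of_lt_of_le hPD (pd_le_one _)
    rwa [div_lt_one hTp] at h2
  have hrR : R₀ < r := by linarith
  have hn : 1 ≤ n := by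
    by_contra hn
    have : n = 0 := by omega
    rw [this, pow_zero] at hr
    linarith
  have hcast : (((2 ^ n : ℕ)) : ℝ) = r := by rw [hr]; push_cast; rfl
  have hWt := wt_pw hμ hn
  have hsum : 4 * R₀ / T ≤ 9 * ∑ l ∈ SS (2 ^ n), pw μ n l *
      WW (2 ^ n) ((l : ℝ) / ((2 ^ n : ℕ) : ℝ)) (pw μ n) (pw μ n) := by
    refine hPD.le.trans ?_
    have h2 := disc2a hμ hn
    rw [← hr] at h2
    exact h2.trans (disc2b hWt)
  obtain ⟨K, hK⟩ : ∃ K : ℝ, K = 72 * C₀ * r ^ η := ⟨_, rfl⟩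
  have hrη : 1 ≤ r ^ η := Real.one_le_rpow hr1 hη0.le
  have hK72 : 72 ≤ K := by
    rw [hK]
    calc (72 : ℝ) = 72 * 1 * 1 := by ring
      _ ≤ 72 * C₀ * r ^ η := by gcongr
  have hTe : T = r ^ D * r ^ η := by rw [hT, Real.rpow_add hr0]
  have hmain := hfin (2 ^ n) K (pw μ n) Nat.one_le_two_pow (by linarith) hWt ?_ ?_
  · rw [hcast] at hmain
    have h2 : K ^ C ≤ B * r ^ ((1 - D) / 2) := by
      rw [hK, Real.mul_rpow (by positivity) (by positivity), ← hB, ← Real.rpow_mul hr0.le]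
      exact mul_le_mul_of_nonneg_left (Real.rpow_le_rpow_of_exponent_le hr1 hηC') (by linarith)
    have h3 : r ^ (1 - D) = r ^ ((1 - D) / 2) * r ^ ((1 - D) / 2) := by
      rw [← Real.rpow_add hr0]
      congr 1
      ring
    have h4 : r ^ ((1 - D) / 2) ≤ B := by
      have h5 : 0 < r ^ ((1 - D) / 2) := Real.rpow_pos_of_pos hr0 _
      have h6 := hmain.trans h2
      rw [h3] at h6
      exact le_of_mul_le_mul_right h6 h5
    have h5 : r ≤ R₀ := by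
      have h6 := Real.rpow_le_rpow (by positivity) h4 (by positivity : 0 ≤ 2 / (1 - D))
      rw [← Real.rpow_mul hr0.le, ← hR₀] at h6
      have h7 : (1 - D) / 2 * (2 / (1 - D)) = 1 := by field_simp
      rwa [h7, Real.rpow_one] at h6
    linarith
  · intro m hm _
    rw [hcast]
    have hm' : (1 : ℝ) ≤ m := by exact_mod_cast hm
    have hm0 : (0 : ℝ) < m := by linarith
    have h2 : Col (2 ^ n) (pw μ n) m ≤ PD μ (((m : ℝ) + 1) / r) := by
      rw [hr]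
      exact col_pw_le n m
    refine h2.trans ((hall _ (by positivity)).trans ?_)
    have h3 : (((m : ℝ) + 1) / r) ^ (D - η) ≤ 2 * (r ^ η * ((m : ℝ) / r) ^ D) := by
      calc (((m : ℝ) + 1) / r) ^ (D - η) ≤ (2 * ((m : ℝ) / r)) ^ (D - η) := by
            refine Real.rpow_le_rpow (by positivity) ?_ hDη
            rw [← mul_div_assoc]
            exact div_le_div_of_nonneg_right (by linarith) hr0.le
        _ = 2 ^ (D - η) * ((m : ℝ) / r) ^ (D - η) :=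
            Real.mul_rpow (by norm_num) (by positivity)
        _ ≤ 2 * (r ^ η * ((m : ℝ) / r) ^ D) := by
            refine mul_le_mul ?_ ?_ (by positivity) (by norm_num)
            · calc (2 : ℝ) ^ (D - η) ≤ 2 ^ (1 : ℝ) :=
                    Real.rpow_le_rpow_of_exponent_le (by norm_num) (by linarith)
                _ = 2 := Real.rpow_one 2
            · rw [Real.rpow_sub (by positivity), div_eq_mul_inv, mul_comm]
              refine mul_le_mul_of_nonneg_right ?_ (by positivity)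
              rw [← Real.inv_rpow (by positivity), inv_div]
              refine Real.rpow_le_rpow (by positivity) ?_ hη0.le
              exact div_le_self hr0.le hm'
    calc C₀ * (((m : ℝ) + 1) / r) ^ (D - η) ≤ C₀ * (2 * (r ^ η * ((m : ℝ) / r) ^ D)) :=
          mul_le_mul_of_nonneg_left h3 hC₀p.le
      _ ≤ K * ((m : ℝ) / r) ^ D := by
          rw [hK]
          have h4 : 0 ≤ C₀ * r ^ η * ((m : ℝ) / r) ^ D := by positivity
          nlinarith
  · rw [hcast] at hsum ⊢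
    have h2 : 1 / (K * r ^ D) ≤ 4 * R₀ / T / 9 := by
      have h3 : K * r ^ D = 72 * C₀ * T := by rw [hK, hTe]; ring
      rw [h3, div_div, div_le_div_iff₀ (by positivity) (by positivity)]
      have h4 : T * 9 ≤ 4 * 1 * (72 * 1 * T) := by nlinarith
      refine le_trans (by linarith) (h4.trans ?_)
      gcongr
    refine h2.trans ?_
    rw [div_le_iff₀ (by norm_num : (0 : ℝ) < 9), mul_comm _ (9 : ℝ)]
    exact hsum

end C4N
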