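import Mathlib
import Pool.Agent.Work.MP_c4bd3e_lc.N.MDefs
import Pool.Agent.Work.MP_c4bd3e_lc.N.CDefs
import Pool.Agent.Work.MP_c4bd3e_lc.N.FullA

set_option autoImplicit false

/-!
# Module FlawA (size S-M): operations on the laws

`prob`: `Measure.isProbabilityMeasure_map`, products of probability measures. `bdd`: `|x + y z| ≤ M + M ^ 2` almost surely
(`Measure.quasiMeasurePreserving_fst`, `..snd`, `ae_map_iff`). `full`: `Full.prod`, `Full.map`, `F` is closed under `+`, `*`.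
`Measure.conv μ ν` is the image of `μ.prod ν` under `x.1 + x.2` (by definition).
-/

namespace C4N

open MeasureTheory ProbabilityTheory

variable {F : Subfield ℝ} {μ ν : Measure ℝ}

private theorem fl_ae (h : FLaw F μ) : ∃ M : ℝ, 0 ≤ M ∧ ∀ᵐ x ∂μ, |x| ≤ M := by
  obtain ⟨M, hM⟩ := h.bdd
  exact ⟨|M|, abs_nonneg M, hM.mono fun x hx => hx.trans (le_abs_self M)⟩

private theorem flaw_map2 (h : FLaw F μ) (h' : FLaw F ν) {f : ℝ × ℝ → ℝ} (hf : Measurable f)
    (hF : ∀ x ∈ F, ∀ y ∈ F, f (x, y) ∈ F)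
    (hb : ∀ M N : ℝ, 0 ≤ M → 0 ≤ N → ∃ K : ℝ, ∀ x y : ℝ, |x| ≤ M → |y| ≤ N → |f (x, y)| ≤ K) :
    FLaw F ((μ.prod ν).map f) := by
  have := h.prob
  have := h'.prob
  obtain ⟨M, hM0, hM⟩ := fl_ae h
  obtain ⟨N, hN0, hN⟩ := fl_ae h'
  obtain ⟨K, hK⟩ := hb M N hM0 hN0
  refine ⟨Measure.isProbabilityMeasure_map hf.aemeasurable, ⟨K, ?_⟩, ?_⟩
  · have hs : MeasurableSet {x : ℝ | |x| ≤ K} := measurableSet_le (by fun_prop) (by fun_prop)
    refine (ae_map_iff hf.aemeasurable hs).2 ?_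
    have h1 := (Measure.quasiMeasurePreserving_fst (μ := μ) (ν := ν)).ae hM
    have h2 := (Measure.quasiMeasurePreserving_snd (μ := μ) (ν := ν)).ae hN
    filter_upwards [h1, h2] with x hx hy
    exact hK x.1 x.2 hx hy
  · exact Full.map (Full.prod h.full h'.full) hf fun x hx => hF x.1 hx.1 x.2 hx.2

private theorem flaw_map1 (h : FLaw F μ) {f : ℝ → ℝ} (hf : Measurable f)
    (hF : ∀ x ∈ F, f x ∈ F)
    (hb : ∀ M : ℝ, 0 ≤ M → ∃ K : ℝ, ∀ x : ℝ, |x| ≤ M → |f x| ≤ K) : FLaw F (μ.map f) := by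
  have := h.prob
  obtain ⟨M, hM0, hM⟩ := fl_ae h
  obtain ⟨K, hK⟩ := hb M hM0
  refine ⟨Measure.isProbabilityMeasure_map hf.aemeasurable, ⟨K, ?_⟩, ?_⟩
  · have hs : MeasurableSet {x : ℝ | |x| ≤ K} := measurableSet_le (by fun_prop) (by fun_prop)
    refine (ae_map_iff hf.aemeasurable hs).2 ?_
    filter_upwards [hM] with x hx
    exact hK x hx
  · exact Full.map h.full hf hF

theorem flaw_prodLaw (h : FLaw F μ) : FLaw F (prodLaw μ) := by
  refine flaw_map2 h h (by fun_prop) (fun x hx y hy => F.mul_mem hx hy) fun M N hM hN =>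
    ⟨M * N, fun x y hx hy => ?_⟩
  rw [abs_mul]
  exact mul_le_mul hx hy (abs_nonneg y) hM

theorem flaw_comb (h : FLaw F μ) : FLaw F (comb μ) := by
  have hp := h.prob
  have h1 : comb μ = (μ.prod (prodLaw μ)).map fun x : ℝ × ℝ => x.1 + x.2 := by
    have h2 : μ.prod (prodLaw μ) = (μ.prod (μ.prod μ)).map
        (Prod.map id fun x : ℝ × ℝ => x.1 * x.2) := by
      have h3 := Measure.map_prod_map μ (μ.prod μ) (f := id)
        (g := fun x : ℝ × ℝ => x.1 * x.2) measurable_id (by fun_prop)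
      rw [Measure.map_id] at h3
      exact h3
    rw [h2, Measure.map_map (by fun_prop) (by fun_prop)]
    rfl
  rw [h1]
  refine flaw_map2 h (flaw_prodLaw h) (by fun_prop) (fun x hx y hy => F.add_mem hx hy)
    fun M N hM hN => ⟨M + N, fun x y hx hy => ?_⟩
  exact (abs_add_le x y).trans (add_le_add hx hy)

theorem flaw_affine (h : FLaw F μ) {a b : ℝ} (ha : a ∈ F) (hb : b ∈ F) :
    FLaw F (μ.map fun x => a + b * x) := by
  refine flaw_map1 h (by fun_prop) (fun x hx => F.add_mem ha (F.mul_mem hb hx)) fun M hM =>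
    ⟨|a| + |b| * M, fun x hx => ?_⟩
  refine (abs_add_le _ _).trans (add_le_add le_rfl ?_)
  rw [abs_mul]
  exact mul_le_mul_of_nonneg_left hx (abs_nonneg b)

theorem flaw_conv (h : FLaw F μ) (h' : FLaw F ν) : FLaw F (μ.conv ν) := by
  refine flaw_map2 h h' (by fun_prop) (fun x hx y hy => F.add_mem hx hy)
    fun M N hM hN => ⟨M + N, fun x y hx hy => ?_⟩
  exact (abs_add_le x y).trans (add_le_add hx hy)

theorem flaw_four (h : FLaw F μ) : FLaw F (four μ) :=
  flaw_conv (flaw_conv (flaw_prodLaw h) (flaw_prodLaw h))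
    (flaw_conv (flaw_prodLaw h) (flaw_prodLaw h))

end C4N
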