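import Mathlib
import Pool.Agent.Work.MP_c4bd3e_lc.N.MDefs
import Pool.Agent.Work.MP_c4bd3e_lc.N.CDefs
import Pool.Agent.Work.MP_c4bd3e_lc.N.FullA
import Pool.Agent.Work.MP_c4bd3e_lc.N.FlawA
import Pool.Agent.Work.MP_c4bd3e_lc.N.DmA

set_option autoImplicit false

/-!
# Module FlawN (size S): normalisation of a law to `[1/2, 1]`

Take a natural number `M ≥ 1` with `|x| ≤ M` almost surely and `ν = μ.map (fun x => 3/4 + (1/(4 M)) * x)`: `flaw_affine`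
(rational numbers are in `F`), `Dm.affine`, and `|x / (4 M)| ≤ 1/4`.
-/

namespace C4N

open MeasureTheory ProbabilityTheory

theorem flaw_norm {F : Subfield ℝ} {μ : Measure ℝ} (h : FLaw F μ) :
    ∃ ν : Measure ℝ, FLaw F ν ∧ ν (Set.Icc (1 / 2) 1)ᶜ = 0 ∧ ∀ d : ℝ, 0 ≤ d → Dm d μ → Dm d ν := by
  have hprob := h.prob
  obtain ⟨M₀, hM₀⟩ := h.bdd
  obtain ⟨m, hm⟩ := exists_nat_ge M₀
  have hM : (0 : ℝ) < 4 * ((m : ℝ) + 1) := by positivity
  have h1 : (3 / 4 : ℝ) ∈ F := by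
    have e : (3 / 4 : ℝ) = ((3 : ℕ) : ℝ) / ((4 : ℕ) : ℝ) := by norm_num
    rw [e]
    exact F.div_mem (natCast_mem F 3) (natCast_mem F 4)
  have h2 : (1 / (4 * ((m : ℝ) + 1)) : ℝ) ∈ F := by
    have e : (1 / (4 * ((m : ℝ) + 1)) : ℝ) = 1 / ((4 * (m + 1) : ℕ) : ℝ) := by push_cast; ring
    rw [e]
    exact F.div_mem F.one_mem (natCast_mem F _)
  refine ⟨μ.map fun x => 3 / 4 + 1 / (4 * ((m : ℝ) + 1)) * x, flaw_affine h h1 h2, ?_,
    fun d hd hdm => hdm.affine hd _ (by positivity)⟩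
  have hf : Measurable fun x : ℝ => 3 / 4 + 1 / (4 * ((m : ℝ) + 1)) * x := by fun_prop
  rw [Measure.map_apply hf measurableSet_Icc.compl]
  refine measure_mono_null ?_ (ae_iff.1 hM₀)
  intro x hx hx2
  apply hx
  have h3 : |1 / (4 * ((m : ℝ) + 1)) * x| ≤ 1 / 4 := by
    rw [abs_mul, abs_of_pos (by positivity : (0 : ℝ) < 1 / (4 * ((m : ℝ) + 1))), one_div,
      inv_mul_le_iff₀ hM]
    linarith
  have h4 := abs_le.1 h3
  constructor
  · show (1 / 2 : ℝ) ≤ 3 / 4 + 1 / (4 * ((m : ℝ) + 1)) * x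
    linarith
  · show 3 / 4 + 1 / (4 * ((m : ℝ) + 1)) * x ≤ (1 : ℝ)
    linarith

end C4N
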