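import Mathlib
import Pool.Agent.Work.MP_c4bd3e_lc.N.MDefs
import Pool.Agent.Work.MP_c4bd3e_lc.N.CDefs
import Pool.Agent.Work.MP_c4bd3e_lc.N.FlawA
import Pool.Agent.Work.MP_c4bd3e_lc.N.FlawN
import Pool.Agent.Work.MP_c4bd3e_lc.N.DmA
import Pool.Agent.Work.MP_c4bd3e_lc.N.Flat

set_option autoImplicit false

/-!
# Module DimOne (size S-M): laws of dimension near one

`S = {d | 0 < d ∧ d < 1 ∧ ∃ ν, FLaw F ν ∧ Dm d ν}` contains `min α (1/2)` (`Dm.mono`) and is bounded by 1; `D = sSup S`,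
`0 < D ≤ 1`. If `d < D`, some element of `S` is larger than `d`: done by `Dm.mono`. Otherwise `D ≤ d < 1`; take `η` of `flat D`;
some `d' ∈ S` with `d' > D - η`, with law `ν₀`; `flaw_norm` gives `ν₁` on `[1/2, 1]` with `Dm d' ν₁`, so `Dm (D - η) ν₁`;
`comb ν₁` is an `FLaw` (`flaw_comb`) with `Dm (D + η)`, and `D + η ≤ (1 + D) / 2 < 1`, so `D + η ∈ S`: contradiction.
-/

namespace C4N

open MeasureTheory ProbabilityTheory

theorem dim_one {F : Subfield ℝ} {μ : Measure ℝ} (h : FLaw F μ) {α : ℝ} (hα : 0 < α) (hd : Dm α μ)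
    {d : ℝ} (hd1 : d < 1) : ∃ ν : Measure ℝ, FLaw F ν ∧ Dm d ν := by
  set S : Set ℝ := {x | 0 < x ∧ x < 1 ∧ ∃ ν : Measure ℝ, FLaw F ν ∧ Dm x ν} with hS
  have hα2 : (0 : ℝ) < min α (1 / 2) := lt_min hα (by norm_num)
  have h0 : min α (1 / 2) ∈ S :=
    ⟨hα2, (min_le_right _ _).trans_lt (by norm_num), μ, h, hd.mono (min_le_left _ _)⟩
  have hb : BddAbove S := ⟨1, fun x hx => hx.2.1.le⟩
  have hne : S.Nonempty := ⟨_, h0⟩
  have hD0 : 0 < sSup S := hα2.trans_le (le_csSup hb h0)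
  by_cases h1 : d < sSup S
  · obtain ⟨d', hd', hlt⟩ := exists_lt_of_lt_csSup hne h1
    obtain ⟨-, -, ν, hν, hdν⟩ := hd'
    exact ⟨ν, hν, hdν.mono hlt.le⟩
  · exfalso
    rw [not_lt] at h1
    have hD1 : sSup S < 1 := h1.trans_lt hd1
    obtain ⟨η, hη0, hη1, hη2, hfl⟩ := flat (sSup S) hD0 hD1
    obtain ⟨d', hd', hlt⟩ := exists_lt_of_lt_csSup hne (show sSup S - η < sSup S by linarith)
    obtain ⟨hd0, -, ν, hν, hdν⟩ := hd'
    obtain ⟨ν₁, hν1, hsupp, hdim⟩ := flaw_norm hν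
    have h2 : Dm (sSup S - η) ν₁ := (hdim d' hd0.le hdν).mono hlt.le
    have h3 : Dm (sSup S + η) (comb ν₁) := hfl ν₁ hν1.prob hsupp h2
    have h4 : sSup S + η ∈ S :=
      ⟨by linarith, by linarith, comb ν₁, flaw_comb hν1, h3⟩
    have h5 := le_csSup hb h4
    linarith

end C4N
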