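import Mathlib
import Pool.Agent.Work.MP_c4bd3e_lc.N.MDefs
import Pool.Agent.Work.MP_c4bd3e_lc.N.CDefs

set_option autoImplicit false

/-!
# Module F2a (size S-M): the characteristic function of a product

`charFun (prodLaw μ) t = ∫ x, ∫ y, exp (i t x y) = ∫ y, charFun μ (t y) ∂μ` (`charFun_apply_real`, `integral_map`,
`integral_prod`, `integral_integral_swap`; everything is bounded and `μ` is a probability measure), and
`‖∫ f ∂μ‖ₑ ^ 2 ≤ (∫⁻ ‖f‖ₑ ∂μ) ^ 2 ≤ ∫⁻ ‖f‖ₑ ^ 2 ∂μ` (`enorm_integral_le_lintegral_enorm`; `sq_lintegral_le` by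
`ENNReal.lintegral_mul_le_Lp_mul_Lq` with `p = q = 2` and the function 1).
-/

namespace C4N

open MeasureTheory ProbabilityTheory

theorem sq_lintegral_le {Ω : Type*} [MeasurableSpace Ω] (μ : Measure Ω) [IsProbabilityMeasure μ]
    {f : Ω → ENNReal} (hf : AEMeasurable f μ) : (∫⁻ x, f x ∂μ) ^ 2 ≤ ∫⁻ x, f x ^ 2 ∂μ := by
  have h := ENNReal.lintegral_mul_le_Lp_mul_Lq μ (p := 2) (q := 2)
    (Real.holderConjugate_iff.2 ⟨by norm_num, by norm_num⟩) hf
    (aemeasurable_const (b := (1 : ENNReal)))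
  simp only [Pi.mul_apply, mul_one, one_pow, ENNReal.one_rpow, lintegral_const, measure_univ,
    ENNReal.rpow_ofNat] at h
  calc (∫⁻ x, f x ∂μ) ^ 2 ≤ ((∫⁻ x, f x ^ 2 ∂μ) ^ (1 / 2 : ℝ)) ^ 2 := by gcongr
    _ = ∫⁻ x, f x ^ 2 ∂μ := by
        rw [← ENNReal.rpow_ofNat, ← ENNReal.rpow_mul]
        norm_num

theorem sq_charFun_prodLaw_le (μ : Measure ℝ) [IsProbabilityMeasure μ] (t : ℝ) :
    ‖charFun (prodLaw μ) t‖ₑ ^ 2 ≤ ∫⁻ y, ‖charFun μ (t * y)‖ₑ ^ 2 ∂μ := by
  have h1 : charFun (prodLaw μ) t = ∫ y, charFun μ (t * y) ∂μ := by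
    rw [charFun_apply_real, prodLaw, integral_map]
    · rw [integral_prod_symm]
      · refine integral_congr_ae (Filter.Eventually.of_forall fun y => ?_)
        simp only
        rw [charFun_apply_real]
        refine integral_congr_ae (Filter.Eventually.of_forall fun x => ?_)
        simp only
        push_cast
        congr 1
        ring
      · refine Integrable.of_bound (C := 1) ?_ (Filter.Eventually.of_forall fun p => ?_)
        · exact (by fun_prop : Measurable fun p : ℝ × ℝ =>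
            Complex.exp (t * ((p.1 * p.2 : ℝ) : ℂ) * Complex.I)).aestronglyMeasurable
        · rw [← Complex.ofReal_mul, Complex.norm_exp_ofReal_mul_I]
    · fun_prop
    · fun_prop
  rw [h1]
  have h2 : Measurable fun y => ‖charFun μ (t * y)‖ₑ :=
    (measurable_charFun.comp (measurable_const_mul t)).enorm
  refine le_trans ?_ (sq_lintegral_le μ h2.aemeasurable)
  gcongr
  exact enorm_integral_le_lintegral_enorm _

end C4N
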