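import Mathlib
import Pool.Agent.Work.MP_c4bd3e_lc.N.MDefs
import Pool.Agent.Work.MP_c4bd3e_lc.N.CDefs
import Pool.Agent.Work.MP_c4bd3e_lc.N.F2a

set_option autoImplicit false

/-!
# Module F2b (size M): gaussian smoothing of a characteristic function

`g = wt μ` is a finite measure (`exp (x ^ 2 / 2) ≤ exp (1/2)` almost everywhere) and `μ` has the density `exp (-x ^ 2 / 2)` with
respect to `g`. With `γ = gaussianReal 0 1`, `exp (-x ^ 2 / 2) = charFun γ x = ∫ u, exp (i u x) ∂γ`. So
`charFun μ ξ = ∫ x, exp (i ξ x) exp (-x ^ 2 / 2) ∂g = ∫ u, charFun g (ξ + u) ∂γ` (swap of bounded integrals), and the claim follows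
as in `sq_lintegral_le`.
-/

namespace C4N

open MeasureTheory ProbabilityTheory

theorem isFinite_wt {μ : Measure ℝ} [IsProbabilityMeasure μ] (hμ : ∀ᵐ x ∂μ, |x| ≤ 1) :
    IsFiniteMeasure (wt μ) := by
  refine isFiniteMeasure_withDensity (ne_of_lt ?_)
  calc ∫⁻ x, ENNReal.ofReal (Real.exp (x ^ 2 / 2)) ∂μ ≤
        ∫⁻ _x, ENNReal.ofReal (Real.exp (1 / 2)) ∂μ := by
        refine lintegral_mono_ae ?_
        filter_upwards [hμ] with x hx
        refine ENNReal.ofReal_le_ofReal (Real.exp_le_exp.2 ?_)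
        have h1 : x ^ 2 ≤ 1 := by
          rw [← sq_abs]
          nlinarith [abs_nonneg x]
        linarith
    _ = ENNReal.ofReal (Real.exp (1 / 2)) := by rw [lintegral_const, measure_univ, mul_one]
    _ < ⊤ := ENNReal.ofReal_lt_top

private theorem gauss_int (x : ℝ) :
    ∫ u : ℝ, Complex.exp ((x : ℂ) * u * Complex.I) ∂(gaussianReal 0 1) =
      Complex.exp (-((x : ℂ) ^ 2 / 2)) := by
  have h := charFun_gaussianReal (μ := 0) (v := 1) x
  rw [charFun_apply_real] at h
  rw [h]
  congr 1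
  push_cast
  ring

theorem sq_charFun_le {μ : Measure ℝ} [IsProbabilityMeasure μ] (hμ : ∀ᵐ x ∂μ, |x| ≤ 1) (ξ : ℝ) :
    ‖charFun μ ξ‖ₑ ^ 2 ≤ ∫⁻ u, ‖charFun (wt μ) (ξ + u)‖ₑ ^ 2 ∂(gaussianReal 0 1) := by
  have hfin := isFinite_wt hμ
  have h1 : charFun μ ξ = ∫ u, charFun (wt μ) (ξ + u) ∂(gaussianReal 0 1) := by
    have e1 : ∫ u, charFun (wt μ) (ξ + u) ∂(gaussianReal 0 1) =
        ∫ u, ∫ x, Complex.exp (((ξ + u : ℝ) : ℂ) * x * Complex.I) ∂(wt μ) ∂(gaussianReal 0 1) := by
      simp only [charFun_apply_real]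
    have hint : Integrable (Function.uncurry fun (u x : ℝ) =>
        Complex.exp (((ξ + u : ℝ) : ℂ) * x * Complex.I)) ((gaussianReal 0 1).prod (wt μ)) := by
      refine Integrable.of_bound (C := 1) ?_ (Filter.Eventually.of_forall fun p => ?_)
      · exact (by fun_prop : Measurable fun p : ℝ × ℝ =>
          Complex.exp (((ξ + p.1 : ℝ) : ℂ) * p.2 * Complex.I)).aestronglyMeasurable
      · show ‖Complex.exp (((ξ + p.1 : ℝ) : ℂ) * p.2 * Complex.I)‖ ≤ 1
        rw [← Complex.ofReal_mul, Complex.norm_exp_ofReal_mul_I]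
    rw [e1, integral_integral_swap hint]
    have e2 : ∀ x : ℝ, ∫ u, Complex.exp (((ξ + u : ℝ) : ℂ) * x * Complex.I)
        ∂(gaussianReal 0 1) = Complex.exp (ξ * x * Complex.I) * Complex.exp (-((x : ℂ) ^ 2 / 2)) := by
      intro x
      rw [← gauss_int x, ← integral_const_mul]
      refine integral_congr_ae (Filter.Eventually.of_forall fun u => ?_)
      simp only
      rw [← Complex.exp_add]
      congr 1
      push_cast
      ring
    simp only [e2]
    rw [wt, integral_withDensity_eq_integral_toReal_smul (by fun_prop)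
      (Filter.Eventually.of_forall fun x => ENNReal.ofReal_lt_top), charFun_apply_real]
    refine integral_congr_ae (Filter.Eventually.of_forall fun x => ?_)
    simp only
    rw [ENNReal.toReal_ofReal (Real.exp_pos _).le, Complex.real_smul, Complex.ofReal_exp,
      mul_left_comm, ← Complex.exp_add]
    push_cast
    rw [add_neg_cancel, Complex.exp_zero, mul_one]
  rw [h1]
  have h2 : Measurable fun u => ‖charFun (wt μ) (ξ + u)‖ₑ :=
    (measurable_charFun.comp (measurable_const_add ξ)).enorm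
  refine le_trans ?_ (sq_lintegral_le _ h2.aemeasurable)
  gcongr
  exact enorm_integral_le_lintegral_enorm _

end C4N
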