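import Mathlib
import Pool.Agent.Work.MP_c4bd3e_lc.N.MDefs

set_option autoImplicit false

/-!
# Module F2c (size S): a change of the order of integration

`gaussianReal 0 1 = volume.withDensity (gaussianPDF 0 1)` (`gaussianReal_of_var_ne_zero`), `lintegral_withDensity_eq_lintegral_mul`,
translation invariance `lintegral_sub_right_eq_self` / `lintegral_add_left_eq_self` (`u = v - t y`), and Tonelli
(`lintegral_lintegral_swap`).
-/

namespace C4N

open MeasureTheory ProbabilityTheory

theorem tonelli_step (μ : Measure ℝ) [IsProbabilityMeasure μ] {G : ℝ → ENNReal} (hG : Measurable G)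
    (t : ℝ) :
    ∫⁻ y, ∫⁻ u, G (t * y + u) ∂(gaussianReal 0 1) ∂μ =
      ∫⁻ v, G v * ∫⁻ y, gaussianPDF 0 1 (v - t * y) ∂μ := by
  have hp : Measurable (gaussianPDF 0 1) := measurable_gaussianPDF 0 1
  have h1 : ∀ y : ℝ, ∫⁻ u, G (t * y + u) ∂(gaussianReal 0 1) =
      ∫⁻ v, gaussianPDF 0 1 (v - t * y) * G v := by
    intro y
    rw [gaussianReal_of_var_ne_zero 0 one_ne_zero,
      lintegral_withDensity_eq_lintegral_mul _ hp (by fun_prop)]
    rw [← lintegral_sub_right_eq_self (fun u => (gaussianPDF 0 1 * fun u => G (t * y + u)) u) (t * y)]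
    refine lintegral_congr fun v => ?_
    show gaussianPDF 0 1 (v - t * y) * G (t * y + (v - t * y)) = _
    rw [add_sub_cancel]
  rw [lintegral_congr h1, lintegral_lintegral_swap]
  · refine lintegral_congr fun v => ?_
    rw [lintegral_mul_const _ (by fun_prop), mul_comm]
  · refine Measurable.aemeasurable ?_
    unfold Function.uncurry
    fun_prop

end C4N
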