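import Mathlib
import Pool.Agent.Work.MP_c4bd3e_lc.N.MDefs

set_option autoImplicit false

/-!
# Module Exp1 (size S-M): a gaussian sum over shells

`exp (-(t x) ^ 2 / 4) ≤ ∑' k : ℕ, exp (-k ^ 2 / 4) * 1 {|x| ≤ (k + 1) / |t|}` (take `k = ⌊|t x|⌋`), so the integral is at most
`∑' k, exp (-k ^ 2 / 4) C ((k + 1) / |t|) ^ d ≤ C |t| ^ (-d) ∑' k, (k + 1) exp (-k ^ 2 / 4)` (`(k + 1) ^ d ≤ k + 1`), and the series
converges: `K` is its sum (`lintegral_tsum`; summability e.g. from `exp (-k ^ 2 / 4) ≤ exp (-k / 4) * exp (1/4)`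
or `k ^ 2 ≥ k`, `Real.summable_pow_mul_exp_neg_nat_mul`).
-/

namespace C4N

open MeasureTheory ProbabilityTheory

private theorem summable_aux : Summable fun k : ℕ => ((k : ℝ) + 1) * Real.exp (-(k : ℝ) ^ 2 / 4) := by
  have h0 : Summable fun k : ℕ => (k : ℝ) ^ 1 * Real.exp (-(1 / 4 : ℝ) * k) :=
    Real.summable_pow_mul_exp_neg_nat_mul 1 (by norm_num)
  have h1 : Summable fun k : ℕ => (k : ℝ) ^ 0 * Real.exp (-(1 / 4 : ℝ) * k) :=
    Real.summable_pow_mul_exp_neg_nat_mul 0 (by norm_num)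
  refine Summable.of_nonneg_of_le (fun k => by positivity) (fun k => ?_) (h0.add h1)
  have h2 : (k : ℝ) ≤ (k : ℝ) ^ 2 := by
    have : k ≤ k ^ 2 := Nat.le_self_pow (by norm_num) k
    exact_mod_cast this
  have h3 : Real.exp (-(k : ℝ) ^ 2 / 4) ≤ Real.exp (-(1 / 4 : ℝ) * k) := by
    apply Real.exp_le_exp.2
    linarith
  calc ((k : ℝ) + 1) * Real.exp (-(k : ℝ) ^ 2 / 4) ≤ ((k : ℝ) + 1) * Real.exp (-(1 / 4 : ℝ) * k) :=
        mul_le_mul_of_nonneg_left h3 (by positivity)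
    _ = (k : ℝ) ^ 1 * Real.exp (-(1 / 4 : ℝ) * k) + (k : ℝ) ^ 0 * Real.exp (-(1 / 4 : ℝ) * k) := by ring

theorem exp_bound : ∃ K : ℝ, 0 < K ∧ ∀ (m : Measure ℝ) (C d : ℝ), 0 ≤ C → 0 ≤ d → d ≤ 1 →
    (∀ r : ℝ, 0 < r → m {x | |x| ≤ r} ≤ ENNReal.ofReal (C * r ^ d)) → ∀ t : ℝ, t ≠ 0 →
      ∫⁻ x, ENNReal.ofReal (Real.exp (-(t * x) ^ 2 / 4)) ∂m ≤ ENNReal.ofReal (K * C * |t| ^ (-d)) := by
  have hs := summable_aux
  refine ⟨∑' k : ℕ, ((k : ℝ) + 1) * Real.exp (-(k : ℝ) ^ 2 / 4),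
    hs.tsum_pos (fun k => by positivity) 0 (by positivity), ?_⟩
  intro m C d hC hd0 hd1 hm t ht
  have ht0 : 0 < |t| := abs_pos.2 ht
  have h1 : ∀ x : ℝ, ENNReal.ofReal (Real.exp (-(t * x) ^ 2 / 4)) ≤
      ∑' k : ℕ, Set.indicator {x : ℝ | |x| ≤ ((k : ℝ) + 1) / |t|}
        (fun _ => ENNReal.ofReal (Real.exp (-(k : ℝ) ^ 2 / 4))) x := by
    intro x
    obtain ⟨k, hk⟩ : ∃ k : ℕ, k = ⌊|t * x|⌋₊ := ⟨_, rfl⟩
    have h2 : (k : ℝ) ≤ |t * x| := hk ▸ Nat.floor_le (abs_nonneg _)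
    have h3 : |t * x| < (k : ℝ) + 1 := hk ▸ Nat.lt_floor_add_one _
    have h4 : x ∈ {x : ℝ | |x| ≤ ((k : ℝ) + 1) / |t|} := by
      rw [Set.mem_setOf_eq, le_div_iff₀ ht0, ← abs_mul, mul_comm x t]
      exact h3.le
    refine le_trans ?_ (ENNReal.le_tsum k)
    rw [Set.indicator_of_mem h4]
    refine ENNReal.ofReal_le_ofReal (Real.exp_le_exp.2 ?_)
    have h5 : (k : ℝ) ^ 2 ≤ (t * x) ^ 2 := by
      rw [← sq_abs (t * x)]
      exact pow_le_pow_left₀ (Nat.cast_nonneg _) h2 2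
    linarith
  have hmeas : ∀ k : ℕ, MeasurableSet {x : ℝ | |x| ≤ ((k : ℝ) + 1) / |t|} := fun k =>
    measurableSet_le (by fun_prop) (by fun_prop)
  calc ∫⁻ x, ENNReal.ofReal (Real.exp (-(t * x) ^ 2 / 4)) ∂m ≤
      ∫⁻ x, ∑' k : ℕ, Set.indicator {x : ℝ | |x| ≤ ((k : ℝ) + 1) / |t|}
        (fun _ => ENNReal.ofReal (Real.exp (-(k : ℝ) ^ 2 / 4))) x ∂m := lintegral_mono h1
    _ = ∑' k : ℕ, ENNReal.ofReal (Real.exp (-(k : ℝ) ^ 2 / 4)) *
          m {x : ℝ | |x| ≤ ((k : ℝ) + 1) / |t|} := by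
        rw [lintegral_tsum fun k => (measurable_const.indicator (hmeas k)).aemeasurable]
        refine tsum_congr fun k => ?_
        rw [lintegral_indicator_const (hmeas k)]
    _ ≤ ∑' k : ℕ, ENNReal.ofReal (C * |t| ^ (-d) * (((k : ℝ) + 1) * Real.exp (-(k : ℝ) ^ 2 / 4))) := by
        refine ENNReal.tsum_le_tsum fun k => ?_
        calc ENNReal.ofReal (Real.exp (-(k : ℝ) ^ 2 / 4)) * m {x : ℝ | |x| ≤ ((k : ℝ) + 1) / |t|} ≤
            ENNReal.ofReal (Real.exp (-(k : ℝ) ^ 2 / 4)) *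
              ENNReal.ofReal (C * (((k : ℝ) + 1) / |t|) ^ d) :=
              mul_le_mul_right (hm _ (by positivity)) _
          _ = ENNReal.ofReal (Real.exp (-(k : ℝ) ^ 2 / 4) * (C * (((k : ℝ) + 1) / |t|) ^ d)) :=
              (ENNReal.ofReal_mul (Real.exp_pos _).le).symm
          _ ≤ _ := by
              refine ENNReal.ofReal_le_ofReal ?_
              have h6 : (((k : ℝ) + 1) / |t|) ^ d = ((k : ℝ) + 1) ^ d * |t| ^ (-d) := by
                rw [Real.div_rpow (by positivity) ht0.le, Real.rpow_neg ht0.le]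
                rfl
              have h7 : ((k : ℝ) + 1) ^ d ≤ (k : ℝ) + 1 := by
                calc ((k : ℝ) + 1) ^ d ≤ ((k : ℝ) + 1) ^ (1 : ℝ) :=
                      Real.rpow_le_rpow_of_exponent_le (by linarith [Nat.cast_nonneg (α := ℝ) k]) hd1
                  _ = (k : ℝ) + 1 := Real.rpow_one _
              rw [h6]
              calc Real.exp (-(k : ℝ) ^ 2 / 4) * (C * (((k : ℝ) + 1) ^ d * |t| ^ (-d))) =
                  (C * |t| ^ (-d) * Real.exp (-(k : ℝ) ^ 2 / 4)) * ((k : ℝ) + 1) ^ d := by ring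
                _ ≤ (C * |t| ^ (-d) * Real.exp (-(k : ℝ) ^ 2 / 4)) * ((k : ℝ) + 1) :=
                    mul_le_mul_of_nonneg_left h7 (by positivity)
                _ = _ := by ring
    _ = ENNReal.ofReal (∑' k : ℕ, C * |t| ^ (-d) * (((k : ℝ) + 1) * Real.exp (-(k : ℝ) ^ 2 / 4))) :=
        (ENNReal.ofReal_tsum_of_nonneg (fun k => by positivity) (hs.mul_left _)).symm
    _ = _ := by
        rw [tsum_mul_left]
        congr 1
        ring

end C4N
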