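import Mathlib
import Pool.Agent.Work.MP_c4bd3e_lc.N.MDefs
import Pool.Agent.Work.MP_c4bd3e_lc.N.Exp1

set_option autoImplicit false

/-!
# Module F2d (size S-M): the kernel

`gaussianPDFReal 0 1 z = (√(2 π))⁻¹ exp (-z ^ 2 / 2) ≤ exp (-z ^ 2 / 4) * exp (-z ^ 2 / 4)`. With `z = v - t y`, `|y| ≤ 1 ≤ |t|`:
`exp (-z ^ 2 / 4) ≤ 2 exp (-v ^ 2 / (16 t ^ 2))`: if `|v| ≤ 2 |t|` the right side is at least `2 exp (-1/4) > 1`; if `|v| > 2 |t|` then
`|z| ≥ |v| - |t| ≥ |v| / 2`, so `z ^ 2 / 4 ≥ v ^ 2 / 16 ≥ v ^ 2 / (16 t ^ 2)`. The other factor is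
`exp (-(t (y - v / t)) ^ 2 / 4)`, to which `exp_bound` applies (`m = μ.map (fun y => y - v / t)`, `d = e`).
-/

namespace C4N

open MeasureTheory ProbabilityTheory

private theorem exp_step {t v y : ℝ} (ht : 1 ≤ |t|) (hy : |y| ≤ 1) :
    Real.exp (-(v - t * y) ^ 2 / 4) ≤ 2 * Real.exp (-v ^ 2 / (16 * t ^ 2)) := by
  have ht2 : 1 ≤ t ^ 2 := by
    rw [← sq_abs]
    exact one_le_pow₀ ht
  rcases le_or_gt |v| (2 * |t|) with h | h
  · have h1 : v ^ 2 ≤ 4 * t ^ 2 := by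
      rw [← sq_abs v, ← sq_abs t]
      nlinarith [abs_nonneg v, abs_nonneg t]
    have h2 : v ^ 2 / (16 * t ^ 2) ≤ 1 / 4 := by
      rw [div_le_div_iff₀ (by positivity) (by norm_num)]
      linarith
    have h3 : Real.exp (-(v - t * y) ^ 2 / 4) ≤ 1 := by
      rw [Real.exp_le_one_iff]
      have := sq_nonneg (v - t * y)
      linarith
    have h4 : -v ^ 2 / (16 * t ^ 2) = -(v ^ 2 / (16 * t ^ 2)) := by ring
    have h5 := Real.add_one_le_exp (-(v ^ 2 / (16 * t ^ 2)))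
    rw [h4]
    linarith
  · have h1 : |v| / 2 ≤ |v - t * y| := by
      have h2 : |v| - |t * y| ≤ |v - t * y| := abs_sub_abs_le_abs_sub _ _
      have h3 : |t * y| ≤ |t| := by
        rw [abs_mul]
        exact mul_le_of_le_one_right (abs_nonneg _) hy
      linarith
    have h2 : v ^ 2 / 4 ≤ (v - t * y) ^ 2 := by
      rw [← sq_abs v, ← sq_abs (v - t * y)]
      have h3 := abs_nonneg v
      nlinarith
    have h3 : v ^ 2 / (16 * t ^ 2) ≤ (v - t * y) ^ 2 / 4 := by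
      calc v ^ 2 / (16 * t ^ 2) ≤ v ^ 2 / 16 := by
            refine div_le_div_of_nonneg_left (sq_nonneg v) (by norm_num) ?_
            linarith
        _ ≤ (v - t * y) ^ 2 / 4 := by linarith
    have h4 : Real.exp (-(v - t * y) ^ 2 / 4) ≤ Real.exp (-v ^ 2 / (16 * t ^ 2)) := by
      refine Real.exp_le_exp.2 ?_
      have e1 : -v ^ 2 / (16 * t ^ 2) = -(v ^ 2 / (16 * t ^ 2)) := by ring
      have e2 : -(v - t * y) ^ 2 / 4 = -((v - t * y) ^ 2 / 4) := by ring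
      rw [e1, e2]
      linarith
    have h5 := Real.exp_nonneg (-v ^ 2 / (16 * t ^ 2))
    linarith

private theorem pdf_step {t v y : ℝ} (ht : 1 ≤ |t|) (hy : |y| ≤ 1) :
    gaussianPDF 0 1 (v - t * y) ≤ ENNReal.ofReal (2 * Real.exp (-v ^ 2 / (16 * t ^ 2))) *
      ENNReal.ofReal (Real.exp (-(t * (y - v / t)) ^ 2 / 4)) := by
  have ht0 : t ≠ 0 := by
    intro h0
    rw [h0, abs_zero] at ht
    linarith
  rw [gaussianPDF, ← ENNReal.ofReal_mul (by positivity)]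
  refine ENNReal.ofReal_le_ofReal ?_
  rw [gaussianPDFReal]
  have e1 : t * (y - v / t) = -(v - t * y) := by field_simp; ring
  have e2 : Real.exp (-(v - t * y - 0) ^ 2 / (2 * ((1 : NNReal) : ℝ))) =
      Real.exp (-(v - t * y) ^ 2 / 4) * Real.exp (-(v - t * y) ^ 2 / 4) := by
    rw [← Real.exp_add]
    congr 1
    rw [NNReal.coe_one]
    ring
  have e3 : (√(2 * Real.pi * ((1 : NNReal) : ℝ)))⁻¹ ≤ 1 := by
    refine inv_le_one_of_one_le₀ (Real.le_sqrt_of_sq_le ?_)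
    have := Real.pi_gt_three
    rw [NNReal.coe_one]
    linarith
  rw [e1, e2, neg_sq]
  have h1 := exp_step (v := v) ht hy
  have h2 := Real.exp_nonneg (-(v - t * y) ^ 2 / 4)
  calc (√(2 * Real.pi * ((1 : NNReal) : ℝ)))⁻¹ * (Real.exp (-(v - t * y) ^ 2 / 4) *
        Real.exp (-(v - t * y) ^ 2 / 4))
      ≤ 1 * (Real.exp (-(v - t * y) ^ 2 / 4) * Real.exp (-(v - t * y) ^ 2 / 4)) :=
        mul_le_mul_of_nonneg_right e3 (mul_nonneg h2 h2)
    _ ≤ 2 * Real.exp (-v ^ 2 / (16 * t ^ 2)) * Real.exp (-(v - t * y) ^ 2 / 4) := by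
        rw [one_mul]
        exact mul_le_mul_of_nonneg_right h1 h2

theorem kernel_bound : ∃ K : ℝ, 0 < K ∧ ∀ (μ : Measure ℝ) (C e : ℝ), 0 ≤ C → 0 ≤ e → e ≤ 1 →
    (∀ᵐ x ∂μ, |x| ≤ 1) →
    (∀ a r : ℝ, 0 < r → μ {x | |x - a| ≤ r} ≤ ENNReal.ofReal (C * r ^ e)) →
    ∀ t v : ℝ, 1 ≤ |t| → ∫⁻ y, gaussianPDF 0 1 (v - t * y) ∂μ ≤
      ENNReal.ofReal (K * C * |t| ^ (-e) * Real.exp (-v ^ 2 / (16 * t ^ 2))) := by
  obtain ⟨K, hK, hKb⟩ := exp_bound
  refine ⟨2 * K, by positivity, fun μ C e hC he he1 hμ hball t v ht => ?_⟩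
  have ht0 : t ≠ 0 := by
    intro h0
    rw [h0, abs_zero] at ht
    linarith
  have hmap : Measurable (fun y : ℝ => y - v / t) := by fun_prop
  have h1 := hKb (μ.map (fun y => y - v / t)) C e hC he he1 (by
    intro r hr
    rw [Measure.map_apply hmap (measurableSet_le (by fun_prop) (by fun_prop))]
    exact hball (v / t) r hr) t ht0
  rw [lintegral_map (by fun_prop) hmap] at h1
  calc ∫⁻ y, gaussianPDF 0 1 (v - t * y) ∂μ
      ≤ ∫⁻ y, ENNReal.ofReal (2 * Real.exp (-v ^ 2 / (16 * t ^ 2))) *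
          ENNReal.ofReal (Real.exp (-(t * (y - v / t)) ^ 2 / 4)) ∂μ := by
        refine lintegral_mono_ae ?_
        filter_upwards [hμ] with y hy
        exact pdf_step ht hy
    _ = ENNReal.ofReal (2 * Real.exp (-v ^ 2 / (16 * t ^ 2))) *
          ∫⁻ y, ENNReal.ofReal (Real.exp (-(t * (y - v / t)) ^ 2 / 4)) ∂μ :=
        lintegral_const_mul _ (by fun_prop)
    _ ≤ ENNReal.ofReal (2 * Real.exp (-v ^ 2 / (16 * t ^ 2))) *
          ENNReal.ofReal (K * C * |t| ^ (-e)) := by gcongr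
    _ = ENNReal.ofReal (2 * K * C * |t| ^ (-e) * Real.exp (-v ^ 2 / (16 * t ^ 2))) := by
        rw [← ENNReal.ofReal_mul (by positivity)]
        congr 1
        ring

end C4N
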