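import Mathlib
import Pool.Agent.Work.MP_c4bd3e_lc.N.MDefs

set_option autoImplicit false

/-!
# Module GSq (size M): the gaussian mean square of a characteristic function

`‖charFun g v‖ ^ 2 = charFun g v * conj (charFun g v) = ∫ z, exp (i v (z.1 - z.2)) ∂(g.prod g)` (`integral_prod_mul` or
`charFun` of the image of `g.prod g` under `z.1 - z.2`; `charFun_apply_real`, `charFun_neg`, `Complex.mul_conj`). Integrate over
`v` with respect to `γ = gaussianReal 0 s`, swap (`integral_integral_swap`, bounded integrand on a finite measure):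
`∫ z, charFun γ (z.1 - z.2) ∂(g.prod g)`, and `charFun γ x = exp (-s x ^ 2 / 2)` (`charFun_gaussianReal`). Both sides are
integrals of nonnegative functions, so the identity of the Bochner integrals gives the one of the lower integrals
(`ofReal_integral_eq_lintegral_ofReal`, `‖z‖ₑ ^ 2 = ENNReal.ofReal (‖z‖ ^ 2)`).
-/

namespace C4N

open MeasureTheory ProbabilityTheory

private theorem charFun_swap (ν γ : Measure ℝ) [IsFiniteMeasure ν] [IsFiniteMeasure γ] :
    ∫ v, charFun ν v ∂γ = ∫ x, charFun γ x ∂ν := by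
  simp_rw [charFun_apply_real]
  rw [integral_integral_swap]
  · congr 1
    ext x
    congr 1
    ext v
    rw [mul_comm (v : ℂ)]
  · refine (integrable_const (1 : ℝ)).mono ?_ (ae_of_all _ fun z => ?_)
    · exact (Continuous.aestronglyMeasurable (by fun_prop))
    · rw [Function.uncurry, ← Complex.ofReal_mul, Complex.norm_exp_ofReal_mul_I]
      simp

private theorem charFun_sub (g : Measure ℝ) [IsFiniteMeasure g] (v : ℝ) :
    charFun ((g.prod g).map fun z : ℝ × ℝ => z.1 - z.2) v = ((‖charFun g v‖ ^ 2 : ℝ) : ℂ) := by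
  have h1 : ((‖charFun g v‖ ^ 2 : ℝ) : ℂ) = charFun g v * charFun g (-v) := by
    rw [charFun_neg, Complex.mul_conj, Complex.normSq_eq_norm_sq]
  rw [h1, charFun_apply_real, charFun_apply_real, charFun_apply_real,
    integral_map (by fun_prop) (Continuous.aestronglyMeasurable (by fun_prop)),
    ← integral_prod_mul]
  congr 1
  ext z
  rw [← Complex.exp_add]
  congr 1
  push_cast
  ring

theorem gauss_sq (g : Measure ℝ) [IsFiniteMeasure g] (s : NNReal) :
    ∫⁻ v, ‖charFun g v‖ₑ ^ 2 ∂(gaussianReal 0 s) =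
      ∫⁻ z : ℝ × ℝ, ENNReal.ofReal (Real.exp (-(s * (z.1 - z.2) ^ 2) / 2)) ∂(g.prod g) := by
  set ν : Measure ℝ := (g.prod g).map fun z : ℝ × ℝ => z.1 - z.2 with hν
  have hfin : IsFiniteMeasure ν := by
    rw [hν]
    infer_instance
  have h1 : ∫ v, ‖charFun g v‖ ^ 2 ∂(gaussianReal 0 s) =
      ∫ x, Real.exp (-(s * x ^ 2) / 2) ∂ν := by
    have h2 := charFun_swap ν (gaussianReal 0 s)
    have h3 : ∀ x : ℝ, charFun (gaussianReal 0 s) x =
        ((Real.exp (-(s * x ^ 2) / 2) : ℝ) : ℂ) := by
      intro x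
      rw [charFun_gaussianReal]
      push_cast
      congr 1
      ring
    simp_rw [h3] at h2
    rw [hν] at h2
    simp_rw [charFun_sub g] at h2
    rw [← hν, integral_complex_ofReal, integral_complex_ofReal] at h2
    exact_mod_cast h2
  have h4 : ∫⁻ z : ℝ × ℝ, ENNReal.ofReal (Real.exp (-(s * (z.1 - z.2) ^ 2) / 2)) ∂(g.prod g) =
      ∫⁻ x, ENNReal.ofReal (Real.exp (-(s * x ^ 2) / 2)) ∂ν := by
    rw [hν, lintegral_map (by fun_prop) (by fun_prop)]
  have h5 : ∀ v, ‖charFun g v‖ₑ ^ 2 = ENNReal.ofReal (‖charFun g v‖ ^ 2) := by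
    intro v
    rw [ENNReal.ofReal_pow (norm_nonneg _), ofReal_norm]
  simp_rw [h5]
  rw [h4, ← ofReal_integral_eq_lintegral_ofReal, ← ofReal_integral_eq_lintegral_ofReal, h1]
  · refine (integrable_const (1 : ℝ)).mono (Continuous.aestronglyMeasurable (by fun_prop))
      (ae_of_all _ fun x => ?_)
    rw [Real.norm_eq_abs, abs_of_pos (Real.exp_pos _), norm_one]
    refine Real.exp_le_one_iff.2 ?_
    have : 0 ≤ (s : ℝ) * x ^ 2 := mul_nonneg s.2 (sq_nonneg x)
    linarith
  · exact ae_of_all _ fun x => (Real.exp_pos _).le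
  · refine (integrable_const ((g.real Set.univ) ^ 2)).mono ?_ (ae_of_all _ fun v => ?_)
    · exact ((measurable_charFun (μ := g)).norm.pow_const 2).aestronglyMeasurable
    · rw [Real.norm_eq_abs, abs_of_nonneg (sq_nonneg _), Real.norm_eq_abs,
        abs_of_nonneg (sq_nonneg _)]
      exact pow_le_pow_left₀ (norm_nonneg _) (norm_charFun_le v) 2
  · exact ae_of_all _ fun x => sq_nonneg _

end C4N
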