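import Mathlib
import Pool.Agent.Work.MP_c4bd3e_lc.N.MDefs
import Pool.Agent.Work.MP_c4bd3e_lc.N.CDefs
import Pool.Agent.Work.MP_c4bd3e_lc.N.Exp1
import Pool.Agent.Work.MP_c4bd3e_lc.N.GSq
import Pool.Agent.Work.MP_c4bd3e_lc.N.F2b

set_option autoImplicit false

/-!
# Module F2e (size M): the weighted mean square of `charFun (wt μ)`

`s = 8 t ^ 2`: `gaussianReal 0 s` has density `(√(16 π t ^ 2))⁻¹ exp (-v ^ 2 / (16 t ^ 2))`, so the left side is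
`√(16 π) |t| * ∫⁻ v, ‖charFun g v‖ₑ ^ 2 ∂(gaussianReal 0 s)`, `g = wt μ`, which by `gauss_sq` is
`√(16 π) |t| * ∫⁻ z, exp (-4 t ^ 2 (z.1 - z.2) ^ 2) ∂(g.prod g)`. `g` has density `≤ exp (1/2) ≤ 2` almost everywhere, so
(`prod_withDensity` or `Measure.prod_mono`-type argument, or two applications of `lintegral_prod`) this is at most
`4 √(16 π) |t| * ∫⁻ z, exp (-(4 t (z.1 - z.2)) ^ 2 / 4) ∂(μ.prod μ)`, and `exp_bound` for the law of `z.1 - z.2` (`m {|x| ≤ r} =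
ENNReal.ofReal (PD μ r)`) bounds the integral by `K C |4 t| ^ (-d) ≤ K C |t| ^ (-d)`.
-/

namespace C4N

open MeasureTheory ProbabilityTheory

private theorem gauss_density (F : ℝ → ENNReal) (hF : Measurable F) {t : ℝ} (ht : t ≠ 0)
    (s : NNReal) (hs : (s : ℝ) = 8 * t ^ 2) :
    ∫⁻ v, F v * ENNReal.ofReal (Real.exp (-v ^ 2 / (16 * t ^ 2))) =
      ENNReal.ofReal (√(16 * Real.pi) * |t|) * ∫⁻ v, F v ∂(gaussianReal 0 s) := by
  have ht2 : 0 < t ^ 2 := by positivity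
  have hs0 : s ≠ 0 := by
    intro h
    rw [h, NNReal.coe_zero] at hs
    linarith
  have hc : √(2 * Real.pi * (s : ℝ)) = √(16 * Real.pi) * |t| := by
    rw [hs, show 2 * Real.pi * (8 * t ^ 2) = 16 * Real.pi * t ^ 2 by ring,
      Real.sqrt_mul (by positivity), Real.sqrt_sq_eq_abs]
  have hc0 : 0 < √(16 * Real.pi) * |t| :=
    mul_pos (Real.sqrt_pos.2 (by positivity)) (abs_pos.2 ht)
  rw [gaussianReal_of_var_ne_zero _ hs0,
    lintegral_withDensity_eq_lintegral_mul _ (measurable_gaussianPDF 0 s) hF,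
    ← lintegral_const_mul _ (by fun_prop)]
  refine lintegral_congr fun v => ?_
  rw [Pi.mul_apply, ← mul_assoc, mul_comm (F v), gaussianPDF_def, gaussianPDFReal_def,
    ← ENNReal.ofReal_mul hc0.le]
  congr 2
  rw [hc, mul_inv_cancel_left₀ hc0.ne', hs]
  congr 1
  rw [sub_zero, show 2 * (8 * t ^ 2) = 16 * t ^ 2 by ring]

private theorem wt_le {μ : Measure ℝ} (hμ : ∀ᵐ x ∂μ, |x| ≤ 1) : wt μ ≤ (2 : ENNReal) • μ := by
  rw [← withDensity_const, wt]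
  refine withDensity_mono ?_
  filter_upwards [hμ] with x hx
  have h1 : x ^ 2 ≤ 1 := by
    rw [← sq_abs]
    exact pow_le_one₀ (abs_nonneg x) hx
  have h2 : Real.exp (x ^ 2 / 2) ≤ 2 := by
    have h3 : Real.exp (x ^ 2 / 2) ≤ Real.exp (1 / 2) := Real.exp_le_exp.2 (by linarith)
    have h4 : Real.exp (1 / 2) ^ 2 = Real.exp 1 := by
      rw [← Real.exp_nat_mul]
      norm_num
    have h5 := Real.exp_one_lt_d9
    have h6 : 0 < Real.exp (1 / 2) := Real.exp_pos _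
    nlinarith
  calc ENNReal.ofReal (Real.exp (x ^ 2 / 2)) ≤ ENNReal.ofReal 2 := ENNReal.ofReal_le_ofReal h2
    _ = 2 := by simp

private theorem prod_le {μ : Measure ℝ} [IsProbabilityMeasure μ] (hμ : ∀ᵐ x ∂μ, |x| ≤ 1)
    (f : ℝ × ℝ → ENNReal) (hf : Measurable f) :
    ∫⁻ z, f z ∂((wt μ).prod (wt μ)) ≤ 4 * ∫⁻ z, f z ∂(μ.prod μ) := by
  have hfin : IsFiniteMeasure (wt μ) := isFinite_wt hμ
  rw [lintegral_prod _ hf.aemeasurable, lintegral_prod _ hf.aemeasurable]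
  have h1 : ∀ x, ∫⁻ y, f (x, y) ∂(wt μ) ≤ 2 * ∫⁻ y, f (x, y) ∂μ := by
    intro x
    refine (lintegral_mono' (wt_le hμ) le_rfl).trans ?_
    rw [lintegral_smul_measure, smul_eq_mul]
  have h2 : Measurable fun x => ∫⁻ y, f (x, y) ∂μ := hf.lintegral_prod_right'
  calc ∫⁻ x, ∫⁻ y, f (x, y) ∂(wt μ) ∂(wt μ) ≤ ∫⁻ x, 2 * ∫⁻ y, f (x, y) ∂μ ∂(wt μ) :=
        lintegral_mono h1
    _ ≤ ∫⁻ x, 2 * ∫⁻ y, f (x, y) ∂μ ∂((2 : ENNReal) • μ) := lintegral_mono' (wt_le hμ) le_rfl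
    _ = 2 * (2 * ∫⁻ x, ∫⁻ y, f (x, y) ∂μ ∂μ) := by
        rw [lintegral_smul_measure, lintegral_const_mul _ h2, smul_eq_mul]
    _ = 4 * ∫⁻ x, ∫⁻ y, f (x, y) ∂μ ∂μ := by
        rw [← mul_assoc]
        norm_num

theorem wt_int_bound : ∃ K : ℝ, 0 < K ∧ ∀ (μ : Measure ℝ) (C d : ℝ), IsProbabilityMeasure μ → 0 ≤ C →
    0 ≤ d → d ≤ 1 → (∀ᵐ x ∂μ, |x| ≤ 1) → (∀ δ : ℝ, 0 < δ → PD μ δ ≤ C * δ ^ d) → ∀ t : ℝ, t ≠ 0 →
      ∫⁻ v, ‖charFun (wt μ) v‖ₑ ^ 2 * ENNReal.ofReal (Real.exp (-v ^ 2 / (16 * t ^ 2))) ≤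
        ENNReal.ofReal (K * C * |t| ^ (1 - d)) := by
  obtain ⟨K, hK, h⟩ := exp_bound
  refine ⟨√(16 * Real.pi) * 4 * K, by positivity, ?_⟩
  intro μ C d hp hC hd0 hd1 hμ hPD t ht
  have hfin : IsFiniteMeasure (wt μ) := isFinite_wt hμ
  have ht0 : 0 < |t| := abs_pos.2 ht
  obtain ⟨s, hs⟩ : ∃ s : NNReal, (s : ℝ) = 8 * t ^ 2 := ⟨⟨8 * t ^ 2, by positivity⟩, rfl⟩
  rw [gauss_density _ ((measurable_charFun (μ := wt μ)).enorm.pow_const 2) ht s hs, gauss_sq]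
  have h1 := prod_le hμ (fun z => ENNReal.ofReal (Real.exp (-(s * (z.1 - z.2) ^ 2) / 2)))
    (by fun_prop)
  have h2 : ∫⁻ z : ℝ × ℝ, ENNReal.ofReal (Real.exp (-(s * (z.1 - z.2) ^ 2) / 2)) ∂(μ.prod μ) =
      ∫⁻ x, ENNReal.ofReal (Real.exp (-(4 * t * x) ^ 2 / 4))
        ∂((μ.prod μ).map fun z : ℝ × ℝ => z.1 - z.2) := by
    rw [lintegral_map (by fun_prop) (by fun_prop)]
    refine lintegral_congr fun z => ?_
    rw [hs]
    congr 2
    ring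
  have h3 := h ((μ.prod μ).map fun z : ℝ × ℝ => z.1 - z.2) C d hC hd0 hd1 (by
    intro r hr
    rw [Measure.map_apply (by fun_prop) (measurableSet_le (by fun_prop) (by fun_prop))]
    have h4 := hPD r hr
    rw [PD] at h4
    rw [← ENNReal.ofReal_toReal (measure_ne_top _ _)]
    exact ENNReal.ofReal_le_ofReal h4) (4 * t) (mul_ne_zero (by norm_num) ht)
  have h5 : K * C * |4 * t| ^ (-d) ≤ K * C * |t| ^ (-d) := by
    refine mul_le_mul_of_nonneg_left ?_ (mul_nonneg hK.le hC)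
    refine Real.rpow_le_rpow_of_nonpos ht0 ?_ (by linarith)
    rw [abs_mul, abs_of_pos (by norm_num : (0 : ℝ) < 4)]
    linarith
  have h6 : ∫⁻ z : ℝ × ℝ, ENNReal.ofReal (Real.exp (-(s * (z.1 - z.2) ^ 2) / 2))
      ∂((wt μ).prod (wt μ)) ≤ 4 * ENNReal.ofReal (K * C * |t| ^ (-d)) := by
    refine h1.trans ?_
    rw [h2]
    gcongr
    exact h3.trans (ENNReal.ofReal_le_ofReal h5)
  calc _ ≤ ENNReal.ofReal (√(16 * Real.pi) * |t|) * (4 * ENNReal.ofReal (K * C * |t| ^ (-d))) := by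
        gcongr
    _ = ENNReal.ofReal (√(16 * Real.pi) * |t| * (4 * (K * C * |t| ^ (-d)))) := by
        rw [ENNReal.ofReal_mul (p := √(16 * Real.pi) * |t|) (by positivity),
          ENNReal.ofReal_mul (p := (4 : ℝ)) (by norm_num)]
        norm_num
    _ = _ := by
        congr 1
        rw [sub_eq_add_neg, Real.rpow_add ht0, Real.rpow_one]
        ring

end C4N
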