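import Mathlib
import Pool.Agent.Work.MP_c4bd3e_lc.N.MDefs
import Pool.Agent.Work.MP_c4bd3e_lc.N.CDefs
import Pool.Agent.Work.MP_c4bd3e_lc.N.DmA
import Pool.Agent.Work.MP_c4bd3e_lc.N.F2a
import Pool.Agent.Work.MP_c4bd3e_lc.N.F2b
import Pool.Agent.Work.MP_c4bd3e_lc.N.F2c
import Pool.Agent.Work.MP_c4bd3e_lc.N.F2d
import Pool.Agent.Work.MP_c4bd3e_lc.N.F2e

set_option autoImplicit false

/-!
# Module Four2 (size S-M): Fourier decay of the law of a product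

Let `C₁` be the constant of `Dm.frost` (exponent `e = d / 2 ≤ 1`), `C₂` that of `Dm.all`. For `1 ≤ |t|`:
`‖charFun (prodLaw μ) t‖ₑ ^ 2 ≤ ∫⁻ y, ‖charFun μ (t y)‖ₑ ^ 2 ∂μ ≤ ∫⁻ y, ∫⁻ u, G (t y + u) ∂γ ∂μ`, `G v = ‖charFun (wt μ) v‖ₑ ^ 2`
(`sq_charFun_prodLaw_le`, `sq_charFun_le`), `= ∫⁻ v, G v * ∫⁻ y, gaussianPDF 0 1 (v - t y) ∂μ` (`tonelli_step`)
`≤ K₁ C₁ |t| ^ (-d / 2) * ∫⁻ v, G v * exp (-v ^ 2 / (16 t ^ 2)) ≤ K₁ C₁ K₂ C₂ |t| ^ (-d / 2) |t| ^ (1 - d)`.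
-/

namespace C4N

open MeasureTheory ProbabilityTheory

theorem four2 {μ : Measure ℝ} [IsProbabilityMeasure μ] (hμ : ∀ᵐ x ∂μ, |x| ≤ 1) {d : ℝ} (hd0 : 0 ≤ d)
    (hd1 : d ≤ 1) (h : Dm d μ) :
    ∃ C : ℝ, 0 ≤ C ∧ ∀ t : ℝ, 1 ≤ |t| →
      ‖charFun (prodLaw μ) t‖ ^ 2 ≤ C * |t| ^ (1 - 3 * d / 2) := by
  obtain ⟨C₁, hC₁, hfr⟩ := h.frost hd0
  obtain ⟨C₂, hC₂, hall⟩ := h.all hd0
  obtain ⟨K₁, hK₁, hker⟩ := kernel_bound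
  obtain ⟨K₂, hK₂, hwt⟩ := wt_int_bound
  refine ⟨K₁ * C₁ * (K₂ * C₂), by positivity, fun t ht => ?_⟩
  have ht0 : 0 < |t| := by linarith
  have ht1 : t ≠ 0 := abs_pos.1 ht0
  have hfin := isFinite_wt hμ
  have hG : Measurable fun v : ℝ => ‖charFun (wt μ) v‖ₑ ^ 2 :=
    (measurable_charFun.enorm).pow_const 2
  have h1 : ‖charFun (prodLaw μ) t‖ₑ ^ 2 ≤
      ENNReal.ofReal (K₁ * C₁ * (K₂ * C₂) * |t| ^ (1 - 3 * d / 2)) := by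
    calc ‖charFun (prodLaw μ) t‖ₑ ^ 2 ≤ ∫⁻ y, ‖charFun μ (t * y)‖ₑ ^ 2 ∂μ :=
          sq_charFun_prodLaw_le μ t
      _ ≤ ∫⁻ y, ∫⁻ u, ‖charFun (wt μ) (t * y + u)‖ₑ ^ 2 ∂(gaussianReal 0 1) ∂μ :=
          lintegral_mono fun y => sq_charFun_le hμ (t * y)
      _ = ∫⁻ v, ‖charFun (wt μ) v‖ₑ ^ 2 * ∫⁻ y, gaussianPDF 0 1 (v - t * y) ∂μ :=
          tonelli_step μ hG t
      _ ≤ ∫⁻ v, ENNReal.ofReal (K₁ * C₁ * |t| ^ (-(d / 2))) *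
          (‖charFun (wt μ) v‖ₑ ^ 2 * ENNReal.ofReal (Real.exp (-v ^ 2 / (16 * t ^ 2)))) := by
          refine lintegral_mono fun v => ?_
          have h2 := hker μ C₁ (d / 2) hC₁ (by linarith) (by linarith) hμ hfr t v ht
          rw [ENNReal.ofReal_mul (by positivity)] at h2
          calc _ ≤ ‖charFun (wt μ) v‖ₑ ^ 2 * (ENNReal.ofReal (K₁ * C₁ * |t| ^ (-(d / 2))) *
                ENNReal.ofReal (Real.exp (-v ^ 2 / (16 * t ^ 2)))) := by gcongr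
            _ = _ := by ring
      _ = ENNReal.ofReal (K₁ * C₁ * |t| ^ (-(d / 2))) * ∫⁻ v, ‖charFun (wt μ) v‖ₑ ^ 2 *
          ENNReal.ofReal (Real.exp (-v ^ 2 / (16 * t ^ 2))) := by
          rw [lintegral_const_mul' _ _ ENNReal.ofReal_ne_top]
      _ ≤ ENNReal.ofReal (K₁ * C₁ * |t| ^ (-(d / 2))) *
          ENNReal.ofReal (K₂ * C₂ * |t| ^ (1 - d)) := by
          gcongr
          exact hwt μ C₂ d inferInstance (by linarith) hd0 hd1 hμ hall t ht1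
      _ = ENNReal.ofReal (K₁ * C₁ * (K₂ * C₂) * |t| ^ (1 - 3 * d / 2)) := by
          rw [← ENNReal.ofReal_mul (by positivity)]
          congr 1
          have h3 : 1 - 3 * d / 2 = -(d / 2) + (1 - d) := by ring
          rw [h3, Real.rpow_add ht0]
          ring
  rw [← ofReal_norm, ← ENNReal.ofReal_pow (norm_nonneg _)] at h1
  exact (ENNReal.ofReal_le_ofReal_iff (by positivity)).1 h1

end C4N
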