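import Mathlib
import Pool.Agent.Work.MP_c4bd3e_lc.N.MDefs
import Pool.Agent.Work.MP_c4bd3e_lc.N.CDefs
import Pool.Agent.Work.MP_c4bd3e_lc.N.GSq

set_option autoImplicit false

/-!
# Module Four3 (size S-M): square integrable characteristic functions

`1 {|z| ≤ δ} ≤ 2 exp (-z ^ 2 / (2 δ ^ 2))` (`exp (-1/2) > 1/2`). With `s = 1 / δ ^ 2` and `gauss_sq`:
`ENNReal.ofReal (PD ν δ) ≤ 2 ∫⁻ z, exp (-(s (z.1 - z.2) ^ 2) / 2) ∂(ν.prod ν) = 2 ∫⁻ v, ‖charFun ν v‖ₑ ^ 2 ∂(gaussianReal 0 s)`, and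
the density of `gaussianReal 0 s` is at most `(√(2 π s))⁻¹ ≤ δ`. So `C = 2 * (∫⁻ ‖charFun ν‖ₑ ^ 2).toReal`.
-/

namespace C4N

open MeasureTheory ProbabilityTheory

theorem four3 (ν : Measure ℝ) [IsProbabilityMeasure ν] (h : ∫⁻ t, ‖charFun ν t‖ₑ ^ 2 < ⊤) :
    ∃ C : ℝ, ∀ δ : ℝ, 0 < δ → PD ν δ ≤ C * δ := by
  refine ⟨2 * (∫⁻ t, ‖charFun ν t‖ₑ ^ 2).toReal, fun δ hδ => ?_⟩
  set s : NNReal := ⟨1 / δ ^ 2, by positivity⟩ with hsdef
  have hs : (s : ℝ) = 1 / δ ^ 2 := rfl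
  have hs0 : s ≠ 0 := by
    intro h0
    have h1 : (s : ℝ) = 0 := by rw [h0]; rfl
    rw [hs] at h1
    have h2 : (0 : ℝ) < 1 / δ ^ 2 := by positivity
    linarith
  have hm : Measurable fun v => ‖charFun ν v‖ₑ ^ 2 := measurable_charFun.enorm.pow_const 2
  have hS : MeasurableSet {x : ℝ × ℝ | |x.1 - x.2| ≤ δ} :=
    measurableSet_le (by fun_prop) (by fun_prop)
  have hpdf : ∀ v, gaussianPDF 0 s v ≤ ENNReal.ofReal δ := by
    intro v
    rw [gaussianPDF]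
    refine ENNReal.ofReal_le_ofReal ?_
    rw [gaussianPDFReal, hs]
    have h1 : Real.exp (-(v - 0) ^ 2 / (2 * (1 / δ ^ 2))) ≤ 1 := by
      rw [Real.exp_le_one_iff]
      exact div_nonpos_of_nonpos_of_nonneg (neg_nonpos.2 (sq_nonneg _)) (by positivity)
    have h2 : 1 / δ ≤ √(2 * Real.pi * (1 / δ ^ 2)) := by
      refine Real.le_sqrt_of_sq_le ?_
      have h3 : (1 / δ) ^ 2 = 1 * (1 / δ ^ 2) := by field_simp
      rw [h3]
      refine mul_le_mul_of_nonneg_right ?_ (by positivity)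
      have := Real.pi_gt_three
      linarith
    have h4 : (√(2 * Real.pi * (1 / δ ^ 2)))⁻¹ ≤ δ := by
      have h5 : (0 : ℝ) < 1 / δ := by positivity
      have h6 := inv_anti₀ h5 h2
      have h8 : (1 / δ)⁻¹ = δ := by rw [one_div, inv_inv]
      rw [h8] at h6
      exact h6
    calc (√(2 * Real.pi * (1 / δ ^ 2)))⁻¹ * Real.exp (-(v - 0) ^ 2 / (2 * (1 / δ ^ 2)))
        ≤ δ * 1 := mul_le_mul h4 h1 (Real.exp_nonneg _) hδ.le
      _ = δ := mul_one δ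
  have key : (ν.prod ν) {x : ℝ × ℝ | |x.1 - x.2| ≤ δ} ≤
      2 * (ENNReal.ofReal δ * ∫⁻ t, ‖charFun ν t‖ₑ ^ 2) := by
    calc (ν.prod ν) {x : ℝ × ℝ | |x.1 - x.2| ≤ δ}
        = ∫⁻ z, Set.indicator {x : ℝ × ℝ | |x.1 - x.2| ≤ δ} 1 z ∂(ν.prod ν) :=
          (lintegral_indicator_one hS).symm
      _ ≤ ∫⁻ z : ℝ × ℝ, 2 * ENNReal.ofReal (Real.exp (-(s * (z.1 - z.2) ^ 2) / 2)) ∂(ν.prod ν) := by
          refine lintegral_mono fun z => ?_
          rw [Set.indicator_apply]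
          split_ifs with hz
          · have h1 : (z.1 - z.2) ^ 2 ≤ δ ^ 2 := by
              rw [← sq_abs (z.1 - z.2)]
              exact pow_le_pow_left₀ (abs_nonneg _) hz 2
            have h2 : (s : ℝ) * (z.1 - z.2) ^ 2 ≤ 1 := by
              rw [hs, one_div, inv_mul_le_one₀ (by positivity)]
              exact h1
            have h3 : (1 / 2 : ℝ) ≤ Real.exp (-(s * (z.1 - z.2) ^ 2) / 2) := by
              have h4 := Real.add_one_le_exp (-(s * (z.1 - z.2) ^ 2) / 2)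
              linarith
            have h5 : ENNReal.ofReal (1 / 2) ≤
                ENNReal.ofReal (Real.exp (-(s * (z.1 - z.2) ^ 2) / 2)) :=
              ENNReal.ofReal_le_ofReal h3
            calc (1 : ENNReal) = 2 * ENNReal.ofReal (1 / 2) := by
                  rw [← ENNReal.ofReal_ofNat, ← ENNReal.ofReal_mul (by norm_num)]
                  norm_num
              _ ≤ _ := by gcongr
          · exact zero_le
      _ = 2 * ∫⁻ z : ℝ × ℝ, ENNReal.ofReal (Real.exp (-(s * (z.1 - z.2) ^ 2) / 2)) ∂(ν.prod ν) :=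
          lintegral_const_mul _ (by fun_prop)
      _ = 2 * ∫⁻ v, ‖charFun ν v‖ₑ ^ 2 ∂(gaussianReal 0 s) := by rw [gauss_sq]
      _ = 2 * ∫⁻ v, (gaussianPDF 0 s * fun v => ‖charFun ν v‖ₑ ^ 2) v := by
          rw [gaussianReal_of_var_ne_zero 0 hs0,
            lintegral_withDensity_eq_lintegral_mul _ (measurable_gaussianPDF 0 s) hm]
      _ ≤ 2 * ∫⁻ v, ENNReal.ofReal δ * ‖charFun ν v‖ₑ ^ 2 := by
          gcongr with v
          exact mul_le_mul_left (hpdf v) _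
      _ = 2 * (ENNReal.ofReal δ * ∫⁻ t, ‖charFun ν t‖ₑ ^ 2) := by
          rw [lintegral_const_mul _ hm]
  have hfin : 2 * (ENNReal.ofReal δ * ∫⁻ t, ‖charFun ν t‖ₑ ^ 2) ≠ ⊤ :=
    ENNReal.mul_ne_top (by norm_num) (ENNReal.mul_ne_top ENNReal.ofReal_ne_top h.ne)
  have h7 := ENNReal.toReal_mono hfin key
  rw [ENNReal.toReal_mul, ENNReal.toReal_mul, ENNReal.toReal_ofReal hδ.le] at h7
  rw [PD]
  refine h7.trans (le_of_eq ?_)
  rw [ENNReal.toReal_ofNat]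
  ring

end C4N
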