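import Mathlib
import Pool.Agent.Work.MP_c4bd3e_lc.N.MDefs
import Pool.Agent.Work.MP_c4bd3e_lc.N.CDefs

set_option autoImplicit false

/-!
# Module FourI (size S-M): the fourfold sum

`charFun (four μ) t = (charFun (prodLaw μ) t) ^ 4` (`charFun_conv`), so `‖charFun (four μ) t‖ ^ 2 = (‖charFun (prodLaw μ) t‖ ^ 2) ^ 4`,
which is `≤ 1` for all `t` (`norm_charFun_le_one`) and `≤ C ^ 4 |t| ^ (-7/5)` for `|t| ≥ 1`. So the integral is at most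
`2 + 2 C ^ 4 ∫_1^∞ t ^ (-7/5) dt < ∞` (`integrableOn_Ioi_rpow_of_lt`; or compare with the integrable function
`C' * (1 + ‖t‖) ^ (-7/5)`, `integrable_one_add_norm`, `C' = 2 ^ (7/5) (1 + C ^ 4)`).
-/

namespace C4N

open MeasureTheory ProbabilityTheory

theorem four_int {μ : Measure ℝ} [IsProbabilityMeasure μ] {C : ℝ} (hC : 0 ≤ C)
    (h : ∀ t : ℝ, 1 ≤ |t| → ‖charFun (prodLaw μ) t‖ ^ 2 ≤ C * |t| ^ (-(7 : ℝ) / 20)) :
    ∫⁻ t, ‖charFun (four μ) t‖ₑ ^ 2 < ⊤ := by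
  haveI hP : IsProbabilityMeasure (prodLaw μ) := by
    unfold prodLaw
    exact Measure.isProbabilityMeasure_map (by fun_prop)
  have h4 : ∀ t, charFun (four μ) t = charFun (prodLaw μ) t ^ 4 := by
    intro t
    unfold four
    rw [charFun_conv, charFun_conv]
    ring
  have hC4 : 0 ≤ C ^ 4 := pow_nonneg hC 4
  have h2 : 0 < (2 : ℝ) ^ ((7 : ℝ) / 5) := Real.rpow_pos_of_pos (by norm_num) _
  have hb : ∀ t : ℝ, (‖charFun (prodLaw μ) t‖ ^ 2) ^ 4 ≤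
      2 ^ ((7 : ℝ) / 5) * (1 + C ^ 4) * (1 + ‖t‖) ^ (-((7 : ℝ) / 5)) := by
    intro t
    have ht0 : 0 ≤ |t| := abs_nonneg t
    have hp : 0 < 1 + |t| := by positivity
    have hpp : 0 < (1 + |t|) ^ (-((7 : ℝ) / 5)) := Real.rpow_pos_of_pos hp _
    rw [Real.norm_eq_abs]
    rcases le_total |t| 1 with h1 | h1
    · have h5 : (‖charFun (prodLaw μ) t‖ ^ 2) ^ 4 ≤ 1 := by
        have := norm_charFun_le_one (μ := prodLaw μ) t
        exact pow_le_one₀ (by positivity) (pow_le_one₀ (norm_nonneg _) this)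
      have h6 : (2 : ℝ) ^ (-((7 : ℝ) / 5)) ≤ (1 + |t|) ^ (-((7 : ℝ) / 5)) :=
        Real.rpow_le_rpow_of_nonpos hp (by linarith) (by norm_num)
      have h7 : (2 : ℝ) ^ ((7 : ℝ) / 5) * (2 : ℝ) ^ (-((7 : ℝ) / 5)) = 1 := by
        rw [← Real.rpow_add (by norm_num)]
        norm_num
      calc (‖charFun (prodLaw μ) t‖ ^ 2) ^ 4 ≤ 1 := h5
        _ = (2 : ℝ) ^ ((7 : ℝ) / 5) * (2 : ℝ) ^ (-((7 : ℝ) / 5)) := h7.symm
        _ ≤ (2 : ℝ) ^ ((7 : ℝ) / 5) * (1 + |t|) ^ (-((7 : ℝ) / 5)) :=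
            mul_le_mul_of_nonneg_left h6 h2.le
        _ ≤ 2 ^ ((7 : ℝ) / 5) * (1 + C ^ 4) * (1 + |t|) ^ (-((7 : ℝ) / 5)) := by
            refine mul_le_mul_of_nonneg_right ?_ hpp.le
            nlinarith
    · have htp : 0 < |t| := by linarith
      have h5 := h t h1
      have h6 : (‖charFun (prodLaw μ) t‖ ^ 2) ^ 4 ≤ (C * |t| ^ (-(7 : ℝ) / 20)) ^ 4 :=
        pow_le_pow_left₀ (by positivity) h5 4
      have h7 : (C * |t| ^ (-(7 : ℝ) / 20)) ^ 4 = C ^ 4 * |t| ^ (-((7 : ℝ) / 5)) := by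
        rw [mul_pow, ← Real.rpow_natCast (|t| ^ (-(7 : ℝ) / 20)) 4, ← Real.rpow_mul ht0]
        congr 2
        norm_num
      have h8 : (2 * |t|) ^ (-((7 : ℝ) / 5)) ≤ (1 + |t|) ^ (-((7 : ℝ) / 5)) :=
        Real.rpow_le_rpow_of_nonpos hp (by linarith) (by norm_num)
      have h9 : |t| ^ (-((7 : ℝ) / 5)) = 2 ^ ((7 : ℝ) / 5) * (2 * |t|) ^ (-((7 : ℝ) / 5)) := by
        rw [Real.mul_rpow (by norm_num) ht0, ← mul_assoc, ← Real.rpow_add (by norm_num)]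
        norm_num
      calc (‖charFun (prodLaw μ) t‖ ^ 2) ^ 4 ≤ C ^ 4 * |t| ^ (-((7 : ℝ) / 5)) := h7 ▸ h6
        _ = C ^ 4 * (2 ^ ((7 : ℝ) / 5) * (2 * |t|) ^ (-((7 : ℝ) / 5))) := by rw [← h9]
        _ ≤ C ^ 4 * (2 ^ ((7 : ℝ) / 5) * (1 + |t|) ^ (-((7 : ℝ) / 5))) := by gcongr
        _ ≤ 2 ^ ((7 : ℝ) / 5) * (1 + C ^ 4) * (1 + |t|) ^ (-((7 : ℝ) / 5)) := by
            have : 0 < 2 ^ ((7 : ℝ) / 5) * (1 + |t|) ^ (-((7 : ℝ) / 5)) := mul_pos h2 hpp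
            nlinarith
  have hint : Integrable (fun t : ℝ => 2 ^ ((7 : ℝ) / 5) * (1 + C ^ 4) *
      (1 + ‖t‖) ^ (-((7 : ℝ) / 5))) := by
    refine (integrable_one_add_norm (E := ℝ) (μ := volume) (r := (7 : ℝ) / 5) ?_).const_mul _
    rw [Module.finrank_self]
    norm_num
  refine lt_of_le_of_lt (lintegral_mono fun t => ?_) hint.lintegral_lt_top
  rw [h4, ← ofReal_norm_eq_enorm, ← ENNReal.ofReal_pow (norm_nonneg _)]
  refine ENNReal.ofReal_le_ofReal ?_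
  rw [norm_pow, ← pow_mul, mul_comm, pow_mul]
  exact hb t

end C4N
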