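import Mathlib
import Pool.Agent.Work.MP_c4bd3e_lc.N.MDefs
import Pool.Agent.Work.MP_c4bd3e_lc.N.CDefs

set_option autoImplicit false

/-!
# Module NullA (size M): laws with linear collision probabilities charge no null set

We may take `N` measurable (`toMeasurable`). Let `κ = ν.restrict N`, so `volume ⟂ₘ κ`. By `Besicovitch.ae_tendsto_rnDeriv`
(`ρ = volume`, `μ = κ`): for `κ`-almost all `x`, `volume (closedBall x r) / κ (closedBall x r) → volume.rnDeriv κ x = 0` as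
`r → 0+` (`Measure.rnDeriv_eq_zero` for mutually singular measures), i.e. `κ (closedBall x r) / (2 r) → ∞`. By Fatou
(`lintegral_liminf_le`, along `r = 1 / (n + 1)`) `∫⁻ x, κ (closedBall x r) / (2 r) ∂κ → ∞` unless `κ = 0`; but
`∫⁻ x, κ (closedBall x r) ∂κ = (κ.prod κ) {|x.1 - x.2| ≤ r} ≤ ENNReal.ofReal (PD ν r) ≤ C r`. Hence `κ = 0`, `ν N = 0`.
(Alternative: a union `E` of `k` grid intervals of length `δ` has `ν E ^ 2 ≤ k ∑ ν I ^ 2 ≤ k PD ν δ ≤ C k δ`; for compact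
`K ⊆ N` the grid intervals that meet `K` lie in `Metric.cthickening δ K`, whose volume tends to `volume K = 0`.)
-/

namespace C4N

open MeasureTheory ProbabilityTheory

/-- a grid interval -/
private def gI (δ : ℝ) (i : ℤ) : Set ℝ := Set.Ico ((i : ℝ) * δ) (((i : ℝ) + 1) * δ)

private theorem mem_gI {δ : ℝ} (hδ : 0 < δ) {x : ℝ} {i : ℤ} : x ∈ gI δ i ↔ ⌊x / δ⌋ = i := by
  rw [gI, Set.mem_Ico, Int.floor_eq_iff, le_div_iff₀ hδ, div_lt_iff₀ hδ]

private theorem key {ν : Measure ℝ} [IsProbabilityMeasure ν] {C δ : ℝ} (hδ : 0 < δ)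
    (h : PD ν δ ≤ C * δ) (hC : 0 ≤ C) {K : Set ℝ} (hK : IsCompact K) :
    (ν.real K) ^ 2 ≤ C * volume.real (Metric.cthickening δ K) := by
  classical
  obtain ⟨M, hM⟩ := hK.isBounded.subset_closedBall (0 : ℝ)
  obtain ⟨n, hn⟩ := exists_nat_gt (M / δ + 1)
  obtain ⟨S, hS⟩ : ∃ S : Finset ℤ, S = (Finset.Icc (-(n : ℤ)) n).filter fun i => (K ∩ gI δ i).Nonempty :=
    ⟨_, rfl⟩
  have hcov : K ⊆ ⋃ i ∈ S, gI δ i := by
    intro x hx
    have h1 := hM hx
    rw [mem_closedBall_zero_iff, Real.norm_eq_abs] at h1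
    have h2 : |x / δ| ≤ M / δ := by
      rw [abs_div, abs_of_pos hδ]
      gcongr
    have h3 := abs_le.1 h2
    have h4 : ⌊x / δ⌋ ≤ n := by
      have h5 := Int.floor_le (x / δ)
      have h6 : (⌊x / δ⌋ : ℝ) ≤ ((n : ℤ) : ℝ) := by push_cast; linarith [h3.2]
      exact_mod_cast h6
    have h5 : -(n : ℤ) ≤ ⌊x / δ⌋ := by
      rw [Int.le_floor]
      push_cast
      linarith [h3.1]
    have h6 : x ∈ gI δ ⌊x / δ⌋ := (mem_gI hδ).2 rfl
    refine Set.mem_iUnion₂.2 ⟨⌊x / δ⌋, ?_, h6⟩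
    rw [hS, Finset.mem_filter, Finset.mem_Icc]
    exact ⟨⟨h5, h4⟩, x, hx, h6⟩
  have hdisj : ∀ i j : ℤ, i ≠ j → Disjoint (gI δ i) (gI δ j) := by
    intro i j hij
    rw [Set.disjoint_left]
    intro x h1 h2
    rw [mem_gI hδ] at h1 h2
    exact hij (h1.symm.trans h2)
  have hmeas : ∀ i : ℤ, MeasurableSet (gI δ i) := fun i => measurableSet_Ico
  have h1 : ν.real K ≤ ∑ i ∈ S, ν.real (gI δ i) :=
    (measureReal_mono hcov (measure_ne_top ν _)).trans (measureReal_biUnion_finset_le _ _)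
  have h2 : (∑ i ∈ S, ν.real (gI δ i)) ^ 2 ≤ S.card * ∑ i ∈ S, ν.real (gI δ i) ^ 2 :=
    sq_sum_le_card_mul_sum_sq
  have h3 : ∑ i ∈ S, ν.real (gI δ i) ^ 2 ≤ C * δ := by
    have h4 : ∑ i ∈ S, ν.real (gI δ i) ^ 2 = (ν.prod ν).real (⋃ i ∈ S, gI δ i ×ˢ gI δ i) := by
      rw [measureReal_biUnion_finset]
      · refine Finset.sum_congr rfl fun i _ => ?_
        rw [measureReal_prod_prod, sq]
      · intro i _ j _ hij
        exact Set.disjoint_prod.2 (Or.inl (hdisj i j hij))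
      · exact fun i _ => (hmeas i).prod (hmeas i)
    rw [h4]
    refine le_trans ?_ h
    refine measureReal_mono ?_
    intro x hx
    obtain ⟨i, _, hi⟩ := Set.mem_iUnion₂.1 hx
    have h5 := hi.1
    have h6 := hi.2
    rw [gI, Set.mem_Ico] at h5 h6
    rw [Set.mem_ofPred_eq, abs_le]
    constructor <;> linarith [h5.1, h5.2, h6.1, h6.2]
  have h4 : (S.card : ℝ) * δ ≤ volume.real (Metric.cthickening δ K) := by
    have h5 : (S.card : ℝ) * δ = volume.real (⋃ i ∈ S, gI δ i) := by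
      rw [measureReal_biUnion_finset (fun i _ j _ hij => hdisj i j hij) (fun i _ => hmeas i)
        (fun i _ => (by rw [gI]; exact measure_Ico_lt_top.ne))]
      have h6 : ∀ i ∈ S, volume.real (gI δ i) = δ := by
        intro i _
        rw [gI, Real.volume_real_Ico_of_le (by linarith)]
        ring
      rw [Finset.sum_congr rfl h6, Finset.sum_const, nsmul_eq_mul]
    rw [h5]
    refine measureReal_mono ?_ ?_
    · intro x hx
      obtain ⟨i, hi, hx⟩ := Set.mem_iUnion₂.1 hx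
      rw [hS, Finset.mem_filter] at hi
      obtain ⟨z, hz, hz'⟩ := hi.2
      refine Metric.mem_cthickening_of_dist_le x z δ K hz ?_
      rw [gI, Set.mem_Ico] at hx hz'
      rw [Real.dist_eq, abs_le]
      constructor <;> linarith [hx.1, hx.2, hz'.1, hz'.2]
    · exact hK.cthickening.measure_lt_top.ne
  have h5 : 0 ≤ ν.real K := measureReal_nonneg
  calc (ν.real K) ^ 2 ≤ (∑ i ∈ S, ν.real (gI δ i)) ^ 2 := pow_le_pow_left₀ h5 h1 2
    _ ≤ S.card * ∑ i ∈ S, ν.real (gI δ i) ^ 2 := h2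
    _ ≤ S.card * (C * δ) := by gcongr
    _ = C * (S.card * δ) := by ring
    _ ≤ C * volume.real (Metric.cthickening δ K) := by gcongr

theorem null_of_pd {ν : Measure ℝ} [IsProbabilityMeasure ν] {C : ℝ}
    (h : ∀ δ : ℝ, 0 < δ → δ ≤ 1 → PD ν δ ≤ C * δ) {N : Set ℝ} (hN : volume N = 0) : ν N = 0 := by
  have hC : 0 ≤ C := by
    have h1 := h 1 one_pos le_rfl
    have h2 : 0 ≤ PD ν 1 := ENNReal.toReal_nonneg
    linarith
  by_contra hcon
  have h1 : volume (toMeasurable volume N) = 0 := by rw [measure_toMeasurable]; exact hN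
  have h2 : 0 < ν (toMeasurable volume N) := by
    refine lt_of_lt_of_le (pos_iff_ne_zero.2 hcon) (measure_mono (subset_toMeasurable _ _))
  obtain ⟨K, hKN, hK, hK0⟩ := (measurableSet_toMeasurable volume N).exists_lt_isCompact_of_ne_top
    (measure_ne_top ν _) h2
  have hKv : volume K = 0 := measure_mono_null hKN h1
  have h3 : Filter.Tendsto (fun r : ℝ => volume (Metric.cthickening r K)) (nhds 0) (nhds 0) := by
    have h4 := tendsto_measure_cthickening_of_isCompact (μ := (volume : Measure ℝ)) hK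
    rwa [hKv] at h4
  have h4 : Filter.Tendsto (fun r : ℝ => C * volume.real (Metric.cthickening r K))
      (nhdsWithin 0 (Set.Ioi 0)) (nhds (C * 0)) := by
    have h5 := ((ENNReal.tendsto_toReal ENNReal.zero_ne_top).comp h3).mono_left
      (nhdsWithin_le_nhds (s := Set.Ioi (0 : ℝ)))
    exact h5.const_mul C
  have h5 : (ν.real K) ^ 2 ≤ C * 0 := by
    refine ge_of_tendsto h4 ?_
    have h6 : Set.Ioc (0 : ℝ) 1 ∈ nhdsWithin (0 : ℝ) (Set.Ioi 0) := Ioc_mem_nhdsGT one_pos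
    filter_upwards [h6] with δ hδ
    exact key hδ.1 (h δ hδ.1 hδ.2) hC hK
  have h6 : 0 < ν.real K := ENNReal.toReal_pos hK0.ne' (measure_ne_top _ _)
  nlinarith

end C4N
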