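import Mathlib
import Pool.Agent.Work.MP_c4bd3e_lc.N.MDefs
import Pool.Agent.Work.MP_c4bd3e_lc.N.CDefs
import Pool.Agent.Work.MP_c4bd3e_lc.N.FlawA
import Pool.Agent.Work.MP_c4bd3e_lc.N.FlawN
import Pool.Agent.Work.MP_c4bd3e_lc.N.DimOne
import Pool.Agent.Work.MP_c4bd3e_lc.N.Four2
import Pool.Agent.Work.MP_c4bd3e_lc.N.Four3
import Pool.Agent.Work.MP_c4bd3e_lc.N.FourI
import Pool.Agent.Work.MP_c4bd3e_lc.N.NullA

set_option autoImplicit false

/-!
# Module NoDim (done): a field of measure zero is not full for any law of positive dimension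
-/

namespace C4N

open MeasureTheory ProbabilityTheory

theorem no_dim {F : Subfield ℝ} (h0 : volume (F : Set ℝ) = 0) {μ : Measure ℝ} (h : FLaw F μ) {α : ℝ}
    (hα : 0 < α) (hd : Dm α μ) : False := by
  obtain ⟨ν, hν, hνd⟩ := dim_one h hα hd (d := 9 / 10) (by norm_num)
  obtain ⟨ν₁, h₁, h₁s, h₁d⟩ := flaw_norm hν
  have hd9 := h₁d (9 / 10) (by norm_num) hνd
  haveI := h₁.prob
  have hle : ∀ᵐ x ∂ν₁, |x| ≤ 1 := by
    have h2 : ∀ᵐ x ∂ν₁, x ∈ Set.Icc (1 / 2 : ℝ) 1 := by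
      rw [ae_iff]
      exact h₁s
    filter_upwards [h2] with x hx
    rw [abs_le]
    constructor <;> linarith [hx.1, hx.2]
  obtain ⟨C, hC, h4⟩ := four2 hle (by norm_num) (by norm_num) hd9
  have h7 : ∫⁻ t, ‖charFun (four ν₁) t‖ₑ ^ 2 < ⊤ := by
    refine four_int hC fun t ht => ?_
    have h5 := h4 t ht
    have h6 : (1 : ℝ) - 3 * (9 / 10) / 2 = -(7 : ℝ) / 20 := by norm_num
    rw [h6] at h5
    exact h5
  have hf := flaw_four h₁
  haveI := hf.prob
  obtain ⟨C', hC'⟩ := four3 (four ν₁) h7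
  have hnull : (four ν₁) (toMeasurable volume (F : Set ℝ)) = 0 :=
    null_of_pd (C := C') (fun δ h1 _ => hC' δ h1) (by rw [measure_toMeasurable]; exact h0)
  have hfull : (four ν₁) (toMeasurable volume (F : Set ℝ))ᶜ = 0 :=
    hf.full _ (measurableSet_toMeasurable _ _) (subset_toMeasurable _ _)
  have h8 : (four ν₁) Set.univ = 0 := by
    rw [← Set.union_compl_self (toMeasurable volume (F : Set ℝ))]
    exact measure_union_null hnull hfull
  rw [measure_univ] at h8
  exact one_ne_zero h8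

end C4N
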