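import Mathlib
import Pool.Agent.Work.MP_c4bd3e_lc.N.MDefs
import Pool.Agent.Work.MP_c4bd3e_lc.N.FullA

set_option autoImplicit false

/-!
# Module FullP (size S-M): `Full` for powers

Induction on `m`. `m = 0`: the set is everything. `m + 1`: `Measure.pi` on `Fin (m + 1)` is the image of
`μ.prod (Measure.pi ..)` under the inverse of `MeasurableEquiv.piFinSuccAbove (fun _ => Ω) 0`
(`measurePreserving_piFinSuccAbove`, `MeasurePreserving.symm`); use `Full.prod` and `Full.map`.
-/

namespace C4N

open MeasureTheory ProbabilityTheory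

theorem full_pi {Ω : Type} [MeasurableSpace Ω] {μ : Measure Ω} [IsProbabilityMeasure μ] {A : Set Ω}
    (hA : Full A μ) (m : ℕ) :
    Full {x : Fin m → Ω | ∀ i, x i ∈ A} (Measure.pi fun _ : Fin m => μ) := by
  induction m with
  | zero =>
    intro N _ hAN
    have h : Nᶜ = ∅ := by
      rw [Set.compl_empty_iff, Set.eq_univ_iff_forall]
      exact fun x => hAN fun i => i.elim0
    rw [h, measure_empty]
  | succ m ih =>
    have hp := (measurePreserving_piFinSuccAbove (fun _ : Fin (m + 1) => μ) 0).symm
    rw [← hp.map_eq]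
    refine Full.map (Full.prod hA ih) hp.measurable fun x hx i => ?_
    have h1 : (MeasurableEquiv.piFinSuccAbove (fun _ : Fin (m + 1) => Ω) 0).symm x =
        Fin.cons x.1 x.2 := by
      ext j
      refine Fin.cases ?_ (fun k => ?_) j
      · rfl
      · rfl
    rw [h1]
    refine Fin.cases ?_ (fun k => ?_) i
    · rw [Fin.cons_zero]
      exact hx.1
    · rw [Fin.cons_succ]
      exact hx.2 k

end C4N
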