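import Mathlib
import Pool.Agent.Work.MP_c4bd3e_lc.N.MDefs
import Pool.Agent.Work.MP_c4bd3e_lc.N.CDefs

set_option autoImplicit false

/-!
# Module CubeA (size M): the cube inequality (Gowers, box norms)

Induction on `m`, all probabilities in `ENNReal`. `m = 0`: both sides are 0 or 1 (the space has one point, `mix` is the
identity). `m + 1`: identify `Fin (m + 1) → Ω` with `Ω × (Fin m → Ω)` (`measurePreserving_piFinSuccAbove (fun _ => ρ) 0`,
`Fin.cons`). Put `S_a = {u | Fin.cons a u ∈ S}`, `S^u = {a | Fin.cons a u ∈ S}`. Then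
`P(S) ^ 2 = (∫⁻ u, ρ (S^u)) ^ 2 ≤ ∫⁻ u, ρ (S^u) ^ 2 = ∫⁻ (a, b), ρ^m (S_a ∩ S_b)`, and
`P(S) ^ (2 ^ (m + 1)) ≤ (∫⁻ (a, b), ρ^m (S_a ∩ S_b)) ^ (2 ^ m) ≤ ∫⁻ (a, b), ρ^m (S_a ∩ S_b) ^ (2 ^ m)`
`≤ ∫⁻ (a, b), (ρ^m.prod ρ^m) {(x, y) | ∀ ω, mix ω x y ∈ S_a ∩ S_b}` (induction hypothesis), which is the right side for `m + 1`
(`ω 0 = true` gives `a`, `ω 0 = false` gives `b`; a product of four measures rearranged:
`(ρ × ρ^m) × (ρ × ρ^m) ≃ (ρ × ρ) × (ρ^m × ρ^m)`; it may be easier to write both sides as iterated lower integrals).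
The power inequality for a probability measure (`(∫⁻ f) ^ k ≤ ∫⁻ f ^ k`) is `lintegral_pow_le` below (Hölder:
`ENNReal.lintegral_mul_le_Lp_mul_Lq` / `eLpNorm_le_eLpNorm_of_exponent_le`, or by squaring `m` times with Cauchy-Schwarz).
-/

namespace C4N

open MeasureTheory ProbabilityTheory

private theorem sq_le {Ω : Type*} [MeasurableSpace Ω] (μ : Measure Ω) [IsProbabilityMeasure μ]
    {f : Ω → ENNReal} (hf : AEMeasurable f μ) : (∫⁻ x, f x ∂μ) ^ 2 ≤ ∫⁻ x, f x ^ 2 ∂μ := by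
  have h := ENNReal.lintegral_mul_le_Lp_mul_Lq μ (p := 2) (q := 2)
    (Real.HolderConjugate.two_two) hf (aemeasurable_const (b := (1 : ENNReal)))
  simp only [Pi.mul_apply, mul_one, ENNReal.one_rpow, lintegral_const, measure_univ] at h
  have h2 : (∫⁻ x, f x ∂μ) ^ (2 : ℝ) ≤ ((∫⁻ x, f x ^ (2 : ℝ) ∂μ) ^ (1 / 2 : ℝ)) ^ (2 : ℝ) :=
    ENNReal.rpow_le_rpow h (by norm_num)
  rw [← ENNReal.rpow_mul] at h2
  norm_num at h2
  exact h2

theorem lintegral_pow_le {Ω : Type*} [MeasurableSpace Ω] (μ : Measure Ω) [IsProbabilityMeasure μ]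
    {f : Ω → ENNReal} (hf : AEMeasurable f μ) (m : ℕ) :
    (∫⁻ x, f x ∂μ) ^ (2 ^ m) ≤ ∫⁻ x, f x ^ (2 ^ m) ∂μ := by
  induction m with
  | zero => simp
  | succ m ih =>
    rw [pow_succ, pow_mul]
    calc ((∫⁻ x, f x ∂μ) ^ (2 ^ m)) ^ 2 ≤ (∫⁻ x, f x ^ (2 ^ m) ∂μ) ^ 2 := by gcongr
      _ ≤ ∫⁻ x, (f x ^ (2 ^ m)) ^ 2 ∂μ := sq_le μ (hf.pow_const _)
      _ = ∫⁻ x, f x ^ (2 ^ m * 2) ∂μ := by simp only [pow_mul]

private theorem rearr {A B : Type*} [MeasurableSpace A] [MeasurableSpace B] (μ : Measure A)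
    (ν : Measure B) [SFinite μ] [SFinite ν] {W : Set ((A × B) × (A × B))} (hW : MeasurableSet W) :
    ((μ.prod ν).prod (μ.prod ν)) W =
      ((μ.prod μ).prod (ν.prod ν))
        ((fun z : (A × A) × (B × B) => ((z.1.1, z.2.1), (z.1.2, z.2.2))) ⁻¹' W) := by
  have hmap : Measurable fun z : (A × A) × (B × B) => ((z.1.1, z.2.1), (z.1.2, z.2.2)) := by
    fun_prop
  set f : (A × B) × (A × B) → ENNReal := W.indicator 1 with hf
  have hfm : Measurable f := measurable_one.indicator hW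
  have h1 : ((μ.prod ν).prod (μ.prod ν)) W = ∫⁻ z, f z ∂((μ.prod ν).prod (μ.prod ν)) := by
    rw [hf, lintegral_indicator_one hW]
  have h2 : ((μ.prod μ).prod (ν.prod ν))
        ((fun z : (A × A) × (B × B) => ((z.1.1, z.2.1), (z.1.2, z.2.2))) ⁻¹' W) =
      ∫⁻ z, (f ∘ fun z : (A × A) × (B × B) => ((z.1.1, z.2.1), (z.1.2, z.2.2))) z
        ∂((μ.prod μ).prod (ν.prod ν)) := by
    rw [← lintegral_indicator_one (hmap hW)]
    rfl
  rw [h1, h2, lintegral_prod _ hfm.aemeasurable,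
    lintegral_prod _ (hfm.comp hmap).aemeasurable]
  rw [lintegral_prod _ (by
      exact (Measurable.lintegral_prod_right' (ν := μ.prod ν) hfm).aemeasurable),
    lintegral_prod _ (by
      exact (Measurable.lintegral_prod_right' (ν := ν.prod ν) (hfm.comp hmap)).aemeasurable)]
  refine lintegral_congr fun a => ?_
  have h3 : ∀ b, ∫⁻ y, f ((a, b), y) ∂(μ.prod ν) = ∫⁻ a', ∫⁻ b', f ((a, b), (a', b')) ∂ν ∂μ :=
    fun b => lintegral_prod _ (hfm.comp (by fun_prop)).aemeasurable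
  have h4 : ∀ a', ∫⁻ y, (f ∘ fun z : (A × A) × (B × B) => ((z.1.1, z.2.1), (z.1.2, z.2.2)))
      ((a, a'), y) ∂(ν.prod ν) = ∫⁻ b, ∫⁻ b', f ((a, b), (a', b')) ∂ν ∂ν :=
    fun a' => lintegral_prod _ (hfm.comp (by fun_prop)).aemeasurable
  simp only [h3]
  have h5 : ∫⁻ b, ∫⁻ a', ∫⁻ b', f ((a, b), (a', b')) ∂ν ∂μ ∂ν =
      ∫⁻ a', ∫⁻ b, ∫⁻ b', f ((a, b), (a', b')) ∂ν ∂ν ∂μ := by
    refine lintegral_lintegral_swap ?_
    have h6 : Measurable fun q : (B × A) × B => f ((a, q.1.1), (q.1.2, q.2)) :=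
      hfm.comp (by fun_prop)
    exact (Measurable.lintegral_prod_right' (ν := ν) h6).aemeasurable
  rw [h5]
  exact lintegral_congr fun a' => (h4 a').symm

private theorem cubeSet_meas {Ω : Type} [MeasurableSpace Ω] {m : ℕ} {S : Set (Fin m → Ω)}
    (hS : MeasurableSet S) :
    MeasurableSet {z : (Fin m → Ω) × (Fin m → Ω) | ∀ ω : Fin m → Bool, mix ω z.1 z.2 ∈ S} := by
  have h : {z : (Fin m → Ω) × (Fin m → Ω) | ∀ ω : Fin m → Bool, mix ω z.1 z.2 ∈ S} =
      ⋂ ω : Fin m → Bool, (fun z : (Fin m → Ω) × (Fin m → Ω) => mix ω z.1 z.2) ⁻¹' S := by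
    ext z
    simp
  rw [h]
  refine MeasurableSet.iInter fun ω => ?_
  have h2 : Measurable fun z : (Fin m → Ω) × (Fin m → Ω) => mix ω z.1 z.2 := by
    refine measurable_pi_iff.2 fun i => ?_
    unfold mix
    by_cases hi : ω i = true
    · simp only [hi, if_true]
      fun_prop
    · simp only [hi, Bool.false_eq_true, if_false]
      fun_prop
  exact h2 hS

theorem cube {Ω : Type} [MeasurableSpace Ω] (ρ : Measure Ω) [IsProbabilityMeasure ρ] (m : ℕ)
    {S : Set (Fin m → Ω)} (hS : MeasurableSet S) :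
    (Measure.pi (fun _ : Fin m => ρ) S) ^ (2 ^ m) ≤
      ((Measure.pi (fun _ : Fin m => ρ)).prod (Measure.pi (fun _ : Fin m => ρ)))
        {z : (Fin m → Ω) × (Fin m → Ω) | ∀ ω : Fin m → Bool, mix ω z.1 z.2 ∈ S} := by
  induction m with
  | zero =>
    have h : {z : (Fin 0 → Ω) × (Fin 0 → Ω) | ∀ ω : Fin 0 → Bool, mix ω z.1 z.2 ∈ S} =
        S ×ˢ Set.univ := by
      ext z
      simp only [Set.mem_ofPred_eq, Set.mem_prod, Set.mem_univ, and_true]
      constructor
      · intro h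
        have h1 := h (fun _ => true)
        rwa [Subsingleton.elim (mix (fun _ => true) z.1 z.2) z.1] at h1
      · intro h ω
        rwa [Subsingleton.elim (mix ω z.1 z.2) z.1]
    rw [h, Measure.prod_prod]
    simp
  | succ m ih =>
    set P := Measure.pi (fun _ : Fin m => ρ) with hP
    set e := MeasurableEquiv.piFinSuccAbove (fun _ : Fin (m + 1) => Ω) 0 with he
    have hpres : MeasurePreserving e.symm (ρ.prod P) (Measure.pi (fun _ : Fin (m + 1) => ρ)) :=
      (measurePreserving_piFinSuccAbove (fun _ : Fin (m + 1) => ρ) 0).symm e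
    have hcons : ∀ (a : Ω) (u : Fin m → Ω), e.symm (a, u) = Fin.cons a u := by
      intro a u
      rw [he]
      exact Fin.insertNth_zero' a u
    set T : Set (Ω × (Fin m → Ω)) := e.symm ⁻¹' S with hT
    have hTm : MeasurableSet T := e.symm.measurable hS
    have hmem : ∀ a u, (a, u) ∈ T ↔ (Fin.cons a u : Fin (m + 1) → Ω) ∈ S := by
      intro a u
      rw [hT, Set.mem_preimage, hcons]
    have h1 : Measure.pi (fun _ : Fin (m + 1) => ρ) S = (ρ.prod P) T := by
      rw [← hpres.measure_preimage hS.nullMeasurableSet]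
    -- the sections
    have hsec : ∀ a, MeasurableSet {u | (a, u) ∈ T} := fun a => measurable_prodMk_left hTm
    -- first step
    set U : Set ((Ω × Ω) × (Fin m → Ω)) := {z | (z.1.1, z.2) ∈ T ∧ (z.1.2, z.2) ∈ T} with hU
    have hUm : MeasurableSet U := by
      have hu1 : Measurable fun z : (Ω × Ω) × (Fin m → Ω) => (z.1.1, z.2) := by fun_prop
      have hu2 : Measurable fun z : (Ω × Ω) × (Fin m → Ω) => (z.1.2, z.2) := by fun_prop
      exact (hu1 hTm).inter (hu2 hTm)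
    have h2 : ((ρ.prod P) T) ^ 2 ≤ ((ρ.prod ρ).prod P) U := by
      rw [Measure.prod_apply_symm hTm, Measure.prod_apply_symm hUm]
      refine (sq_le P (measurable_measure_prodMk_right hTm).aemeasurable).trans (le_of_eq ?_)
      refine lintegral_congr fun u => ?_
      have h3 : (fun x => (x, u)) ⁻¹' U =
          ((fun x => (x, u)) ⁻¹' T) ×ˢ ((fun x => (x, u)) ⁻¹' T) := by
        ext z
        rfl
      rw [h3, Measure.prod_prod, sq]
    have h3 : (((ρ.prod ρ).prod P) U) ^ (2 ^ m) ≤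
        ∫⁻ z, (P (Prod.mk z ⁻¹' U)) ^ (2 ^ m) ∂(ρ.prod ρ) := by
      rw [Measure.prod_apply hUm]
      exact lintegral_pow_le _ (measurable_measure_prodMk_left hUm).aemeasurable m
    -- the big set
    set V : Set ((Ω × Ω) × ((Fin m → Ω) × (Fin m → Ω))) :=
      {z | ∀ ω : Fin m → Bool, (z.1, mix ω z.2.1 z.2.2) ∈ U} with hV
    have hVm : MeasurableSet V := by
      have h : V = ⋂ ω : Fin m → Bool,
          (fun z : (Ω × Ω) × ((Fin m → Ω) × (Fin m → Ω)) => (z.1, mix ω z.2.1 z.2.2)) ⁻¹' U := by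
        ext z
        simp [hV]
      rw [h]
      refine MeasurableSet.iInter fun ω => ?_
      have h2 : Measurable fun z : (Fin m → Ω) × (Fin m → Ω) => mix ω z.1 z.2 := by
        refine measurable_pi_iff.2 fun i => ?_
        unfold mix
        by_cases hi : ω i = true
        · simp only [hi, if_true]
          fun_prop
        · simp only [hi, Bool.false_eq_true, if_false]
          fun_prop
      exact (measurable_fst.prodMk (h2.comp measurable_snd)) hUm
    have h4 : ∫⁻ z, (P (Prod.mk z ⁻¹' U)) ^ (2 ^ m) ∂(ρ.prod ρ) ≤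
        ((ρ.prod ρ).prod (P.prod P)) V := by
      rw [Measure.prod_apply hVm]
      refine lintegral_mono fun z => ?_
      exact ih (measurable_prodMk_left hUm)
    -- the right side
    set W : Set ((Ω × (Fin m → Ω)) × (Ω × (Fin m → Ω))) :=
      {z | ∀ ω : Fin m → Bool, (z.1.1, mix ω z.1.2 z.2.2) ∈ T ∧ (z.2.1, mix ω z.1.2 z.2.2) ∈ T}
      with hW
    have hR : (Prod.map e.symm e.symm) ⁻¹' {z : (Fin (m + 1) → Ω) × (Fin (m + 1) → Ω) |
        ∀ ω : Fin (m + 1) → Bool, mix ω z.1 z.2 ∈ S} = W := by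
      ext ⟨⟨a, x⟩, ⟨b, y⟩⟩
      simp only [Set.mem_preimage, Set.mem_ofPred_eq, Prod.map_apply, hcons, hW, hmem]
      have key : ∀ (c : Bool) (ω : Fin m → Bool),
          mix (Fin.cons c ω : Fin (m + 1) → Bool) (Fin.cons a x : Fin (m + 1) → Ω) (Fin.cons b y) =
            Fin.cons (if c then a else b) (mix ω x y) := by
        intro c ω
        funext i
        refine Fin.cases ?_ (fun j => ?_) i
        · simp [mix]
        · simp [mix]
      constructor
      · intro h ω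
        have ht := h (Fin.cons true ω)
        have hf := h (Fin.cons false ω)
        rw [key] at ht hf
        exact ⟨by simpa using ht, by simpa using hf⟩
      · intro h ω
        have hω : ω = (Fin.cons (ω 0) (fun i => ω i.succ) : Fin (m + 1) → Bool) :=
          (Fin.cons_self_tail ω).symm
        rw [hω, key]
        cases ω 0
        · simpa using (h _).2
        · simpa using (h _).1
    have hWm : MeasurableSet W := by
      rw [← hR]
      exact (e.symm.measurable.prodMap e.symm.measurable) (cubeSet_meas hS)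
    have h5 : ((ρ.prod ρ).prod (P.prod P)) V = ((Measure.pi (fun _ : Fin (m + 1) => ρ)).prod
        (Measure.pi (fun _ : Fin (m + 1) => ρ))) {z : (Fin (m + 1) → Ω) × (Fin (m + 1) → Ω) |
          ∀ ω : Fin (m + 1) → Bool, mix ω z.1 z.2 ∈ S} := by
      rw [← (hpres.prod hpres).measure_preimage (cubeSet_meas hS).nullMeasurableSet, hR,
        rearr ρ P hWm]
      rfl
    calc (Measure.pi (fun _ : Fin (m + 1) => ρ) S) ^ (2 ^ (m + 1))
        = (((ρ.prod P) T) ^ 2) ^ (2 ^ m) := by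
          rw [h1, ← pow_mul, pow_succ, mul_comm (2 ^ m) 2]
      _ ≤ (((ρ.prod ρ).prod P) U) ^ (2 ^ m) := by gcongr
      _ ≤ _ := h3.trans (h4.trans h5.le)

end C4N
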