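import Mathlib
import Pool.Agent.Work.MP_c4bd3e_lc.N.MDefs

set_option autoImplicit false

/-!
# Module GramA (size S): nearly orthogonal vectors

Otherwise the Gram matrix `G i j = v i ⬝ᵥ v j` (`G = V * Vᵀ`, `V` of size `(k + 1) × k`) is strictly diagonally dominant:
`∑ j ≠ i, |G i j| ≤ k ε < G i i`, so `det G ≠ 0` (`det_ne_zero_of_sum_row_lt_diag`); but its rank is at most `k` (the
`k + 1` vectors `v i` in a space of dimension `k` are linearly dependent, `∑ c i • v i = 0` with `c ≠ 0` gives `G *ᵥ c = 0`).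
-/

namespace C4N

open MeasureTheory ProbabilityTheory

theorem gram {s : Type} [Fintype s] {k : ℕ} (hk : Fintype.card s = k) (v : Fin (k + 1) → s → ℝ)
    {ε : ℝ} (h : ∀ i j, i ≠ j → |v i ⬝ᵥ v j| ≤ ε) : ∃ i, v i ⬝ᵥ v i ≤ k * ε := by
  classical
  by_contra hcon
  push Not at hcon
  obtain ⟨V, hV⟩ : ∃ V : Matrix (Fin (k + 1)) s ℝ, V = Matrix.of v := ⟨_, rfl⟩
  have hG : ∀ i j, (V * V.transpose) i j = v i ⬝ᵥ v j := by
    intro i j
    rw [Matrix.mul_apply, dotProduct]
    refine Finset.sum_congr rfl fun a _ => ?_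
    rw [hV]
    rfl
  have hdet : (V * V.transpose).det ≠ 0 := by
    refine det_ne_zero_of_sum_row_lt_diag fun i => ?_
    have h1 : ∑ j ∈ Finset.univ.erase i, ‖(V * V.transpose) i j‖ ≤ k * ε := by
      have h2 : ∑ j ∈ Finset.univ.erase i, ‖(V * V.transpose) i j‖ ≤ ∑ j ∈ Finset.univ.erase i, ε := by
        refine Finset.sum_le_sum fun j hj => ?_
        rw [hG, Real.norm_eq_abs]
        exact h i j (Finset.ne_of_mem_erase hj).symm
      rw [Finset.sum_const, Finset.card_erase_of_mem (Finset.mem_univ i), Finset.card_univ,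
        Fintype.card_fin, Nat.add_sub_cancel, nsmul_eq_mul] at h2
      exact h2
    refine h1.trans_lt ?_
    rw [hG, Real.norm_eq_abs]
    exact (hcon i).trans_le (le_abs_self _)
  have h1 : IsUnit (V * V.transpose) := by
    rw [Matrix.isUnit_iff_isUnit_det]
    exact isUnit_iff_ne_zero.2 hdet
  have h2 := Matrix.rank_of_isUnit _ h1
  have h3 := Matrix.rank_mul_le_left V V.transpose
  have h4 := Matrix.rank_le_card_width V
  rw [Fintype.card_fin] at h2
  rw [hk] at h4
  omega

end C4N
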