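import Mathlib
import Pool.Agent.Work.MP_c4bd3e_lc.N.MDefs
import Pool.Agent.Work.MP_c4bd3e_lc.N.CDefs

set_option autoImplicit false

/-!
# Module HPoly (size S-M): second differences of `hh`

`hh` is a sum of bilinear terms. Fix `i ≠ j` and the four points `z₀₀ = x`, `z₁₀ = Function.update x i (y i)`,
`z₀₁ = Function.update x j (y j)`, `z₁₁` = both; they are `mix ω x y` for `ω = (fun l => decide (l ≠ i ..))` etc. Then
`hh z₀₀ - hh z₁₀ - hh z₀₁ + hh z₁₁ = (x i - y i) ⬝ᵥ (x j - y j)`: the terms `(a, b)`, `a < b`, of the sum cancel unless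
`{a, b} = {i, j}` (write `hh` as a function of the pair, check termwise with case distinctions, then `Finset.sum_eq_single`
twice). The four values are in `[a, a + δ]`, so the combination is in `[-2 δ, 2 δ]`.
-/

namespace C4N

open MeasureTheory ProbabilityTheory

private theorem dp_sum {s : Type} [Fintype s] {m : ℕ} (x y : Fin m → s → ℝ) :
    (∑ a, x a) ⬝ᵥ (∑ b, y b) = ∑ a, ∑ b, x a ⬝ᵥ y b := by
  rw [sum_dotProduct]
  exact Finset.sum_congr rfl fun a _ => dotProduct_sum _ _ _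

private theorem two_hh {s : Type} [Fintype s] {m : ℕ} (x : Fin m → s → ℝ) :
    2 * hh x = (∑ a, x a) ⬝ᵥ (∑ a, x a) - ∑ a, x a ⬝ᵥ x a := by
  rw [dp_sum]
  have h1 : hh x = ∑ i : Fin m, ∑ j : Fin m, if j < i then x i ⬝ᵥ x j else 0 := by
    unfold hh
    rw [Finset.sum_comm]
    refine Finset.sum_congr rfl fun i _ => Finset.sum_congr rfl fun j _ => ?_
    rw [dotProduct_comm]
  have h2 : ∑ a, x a ⬝ᵥ x a = ∑ i : Fin m, ∑ j : Fin m, if i = j then x i ⬝ᵥ x j else 0 := by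
    refine Finset.sum_congr rfl fun i _ => ?_
    rw [Finset.sum_ite_eq, if_pos (Finset.mem_univ _)]
  have h3 : ∑ a, ∑ b, x a ⬝ᵥ x b = hh x + hh x + ∑ a, x a ⬝ᵥ x a := by
    nth_rewrite 2 [h1]
    rw [h2]
    unfold hh
    rw [← Finset.sum_add_distrib, ← Finset.sum_add_distrib]
    refine Finset.sum_congr rfl fun i _ => ?_
    rw [← Finset.sum_add_distrib, ← Finset.sum_add_distrib]
    refine Finset.sum_congr rfl fun j _ => ?_
    rcases lt_trichotomy i j with h | h | h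
    · rw [if_pos h, if_neg (not_lt.2 h.le), if_neg h.ne]
      ring
    · subst h
      rw [if_neg (lt_irrefl _), if_pos rfl]
      ring
    · rw [if_neg (not_lt.2 h.le), if_pos h, if_neg h.ne']
      ring
  rw [h3]
  ring

private theorem sum_mix {s : Type} [Fintype s] {m : ℕ} (x y : Fin m → s → ℝ)
    (T : Finset (Fin m)) {β : Type} [AddCommGroup β] (f : (s → ℝ) → β) :
    ∑ a, f (mix (fun l => decide (l ∉ T)) x y a) = ∑ a, f (x a) - ∑ a ∈ T, (f (x a) - f (y a)) := by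
  rw [Finset.sum_sub_distrib, ← Finset.sum_add_sum_compl T (fun a => f (x a)),
    ← Finset.sum_add_sum_compl T (fun a => f (mix (fun l => decide (l ∉ T)) x y a))]
  have h1 : ∑ a ∈ T, f (mix (fun l => decide (l ∉ T)) x y a) = ∑ a ∈ T, f (y a) := by
    refine Finset.sum_congr rfl fun a ha => ?_
    unfold mix
    rw [if_neg (by simpa using ha)]
  have h2 : ∑ a ∈ Tᶜ, f (mix (fun l => decide (l ∉ T)) x y a) = ∑ a ∈ Tᶜ, f (x a) := by
    refine Finset.sum_congr rfl fun a ha => ?_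
    unfold mix
    rw [if_pos (by simpa using Finset.mem_compl.1 ha)]
  rw [h1, h2]
  abel

theorem hh_mix {s : Type} [Fintype s] {m : ℕ} (x y : Fin m → s → ℝ) {a δ : ℝ}
    (h : ∀ ω : Fin m → Bool, hh (mix ω x y) ∈ Set.Icc a (a + δ)) (i j : Fin m) (hij : i ≠ j) :
    |(x i - y i) ⬝ᵥ (x j - y j)| ≤ 2 * δ := by
  have key : ∀ T : Finset (Fin m), 2 * hh (mix (fun l => decide (l ∉ T)) x y) =
      (∑ a, x a - ∑ a ∈ T, (x a - y a)) ⬝ᵥ (∑ a, x a - ∑ a ∈ T, (x a - y a)) -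
        (∑ a, x a ⬝ᵥ x a - ∑ a ∈ T, (x a ⬝ᵥ x a - y a ⬝ᵥ y a)) := by
    intro T
    rw [two_hh]
    have h1 := sum_mix x y T (fun v => v)
    have h2 := sum_mix x y T (fun v => v ⬝ᵥ v)
    rw [h1, h2]
  have k0 := key ∅
  have k1 := key {i}
  have k2 := key {j}
  have k3 := key {i, j}
  rw [Finset.sum_empty, Finset.sum_empty, sub_zero, sub_zero] at k0
  rw [Finset.sum_singleton, Finset.sum_singleton] at k1 k2
  rw [Finset.sum_pair hij, Finset.sum_pair hij] at k3
  have h0 := h (fun l => decide (l ∉ (∅ : Finset (Fin m))))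
  have h1 := h (fun l => decide (l ∉ ({i} : Finset (Fin m))))
  have h2 := h (fun l => decide (l ∉ ({j} : Finset (Fin m))))
  have h3 := h (fun l => decide (l ∉ ({i, j} : Finset (Fin m))))
  generalize ∑ a, x a = S at k0 k1 k2 k3
  generalize ∑ a, x a ⬝ᵥ x a = q at k0 k1 k2 k3
  generalize hu : x i - y i = u at k1 k3 ⊢
  generalize hv : x j - y j = v at k2 k3 ⊢
  have h4 : hh (mix (fun l => decide (l ∉ (∅ : Finset (Fin m)))) x y) -
      hh (mix (fun l => decide (l ∉ ({i} : Finset (Fin m)))) x y) -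
      hh (mix (fun l => decide (l ∉ ({j} : Finset (Fin m)))) x y) +
      hh (mix (fun l => decide (l ∉ ({i, j} : Finset (Fin m)))) x y) = u ⬝ᵥ v := by
    have h5 : (S - (u + v)) ⬝ᵥ (S - (u + v)) = S ⬝ᵥ S - 2 * (S ⬝ᵥ u) - 2 * (S ⬝ᵥ v) +
        u ⬝ᵥ u + v ⬝ᵥ v + 2 * (u ⬝ᵥ v) := by
      simp only [sub_dotProduct, dotProduct_sub, add_dotProduct, dotProduct_add]
      rw [dotProduct_comm u S, dotProduct_comm v S, dotProduct_comm v u]
      ring
    have h6 : ∀ w : s → ℝ, (S - w) ⬝ᵥ (S - w) = S ⬝ᵥ S - 2 * (S ⬝ᵥ w) + w ⬝ᵥ w := by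
      intro w
      simp only [sub_dotProduct, dotProduct_sub]
      rw [dotProduct_comm w S]
      ring
    rw [h6] at k1 k2
    rw [h5] at k3
    linarith
  rw [← h4, abs_le]
  constructor <;> linarith [h0.1, h0.2, h1.1, h1.2, h2.1, h2.2, h3.1, h3.2]

end C4N
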