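import Mathlib
import Pool.Agent.Work.MP_c4bd3e_lc.N.MDefs
import Pool.Agent.Work.MP_c4bd3e_lc.N.CDefs
import Pool.Agent.Work.MP_c4bd3e_lc.N.CubeA
import Pool.Agent.Work.MP_c4bd3e_lc.N.GramA
import Pool.Agent.Work.MP_c4bd3e_lc.N.HPoly

set_option autoImplicit false

/-!
# Module HProb (size M): small values of `hh`

`cube` for `S = {x | hh x ∈ Icc a (a + δ)}` (measurable, `hh` is continuous). If `mix ω x y ∈ S` for all `ω`, then by `hh_mix` and
`gram` (vectors `x i - y i`, `ε = 2 δ`) there is `i` with `(x i - y i) ⬝ᵥ (x i - y i) ≤ 2 k δ`, so `|x i l - y i l| ≤ r` for all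
`l`, `r = √(2 (k + 1) δ) > 0`, i.e. `x i ∈ closedBall (y i) r`. For each `i` the event has probability
`(ρ.prod ρ) {z | z.1 ∈ closedBall z.2 r} ≤ ENNReal.ofReal (C r)` (the image of `pi.prod pi` under `(x, y) ↦ (x i, y i)` is
`ρ.prod ρ`: `measurePreserving_eval`, `MeasurePreserving.prod`; `Measure.prod_apply_symm`). Sum over the `k + 1` values of `i`.
-/

namespace C4N

open MeasureTheory ProbabilityTheory

theorem hh_prob {s : Type} [Fintype s] {k : ℕ} (hk : Fintype.card s = k) (ρ : Measure (s → ℝ))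
    [IsProbabilityMeasure ρ] {C : ℝ} (hC : 0 ≤ C)
    (hρ : ∀ (x : s → ℝ) (r : ℝ), 0 < r → ρ (Metric.closedBall x r) ≤ ENNReal.ofReal (C * r))
    {a δ : ℝ} (hδ : 0 < δ) :
    (Measure.pi (fun _ : Fin (k + 1) => ρ) {x | hh x ∈ Set.Icc a (a + δ)}) ^ (2 ^ (k + 1)) ≤
      ENNReal.ofReal (((k : ℝ) + 1) * (C * Real.sqrt (2 * ((k : ℝ) + 1) * δ))) := by
  classical
  set r : ℝ := Real.sqrt (2 * ((k : ℝ) + 1) * δ) with hr
  have hk0 : (0 : ℝ) ≤ (k : ℝ) := Nat.cast_nonneg k
  have hrad : 0 < 2 * ((k : ℝ) + 1) * δ := by positivity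
  have hr0 : 0 < r := Real.sqrt_pos.2 hrad
  have hr2 : r ^ 2 = 2 * ((k : ℝ) + 1) * δ := Real.sq_sqrt hrad.le
  have hcont : Continuous (fun x : Fin (k + 1) → s → ℝ => hh x) := by
    unfold hh
    refine continuous_finsetSum _ fun i _ => continuous_finsetSum _ fun j _ => ?_
    by_cases hij : i < j
    · simp only [hij, if_true]
      unfold dotProduct
      fun_prop
    · simp only [hij, if_false]
      exact continuous_const
  have hS : MeasurableSet {x : Fin (k + 1) → s → ℝ | hh x ∈ Set.Icc a (a + δ)} :=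
    (isClosed_Icc.preimage hcont).measurableSet
  set P := Measure.pi (fun _ : Fin (k + 1) => ρ) with hP
  have h1 := cube ρ (k + 1) hS
  refine h1.trans ?_
  set A : Fin (k + 1) → Set ((Fin (k + 1) → s → ℝ) × (Fin (k + 1) → s → ℝ)) :=
    fun i => {z | dist (z.1 i) (z.2 i) ≤ r} with hA
  have hsub : {z : (Fin (k + 1) → s → ℝ) × (Fin (k + 1) → s → ℝ) |
      ∀ ω : Fin (k + 1) → Bool, mix ω z.1 z.2 ∈ {x | hh x ∈ Set.Icc a (a + δ)}} ⊆ ⋃ i, A i := by
    intro z hz
    have hz' : ∀ ω : Fin (k + 1) → Bool, hh (mix ω z.1 z.2) ∈ Set.Icc a (a + δ) := fun ω => hz ω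
    obtain ⟨i, hi⟩ := gram hk (fun i => z.1 i - z.2 i) (ε := 2 * δ)
      (fun i j hij => hh_mix z.1 z.2 hz' i j hij)
    refine Set.mem_iUnion.2 ⟨i, ?_⟩
    show dist (z.1 i) (z.2 i) ≤ r
    refine (dist_pi_le_iff hr0.le).2 fun l => ?_
    rw [Real.dist_eq]
    refine Real.abs_le_sqrt ?_
    have hle : (z.1 i l - z.2 i l) ^ 2 ≤ (z.1 i - z.2 i) ⬝ᵥ (z.1 i - z.2 i) := by
      unfold dotProduct
      have := Finset.single_le_sum (f := fun l => (z.1 i - z.2 i) l * (z.1 i - z.2 i) l)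
        (fun l _ => mul_self_nonneg _) (Finset.mem_univ l)
      simpa [sq] using this
    have hi' : (z.1 i - z.2 i) ⬝ᵥ (z.1 i - z.2 i) ≤ k * (2 * δ) := hi
    nlinarith
  have hAm : ∀ i, MeasurableSet (A i) := by
    intro i
    refine IsClosed.measurableSet ?_
    exact isClosed_le (by fun_prop) continuous_const
  have hAle : ∀ i, (P.prod P) (A i) ≤ ENNReal.ofReal (C * r) := by
    intro i
    rw [Measure.prod_apply_symm (hAm i)]
    have hpt : ∀ y : Fin (k + 1) → s → ℝ, P ((fun x => (x, y)) ⁻¹' A i) ≤ ENNReal.ofReal (C * r) := by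
      intro y
      have he : ((fun x : Fin (k + 1) → s → ℝ => (x, y)) ⁻¹' A i) =
          (Function.eval i) ⁻¹' (Metric.closedBall (y i) r) := by
        ext x
        simp [hA, Metric.mem_closedBall]
      rw [he]
      have hmp := measurePreserving_eval (fun _ : Fin (k + 1) => ρ) i
      rw [hP, hmp.measure_preimage Metric.isClosed_closedBall.measurableSet.nullMeasurableSet]
      exact hρ _ _ hr0
    calc ∫⁻ y, P ((fun x => (x, y)) ⁻¹' A i) ∂P ≤ ∫⁻ _, ENNReal.ofReal (C * r) ∂P :=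
          lintegral_mono hpt
      _ = ENNReal.ofReal (C * r) := by simp
  calc (P.prod P) _ ≤ (P.prod P) (⋃ i, A i) := measure_mono hsub
    _ ≤ ∑ i, (P.prod P) (A i) := measure_iUnion_fintype_le _ _
    _ ≤ ∑ _i : Fin (k + 1), ENNReal.ofReal (C * r) := Finset.sum_le_sum fun i _ => hAle i
    _ = ENNReal.ofReal (((k : ℝ) + 1) * (C * r)) := by
        rw [Finset.sum_const, Finset.card_univ, Fintype.card_fin, nsmul_eq_mul,
          ENNReal.ofReal_mul (by positivity : (0 : ℝ) ≤ (k : ℝ) + 1)]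
        congr 1
        rw [show ((k : ℝ) + 1) = ((k + 1 : ℕ) : ℝ) by push_cast; ring, ENNReal.ofReal_natCast]

end C4N
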