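import Mathlib
import Pool.Agent.Work.MP_c4bd3e_lc.N.MDefs
import Pool.Agent.Work.MP_c4bd3e_lc.N.CDefs
import Pool.Agent.Work.MP_c4bd3e_lc.N.FullA
import Pool.Agent.Work.MP_c4bd3e_lc.N.FullP
import Pool.Agent.Work.MP_c4bd3e_lc.N.HProb

set_option autoImplicit false

/-!
# Module Scal (size M): from several coordinates to one

`k = card s`, `μ` = image of `Measure.pi (fun _ : Fin (k + 1) => ρ)` under `hh`. `FLaw`: `hh` is a polynomial (continuous) with
coefficients 1, so bounded (`|hh x| ≤ (k + 1) ^ 2 k M ^ 2` almost surely, `Measure.ae_pi..` / `ae_all_iff` and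
`measurePreserving_eval`) and with values in `F` on the points with coordinates in `F` (`full_pi`, `Full.map`). `Dm α μ` with
`α = 1 / 2 ^ (k + 2)`: by `hh_prob` `μ (Icc a (a + δ)) ≤ C' δ ^ α` with `C' = ((k + 1) C √(2 (k + 1))) ^ (1 / 2 ^ (k + 1))`, and
`PD μ δ = ∫ μ (Icc (z - δ) (z + δ)) dμ(z) ≤ C' (2 δ) ^ α`.
-/

namespace C4N

open MeasureTheory ProbabilityTheory

private theorem hh_cont {m : ℕ} {s : Type} [Fintype s] :
    Continuous (fun x : Fin m → s → ℝ => hh x) := by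
  unfold hh
  refine continuous_finsetSum _ fun i _ => continuous_finsetSum _ fun j _ => ?_
  by_cases hij : i < j
  · simp only [hij, if_true, dotProduct]
    fun_prop
  · simp only [hij, if_false]
    fun_prop

theorem scalar {F : Subfield ℝ} {s : Type} [Fintype s] (ρ : Measure (s → ℝ)) [IsProbabilityMeasure ρ]
    {C : ℝ} (hC : 0 ≤ C)
    (hρ : ∀ (x : s → ℝ) (r : ℝ), 0 < r → ρ (Metric.closedBall x r) ≤ ENNReal.ofReal (C * r))
    {M : ℝ} (hM : ∀ᵐ x ∂ρ, ∀ j, |x j| ≤ M) (hF : Full {x : s → ℝ | ∀ j, x j ∈ F} ρ) :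
    ∃ μ : Measure ℝ, FLaw F μ ∧ ∃ α : ℝ, 0 < α ∧ Dm α μ := by
  classical
  obtain ⟨k, hk⟩ : ∃ k, Fintype.card s = k := ⟨_, rfl⟩
  set P := Measure.pi (fun _ : Fin (k + 1) => ρ) with hP
  have hhm : Measurable (fun x : Fin (k + 1) → s → ℝ => hh x) := hh_cont.measurable
  have hprob : IsProbabilityMeasure (P.map fun x => hh x) :=
    Measure.isProbabilityMeasure_map hhm.aemeasurable
  refine ⟨P.map fun x => hh x, ⟨hprob, ?_, ?_⟩, 1 / 2 ^ (k + 2), by positivity, ?_⟩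
  · -- bounded
    have hcomp : IsCompact (Set.pi Set.univ fun _ : Fin (k + 1) =>
        Set.pi Set.univ fun _ : s => Set.Icc (-M) M) :=
      isCompact_univ_pi fun _ => isCompact_univ_pi fun _ => isCompact_Icc
    obtain ⟨B, hB⟩ := hcomp.exists_bound_of_continuousOn
      (f := fun x : Fin (k + 1) → s → ℝ => hh x) hh_cont.continuousOn
    refine ⟨B, ?_⟩
    rw [ae_map_iff hhm.aemeasurable
      (measurableSet_le (continuous_abs.measurable) measurable_const)]
    have h1 : ∀ i : Fin (k + 1), ∀ᵐ x ∂P, ∀ j, |x i j| ≤ M := fun i =>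
      (measurePreserving_eval (fun _ : Fin (k + 1) => ρ) i).quasiMeasurePreserving.ae hM
    have h2 : ∀ᵐ x ∂P, ∀ i : Fin (k + 1), ∀ j, |x i j| ≤ M := ae_all_iff.2 h1
    filter_upwards [h2] with x hx
    have h3 := hB x (by
      intro i _ j _
      exact abs_le.1 (hx i j))
    rwa [Real.norm_eq_abs] at h3
  · -- full
    refine Full.map (full_pi hF (k + 1)) hhm ?_
    intro x hx
    unfold hh
    refine sum_mem fun i _ => sum_mem fun j _ => ?_
    by_cases hij : i < j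
    · simp only [hij, if_true, dotProduct]
      exact sum_mem fun l _ => mul_mem (hx i l) (hx j l)
    · simp only [hij, if_false]
      exact zero_mem F
  · -- dimension
    set Y₀ : ℝ := ((k : ℝ) + 1) * (C * Real.sqrt (2 * ((k : ℝ) + 1))) with hY₀
    have hY₀0 : 0 ≤ Y₀ := by positivity
    have hint : ∀ (a δ : ℝ), 0 < δ → (P.map fun x => hh x) (Set.Icc a (a + δ)) ≤
        ENNReal.ofReal (Y₀ ^ (1 / 2 ^ (k + 1) : ℝ) * δ ^ (1 / 2 ^ (k + 2) : ℝ)) := by
      intro a δ hδ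
      rw [Measure.map_apply hhm measurableSet_Icc]
      have h1 := hh_prob hk ρ hC hρ (a := a) hδ
      have h2 : ((k : ℝ) + 1) * (C * Real.sqrt (2 * ((k : ℝ) + 1) * δ)) = Y₀ * Real.sqrt δ := by
        rw [Real.sqrt_mul (by positivity) δ, hY₀]
        ring
      rw [h2] at h1
      have h3 : ENNReal.ofReal (Y₀ ^ (1 / 2 ^ (k + 1) : ℝ) * δ ^ (1 / 2 ^ (k + 2) : ℝ)) ^
          (2 ^ (k + 1)) = ENNReal.ofReal (Y₀ * Real.sqrt δ) := by
        rw [← ENNReal.ofReal_pow (by positivity), mul_pow, ← Real.rpow_mul_natCast hY₀0,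
          ← Real.rpow_mul_natCast hδ.le]
        congr 2
        · have : (1 / 2 ^ (k + 1) : ℝ) * ((2 ^ (k + 1) : ℕ) : ℝ) = 1 := by
            push_cast
            field_simp
          rw [this, Real.rpow_one]
        · have : (1 / 2 ^ (k + 2) : ℝ) * ((2 ^ (k + 1) : ℕ) : ℝ) = 1 / 2 := by
            push_cast
            rw [pow_succ (2 : ℝ) (k + 1)]
            field_simp
          rw [this, Real.sqrt_eq_rpow]
      rw [← h3] at h1
      exact (ENNReal.pow_le_pow_left_iff (by positivity)).1 h1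
    refine ⟨Y₀ ^ (1 / 2 ^ (k + 1) : ℝ) * 2 ^ (1 / 2 ^ (k + 2) : ℝ), fun δ hδ _ => ?_⟩
    have hset : MeasurableSet {x : ℝ × ℝ | |x.1 - x.2| ≤ δ} :=
      measurableSet_le (by fun_prop) measurable_const
    refine ENNReal.toReal_le_of_le_ofReal (by positivity) ?_
    rw [Measure.prod_apply hset]
    have h1 : ∀ x : ℝ, (P.map fun x => hh x) (Prod.mk x ⁻¹' {x : ℝ × ℝ | |x.1 - x.2| ≤ δ}) ≤
        ENNReal.ofReal (Y₀ ^ (1 / 2 ^ (k + 1) : ℝ) * 2 ^ (1 / 2 ^ (k + 2) : ℝ) *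
          δ ^ (1 / 2 ^ (k + 2) : ℝ)) := by
      intro x
      have h2 : Prod.mk x ⁻¹' {x : ℝ × ℝ | |x.1 - x.2| ≤ δ} ⊆ Set.Icc (x - δ) (x - δ + 2 * δ) := by
        intro y hy
        have h3 : |x - y| ≤ δ := hy
        rw [abs_le] at h3
        constructor <;> linarith [h3.1, h3.2]
      refine (measure_mono h2).trans ((hint (x - δ) (2 * δ) (by positivity)).trans ?_)
      rw [Real.mul_rpow (by norm_num) hδ.le, mul_assoc]
    calc ∫⁻ x, (P.map fun x => hh x) (Prod.mk x ⁻¹' {x : ℝ × ℝ | |x.1 - x.2| ≤ δ})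
          ∂(P.map fun x => hh x)
        ≤ ∫⁻ _, ENNReal.ofReal (Y₀ ^ (1 / 2 ^ (k + 1) : ℝ) * 2 ^ (1 / 2 ^ (k + 2) : ℝ) *
          δ ^ (1 / 2 ^ (k + 2) : ℝ)) ∂(P.map fun x => hh x) := lintegral_mono h1
      _ = _ := by rw [lintegral_const, measure_univ, mul_one]

end C4N
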