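import Mathlib
import Pool.Agent.Work.MP_c4bd3e_lc.N.MDefs
import Pool.Agent.Work.MP_c4bd3e_lc.N.CDefs
import Pool.Agent.Work.MP_c4bd3e_lc.N.Scal
import Pool.Agent.Work.MP_c4bd3e_lc.N.ExtP
import Pool.Agent.Work.MP_c4bd3e_lc.N.ExtR
import Pool.Agent.Work.MP_c4bd3e_lc.N.NoDim

set_option autoImplicit false

/-!
# Module NoExt (done): a subfield of `ℝ` of measure zero and of countable codegree gives countably many sets to which
Lebesgue measure has no countably additive extension.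
-/

namespace C4N

open MeasureTheory

theorem no_ext_aux {Ω ι : Type} [MeasurableSpace Ω] [Countable ι] {F : Subfield ℝ}
    (h0 : volume (F : Set ℝ) = 0) {μ : Measure Ω} {φ : Ω → ℝ} {c : ι → Ω → ℝ} {b : ι → ℝ}
    (hφ : Measurable φ) (hc : ∀ j, Measurable (c j))
    (hμ : ∀ B : Set ℝ, MeasurableSet B → μ (φ ⁻¹' B) = volume B) (hF : ∀ j ω, c j ω ∈ F)
    (hfin : ∀ ω, {j | c j ω ≠ 0}.Finite)
    (hsum : ∀ (ω : Ω) (s : Finset ι), (∀ j, j ∉ s → c j ω = 0) → φ ω = ∑ j ∈ s, c j ω * b j) :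
    False := by
  have h1 : μ (φ ⁻¹' Set.Icc 0 1) ≠ 0 := by
    rw [hμ _ measurableSet_Icc, Real.volume_Icc]
    simp
  obtain ⟨s, M, hm, hpos⟩ := exists_piece hφ hc h1 hfin
  obtain ⟨ρ, hρ, ⟨C, hC, hball⟩, hM, hfull⟩ :=
    exists_law hφ hc hμ hF (fun ω hω => hsum ω s hω) hm hpos
  obtain ⟨ν, hν, α, hα, hd⟩ := scalar ρ hC hball hM hfull
  exact no_dim h0 hν hα hd

theorem no_ext (F : Subfield ℝ) (_hF : F ≠ ⊤) (hr : Module.rank F ℝ ≤ Cardinal.aleph0)
    (h0 : volume (F : Set ℝ) = 0) : ∃ A : ℕ → Set ℝ, ¬ Extends A := by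
  classical
  set b := Module.Basis.ofVectorSpace F ℝ with hb
  have hcard : Cardinal.mk (Module.Basis.ofVectorSpaceIndex F ℝ) ≤ Cardinal.aleph0 := by
    rw [b.mk_eq_rank'']
    exact hr
  haveI : Countable (Module.Basis.ofVectorSpaceIndex F ℝ) := Cardinal.mk_le_aleph0_iff.1 hcard
  haveI : Nonempty (Module.Basis.ofVectorSpaceIndex F ℝ) := b.index_nonempty
  obtain ⟨f, hf⟩ := exists_surjective_nat (Module.Basis.ofVectorSpaceIndex F ℝ × ℚ)
  refine ⟨fun n => {r : ℝ | ((b.repr r (f n).1 : F) : ℝ) < ((f n).2 : ℝ)}, ?_⟩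
  have hB : Real.measurableSpace = borel ℝ := BorelSpace.measurable_eq
  have hG : Real.measurableSpace =
      MeasurableSpace.generateFrom (⋃ a : ℚ, {Set.Iio (a : ℝ)}) := by
    rw [hB]
    exact Real.borel_eq_generateFrom_Iio_rat
  rintro ⟨m, μ, hm, hA, hμ⟩
  have hφ : @Measurable ℝ ℝ m Real.measurableSpace (id : ℝ → ℝ) := by
    intro B hB'
    rw [hB] at hB'
    exact hm B hB'
  have hc : ∀ j : Module.Basis.ofVectorSpaceIndex F ℝ,
      @Measurable ℝ ℝ m Real.measurableSpace (fun r : ℝ => ((b.repr r j : F) : ℝ)) := by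
    intro j
    have h2 : @Measurable ℝ ℝ m (MeasurableSpace.generateFrom (⋃ a : ℚ, {Set.Iio (a : ℝ)}))
        (fun r : ℝ => ((b.repr r j : F) : ℝ)) := by
      refine @measurable_generateFrom ℝ ℝ m _ _ ?_
      intro t ht
      rw [Set.mem_iUnion] at ht
      obtain ⟨q, hq⟩ := ht
      rw [Set.mem_singleton_iff] at hq
      obtain ⟨n, hn⟩ := hf (j, q)
      have h3 : MeasurableSet[m] {r : ℝ | ((b.repr r (f n).1 : F) : ℝ) < ((f n).2 : ℝ)} := hA n
      rw [hn] at h3
      rw [hq]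
      exact h3
    rw [← hG] at h2
    exact h2
  refine @no_ext_aux ℝ (Module.Basis.ofVectorSpaceIndex F ℝ) m _ F h0 μ id
    (fun j r => ((b.repr r j : F) : ℝ)) (fun j => b j) hφ hc ?_ ?_ ?_ ?_
  · intro B hB'
    rw [hB] at hB'
    rw [Set.preimage_id]
    exact hμ B hB'
  · intro j r
    exact (b.repr r j).2
  · intro r
    refine (b.repr r).support.finite_toSet.subset ?_
    intro j hj
    rw [Finset.mem_coe, Finsupp.mem_support_iff]
    intro h1
    exact hj (by rw [h1]; rfl)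
  · intro r s hs
    have h1 : (b.repr r).support ⊆ s := by
      intro j hj
      by_contra h2
      rw [Finsupp.mem_support_iff] at hj
      exact hj (Subtype.ext (hs j h2))
    have h2 : r = ∑ j ∈ s, (b.repr r j) • b j := by
      conv_lhs => rw [← b.linearCombination_repr r]
      rw [Finsupp.linearCombination_apply]
      exact Finsupp.sum_of_support_subset _ h1 _ (fun i _ => zero_smul _ _)
    exact h2

end C4N
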